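/-
MP_95f258_pr (three-colour Poisson stable matching), Q2 in every dimension: definitions.
Paper: /team-store/MP_95f258_pr_paper67.md (helper67).  The Poisson process on the line is in Lib/SM3 (helper41).
-/
import Pool.Agent.Lib.SM3.EDefs

set_option autoImplicit false

open MeasureTheory Set

namespace Pool.SM3X

/-- coloured points -/
abbrev CP (X : Type) : Type := X × Fin 3

/-! ### Deterministic part, in a metric space -/

section det

variable {X : Type} [MetricSpace X]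

/-- the recursion for the greedy matching, with fuel -/
def MtN (Y : Set (CP X)) : ℕ → CP X → CP X → Prop
  | 0, _, _ => False
  | n + 1, x, y => x ∈ Y ∧ y ∈ Y ∧ x.2 ≠ y.2 ∧
      (∀ z, dist x.1 z.1 < dist x.1 y.1 → ¬ MtN Y n x z) ∧
      (∀ z, dist y.1 z.1 < dist x.1 y.1 → ¬ MtN Y n y z)

/-- `Mt Y x y`: the points `x` and `y` of the (finite) coloured set `Y` are matched to each other. -/
def Mt (Y : Set (CP X)) (x y : CP X) : Prop := ∃ N, ∀ n, N ≤ n → MtN Y n x y

/-- the recursion which characterises stable matchings, for pairs of length `< r` -/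
def Rec (Y : Set (CP X)) (r : ℝ) (M : CP X → CP X → Prop) : Prop :=
  ∀ x y : CP X, dist x.1 y.1 < r → (M x y ↔ (x ∈ Y ∧ y ∈ Y ∧ x.2 ≠ y.2 ∧
      (∀ z, dist x.1 z.1 < dist x.1 y.1 → ¬ M x z) ∧
      (∀ z, dist y.1 z.1 < dist x.1 y.1 → ¬ M y z)))

/-- `x` has no partner at distance `< r` -/
def Fr (Y : Set (CP X)) (r : ℝ) (x : CP X) : Prop := ∀ y, Mt Y x y → r ≤ dist x.1 y.1

/-- no isosceles triples (in particular all positions are distinct) -/
def NoIso (Y : Set (CP X)) : Prop :=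
  ∀ x ∈ Y, ∀ y ∈ Y, ∀ z ∈ Y, dist x.1 y.1 = dist x.1 z.1 → y = z

/-- aliveness of the additional point `a` at level `r`, with fuel: the recursion with removal of points -/
def AlN : ℕ → Set (CP X) → CP X → ℝ → Prop
  | 0, _, _, _ => True
  | n + 1, Y, a, r => ∀ y ∈ Y, y.2 ≠ a.2 → dist a.1 y.1 < r →
      ¬ AlN n (Y \ {y}) y (dist a.1 y.1)

/-- aliveness of the additional point `a` at level `r` (for finite `Y`) -/
def Al (Y : Set (CP X)) (a : CP X) (r : ℝ) : Prop := ∃ N, ∀ n, N ≤ n → AlN n Y a r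

/-- descending chains without repetition: `Rch k Y a s u τ Q`: there is a chain `y₁, ..., y_k` of distinct points of `Y` with
`s > |a - y₁| > |y₁ - y₂| > ...`; `u` is its last position, `τ` its last distance (`u = a`, `τ = s` for `k = 0`) and `Q` is the set of the
points of `Y` which are not in the chain. -/
def Rch : ℕ → Set (CP X) → X → ℝ → X → ℝ → Set (CP X) → Prop
  | 0, Y, a, s, u, τ, Q => u = a ∧ τ = s ∧ Q = Y
  | k + 1, Y, a, s, u, τ, Q => ∃ y ∈ Y, dist a y.1 < s ∧ Rch k (Y \ {y}) y.1 (dist a y.1) u τ Q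

/-- no chain of length `n` -/
def NoCh (n : ℕ) (Y : Set (CP X)) (a : X) (s : ℝ) : Prop := ∀ u τ Q, ¬ Rch n Y a s u τ Q

/-- the explored region -/
def Ex (Y : Set (CP X)) (a : X) (s : ℝ) : Set X :=
  {z | ∃ k u τ Q, Rch k Y a s u τ Q ∧ dist z u < τ}

/-- the matching of an infinite set -/
def MSX (Y : Set (CP X)) (x y : CP X) : Prop :=
  ∃ F₀ : Set (CP X), F₀.Finite ∧ F₀ ⊆ Y ∧ ∀ F : Set (CP X), F.Finite → F₀ ⊆ F → F ⊆ Y → Mt F x y

/-- typical configurations -/
structure GoodX (Y : Set (CP X)) : Prop where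
  noIso : NoIso Y
  fin : ∀ (a : X) (R : ℝ), (Y ∩ {y | dist a y.1 < R}).Finite
  chain : ∀ x ∈ Y, ∀ s : ℝ, ∃ n, NoCh n (Y \ {x}) x.1 s

/-- stable matchings of three sets, as in the frozen statement -/
def StableX (T : Fin 3 → Set X) (M : X → X → Prop) : Prop :=
  (∀ x y, M x y → M y x) ∧
  (∀ x y, M x y → x ≠ y ∧ ∃ i j : Fin 3, i ≠ j ∧ x ∈ T i ∧ y ∈ T j) ∧
  (∀ x y z, M x y → M x z → y = z) ∧
  (∀ x y, x ≠ y → (∃ i j : Fin 3, i ≠ j ∧ x ∈ T i ∧ y ∈ T j) →
    ¬ ((∀ z, M x z → dist x y < dist x z) ∧ (∀ z, M y z → dist x y < dist y z)))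

/-- the property `Q` depends only on the points with positions in `B` -/
def Loc (Q : Set (CP X) → Prop) (B : Set X) : Prop :=
  ∀ Y Y' : Set (CP X), (∀ y : CP X, y.1 ∈ B → (y ∈ Y ↔ y ∈ Y')) → (Q Y ↔ Q Y')

end det

/-! ### Euclidean space and the Poisson process -/

/-- Euclidean space -/
abbrev XX (d : ℕ) : Type := EuclideanSpace ℝ (Fin d)

/-- the hypotheses of the frozen statement: three independent Poisson processes in `ℝ^d` -/
structure HypX {d : ℕ} (p : Fin 3 → ℝ) {Ω : Type} [MeasurableSpace Ω] (P : Measure Ω)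
    (S : Fin 3 → Ω → Set (XX d)) : Prop where
  fin : ∀ (i : Fin 3) (ω : Ω) (A : Set (XX d)), Bornology.IsBounded A → (S i ω ∩ A).Finite
  meas : ∀ (i : Fin 3) (A : Set (XX d)), MeasurableSet A → Bornology.IsBounded A →
    Measurable (fun ω => (S i ω ∩ A).ncard)
  law : ∀ (i : Fin 3) (A : Set (XX d)), MeasurableSet A → Bornology.IsBounded A → ∀ k : ℕ,
    P {ω | (S i ω ∩ A).ncard = k} =
      ENNReal.ofReal (Real.exp (-(p i * (volume A).toReal)) *
        (p i * (volume A).toReal) ^ k / (k.factorial : ℝ))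
  ind : ∀ (n : ℕ) (c : Fin n → Fin 3) (A : Fin n → Set (XX d)),
    (∀ j, MeasurableSet (A j) ∧ Bornology.IsBounded (A j)) →
    (∀ j k, j ≠ k → c j = c k → Disjoint (A j) (A k)) →
    ProbabilityTheory.iIndepFun (fun j ω => (S (c j) ω ∩ A j).ncard) P

/-- the coloured point set -/
def SX {d : ℕ} {Ω : Type} (S : Fin 3 → Ω → Set (XX d)) (ω : Ω) : Set (CP (XX d)) :=
  {y | y.1 ∈ S y.2 ω}

/-- translation of a coloured set by `-w` -/
def shX {d : ℕ} (w : XX d) (Y : Set (CP (XX d))) : Set (CP (XX d)) := {y | (y.1 + w, y.2) ∈ Y}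

/-- the transport of `ℝ^d` to the line: an injection `φ` which preserves the volume and maps dyadic cubes to dyadic intervals, with a left
inverse `ψ` -/
structure PhiM (d : ℕ) where
  φ : XX d → ℝ
  ψ : ℝ → XX d
  hφ : Measurable φ
  hψ : Measurable ψ
  left : ∀ x, ψ (φ x) = x
  vol : Measure.map φ volume = volume
  bdd : ∀ A : Set ℝ, Bornology.IsBounded A → Bornology.IsBounded (φ ⁻¹' A)
  bdd' : ∀ B : Set (XX d), Bornology.IsBounded B → Bornology.IsBounded (φ '' B)
  small : ∀ (n : ℕ) (x y : XX d), ⌊(2 : ℝ) ^ (d * n) * φ x⌋ = ⌊(2 : ℝ) ^ (d * n) * φ y⌋ →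
    dist x y ≤ Real.sqrt d / 2 ^ n

/-- the coloured set of a list of coloured points of the line -/
def GX {d : ℕ} (Φ : PhiM d) (l : List SM3.Pt) : Set (CP (XX d)) := {y | (Φ.φ y.1, y.2) ∈ l}

/-- the sum over all points `y` of the list of `G y (the other points)` -/
noncomputable def xsum {d : ℕ} (Φ : PhiM d) (G : CP (XX d) → List SM3.Pt → ENNReal)
    (l : List SM3.Pt) : ENNReal :=
  SM3.splitSum (fun l₁ y l₂ => G (Φ.ψ y.1, y.2) (l₁ ++ l₂)) l

/-- the sum over all chains of length `k` from `(a,s)` of `F u τ (the other points)` -/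
noncomputable def Cnt {d : ℕ} (Φ : PhiM d) : ℕ → XX d → ℝ →
    (XX d → ℝ → List SM3.Pt → ENNReal) → List SM3.Pt → ENNReal
  | 0, a, s, F, l => F a s l
  | k + 1, a, s, F, l =>
      xsum Φ (fun y q => SM3.ind (dist a y.1 < s) * Cnt Φ k y.1 (dist a y.1) F q) l

/-- volume of a ball of radius `s` -/
noncomputable def vB (d : ℕ) (s : ℝ) : ENNReal := volume (Metric.ball (0 : XX d) s)

/-- volume of a ball of radius `s`, as a real number -/
noncomputable def VR (d : ℕ) (s : ℝ) : ℝ := (vB d s).toReal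

/-- measurable families of coloured sets (used for locally finite sets) -/
def MFam {d : ℕ} {Θ : Type} [MeasurableSpace Θ] (Y : Θ → Set (CP (XX d))) : Prop :=
  ∀ (Θ' : Type) [MeasurableSpace Θ'] (π : Θ' → Θ) (Q : Set (Θ' × CP (XX d))), Measurable π →
    MeasurableSet Q → MeasurableSet {q | ∃ z ∈ Y (π q), (q, z) ∈ Q}

/-- probability that the additional point `(a,c)` is alive at level `r`, in the window `(-T,T)` -/
noncomputable def fT {d : ℕ} (Φ : PhiM d) (p : Fin 3 → ℝ) (T : ℝ) (c : Fin 3) (a : XX d)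
    (r : ℝ) : ℝ :=
  (SM3.Pm p (-T) T).real {l | Al (GX Φ l) (a, c) r}

/-- probability that the two additional points `(a,c)` and `(b,c')` are matched to each other -/
noncomputable def gT {d : ℕ} (Φ : PhiM d) (p : Fin 3 → ℝ) (T : ℝ) (c c' : Fin 3)
    (a b : XX d) : ℝ :=
  (SM3.Pm p (-T) T).real {l | Mt (insert (a, c) (insert (b, c') (GX Φ l))) (a, c) (b, c')}

/-- the bound for the correlation -/
noncomputable def eta (d : ℕ) (v : ℝ) : ℝ :=
  (9 / 10) ^ d * (3 * v + 6 * v ^ 2 * Real.exp v + 4 * v ^ 2 * Real.exp (2 * v))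

end Pool.SM3X
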