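/-
SM3X.C1 : sums over points and chains of a list: measurability and lower bounds.
PROOF. `GX_finite`: `GX Φ l` is the preimage of the finite set of the members of `l` under the injective map `y ↦ (Φ.φ y.1, y.2)` (`Φ.left`).
`measurable_xsum`: `SM3.measurable_splitSum` (A2) with `Ψ θ l₁ y l₂ = G θ (Φ.ψ y.1, y.2) (l₁ ++ l₂)` (`Φ.hψ`, `SM3.measurable_append`).
`measurable_Cnt`: induction on `k`, for all parameter spaces; `Cnt (k+1)` is an `xsum` with parameter `(θ, a, s)`; `SM3.measurable_ind` for the indicator of `dist a y.1 < s`.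
`le_xsum`: `(Φ.φ z.1, z.2) ∈ l`, so `l = l₁ ++ (Φ.φ z.1, z.2) :: l₂` (List.append_of_mem / List.mem_iff_append), `q = l₁ ++ l₂`; `SM3.le_splitSum` (E16) and `Φ.left`; `q` has no duplicates, and `(Φ.φ z.1, z.2) ∉ q`;
`GX Φ q = GX Φ l \ {z}` because `y ↦ (Φ.φ y.1, y.2)` is injective.
`xsum_eq`: more generally for `l = l₀ ++ l₁` with distinct members: `SM3.splitSum (fun l' y l'' => G (Φ.ψ y.1, y.2) (GX Φ (l₀ ++ l' ++ l''))) l₁ = ∑ y ∈ GX Φ l₁, G y (GX Φ (l₀ ++ l₁) \ {y})`, by induction on `l₁`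
(unfold splitSum; `GX Φ (y :: l)` is the disjoint union of `{(Φ.ψ y.1, y.2)}` and `GX Φ l`, as `Φ.φ (Φ.ψ y.1) = y.1`).
`le_Cnt`: induction on `k` with `le_xsum` (`ind (dist a y.1 < s) = 1`).
-/
import Pool.Agent.Lib.SM3X.Defs
import Pool.Agent.Lib.SM3.A2
import Pool.Agent.Lib.SM3.E16

set_option autoImplicit false

open MeasureTheory Set

namespace Pool.SM3X

variable {d : ℕ}

private theorem c1_inj (Φ : PhiM d) :
    Function.Injective (fun y : CP (XX d) => ((Φ.φ y.1, y.2) : SM3.Pt)) := by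
  intro y z h
  have h1 : Φ.φ y.1 = Φ.φ z.1 := (Prod.mk.inj h).1
  have h2 : y.2 = z.2 := (Prod.mk.inj h).2
  have h3 : y.1 = z.1 := by rw [← Φ.left y.1, h1, Φ.left]
  exact Prod.ext h3 h2

private theorem c1_mem (Φ : PhiM d) (l : List SM3.Pt) (y : CP (XX d)) :
    y ∈ GX Φ l ↔ ((Φ.φ y.1, y.2) : SM3.Pt) ∈ l := Iff.rfl

theorem GX_finite (Φ : PhiM d) (l : List SM3.Pt) : (GX Φ l).Finite := by
  have h : GX Φ l = (fun y : CP (XX d) => ((Φ.φ y.1, y.2) : SM3.Pt)) ⁻¹' {z | z ∈ l} := rfl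
  rw [h]
  exact (List.finite_toSet l).preimage (c1_inj Φ).injOn

theorem measurable_xsum (Φ : PhiM d) {Θ : Type} [MeasurableSpace Θ]
    {G : Θ → CP (XX d) → List SM3.Pt → ENNReal}
    (hG : Measurable (fun q : Θ × CP (XX d) × List SM3.Pt => G q.1 q.2.1 q.2.2)) :
    Measurable (fun q : Θ × List SM3.Pt => xsum Φ (G q.1) q.2) := by
  have h1 : Measurable (fun q : Θ × List SM3.Pt × SM3.Pt × List SM3.Pt =>
      ((q.1, (Φ.ψ q.2.2.1.1, q.2.2.1.2), q.2.1 ++ q.2.2.2) :
        Θ × CP (XX d) × List SM3.Pt)) := by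
    have hl : Measurable (fun q : Θ × List SM3.Pt × SM3.Pt × List SM3.Pt =>
        (q.2.1, q.2.2.2)) :=
      (measurable_fst.comp measurable_snd).prodMk
        (measurable_snd.comp (measurable_snd.comp measurable_snd))
    have hy : Measurable (fun q : Θ × List SM3.Pt × SM3.Pt × List SM3.Pt => q.2.2.1) :=
      measurable_fst.comp (measurable_snd.comp measurable_snd)
    exact measurable_fst.prodMk
      (((Φ.hψ.comp (measurable_fst.comp hy)).prodMk (measurable_snd.comp hy)).prodMk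
        (SM3.measurable_append.comp hl))
  exact SM3.measurable_splitSum (Θ := Θ)
    (Ψ := fun θ l₁ y l₂ => G θ (Φ.ψ y.1, y.2) (l₁ ++ l₂)) (hG.comp h1)

theorem measurable_Cnt (Φ : PhiM d) (k : ℕ) {Θ : Type} [MeasurableSpace Θ]
    {F : Θ → XX d → ℝ → List SM3.Pt → ENNReal}
    (hF : Measurable (fun q : Θ × XX d × ℝ × List SM3.Pt => F q.1 q.2.1 q.2.2.1 q.2.2.2)) :
    Measurable (fun q : Θ × XX d × ℝ × List SM3.Pt => Cnt Φ k q.2.1 q.2.2.1 (F q.1) q.2.2.2) := by
  induction k with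
  | zero => exact hF
  | succ k ih =>
    have hG : Measurable (fun q : (Θ × XX d × ℝ) × CP (XX d) × List SM3.Pt =>
        SM3.ind (dist q.1.2.1 q.2.1.1 < q.1.2.2) *
          Cnt Φ k q.2.1.1 (dist q.1.2.1 q.2.1.1) (F q.1.1) q.2.2) := by
      have hy : Measurable (fun q : (Θ × XX d × ℝ) × CP (XX d) × List SM3.Pt => q.2.1.1) :=
        measurable_fst.comp (measurable_fst.comp measurable_snd)
      have ha : Measurable (fun q : (Θ × XX d × ℝ) × CP (XX d) × List SM3.Pt => q.1.2.1) :=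
        measurable_fst.comp (measurable_snd.comp measurable_fst)
      have hs : Measurable (fun q : (Θ × XX d × ℝ) × CP (XX d) × List SM3.Pt => q.1.2.2) :=
        measurable_snd.comp (measurable_snd.comp measurable_fst)
      have hd : Measurable (fun q : (Θ × XX d × ℝ) × CP (XX d) × List SM3.Pt =>
          dist q.1.2.1 q.2.1.1) := ha.dist hy
      refine (SM3.measurable_ind (measurableSet_lt hd hs)).mul ?_
      have h2 : Measurable (fun q : (Θ × XX d × ℝ) × CP (XX d) × List SM3.Pt =>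
          ((q.1.1, q.2.1.1, dist q.1.2.1 q.2.1.1, q.2.2) : Θ × XX d × ℝ × List SM3.Pt)) :=
        (measurable_fst.comp measurable_fst).prodMk
          (hy.prodMk (hd.prodMk (measurable_snd.comp measurable_snd)))
      exact ih.comp h2
    have h3 := measurable_xsum Φ (Θ := Θ × XX d × ℝ)
      (G := fun θ y q => SM3.ind (dist θ.2.1 y.1 < θ.2.2) *
        Cnt Φ k y.1 (dist θ.2.1 y.1) (F θ.1) q) hG
    have h4 : Measurable (fun q : Θ × XX d × ℝ × List SM3.Pt =>
        (((q.1, q.2.1, q.2.2.1), q.2.2.2) : (Θ × XX d × ℝ) × List SM3.Pt)) :=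
      (measurable_fst.prodMk ((measurable_fst.comp measurable_snd).prodMk
        (measurable_fst.comp (measurable_snd.comp measurable_snd)))).prodMk
        (measurable_snd.comp (measurable_snd.comp measurable_snd))
    have h5 : (fun q : Θ × XX d × ℝ × List SM3.Pt =>
        Cnt Φ (k + 1) q.2.1 q.2.2.1 (F q.1) q.2.2.2)
        = (fun q : (Θ × XX d × ℝ) × List SM3.Pt => xsum Φ ((fun (θ : Θ × XX d × ℝ)
          (y : CP (XX d)) (q : List SM3.Pt) => SM3.ind (dist θ.2.1 y.1 < θ.2.2) *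
          Cnt Φ k y.1 (dist θ.2.1 y.1) (F θ.1) q) q.1) q.2)
          ∘ (fun q : Θ × XX d × ℝ × List SM3.Pt => ((q.1, q.2.1, q.2.2.1), q.2.2.2)) := by
      funext q
      simp only [Cnt, Function.comp_apply]
    rw [h5]
    exact h3.comp h4

theorem le_xsum (Φ : PhiM d) {l : List SM3.Pt} (hl : l.Nodup) {z : CP (XX d)} (hz : z ∈ GX Φ l) :
    ∃ q : List SM3.Pt, q.Nodup ∧ GX Φ q = GX Φ l \ {z} ∧
      ∀ G : CP (XX d) → List SM3.Pt → ENNReal, G z q ≤ xsum Φ G l := by
  obtain ⟨l₁, l₂, rfl⟩ := List.append_of_mem ((c1_mem Φ l z).1 hz)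
  obtain ⟨hn1, hn2⟩ := List.nodup_cons.1 (List.nodup_middle.1 hl)
  refine ⟨l₁ ++ l₂, hn2, ?_, ?_⟩
  · ext y
    rw [Set.mem_sdiff, Set.mem_singleton_iff, c1_mem, c1_mem, List.mem_append, List.mem_append,
      List.mem_cons]
    constructor
    · intro h
      refine ⟨?_, ?_⟩
      · rcases h with h | h
        · exact Or.inl h
        · exact Or.inr (Or.inr h)
      · rintro rfl
        exact hn1 (List.mem_append.2 h)
    · rintro ⟨h | h | h, h'⟩
      · exact Or.inl h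
      · exact absurd (c1_inj Φ h) h'
      · exact Or.inr h
  · intro G
    have h := SM3.le_splitSum (fun l₁ y l₂ => G (Φ.ψ y.1, y.2) (l₁ ++ l₂)) l₁
      ((Φ.φ z.1, z.2) : SM3.Pt) l₂
    simp only [Φ.left] at h
    exact h

private theorem c1_xsum_aux (Φ : PhiM d) (G : CP (XX d) → Set (CP (XX d)) → ENNReal) :
    ∀ (l₁ l₀ : List SM3.Pt), (l₀ ++ l₁).Nodup → (∀ y ∈ l₁, Φ.φ (Φ.ψ y.1) = y.1) →
      SM3.splitSum (fun l' y l'' => G (Φ.ψ y.1, y.2) (GX Φ (l₀ ++ l' ++ l''))) l₁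
        = ∑ y ∈ (GX_finite Φ l₁).toFinset, G y (GX Φ (l₀ ++ l₁) \ {y}) := by
  classical
  intro l₁
  induction l₁ with
  | nil =>
    intro l₀ _ _
    have h : (GX_finite Φ ([] : List SM3.Pt)).toFinset = ∅ := by
      ext y
      rw [Set.Finite.mem_toFinset, c1_mem]
      simp
    rw [h, Finset.sum_empty]
    rfl
  | cons y l ih =>
    intro l₀ hn hr
    obtain ⟨hn1, hn2⟩ := List.nodup_cons.1 (List.nodup_middle.1 hn)
    have hyr : Φ.φ (Φ.ψ y.1) = y.1 := hr y List.mem_cons_self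
    have hye : ((Φ.φ (Φ.ψ y.1), y.2) : SM3.Pt) = y := Prod.ext hyr rfl
    have hfs : (GX_finite Φ (y :: l)).toFinset
        = insert ((Φ.ψ y.1, y.2) : CP (XX d)) (GX_finite Φ l).toFinset := by
      ext z
      rw [Set.Finite.mem_toFinset, Finset.mem_insert, Set.Finite.mem_toFinset, c1_mem, c1_mem,
        List.mem_cons]
      refine or_congr_left ?_
      constructor
      · intro h
        refine c1_inj Φ ?_
        show ((Φ.φ z.1, z.2) : SM3.Pt) = (Φ.φ (Φ.ψ y.1), y.2)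
        rw [h, hye]
      · rintro rfl
        exact hye
    have hni : ((Φ.ψ y.1, y.2) : CP (XX d)) ∉ (GX_finite Φ l).toFinset := by
      rw [Set.Finite.mem_toFinset, c1_mem]
      show ((Φ.φ (Φ.ψ y.1), y.2) : SM3.Pt) ∉ l
      rw [hye]
      exact fun h => hn1 (List.mem_append.2 (Or.inr h))
    have h1 : GX Φ (l₀ ++ [] ++ l) = GX Φ (l₀ ++ y :: l) \ {((Φ.ψ y.1, y.2) : CP (XX d))} := by
      ext z
      rw [Set.mem_sdiff, Set.mem_singleton_iff, c1_mem, c1_mem, List.append_nil, List.mem_append,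
        List.mem_append, List.mem_cons]
      constructor
      · intro h
        refine ⟨?_, ?_⟩
        · rcases h with h | h
          · exact Or.inl h
          · exact Or.inr (Or.inr h)
        · rintro rfl
          refine hn1 (List.mem_append.2 ?_)
          rw [← hye]
          exact h
      · rintro ⟨h | h | h, h'⟩
        · exact Or.inl h
        · refine absurd (c1_inj Φ ?_) h'
          show ((Φ.φ z.1, z.2) : SM3.Pt) = (Φ.φ (Φ.ψ y.1), y.2)
          rw [h, hye]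
        · exact Or.inr h
    have h2 := ih (l₀ ++ [y]) (by simpa using hn) (fun z hz => hr z (List.mem_cons_of_mem _ hz))
    have h3 : (fun (l' : List SM3.Pt) (z : SM3.Pt) (l'' : List SM3.Pt) =>
        G (Φ.ψ z.1, z.2) (GX Φ (l₀ ++ (y :: l') ++ l'')))
        = fun l' z l'' => G (Φ.ψ z.1, z.2) (GX Φ (l₀ ++ [y] ++ l' ++ l'')) := by
      funext l' z l''
      have : l₀ ++ (y :: l') ++ l'' = l₀ ++ [y] ++ l' ++ l'' := by simp
      rw [this]
    have h4 : l₀ ++ [y] ++ l = l₀ ++ y :: l := by simp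
    rw [hfs, Finset.sum_insert hni, ← h1]
    rw [h4] at h2
    rw [← h2, ← h3]
    rfl

theorem xsum_eq (Φ : PhiM d) {l : List SM3.Pt} (hl : l.Nodup)
    (hr : ∀ y ∈ l, Φ.φ (Φ.ψ y.1) = y.1) (G : CP (XX d) → Set (CP (XX d)) → ENNReal) :
    xsum Φ (fun y q => G y (GX Φ q)) l
      = ∑ y ∈ (GX_finite Φ l).toFinset, G y (GX Φ l \ {y}) :=
  c1_xsum_aux Φ G l [] hl hr

theorem le_Cnt (Φ : PhiM d) (k : ℕ) {l : List SM3.Pt} (hl : l.Nodup) {a : XX d} {s : ℝ} {u : XX d}
    {τ : ℝ} {Q : Set (CP (XX d))} (h : Rch k (GX Φ l) a s u τ Q) :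
    ∃ q : List SM3.Pt, q.Nodup ∧ GX Φ q = Q ∧
      ∀ F : XX d → ℝ → List SM3.Pt → ENNReal, F u τ q ≤ Cnt Φ k a s F l := by
  induction k generalizing l a s with
  | zero =>
    obtain ⟨rfl, rfl, rfl⟩ := h
    exact ⟨l, hl, rfl, fun F => le_rfl⟩
  | succ k ih =>
    obtain ⟨y, hy, hd, hR⟩ := h
    obtain ⟨q', hq', hG', hle⟩ := le_xsum Φ hl hy
    rw [← hG'] at hR
    obtain ⟨q, hq, hQ, hF⟩ := ih hq' hR
    refine ⟨q, hq, hQ, fun F => le_trans (hF F) ?_⟩
    have h1 := hle (fun y q => SM3.ind (dist a y.1 < s) * Cnt Φ k y.1 (dist a y.1) F q)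
    have h2 : SM3.ind (dist a y.1 < s) = 1 := by
      unfold SM3.ind
      rw [if_pos hd]
    simp only [h2, one_mul] at h1
    exact h1

end Pool.SM3X
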