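/-
SM3X.C2 : volumes of balls and polar coordinates.
PROOF. `VR_eq`: `Measure.addHaar_ball` (`volume (ball x r) = ofReal (r ^ finrank) * volume (ball 0 1)` for `r ≥ 0`; finrank = d).  `VR_pos`: balls have positive finite volume.
`vB_eq`: translation invariance (`Measure.addHaar_ball_center`) and finiteness (measure_ball_lt_top).
`lintegral_rad`: let `g x = VR d (dist a x)` (measurable).  The measure `ν = (volume.restrict (ball a s)).map g` is finite and `ν (Iio t) = volume {x ∈ ball a s | VR d (dist a x) < t} = min t (VR d s)` for `t ≥ 0`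
(`VR d r < t` iff `r < r_t` where `VR d r_t = t`: VR_eq, VR_pos), `0` for `t ≤ 0`; the same as `volume.restrict (Ioo 0 (VR d s))`; two finite measures on `ℝ` which agree on all `Iio t` are equal
(`MeasureTheory.Measure.ext_of_Iic`, `ext_of_Ici` or `Measure.ext_of_Ico`; use closed rays: spheres are null / compute `ν (Iic t)`).  Then `lintegral_map`.
`lintegral_vB_pow`: `vB d r = ofReal (VR d r)`; lintegral_rad and `∫⁻ v in Ioo 0 V, ofReal (v^k / k!) = ofReal (V^(k+1)/(k+1)!)` (integral_pow, ofReal_integral_eq_lintegral_ofReal); for `s ≤ 0` the ball is empty.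
-/
import Pool.Agent.Lib.SM3X.Defs

set_option autoImplicit false

open MeasureTheory Set

namespace Pool.SM3X

private theorem C2_vB_ne_top (d : ℕ) (s : ℝ) : vB d s ≠ ⊤ := by
  unfold vB
  exact measure_ball_lt_top.ne

private theorem C2_ofReal_VR (d : ℕ) (s : ℝ) : ENNReal.ofReal (VR d s) = vB d s := by
  unfold VR
  exact ENNReal.ofReal_toReal (C2_vB_ne_top d s)

theorem vB_eq {d : ℕ} (a : XX d) (s : ℝ) : volume (Metric.ball a s) = ENNReal.ofReal (VR d s) := by
  rw [C2_ofReal_VR]
  unfold vB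
  exact Measure.addHaar_ball_center volume a s

theorem VR_eq {d : ℕ} (hd : 1 ≤ d) {s : ℝ} (hs : 0 ≤ s) : VR d s = s ^ d * VR d 1 := by
  haveI : Nontrivial (XX d) := by
    haveI : Nonempty (Fin d) := ⟨⟨0, hd⟩⟩
    infer_instance
  unfold VR vB
  rw [Measure.addHaar_ball volume (0 : XX d) hs, ENNReal.toReal_mul, ENNReal.toReal_ofReal (by positivity)]
  simp

theorem VR_pos (d : ℕ) : 0 < VR d 1 := by
  unfold VR
  refine ENNReal.toReal_pos ?_ (C2_vB_ne_top d 1)
  unfold vB
  exact (Metric.measure_ball_pos volume _ one_pos).ne'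

theorem VR_nonneg (d : ℕ) (s : ℝ) : 0 ≤ VR d s := ENNReal.toReal_nonneg

theorem VR_of_nonpos {d : ℕ} {s : ℝ} (hs : s ≤ 0) : VR d s = 0 := by
  unfold VR vB
  rw [Metric.ball_eq_empty.2 hs]
  simp

theorem VR_mono (d : ℕ) : Monotone (VR d) := by
  intro r s hrs
  unfold VR
  refine ENNReal.toReal_mono (C2_vB_ne_top d s) ?_
  unfold vB
  exact measure_mono (Metric.ball_subset_ball hrs)

private theorem C2_VR_max {d : ℕ} (hd : 1 ≤ d) (s : ℝ) : VR d s = (max s 0) ^ d * VR d 1 := by
  rcases le_total 0 s with h | h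
  · rw [max_eq_left h, VR_eq hd h]
  · rw [max_eq_right h, VR_of_nonpos h, zero_pow (by omega), zero_mul]

theorem VR_cont {d : ℕ} (hd : 1 ≤ d) : Continuous (VR d) := by
  have : VR d = fun s => (max s 0) ^ d * VR d 1 := funext (C2_VR_max hd)
  rw [this]
  fun_prop

theorem VR_surj {d : ℕ} (hd : 1 ≤ d) {v : ℝ} (hv : 0 ≤ v) : ∃ s, 0 ≤ s ∧ VR d s = v := by
  have h1 := VR_pos d
  refine ⟨(v / VR d 1) ^ ((d : ℝ)⁻¹), by positivity, ?_⟩
  rw [VR_eq hd (by positivity), Real.rpow_inv_natCast_pow (by positivity) (by omega)]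
  field_simp

private theorem C2_lt_iff {d : ℕ} (hd : 1 ≤ d) {r s : ℝ} (hr : 0 ≤ r) (hs : 0 ≤ s) :
    VR d r < VR d s ↔ r < s := by
  have h1 := VR_pos d
  rw [VR_eq hd hr, VR_eq hd hs, mul_lt_mul_iff_left₀ h1]
  exact pow_lt_pow_iff_left₀ hr hs (by omega)

private theorem C2_closedBall {d : ℕ} (hd : 1 ≤ d) (a : XX d) {r : ℝ} (hr : 0 ≤ r) :
    volume (Metric.closedBall a r) = ENNReal.ofReal (VR d r) := by
  haveI : Nontrivial (XX d) := by
    haveI : Nonempty (Fin d) := ⟨⟨0, hd⟩⟩
    infer_instance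
  rw [Measure.addHaar_closedBall_eq_addHaar_ball, vB_eq]

private theorem C2_map {d : ℕ} (hd : 1 ≤ d) (a : XX d) {s : ℝ} (hs : 0 < s) :
    (volume.restrict (Metric.ball a s)).map (fun x => VR d (dist a x)) =
      volume.restrict (Ioo 0 (VR d s)) := by
  have hg : Measurable (fun x : XX d => VR d (dist a x)) :=
    ((VR_cont hd).comp (continuous_const.dist continuous_id)).measurable
  haveI : IsFiniteMeasure (volume.restrict (Metric.ball a s)) :=
    ⟨by rw [Measure.restrict_apply_univ]; exact measure_ball_lt_top⟩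
  haveI : IsFiniteMeasure ((volume.restrict (Metric.ball a s)).map (fun x => VR d (dist a x))) :=
    Measure.isFiniteMeasure_map _ _
  refine Measure.ext_of_Iic _ _ ?_
  intro t
  rw [Measure.map_apply hg measurableSet_Iic, Measure.restrict_apply (hg measurableSet_Iic),
    Measure.restrict_apply measurableSet_Iic]
  rcases lt_or_ge t 0 with ht | ht
  · have h1 : ((fun x : XX d => VR d (dist a x)) ⁻¹' Iic t) = ∅ := by
      ext x
      simp only [mem_preimage, mem_Iic, mem_empty_iff_false, iff_false, not_le]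
      exact lt_of_lt_of_le ht (VR_nonneg d _)
    have h2 : Iic t ∩ Ioo 0 (VR d s) = ∅ := by
      ext x
      simp only [mem_inter_iff, mem_Iic, mem_Ioo, mem_empty_iff_false, iff_false]
      intro h
      linarith [h.1, h.2.1]
    rw [h1, h2]
    simp
  · obtain ⟨r, hr, hrt⟩ := VR_surj hd ht
    have h1 : ((fun x : XX d => VR d (dist a x)) ⁻¹' Iic t) = Metric.closedBall a r := by
      ext x
      simp only [mem_preimage, mem_Iic, Metric.mem_closedBall]
      rw [← hrt, dist_comm x a, ← not_lt, ← not_lt, C2_lt_iff hd hr dist_nonneg]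
    rw [h1]
    rcases lt_or_ge t (VR d s) with hts | hts
    · have hrs : r < s := by
        rw [← hrt] at hts
        exact (C2_lt_iff hd hr hs.le).1 hts
      rw [inter_eq_left.2 (Metric.closedBall_subset_ball hrs), C2_closedBall hd a hr, hrt]
      have h2 : Iic t ∩ Ioo 0 (VR d s) = Ioc 0 t := by
        ext x
        simp only [mem_inter_iff, mem_Iic, mem_Ioo, mem_Ioc]
        constructor
        · rintro ⟨h3, h4, -⟩
          exact ⟨h4, h3⟩
        · rintro ⟨h3, h4⟩
          exact ⟨h4, h3, lt_of_le_of_lt h4 hts⟩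
      rw [h2, Real.volume_Ioc, sub_zero]
    · have hrs : s ≤ r := by
        rw [← hrt] at hts
        by_contra h
        exact absurd ((C2_lt_iff hd hr hs.le).2 (not_le.1 h)) (not_lt.2 hts)
      rw [inter_eq_right.2 (Metric.ball_subset_closedBall.trans (Metric.closedBall_subset_closedBall hrs)),
        vB_eq]
      have h2 : Iic t ∩ Ioo 0 (VR d s) = Ioo 0 (VR d s) := by
        rw [inter_eq_right]
        intro x hx
        exact (hx.2.le).trans hts
      rw [h2, Real.volume_Ioo, sub_zero]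

theorem lintegral_rad {d : ℕ} (hd : 1 ≤ d) (a : XX d) (s : ℝ) {F : ℝ → ENNReal}
    (hF : Measurable F) :
    ∫⁻ x in Metric.ball a s, F (VR d (dist a x)) = ∫⁻ v in Ioo 0 (VR d s), F v := by
  rcases le_or_gt s 0 with hs | hs
  · rw [Metric.ball_eq_empty.2 hs, VR_of_nonpos hs]
    simp
  · have hg : Measurable (fun x : XX d => VR d (dist a x)) :=
      ((VR_cont hd).comp (continuous_const.dist continuous_id)).measurable
    rw [← C2_map hd a hs, lintegral_map hF hg]

private theorem C2_pow (V : ℝ) (hV : 0 ≤ V) (k : ℕ) :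
    ∫⁻ v in Ioo 0 V, ENNReal.ofReal v ^ k / (k.factorial : ENNReal) =
      ENNReal.ofReal V ^ (k + 1) / ((k + 1).factorial : ENNReal) := by
  have key : ∀ (v : ℝ) (j : ℕ), 0 ≤ v →
      ENNReal.ofReal v ^ j / (j.factorial : ENNReal) = ENNReal.ofReal (v ^ j / j.factorial) := by
    intro v j hv
    rw [ENNReal.ofReal_div_of_pos (by positivity), ENNReal.ofReal_pow hv, ENNReal.ofReal_natCast]
  have h1 : ∫⁻ v in Ioo 0 V, ENNReal.ofReal v ^ k / (k.factorial : ENNReal) =
      ∫⁻ v in Ioo 0 V, ENNReal.ofReal (v ^ k / k.factorial) := by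
    refine setLIntegral_congr_fun measurableSet_Ioo ?_
    intro v hv
    exact key v k hv.1.le
  rw [h1, key V (k + 1) hV, ← ofReal_integral_eq_lintegral_ofReal]
  · congr 1
    rw [← integral_Ioc_eq_integral_Ioo, ← intervalIntegral.integral_of_le hV,
      intervalIntegral.integral_div, integral_pow]
    rw [Nat.factorial_succ]
    push_cast
    field_simp
    simp
  · have hc : Continuous (fun v : ℝ => v ^ k / (k.factorial : ℝ)) := by fun_prop
    exact (hc.integrableOn_Icc (a := 0) (b := V)).mono_set Ioo_subset_Icc_self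
  · refine (ae_restrict_iff' measurableSet_Ioo).2 (Filter.Eventually.of_forall ?_)
    intro v hv
    have := hv.1.le
    positivity

theorem lintegral_vB_pow {d : ℕ} (hd : 1 ≤ d) (a : XX d) (s : ℝ) (k : ℕ) :
    ∫⁻ x in Metric.ball a s, vB d (dist a x) ^ k / (k.factorial : ENNReal)
      = vB d s ^ (k + 1) / ((k + 1).factorial : ENNReal) := by
  have h := lintegral_rad hd a s (F := fun v => ENNReal.ofReal v ^ k / (k.factorial : ENNReal))
    (by fun_prop)
  simp only [C2_ofReal_VR] at h
  rw [h, C2_pow _ (VR_nonneg d s), C2_ofReal_VR]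

end Pool.SM3X
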