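/-
SM3X.P3 : Mecke's formula for functionals of the remaining points.
PROOF. `mecke_list`: `SM3.mecke` (A6) with `Ψ l₁ y l₂ = G y (l₁ ++ l₂)` (measurable: `SM3.measurable_append`, A2) and `SM3.lintegral_Pm_append` (A7) for the inner integrals
(`u ≤ t ≤ w` on `Ioo u w`; `setLIntegral_congr_fun`-type lemma).
`ae_range`: `Z = {t | Φ.φ (Φ.ψ t) ≠ t}` is measurable, `volume Z = Measure.map Φ.φ volume Z = volume (Φ.φ ⁻¹' Z) = volume ∅` (`Φ.vol`, `Φ.left`).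
`lintegral_psi`: `∫⁻ t in A, F (Φ.ψ t) = ∫⁻ t in A, F (Φ.ψ t) ∂(map φ volume) = ∫⁻ x in φ ⁻¹' A, F (Φ.ψ (Φ.φ x))` (`Φ.vol`, setLIntegral_map / lintegral_map).
`mecke_X`: mecke_list with `G' y q = G (Φ.ψ y.1, y.2) q`, then lintegral_psi with `F x = ∑ c, ofReal (p c) * ∫⁻ l, G (x,c) l` (measurable: `SM3.measurable_lintegral_Pm`, A5, with constant
`u`, `w`; `Finset.measurable_sum`).  `mecke_le`: `setLIntegral_le_lintegral`.
-/
import Pool.Agent.Lib.SM3X.Defs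
import Pool.Agent.Lib.SM3.A6
import Pool.Agent.Lib.SM3.A7

set_option autoImplicit false

open MeasureTheory Set

namespace Pool.SM3X

theorem mecke_list {p : Fin 3 → ℝ} {u w : ℝ} {G : SM3.Pt → List SM3.Pt → ENNReal}
    (hG : Measurable (fun q : SM3.Pt × List SM3.Pt => G q.1 q.2)) :
    ∫⁻ l, SM3.splitSum (fun l₁ y l₂ => G y (l₁ ++ l₂)) l ∂(SM3.Pm p u w)
      = ∫⁻ t in Ioo u w, ∑ c : Fin 3, ENNReal.ofReal (p c) * ∫⁻ l, G (t, c) l ∂(SM3.Pm p u w) := by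
  rw [SM3.mecke p u w (Ψ := fun l₁ y l₂ => G y (l₁ ++ l₂))]
  · refine setLIntegral_congr_fun measurableSet_Ioo fun t ht => ?_
    refine Finset.sum_congr rfl fun c _ => ?_
    congr 1
    rw [SM3.lintegral_Pm_append p ht.1.le ht.2.le (Φ := fun l => G (t, c) l)]
    exact hG.comp (measurable_const.prodMk measurable_id)
  · exact hG.comp ((measurable_fst.comp measurable_snd).prodMk
      (SM3.measurable_append.comp (measurable_fst.prodMk (measurable_snd.comp measurable_snd))))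

theorem ae_range {d : ℕ} (Φ : PhiM d) : ∀ᵐ t : ℝ, Φ.φ (Φ.ψ t) = t := by
  have hm : Measurable (fun t : ℝ => Φ.φ (Φ.ψ t)) := Φ.hφ.comp Φ.hψ
  have hs : MeasurableSet {t : ℝ | ¬ Φ.φ (Φ.ψ t) = t} :=
    (measurableSet_eq_fun hm measurable_id).compl
  rw [ae_iff]
  have h : Measure.map Φ.φ volume {t : ℝ | ¬ Φ.φ (Φ.ψ t) = t} = 0 := by
    rw [Measure.map_apply Φ.hφ hs]
    have e : Φ.φ ⁻¹' {t : ℝ | ¬ Φ.φ (Φ.ψ t) = t} = ∅ := by
      ext x
      simp [Φ.left]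
    rw [e, measure_empty]
  rwa [Φ.vol] at h

theorem lintegral_psi {d : ℕ} (Φ : PhiM d) {A : Set ℝ} (hA : MeasurableSet A)
    {F : XX d → ENNReal} (hF : Measurable F) :
    ∫⁻ t in A, F (Φ.ψ t) = ∫⁻ x in Φ.φ ⁻¹' A, F x := by
  have h : ∫⁻ t in A, F (Φ.ψ t) ∂(Measure.map Φ.φ volume) =
      ∫⁻ x in Φ.φ ⁻¹' A, F (Φ.ψ (Φ.φ x)) :=
    setLIntegral_map hA (hF.comp Φ.hψ) Φ.hφ
  rw [Φ.vol] at h
  rw [h]
  simp only [Φ.left]

theorem mecke_X {d : ℕ} {p : Fin 3 → ℝ} (Φ : PhiM d) {T : ℝ}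
    {G : CP (XX d) → List SM3.Pt → ENNReal}
    (hG : Measurable (fun q : CP (XX d) × List SM3.Pt => G q.1 q.2)) :
    ∫⁻ l, xsum Φ G l ∂(SM3.Pm p (-T) T)
      = ∫⁻ x in Φ.φ ⁻¹' Ioo (-T) T, ∑ c : Fin 3, ENNReal.ofReal (p c) *
          ∫⁻ l, G (x, c) l ∂(SM3.Pm p (-T) T) := by
  have hG' : Measurable (fun q : SM3.Pt × List SM3.Pt => G (Φ.ψ q.1.1, q.1.2) q.2) :=
    hG.comp (((Φ.hψ.comp (measurable_fst.comp measurable_fst)).prodMk
      (measurable_snd.comp measurable_fst)).prodMk measurable_snd)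
  have h1 := mecke_list (p := p) (u := -T) (w := T)
    (G := fun y q => G (Φ.ψ y.1, y.2) q) hG'
  have hF : Measurable (fun x : XX d => ∑ c : Fin 3, ENNReal.ofReal (p c) *
      ∫⁻ l, G (x, c) l ∂(SM3.Pm p (-T) T)) := by
    refine Finset.measurable_sum _ fun c _ => Measurable.const_mul ?_ _
    exact SM3.measurable_lintegral_Pm p (f := fun (x : XX d) l => G (x, c) l)
      (hG.comp ((measurable_fst.prodMk measurable_const).prodMk measurable_snd))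
      measurable_const measurable_const
  have h2 := lintegral_psi Φ (A := Ioo (-T) T) measurableSet_Ioo hF
  rw [← h2]
  exact h1

theorem mecke_le {d : ℕ} {p : Fin 3 → ℝ} (Φ : PhiM d) {T : ℝ}
    {G : CP (XX d) → List SM3.Pt → ENNReal}
    (hG : Measurable (fun q : CP (XX d) × List SM3.Pt => G q.1 q.2)) :
    ∫⁻ l, xsum Φ G l ∂(SM3.Pm p (-T) T)
      ≤ ∫⁻ x, ∑ c : Fin 3, ENNReal.ofReal (p c) * ∫⁻ l, G (x, c) l ∂(SM3.Pm p (-T) T) := by
  rw [mecke_X Φ hG]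
  exact setLIntegral_le_lintegral _ _

end Pool.SM3X
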