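/-
SM3X.C3 : the expected number of chains.
PROOF. `lintegral_Cnt_le`: induction on `k` for all `a`, `s` (`k = 0`: `hB a s`).  Step: `mecke_le` (P3) for fixed `θ` with `G y q = ind (dist a y.1 < s) * Cnt Φ k y.1 (dist a y.1) (F θ) q` (measurable: C1), so
`∫⁻ θ ∫⁻ l Cnt (k+1) ≤ ∫⁻ θ ∫⁻ x (∑ c, ofReal (p c)) * ind (dist a x < s) * ∫⁻ l, Cnt Φ k x (dist a x) (F θ) l`; `∑ c, ofReal (p c) = 1`; exchange `θ` and `x` (lintegral_lintegral_swap, AEMeasurable by C1 and
`SM3.measurable_lintegral_Pm` A5), induction hypothesis for `(x, dist a x)`, and `∫⁻ x in ball a s, vB d (dist a x)^k / k! * B = vB d s^(k+1)/(k+1)! * B` (`lintegral_vB_pow`, C2; `ind (dist a x < s)` is the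
indicator of the ball `Metric.ball a s`, dist_comm).
`escape`: if `¬ NoCh k (GX Φ l) a s` then `1 ≤ Cnt Φ k a s (fun _ _ _ => 1) l` for `l.Nodup` (`le_Cnt`, C1); Markov with `lintegral_Cnt_le` for `Θ = Unit`, `F = 1`, `B = 1` (Pm is a probability measure);
a.e. `l` has no duplicates (SM3.ae_Pm: sorted).
-/
import Pool.Agent.Lib.SM3X.C1
import Pool.Agent.Lib.SM3X.C2
import Pool.Agent.Lib.SM3X.P3

set_option autoImplicit false

open MeasureTheory Set

namespace Pool.SM3X

private theorem C3_ind_mul (P : Prop) (x : ENNReal) [Decidable P] :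
    SM3.ind P * x = if P then x else 0 := by
  unfold SM3.ind
  split_ifs <;> simp

private theorem C3_mvB {d : ℕ} (hd : 1 ≤ d) : Measurable (vB d) := by
  have h : vB d = fun s => ENNReal.ofReal (VR d s) := by
    funext s
    exact vB_eq 0 s
  rw [h]
  exact (VR_cont hd).measurable.ennreal_ofReal

private theorem C3_sum {p : Fin 3 → ℝ} (hp : SM3.PV p) :
    ∑ c : Fin 3, ENNReal.ofReal (p c) = 1 := by
  rw [← ENNReal.ofReal_sum_of_nonneg (fun i _ => (hp.pos i).le), Fin.sum_univ_three, hp.sum,
    ENNReal.ofReal_one]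

theorem lintegral_Cnt_le {d : ℕ} (hd : 1 ≤ d) {p : Fin 3 → ℝ} (hp : SM3.PV p) (Φ : PhiM d) {T : ℝ}
    (hT : 0 ≤ T) {Θ : Type} [MeasurableSpace Θ] (ν : Measure Θ) [SFinite ν]
    {F : Θ → XX d → ℝ → List SM3.Pt → ENNReal}
    (hF : Measurable (fun q : Θ × XX d × ℝ × List SM3.Pt => F q.1 q.2.1 q.2.2.1 q.2.2.2))
    {B : ENNReal} (hB : ∀ u τ, ∫⁻ θ, ∫⁻ l, F θ u τ l ∂(SM3.Pm p (-T) T) ∂ν ≤ B)
    (k : ℕ) (a : XX d) (s : ℝ) :
    ∫⁻ θ, ∫⁻ l, Cnt Φ k a s (F θ) l ∂(SM3.Pm p (-T) T) ∂ν
      ≤ vB d s ^ k / (k.factorial : ENNReal) * B := by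
  classical
  induction k generalizing a s with
  | zero =>
    have h := hB a s
    simpa [Cnt] using h
  | succ k ih =>
    have hC := measurable_Cnt Φ k hF
    -- the function of `θ` and `x`
    set H : Θ → XX d → ENNReal := fun θ x =>
      ∫⁻ l, Cnt Φ k x (dist a x) (F θ) l ∂(SM3.Pm p (-T) T) with hH
    have hHm : Measurable (fun q : Θ × XX d => H q.1 q.2) := by
      refine SM3.measurable_lintegral_Pm p (Θ := Θ × XX d)
        (f := fun q l => Cnt Φ k q.2 (dist a q.2) (F q.1) l) ?_ measurable_const measurable_const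
      have hm : Measurable (fun q : (Θ × XX d) × List SM3.Pt =>
          ((q.1.1, q.1.2, dist a q.1.2, q.2) : Θ × XX d × ℝ × List SM3.Pt)) :=
        (measurable_fst.comp measurable_fst).prodMk ((measurable_snd.comp measurable_fst).prodMk
          ((measurable_const.dist (measurable_snd.comp measurable_fst)).prodMk measurable_snd))
      exact hC.comp hm
    -- Mecke for fixed `θ`
    have h1 : ∀ θ, ∫⁻ l, Cnt Φ (k + 1) a s (F θ) l ∂(SM3.Pm p (-T) T) ≤
        ∫⁻ x, SM3.ind (dist a x < s) * H θ x := by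
      intro θ
      have hG : Measurable (fun q : CP (XX d) × List SM3.Pt =>
          SM3.ind (dist a q.1.1 < s) * Cnt Φ k q.1.1 (dist a q.1.1) (F θ) q.2) := by
        refine Measurable.mul ?_ ?_
        · refine SM3.measurable_ind ?_
          exact measurableSet_lt (measurable_const.dist (measurable_fst.comp measurable_fst))
            measurable_const
        · have hm : Measurable (fun q : CP (XX d) × List SM3.Pt =>
              ((θ, q.1.1, dist a q.1.1, q.2) : Θ × XX d × ℝ × List SM3.Pt)) :=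
            measurable_const.prodMk ((measurable_fst.comp measurable_fst).prodMk
              ((measurable_const.dist (measurable_fst.comp measurable_fst)).prodMk
                measurable_snd))
          exact hC.comp hm
      have h2 := mecke_le (p := p) Φ (T := T)
        (G := fun y q => SM3.ind (dist a y.1 < s) * Cnt Φ k y.1 (dist a y.1) (F θ) q) hG
      refine le_trans (le_of_eq ?_) (h2.trans (le_of_eq ?_))
      · rfl
      · refine lintegral_congr fun x => ?_
        have hm2 : Measurable (fun l : List SM3.Pt => Cnt Φ k x (dist a x) (F θ) l) :=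
          hC.comp (measurable_const.prodMk (measurable_const.prodMk
            (measurable_const.prodMk measurable_id)) :
            Measurable (fun l : List SM3.Pt =>
              ((θ, x, dist a x, l) : Θ × XX d × ℝ × List SM3.Pt)))
        have h3 : ∀ c : Fin 3, ∫⁻ l, SM3.ind (dist a ((x, c) : CP (XX d)).1 < s) *
            Cnt Φ k ((x, c) : CP (XX d)).1 (dist a ((x, c) : CP (XX d)).1) (F θ) l
              ∂(SM3.Pm p (-T) T) = SM3.ind (dist a x < s) * H θ x := fun c =>
          lintegral_const_mul _ hm2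
        rw [Finset.sum_congr rfl fun c _ => by rw [h3 c], ← Finset.sum_mul, C3_sum hp, one_mul]
    calc ∫⁻ θ, ∫⁻ l, Cnt Φ (k + 1) a s (F θ) l ∂(SM3.Pm p (-T) T) ∂ν
        ≤ ∫⁻ θ, ∫⁻ x, SM3.ind (dist a x < s) * H θ x ∂volume ∂ν := lintegral_mono h1
      _ = ∫⁻ x, ∫⁻ θ, SM3.ind (dist a x < s) * H θ x ∂ν := by
          refine lintegral_lintegral_swap ?_
          refine Measurable.aemeasurable ?_
          refine Measurable.mul ?_ hHm
          exact SM3.measurable_ind (Q := fun q : Θ × XX d => dist a q.2 < s)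
            (measurableSet_lt (measurable_const.dist measurable_snd) measurable_const)
      _ = ∫⁻ x, SM3.ind (dist a x < s) * ∫⁻ θ, H θ x ∂ν := by
          refine lintegral_congr fun x => ?_
          exact lintegral_const_mul _ (hHm.comp (measurable_id.prodMk measurable_const))
      _ ≤ ∫⁻ x, SM3.ind (dist a x < s) *
            (vB d (dist a x) ^ k / (k.factorial : ENNReal) * B) := by
          refine lintegral_mono fun x => ?_
          exact mul_le_mul_right (ih x (dist a x)) _
      _ = ∫⁻ x in Metric.ball a s, vB d (dist a x) ^ k / (k.factorial : ENNReal) * B := by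
          rw [← lintegral_indicator Metric.isOpen_ball.measurableSet]
          refine lintegral_congr fun x => ?_
          rw [C3_ind_mul, Set.indicator_apply]
          simp only [Metric.mem_ball, dist_comm x a]
      _ = (∫⁻ x in Metric.ball a s, vB d (dist a x) ^ k / (k.factorial : ENNReal)) * B := by
          refine lintegral_mul_const _ ?_
          exact (((C3_mvB hd).comp (measurable_const.dist measurable_id)).pow_const k).div_const _
      _ = vB d s ^ (k + 1) / ((k + 1).factorial : ENNReal) * B := by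
          rw [lintegral_vB_pow hd]

theorem escape {d : ℕ} (hd : 1 ≤ d) {p : Fin 3 → ℝ} (hp : SM3.PV p) (Φ : PhiM d) {T : ℝ}
    (hT : 0 ≤ T) (k : ℕ) (a : XX d) (s : ℝ) :
    SM3.Pm p (-T) T {l | ¬ NoCh k (GX Φ l) a s} ≤ vB d s ^ k / (k.factorial : ENNReal) := by
  have hP : IsProbabilityMeasure (SM3.Pm p (-T) T) := SM3.isProb_Pm hp (by linarith)
  have h1 := lintegral_Cnt_le hd hp Φ hT (Measure.dirac ())
    (F := fun (_ : Unit) (_ : XX d) (_ : ℝ) (_ : List SM3.Pt) => (1 : ENNReal))
    measurable_const (B := 1) (by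
      intro u τ
      simp) k a s
  have h2 : ∫⁻ l, Cnt Φ k a s (fun _ _ _ => 1) l ∂(SM3.Pm p (-T) T) ≤
      vB d s ^ k / (k.factorial : ENNReal) := by
    rw [mul_one, lintegral_const, measure_univ, mul_one] at h1
    exact h1
  have hm : Measurable (fun l : List SM3.Pt => Cnt Φ k a s (fun _ _ _ => 1) l) := by
    have hC := measurable_Cnt Φ k (Θ := Unit)
      (F := fun (_ : Unit) (_ : XX d) (_ : ℝ) (_ : List SM3.Pt) => (1 : ENNReal)) measurable_const
    exact hC.comp (measurable_const.prodMk (measurable_const.prodMk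
      (measurable_const.prodMk measurable_id)) :
      Measurable (fun l : List SM3.Pt => (((), a, s, l) : Unit × XX d × ℝ × List SM3.Pt)))
  refine le_trans ?_ ((meas_ge_le_lintegral_div hm.aemeasurable one_ne_zero
    ENNReal.one_ne_top).trans (by rw [div_one]; exact h2))
  refine measure_mono_ae ?_
  filter_upwards [SM3.ae_Pm p (-T) T] with l hl hN
  have hnd : l.Nodup := hl.1.imp fun {x y} hxy h => by
    rw [h] at hxy
    exact lt_irrefl _ hxy
  have hN' : ¬ NoCh k (GX Φ l) a s := hN
  unfold NoCh at hN'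
  push Not at hN'
  obtain ⟨u, τ, Q, hR⟩ := hN'
  obtain ⟨q, -, -, hq⟩ := le_Cnt Φ k hnd hR
  exact hq (fun _ _ _ => 1)

end Pool.SM3X
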