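/-
SM3X.C4 : geometry of balls.
PROOF. `lens`: for `z` with `|z-a| < s'`, `|z-b| < s'`: parallelogram law `|z - (a+b)/2|^2 = (|z-a|^2 + |z-b|^2)/2 - |a-b|^2/4 < s'^2 - (81/400) s^2 ≤ (1.006^2 - 0.2025) s^2 ≤ (0.9 s)^2`
(`1.006^2 = 1.012036 ≤ 1.0125`); so the lens is contained in the ball of radius `0.9 s` around the midpoint, of volume `0.9^d V(s)` (C2: vB_eq, VR_eq).
`near`: `volume (ball a (9/10 s)) = 0.9^d V(s)`.
`J_le`: split the outer integral over `z ∈ ball a s'` according to `9/10 s ≤ dist z b` (then the inner integral is the volume of `ball b s' ∩ ball z s'`, `≤ 0.9^d V(s)` by `lens`; total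
`≤ V(s') 0.9^d V(s)`) or `dist z b < 9/10 s` (measure `≤ 0.9^d V(s)`, inner integral `≤ V(s')`).
-/
import Pool.Agent.Lib.SM3X.C2

set_option autoImplicit false

open MeasureTheory Set

namespace Pool.SM3X

private theorem C4_vB (d : ℕ) (s : ℝ) : vB d s = ENNReal.ofReal (VR d s) := by
  rw [vB, vB_eq]

private theorem C4_ball {d : ℕ} (a : XX d) (s : ℝ) : volume (Metric.ball a s) = vB d s := by
  rw [vB_eq, C4_vB]

private theorem C4_near {d : ℕ} (hd : 1 ≤ d) {s : ℝ} (hs : 0 < s) :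
    vB d (9 / 10 * s) = ENNReal.ofReal ((9 / 10) ^ d) * vB d s := by
  rw [C4_vB, C4_vB, ← ENNReal.ofReal_mul (by positivity), VR_eq hd (by positivity : 0 ≤ 9 / 10 * s),
    VR_eq hd hs.le, mul_pow, mul_assoc]

private theorem C4_mono {d : ℕ} {s t : ℝ} (h : s ≤ t) : vB d s ≤ vB d t := by
  rw [C4_vB, C4_vB]
  exact ENNReal.ofReal_le_ofReal (VR_mono d h)

theorem lens {d : ℕ} (hd : 1 ≤ d) {s s' : ℝ} (hs : 0 < s) (hs' : s' ≤ (1 + 3 / 500) * s)
    {a b : XX d} (hab : 9 / 10 * s ≤ dist a b) :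
    volume (Metric.ball a s' ∩ Metric.ball b s') ≤ ENNReal.ofReal ((9 / 10) ^ d) * vB d s := by
  rw [← C4_near hd hs, ← C4_ball ((2 : ℝ)⁻¹ • (a + b)) (9 / 10 * s)]
  apply measure_mono
  rintro z ⟨hza, hzb⟩
  rw [Metric.mem_ball, dist_eq_norm] at hza hzb ⊢
  rw [dist_eq_norm] at hab
  have h1 := parallelogram_law_with_norm ℝ (z - a) (z - b)
  have e1 : (z - a) + (z - b) = (2 : ℝ) • (z - (2 : ℝ)⁻¹ • (a + b)) := by
    rw [smul_sub, smul_smul, mul_inv_cancel₀ (by norm_num : (2 : ℝ) ≠ 0), one_smul, two_smul]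
    abel
  have e2 : (z - a) - (z - b) = -(a - b) := by abel
  rw [e1, e2, norm_neg, norm_smul, Real.norm_eq_abs, abs_of_pos (by norm_num : (0 : ℝ) < 2)] at h1
  have h2 : 0 ≤ ‖z - a‖ := norm_nonneg _
  have h3 : 0 ≤ ‖z - b‖ := norm_nonneg _
  have hs'0 : 0 < s' := lt_of_le_of_lt h2 hza
  have h4 : ‖z - a‖ * ‖z - a‖ < s' * s' := mul_self_lt_mul_self h2 hza
  have h5 : ‖z - b‖ * ‖z - b‖ < s' * s' := mul_self_lt_mul_self h3 hzb
  have h6 : (9 / 10 * s) * (9 / 10 * s) ≤ ‖a - b‖ * ‖a - b‖ :=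
    mul_self_le_mul_self (by positivity) hab
  have h7 : s' * s' ≤ ((1 + 3 / 500) * s) * ((1 + 3 / 500) * s) :=
    mul_self_le_mul_self hs'0.le hs'
  have h8 : 0 < s * s := by positivity
  have h9 : ‖z - (2 : ℝ)⁻¹ • (a + b)‖ * ‖z - (2 : ℝ)⁻¹ • (a + b)‖ <
      (9 / 10 * s) * (9 / 10 * s) := by
    nlinarith
  exact lt_of_mul_self_lt_mul_self₀ (by positivity) h9

theorem near {d : ℕ} (hd : 1 ≤ d) {s : ℝ} (hs : 0 < s) (a : XX d) :
    volume (Metric.ball a (9 / 10 * s)) = ENNReal.ofReal ((9 / 10) ^ d) * vB d s := by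
  rw [C4_ball, C4_near hd hs]

theorem J_le {d : ℕ} (hd : 1 ≤ d) {s s' : ℝ} (hs : 0 < s) (hss : s ≤ s')
    (hs' : s' ≤ (1 + 3 / 500) * s) (a b : XX d) :
    ∫⁻ z in Metric.ball a s', volume (Metric.ball z s' ∩ Metric.ball b s')
      ≤ 2 * ENNReal.ofReal ((9 / 10) ^ d) * vB d s' ^ 2 := by
  set c := ENNReal.ofReal ((9 / 10) ^ d) with hc
  set N := Metric.ball b (9 / 10 * s) with hN
  have h1 : ∀ z : XX d, volume (Metric.ball z s' ∩ Metric.ball b s') ≤
      c * vB d s + N.indicator (fun _ => vB d s') z := by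
    intro z
    by_cases hz : z ∈ N
    · rw [indicator_of_mem hz]
      refine le_trans ?_ le_add_self
      rw [← C4_ball z s']
      exact measure_mono inter_subset_left
    · rw [indicator_of_notMem hz, add_zero]
      apply lens hd hs hs'
      rw [hN, Metric.mem_ball, not_lt] at hz
      exact hz
  calc ∫⁻ z in Metric.ball a s', volume (Metric.ball z s' ∩ Metric.ball b s')
      ≤ ∫⁻ z in Metric.ball a s', (c * vB d s + N.indicator (fun _ => vB d s') z) :=
        lintegral_mono fun z => h1 z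
    _ = c * vB d s * volume (Metric.ball a s') +
        ∫⁻ z in Metric.ball a s', N.indicator (fun _ => vB d s') z := by
        rw [lintegral_add_left measurable_const, lintegral_const, Measure.restrict_apply_univ]
    _ ≤ c * vB d s * volume (Metric.ball a s') + ∫⁻ z, N.indicator (fun _ => vB d s') z := by
        gcongr
        exact Measure.restrict_le_self
    _ = c * vB d s * vB d s' + vB d s' * (c * vB d s) := by
        rw [lintegral_indicator Metric.isOpen_ball.measurableSet, lintegral_const,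
          Measure.restrict_apply_univ, C4_ball, near hd hs]
    _ ≤ c * vB d s' * vB d s' + vB d s' * (c * vB d s') := by
        have := C4_mono (d := d) hss
        gcongr
    _ = 2 * c * vB d s' ^ 2 := by ring

end Pool.SM3X
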