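/-
SM3X.D1 : the recursion for the greedy matching of a finite set (port of SM3.B1 and SM3.B2 to a metric space).
-/
import Pool.Agent.Lib.SM3X.Defs

set_option autoImplicit false

open MeasureTheory Set

namespace Pool.SM3X

variable {X : Type} [MetricSpace X]

theorem MtN_symm {Y : Set (CP X)} {n : ℕ} {x y : CP X} (h : MtN Y n x y) : MtN Y n y x := by
  cases n with
  | zero => exact h
  | succ n =>
    obtain ⟨hx, hy, hc, h1, h2⟩ := h
    refine ⟨hy, hx, hc.symm, ?_, ?_⟩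
    · intro z hz
      rw [dist_comm y.1 x.1] at hz
      exact h2 z hz
    · intro z hz
      rw [dist_comm y.1 x.1] at hz
      exact h1 z hz

theorem MtN_mem {Y : Set (CP X)} {n : ℕ} {x y : CP X} (h : MtN Y n x y) : x ∈ Y ∧ y ∈ Y ∧ x.2 ≠ y.2 := by
  cases n with
  | zero => exact h.elim
  | succ n => exact ⟨h.1, h.2.1, h.2.2.1⟩

theorem Mt_symm {Y : Set (CP X)} {x y : CP X} (h : Mt Y x y) : Mt Y y x := by
  obtain ⟨N, hN⟩ := h
  exact ⟨N, fun n hn => MtN_symm (hN n hn)⟩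

theorem Mt_mem {Y : Set (CP X)} {x y : CP X} (h : Mt Y x y) : x ∈ Y ∧ y ∈ Y ∧ x.2 ≠ y.2 := by
  obtain ⟨N, hN⟩ := h
  exact MtN_mem (hN N le_rfl)

private def B1S (Y : Set (CP X)) (d : ℝ) : Set (CP X × CP X) :=
  {q | q.1 ∈ Y ∧ q.2 ∈ Y ∧ (dist q.1.1 q.2.1) < d}

private theorem B1S_fin {Y : Set (CP X)} (hY : Y.Finite) (d : ℝ) : (B1S Y d).Finite :=
  (hY.prod hY).subset (fun _ hq => ⟨hq.1, hq.2.1⟩)

private theorem B1S_card {Y : Set (CP X)} (hY : Y.Finite) (d : ℝ) : (B1S Y d).ncard ≤ Y.ncard ^ 2 := by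
  have : (B1S Y d).ncard ≤ (Y ×ˢ Y).ncard :=
    Set.ncard_le_ncard (fun _ hq => ⟨hq.1, hq.2.1⟩) (hY.prod hY)
  rw [Set.ncard_prod] at this
  rw [pow_two]
  exact this

private theorem B1_rk {Y : Set (CP X)} (hY : Y.Finite) {x z : CP X} {d : ℝ} (hx : x ∈ Y) (hz : z ∈ Y)
    (h : (dist x.1 z.1) < d) : (B1S Y (dist x.1 z.1)).ncard < (B1S Y d).ncard := by
  refine Set.ncard_lt_ncard ?_ (B1S_fin hY d)
  refine ⟨fun q hq => ⟨hq.1, hq.2.1, hq.2.2.trans h⟩, fun hsub => ?_⟩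
  have : (x, z) ∈ B1S Y (dist x.1 z.1) := hsub ⟨hx, hz, h⟩
  exact lt_irrefl _ this.2.2

private theorem B1_stab {Y : Set (CP X)} (hY : Y.Finite) : ∀ (k : ℕ) (x y : CP X),
    (B1S Y (dist x.1 y.1)).ncard ≤ k → ∀ m m' : ℕ, k + 1 ≤ m → k + 1 ≤ m' →
    (MtN Y m x y ↔ MtN Y m' x y) := by
  intro k
  induction k using Nat.strong_induction_on with
  | _ k ih =>
    intro x y hk m m' hm hm'
    obtain ⟨m, rfl⟩ : ∃ i, m = i + 1 := ⟨m - 1, by omega⟩
    obtain ⟨m', rfl⟩ : ∃ i, m' = i + 1 := ⟨m' - 1, by omega⟩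
    have key : ∀ v ∈ Y, ∀ z : CP X, (dist v.1 z.1) < (dist x.1 y.1) → (MtN Y m v z ↔ MtN Y m' v z) := by
      intro v hv z hz
      by_cases hzY : z ∈ Y
      · have hlt := B1_rk hY hv hzY hz
        have hlt' : (B1S Y (dist v.1 z.1)).ncard < k := lt_of_lt_of_le hlt hk
        exact ih _ hlt' v z le_rfl m m' (by omega) (by omega)
      · constructor
        · intro h
          exact absurd (MtN_mem h).2.1 hzY
        · intro h
          exact absurd (MtN_mem h).2.1 hzY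
    constructor
    · rintro ⟨hx, hy, hc, h1, h2⟩
      exact ⟨hx, hy, hc, fun z hz hh => h1 z hz ((key x hx z hz).2 hh),
        fun z hz hh => h2 z hz ((key y hy z hz).2 hh)⟩
    · rintro ⟨hx, hy, hc, h1, h2⟩
      exact ⟨hx, hy, hc, fun z hz hh => h1 z hz ((key x hx z hz).1 hh),
        fun z hz hh => h2 z hz ((key y hy z hz).1 hh)⟩

theorem Mt_iff_MtN {Y : Set (CP X)} (hY : Y.Finite) {n : ℕ} (hn : Y.ncard ^ 2 + 1 ≤ n) (x y : CP X) :
    Mt Y x y ↔ MtN Y n x y := by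
  have hs := B1_stab hY (Y.ncard ^ 2) x y (B1S_card hY _)
  constructor
  · rintro ⟨N, hN⟩
    exact (hs (max N n) n (le_trans hn (le_max_right _ _)) hn).1 (hN _ (le_max_left _ _))
  · intro h
    exact ⟨n, fun m hm => (hs m n (hn.trans hm) hn).2 h⟩

theorem Mt_rec {Y : Set (CP X)} (hY : Y.Finite) (r : ℝ) : Rec Y r (Mt Y) := by
  intro x y _
  have h1 := Mt_iff_MtN hY (n := Y.ncard ^ 2 + 1) le_rfl
  have h2 := Mt_iff_MtN hY (n := Y.ncard ^ 2 + 1 + 1) (by omega)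
  rw [h2 x y]
  constructor
  · rintro ⟨hx, hy, hc, ha, hb⟩
    exact ⟨hx, hy, hc, fun z hz hh => ha z hz ((h1 x z).1 hh),
      fun z hz hh => hb z hz ((h1 y z).1 hh)⟩
  · rintro ⟨hx, hy, hc, ha, hb⟩
    exact ⟨hx, hy, hc, fun z hz hh => ha z hz ((h1 x z).2 hh),
      fun z hz hh => hb z hz ((h1 y z).2 hh)⟩

theorem Rec.mono {Y : Set (CP X)} {r r' : ℝ} {M : CP X → CP X → Prop} (h : Rec Y r M) (hr : r' ≤ r) :
    Rec Y r' M := fun x y hxy => h x y (lt_of_lt_of_le hxy hr)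

/-- the pairs of points of `Y` at distance `< d` -/
private def b2P (Y : Set (CP X)) (d : ℝ) : Set (CP X × CP X) := {q | q ∈ Y ×ˢ Y ∧ (dist q.1.1 q.2.1) < d}

private theorem b2_lt {Y : Set (CP X)} (hY : Y.Finite) {d : ℝ} {x z : CP X} (hx : x ∈ Y) (hz : z ∈ Y)
    (hd : (dist x.1 z.1) < d) : (b2P Y (dist x.1 z.1)).ncard < (b2P Y d).ncard := by
  refine Set.ncard_lt_ncard ?_ ((hY.prod hY).subset fun q hq => hq.1)
  refine Set.ssubset_iff_subset_ne.mpr ⟨fun q hq => ⟨hq.1, hq.2.trans hd⟩, fun he => ?_⟩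
  have h1 : (x, z) ∈ b2P Y d := ⟨⟨hx, hz⟩, hd⟩
  rw [← he] at h1
  exact lt_irrefl _ h1.2

private theorem b2_uniq {Y : Set (CP X)} (hY : Y.Finite) {r : ℝ} {M M' : CP X → CP X → Prop} (h : Rec Y r M)
    (h' : Rec Y r M') (n : ℕ) : ∀ x y : CP X, (dist x.1 y.1) < r → (b2P Y (dist x.1 y.1)).ncard = n →
      (M x y ↔ M' x y) := by
  induction n using Nat.strong_induction_on with
  | _ n ih =>
    intro x y hxy hn
    have key : ∀ a z : CP X, (dist a.1 z.1) < (dist x.1 y.1) → (M a z ↔ M' a z) := by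
      intro a z haz
      by_cases hm : a ∈ Y ∧ z ∈ Y
      · exact ih _ (by rw [← hn]; exact b2_lt hY hm.1 hm.2 haz) a z (haz.trans hxy) rfl
      · constructor
        · intro h1
          have h2 := (h a z (haz.trans hxy)).mp h1
          exact absurd ⟨h2.1, h2.2.1⟩ hm
        · intro h1
          have h2 := (h' a z (haz.trans hxy)).mp h1
          exact absurd ⟨h2.1, h2.2.1⟩ hm
    rw [h x y hxy, h' x y hxy]
    have e1 : (∀ z, (dist x.1 z.1) < (dist x.1 y.1) → ¬ M x z) ↔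
        (∀ z, (dist x.1 z.1) < (dist x.1 y.1) → ¬ M' x z) :=
      forall_congr' fun z => forall_congr' fun hz => not_congr (key x z hz)
    have e2 : (∀ z, (dist y.1 z.1) < (dist x.1 y.1) → ¬ M y z) ↔
        (∀ z, (dist y.1 z.1) < (dist x.1 y.1) → ¬ M' y z) :=
      forall_congr' fun z => forall_congr' fun hz => not_congr (key y z hz)
    rw [e1, e2]

theorem Rec_unique {Y : Set (CP X)} (hY : Y.Finite) {r : ℝ} {M M' : CP X → CP X → Prop} (h : Rec Y r M)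
    (h' : Rec Y r M') {x y : CP X} (hxy : (dist x.1 y.1) < r) : M x y ↔ M' x y :=
  b2_uniq hY h h' _ x y hxy rfl

theorem Rec_restrict {Y H : Set (CP X)} (hH : H ⊆ Y) {r : ℝ} {M : CP X → CP X → Prop} (hM : Rec Y r M)
    (hs : ∀ x y, M x y → M y x)
    (hiso : ∀ x ∈ H, ∀ z, M x z → (dist x.1 z.1) < r → z ∈ H) :
    Rec H r (fun x y => M x y ∧ x ∈ H ∧ y ∈ H) := by
  intro x y hxy
  constructor
  · rintro ⟨hm, hx, hy⟩
    obtain ⟨_, _, hc, h1, h2⟩ := (hM x y hxy).mp hm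
    exact ⟨hx, hy, hc, fun z hz hc' => h1 z hz hc'.1, fun z hz hc' => h2 z hz hc'.1⟩
  · rintro ⟨hx, hy, hc, h1, h2⟩
    refine ⟨(hM x y hxy).mpr ⟨hH hx, hH hy, hc, fun z hz hm => ?_, fun z hz hm => ?_⟩, hx, hy⟩
    · exact h1 z hz ⟨hm, hx, hiso x hx z hm (lt_trans hz hxy)⟩
    · exact h2 z hz ⟨hm, hy, hiso y hy z hm (lt_trans hz hxy)⟩

theorem Mt_restrict {Y H : Set (CP X)} (hH : H ⊆ Y) (hHf : H.Finite) {r : ℝ} {M : CP X → CP X → Prop}
    (hM : Rec Y r M) (hs : ∀ x y, M x y → M y x)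
    (hiso : ∀ x ∈ H, ∀ z, M x z → (dist x.1 z.1) < r → z ∈ H)
    {x y : CP X} (hx : x ∈ H) (hy : y ∈ H) (hxy : (dist x.1 y.1) < r) : M x y ↔ Mt H x y := by
  have h1 := Rec_unique hHf (Rec_restrict hH hM hs hiso) (Mt_rec hHf r) hxy
  exact ⟨fun h => h1.mp ⟨h, hx, hy⟩, fun h => (h1.mpr h).1⟩

/-- for compatible points: matched iff none of the two has a partner which is closer -/
theorem Mt_iff_Fr {Y : Set (CP X)} (hY : Y.Finite) {x y : CP X} (hx : x ∈ Y) (hy : y ∈ Y)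
    (hc : x.2 ≠ y.2) : Mt Y x y ↔ Fr Y (dist x.1 y.1) x ∧ Fr Y (dist x.1 y.1) y := by
  rw [Mt_rec hY ((dist x.1 y.1) + 1) x y (lt_add_one _)]
  constructor
  · rintro ⟨_, _, _, h1, h2⟩
    exact ⟨fun z hz => le_of_not_gt fun hlt => h1 z hlt hz,
      fun z hz => le_of_not_gt fun hlt => h2 z hlt hz⟩
  · rintro ⟨h1, h2⟩
    exact ⟨hx, hy, hc, fun z hlt hz => absurd (h1 z hz) (not_le_of_gt hlt),
      fun z hlt hz => absurd (h2 z hz) (not_le_of_gt hlt)⟩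

theorem Fr.mono {Y : Set (CP X)} {r r' : ℝ} {x : CP X} (h : Fr Y r x) (hr : r' ≤ r) : Fr Y r' x :=
  fun y hy => le_trans hr (h y hy)

/-- without isosceles triples the partner is unique -/
theorem Mt_partner_unique {Y : Set (CP X)} (hY : Y.Finite) (hN : NoIso Y) {x y z : CP X} (h : Mt Y x y)
    (h' : Mt Y x z) : y = z := by
  obtain ⟨hx, hy, _, h1, _⟩ := (Mt_rec hY ((dist x.1 y.1) + 1) x y (lt_add_one _)).mp h
  obtain ⟨_, hz, _, h2, _⟩ := (Mt_rec hY ((dist x.1 z.1) + 1) x z (lt_add_one _)).mp h'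
  rcases lt_trichotomy (dist x.1 y.1) (dist x.1 z.1) with hlt | heq | hgt
  · exact absurd h (h2 y hlt)
  · exact hN x hx y hy z hz heq
  · exact absurd h' (h1 z hgt)

end Pool.SM3X
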