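/-
SM3X.D2 : aliveness with removal.
PROOF. `Rch_mono`: a chain in `Y` from `(a,s)` is a chain in `Y' ⊇ Y` from `(a,s')`, `s ≤ s'`.
`NoCh_card`: a chain of length `k` in a finite set `Y` has `k ≤ ncard Y`.
`AlN_stable`: if there is no chain of length `n` then `AlN m` does not depend on `m ≥ n`.
`AlN_congr_ball`: `AlN n Y a r` depends only on the points of `Y` in the ball of radius `n r`.
`rec_AlN`: induction on `n` (with removal of `x`; `M` restricted to `Y \ {x}` satisfies the recursion for lengths `< ρ` if `x` has no partner at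
distance `< ρ`).
-/
import Pool.Agent.Lib.SM3X.D1

set_option autoImplicit false

open MeasureTheory Set

namespace Pool.SM3X

variable {X : Type} [MetricSpace X]

theorem Rch_mono {k : ℕ} : ∀ {Y Y' : Set (CP X)} {a : X} {s s' : ℝ} {u : X} {τ : ℝ} {Q : Set (CP X)},
    Rch k Y a s u τ Q → Y ⊆ Y' → s ≤ s' →
    ∃ τ' Q', Rch k Y' a s' u τ' Q' ∧ τ ≤ τ' ∧ Q ⊆ Q' := by
  induction k with
  | zero =>
    intro Y Y' a s s' u τ Q h hY hs
    obtain ⟨rfl, rfl, rfl⟩ := h
    exact ⟨s', Y', ⟨rfl, rfl, rfl⟩, hs, hY⟩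
  | succ k ih =>
    intro Y Y' a s s' u τ Q h hY hs
    obtain ⟨y, hy, hd, hr⟩ := h
    obtain ⟨τ', Q', h1, h2, h3⟩ := ih hr (Set.diff_subset_diff_left hY) le_rfl
    exact ⟨τ', Q', ⟨y, hY hy, hd.trans_le hs, h1⟩, h2, h3⟩

theorem NoCh.mono {n : ℕ} {Y Y' : Set (CP X)} {a : X} {s s' : ℝ} (h : NoCh n Y' a s') (hY : Y ⊆ Y')
    (hs : s ≤ s') : NoCh n Y a s := by
  intro u τ Q hr
  obtain ⟨τ', Q', h1, -, -⟩ := Rch_mono hr hY hs
  exact h _ _ _ h1

theorem not_NoCh_zero {Y : Set (CP X)} {a : X} {s : ℝ} : ¬ NoCh 0 Y a s :=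
  fun h => h a s Y ⟨rfl, rfl, rfl⟩

theorem NoCh.tail {n : ℕ} {Y : Set (CP X)} {a : X} {s : ℝ} (h : NoCh (n + 1) Y a s) {y : CP X}
    (hy : y ∈ Y) (hd : dist a y.1 < s) : NoCh n (Y \ {y}) y.1 (dist a y.1) :=
  fun u τ Q hr => h u τ Q ⟨y, hy, hd, hr⟩

theorem NoCh.succ {n : ℕ} : ∀ {Y : Set (CP X)} {a : X} {s : ℝ}, NoCh n Y a s → NoCh (n + 1) Y a s := by
  induction n with
  | zero => intro Y a s h; exact absurd h not_NoCh_zero
  | succ n ih =>
    intro Y a s h u τ Q hr
    obtain ⟨y, hy, hd, hr⟩ := hr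
    exact ih (h.tail hy hd) u τ Q hr

theorem NoCh.le {n m : ℕ} {Y : Set (CP X)} {a : X} {s : ℝ} (h : NoCh n Y a s) (hm : n ≤ m) :
    NoCh m Y a s := by
  induction m, hm using Nat.le_induction with
  | base => exact h
  | succ m _ ih => exact ih.succ

theorem NoCh_card {k : ℕ} : ∀ {Y : Set (CP X)} {a : X} {s : ℝ}, Y.Finite → Y.ncard < k →
    NoCh k Y a s := by
  induction k with
  | zero => intro Y a s _ h; omega
  | succ k ih =>
    intro Y a s hY h u τ Q hr
    obtain ⟨y, hy, hd, hr⟩ := hr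
    have h1 : (Y \ {y}).ncard < k := by
      have h2 := Set.ncard_diff_singleton_lt_of_mem hy hY
      omega
    exact ih (hY.subset Set.diff_subset) h1 u τ Q hr

theorem AlN_stable {n : ℕ} : ∀ {Y : Set (CP X)} {a : CP X} {r : ℝ} {m m' : ℕ},
    NoCh n Y a.1 r → n ≤ m → n ≤ m' → (AlN m Y a r ↔ AlN m' Y a r) := by
  induction n with
  | zero => intro Y a r m m' h _ _; exact absurd h not_NoCh_zero
  | succ n ih =>
    intro Y a r m m' h hm hm'
    obtain ⟨m, rfl⟩ : ∃ i, m = i + 1 := ⟨m - 1, by omega⟩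
    obtain ⟨m', rfl⟩ : ∃ i, m' = i + 1 := ⟨m' - 1, by omega⟩
    have key : ∀ y ∈ Y, dist a.1 y.1 < r →
        (AlN m (Y \ {y}) y (dist a.1 y.1) ↔ AlN m' (Y \ {y}) y (dist a.1 y.1)) :=
      fun y hy hd => ih (h.tail hy hd) (by omega) (by omega)
    constructor
    · intro h1 y hy hc hd h2
      exact h1 y hy hc hd ((key y hy hd).2 h2)
    · intro h1 y hy hc hd h2
      exact h1 y hy hc hd ((key y hy hd).1 h2)

theorem AlN_congr_ball {n : ℕ} : ∀ {Y Y' : Set (CP X)} {a : CP X} {r : ℝ}, 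
    (∀ y : CP X, dist a.1 y.1 < n * r → (y ∈ Y ↔ y ∈ Y')) → (AlN n Y a r ↔ AlN n Y' a r) := by
  induction n with
  | zero => intro Y Y' a r _; exact Iff.rfl
  | succ n ih =>
    intro Y Y' a r h
    by_cases hr : 0 < r
    · have hnr : 0 ≤ (n : ℝ) * r := by positivity
      have hcast : ((n + 1 : ℕ) : ℝ) * r = n * r + r := by push_cast; ring
      have key : ∀ y : CP X, dist a.1 y.1 < r →
          (AlN n (Y \ {y}) y (dist a.1 y.1) ↔ AlN n (Y' \ {y}) y (dist a.1 y.1)) := by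
        intro y hd
        refine ih fun z hz => ?_
        have h1 : dist a.1 z.1 < ((n + 1 : ℕ) : ℝ) * r := by
          have h2 := dist_triangle a.1 y.1 z.1
          have h3 : (n : ℝ) * dist a.1 y.1 ≤ n * r :=
            mul_le_mul_of_nonneg_left hd.le (Nat.cast_nonneg n)
          rw [hcast]
          linarith
        rw [Set.mem_diff, Set.mem_diff, h z h1]
      have hm : ∀ y : CP X, dist a.1 y.1 < r → (y ∈ Y ↔ y ∈ Y') := fun y hd =>
        h y (by rw [hcast]; linarith)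
      constructor
      · intro h1 y hy hc hd h2
        exact h1 y ((hm y hd).2 hy) hc hd ((key y hd).2 h2)
      · intro h1 y hy hc hd h2
        exact h1 y ((hm y hd).1 hy) hc hd ((key y hd).1 h2)
    · have h0 : ∀ y : CP X, ¬ dist a.1 y.1 < r := fun y hd =>
        hr (lt_of_le_of_lt dist_nonneg hd)
      constructor
      · intro _ y _ _ hd
        exact absurd hd (h0 y)
      · intro _ y _ _ hd
        exact absurd hd (h0 y)

/-- the restriction of `M` to `Y \ {x}` if `x` has no partner at distance `< ρ` -/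
theorem Rec_remove {Y : Set (CP X)} {r ρ : ℝ} {M : CP X → CP X → Prop} (hM : Rec Y r M)
    (hs : ∀ x y, M x y → M y x) (hρ : ρ ≤ r) {x : CP X} (hf : ∀ y, M x y → ρ ≤ dist x.1 y.1) :
    Rec (Y \ {x}) ρ (fun u v => M u v ∧ u ∈ Y \ {x} ∧ v ∈ Y \ {x}) := by
  refine Rec_restrict Set.diff_subset (hM.mono hρ) hs ?_
  intro v hv z hvz hd
  have h1 := (hM v z (hd.trans_le hρ)).1 hvz
  refine ⟨h1.2.1, fun hz => ?_⟩
  rw [Set.mem_singleton_iff] at hz
  subst hz
  have h2 := hf v (hs _ _ hvz)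
  rw [dist_comm] at h2
  linarith

/-- aliveness describes the solutions of the recursion -/
theorem rec_AlN {n : ℕ} : ∀ {Y : Set (CP X)} {M : CP X → CP X → Prop} {x : CP X} {r s : ℝ},
    Rec Y r M → (∀ x y, M x y → M y x) → x ∈ Y → s ≤ r → NoCh n (Y \ {x}) x.1 s →
    ((∀ y, M x y → s ≤ dist x.1 y.1) ↔ AlN n (Y \ {x}) x s) := by
  induction n with
  | zero => intro Y M x r s _ _ _ _ h; exact absurd h not_NoCh_zero
  | succ n ih =>
    intro Y M x r s hM hs hx hsr hn
    -- the partner condition for a point `y` if `x` has no closer partner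
    have key : ∀ y ∈ Y \ {x}, dist x.1 y.1 < s → (∀ z, M x z → dist x.1 y.1 ≤ dist x.1 z.1) →
        ((∀ z, dist y.1 z.1 < dist x.1 y.1 → ¬ M y z) ↔ AlN n ((Y \ {x}) \ {y}) y (dist x.1 y.1)) := by
      intro y hy hd hf
      have h1 := Rec_remove hM hs (hd.le.trans hsr) hf
      have h2 := ih (M := fun u v => M u v ∧ u ∈ Y \ {x} ∧ v ∈ Y \ {x}) h1
        (fun u v h => ⟨hs _ _ h.1, h.2.2, h.2.1⟩) hy le_rfl (hn.tail hy hd)
      rw [← h2]
      constructor
      · intro h3 z hz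
        by_contra hlt
        exact h3 z (not_le.1 hlt) hz.1
      · intro h3 z hz hyz
        have h4 := (hM y z (hz.trans (hd.trans_le hsr))).1 hyz
        have h5 : z ∈ Y \ {x} := by
          refine ⟨h4.2.1, fun hzx => ?_⟩
          rw [Set.mem_singleton_iff] at hzx
          subst hzx
          rw [dist_comm] at hz
          exact lt_irrefl _ hz
        have h6 := h3 z ⟨hyz, hy, h5⟩
        linarith
    constructor
    · intro hf y hy hc hd hal
      have h1 : ∀ z, M x z → dist x.1 y.1 ≤ dist x.1 z.1 := fun z hz => hd.le.trans (hf z hz)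
      have h2 := (key y hy hd h1).2 hal
      have h3 : M x y := (hM x y (hd.trans_le hsr)).2
        ⟨hx, hy.1, hc.symm, fun z hz hm => absurd (h1 z hm) (not_le.2 hz), h2⟩
      have := hf y h3
      linarith
    · intro hal y hxy
      by_contra hlt
      rw [not_le] at hlt
      obtain ⟨-, hy, hc, h1, h2⟩ := (hM x y (hlt.trans_le hsr)).1 hxy
      have hyx : y ∈ Y \ {x} := ⟨hy, fun h => hc (by rw [Set.mem_singleton_iff] at h; rw [h])⟩
      refine hal y hyx hc.symm hlt ((key y hyx hlt ?_).1 h2)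
      intro z hz
      by_contra h3
      exact h1 z (not_le.1 h3) hz

/-- the finite case -/
theorem Fr_iff_AlN {Y : Set (CP X)} (hY : Y.Finite) {a : CP X} (ha : a ∉ Y) {r : ℝ} {n : ℕ}
    (hn : NoCh n Y a.1 r) : Fr (insert a Y) r a ↔ AlN n Y a r := by
  have hd : insert a Y \ {a} = Y := by
    ext z
    simp only [Set.mem_diff, Set.mem_insert_iff, Set.mem_singleton_iff]
    constructor
    · rintro ⟨h1 | h1, h2⟩
      · exact absurd h1 h2
      · exact h1
    · intro h1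
      refine ⟨Or.inr h1, ?_⟩
      rintro rfl
      exact ha h1
  have h := rec_AlN (n := n) (Mt_rec (hY.insert a) r) (fun _ _ => Mt_symm) (Set.mem_insert a Y)
    le_rfl (by rw [hd]; exact hn)
  rw [hd] at h
  exact h

theorem Al_iff_AlN {Y : Set (CP X)} {a : CP X} {r : ℝ} {n : ℕ} (hn : NoCh n Y a.1 r) :
    Al Y a r ↔ AlN n Y a r := by
  constructor
  · rintro ⟨N, hN⟩
    exact (AlN_stable hn (le_max_left n N) le_rfl).1 (hN _ (le_max_right n N))
  · intro h
    exact ⟨n, fun m hm => (AlN_stable hn le_rfl hm).1 h⟩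

theorem Fr_iff_Al {Y : Set (CP X)} (hY : Y.Finite) {a : CP X} (ha : a ∉ Y) {r : ℝ} :
    Fr (insert a Y) r a ↔ Al Y a r := by
  have hn : NoCh (Y.ncard + 1) Y a.1 r := NoCh_card hY (Nat.lt_succ_self _)
  rw [Fr_iff_AlN hY ha hn, Al_iff_AlN hn]

/-- the recursion for aliveness in finite sets -/
theorem Al_rec {Y : Set (CP X)} (hY : Y.Finite) {a : CP X} {r : ℝ} :
    Al Y a r ↔ ∀ y ∈ Y, y.2 ≠ a.2 → dist a.1 y.1 < r → ¬ Al (Y \ {y}) y (dist a.1 y.1) := by
  have hn : NoCh (Y.ncard + 2) Y a.1 r := NoCh_card hY (by omega)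
  have key : ∀ y ∈ Y, dist a.1 y.1 < r →
      (Al (Y \ {y}) y (dist a.1 y.1) ↔ AlN (Y.ncard + 1) (Y \ {y}) y (dist a.1 y.1)) :=
    fun y hy hd => Al_iff_AlN (hn.tail hy hd)
  rw [Al_iff_AlN hn]
  constructor
  · intro h1 y hy hc hd h2
    exact h1 y hy hc hd ((key y hy hd).1 h2)
  · intro h1 y hy hc hd h2
    exact h1 y hy hc hd ((key y hy hd).2 h2)

theorem Fr_remove {Y : Set (CP X)} (hY : Y.Finite) {x y : CP X} {r : ℝ} (hf : Fr Y r x)
    (hxy : y ≠ x) : Fr Y r y ↔ Fr (Y \ {x}) r y := by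
  have hR := Rec_remove (Mt_rec hY r) (fun _ _ => Mt_symm) le_rfl hf
  have hY' : (Y \ {x}).Finite := hY.subset Set.diff_subset
  constructor
  · intro h z hz
    by_contra hlt
    rw [not_le] at hlt
    have h1 := (Rec_unique hY' hR (Mt_rec hY' r) hlt).2 hz
    exact absurd (h z h1.1) (not_le.2 hlt)
  · intro h z hz
    by_contra hlt
    rw [not_le] at hlt
    have h2 := Mt_mem hz
    have h3 : z ≠ x := by
      rintro rfl
      have h4 := hf y (Mt_symm hz)
      rw [dist_comm] at h4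
      linarith
    have h1 := (Rec_unique hY' hR (Mt_rec hY' r) hlt).1 ⟨hz, ⟨h2.1, hxy⟩, ⟨h2.2.1, h3⟩⟩
    exact absurd (h z h1) (not_le.2 hlt)

/-- two additional points are matched to each other -/
theorem Mt_iff_Al {Y : Set (CP X)} (hY : Y.Finite) {a b : CP X} (ha : a ∉ Y) (hb : b ∉ Y)
    (hab : a.2 ≠ b.2) : Mt (insert a (insert b Y)) a b ↔
      (Al (insert b Y) a (dist a.1 b.1) ∧ Al Y b (dist a.1 b.1)) := by
  have hne : b ≠ a := fun h => hab (by rw [h])
  have ha' : a ∉ insert b Y := by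
    rw [Set.mem_insert_iff]
    rintro (h | h)
    · exact hne h.symm
    · exact ha h
  have hd : insert a (insert b Y) \ {a} = insert b Y := by
    ext z
    simp only [Set.mem_diff, Set.mem_insert_iff, Set.mem_singleton_iff]
    constructor
    · rintro ⟨h1 | h1, h2⟩
      · exact absurd h1 h2
      · exact h1
    · intro h1
      refine ⟨Or.inr h1, ?_⟩
      rintro rfl
      exact ha' (by rw [Set.mem_insert_iff]; exact h1)
  have hfin : (insert a (insert b Y)).Finite := (hY.insert b).insert a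
  rw [Mt_iff_Fr hfin (Set.mem_insert _ _) (Set.mem_insert_of_mem _ (Set.mem_insert _ _)) hab,
    ← Fr_iff_Al (hY.insert b) ha', ← Fr_iff_Al hY hb]
  constructor
  · rintro ⟨h1, h2⟩
    refine ⟨h1, ?_⟩
    have h3 := (Fr_remove hfin h1 hne).1 h2
    rwa [hd] at h3
  · rintro ⟨h1, h2⟩
    refine ⟨h1, (Fr_remove hfin h1 hne).2 ?_⟩
    rwa [hd]

end Pool.SM3X
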