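/-
SM3X.D6 : tools for chains.
PROOF. `Rch_snoc`: induction on `k` (generalizing `Y a s`), both directions.
`Rch_sub`: induction on `k`: `Q ⊆ Y \ {y} ⊆ Y`, `τ ≤ dist a y.1 < s`.
`Rch_trunc`: induction on `k`.  `k = 0`: `Q = Y`.  `k + 1` with first point `y`: if `z = y` take the chain of length 0 (`dist z.1 a = dist a y.1 < s ≤ s + h`); else
`z ∈ Y \ {y}` and the induction hypothesis for `Y \ {y}` gives a chain, prefix `y`.
`Rch_dist`: induction: `dist a u ≤ dist a y.1 + dist y.1 u ≤ s + k (dist a y.1) ≤ s + k s` (for `k ≥ 1` steps `0 ≤ dist < s`).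
`Ex_sub_ball`: `z ∈ Ex`: chain of length `k < n` (otherwise `NoCh.le`-type argument: `NoCh n` implies `NoCh k` for `k ≥ n`, D2), `dist a z ≤ dist a u + dist u z < k s + s ≤ n s`.
`NoCh_congr_ball`: induction on `n` as AlN_congr_ball (D2).
`NoCh_insert`: a chain of length `2 m + 1` in `insert b Y`.  Prove by induction on `k` (for all `Y`, `a`, `s`): if `Rch k (insert b Y) a s u τ Q` with `b ∉ Y` (if `b ∈ Y` then
`insert b Y = Y` and NoCh.le), then either `Rch k Y a s u τ' Q'` for some `τ' Q'` (`b` is not used; `¬ NoCh k Y a s`), or there are `i j` with `i + j + 1 = k`,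
`¬ NoCh i Y a s` and `¬ NoCh j Y b.1 s` (prefix before `b`, suffix after `b`; use `Rch_mono`, D2).  If `k = 2 m + 1` then `i ≥ m` or `j ≥ m` (`NoCh.le`).
-/
import Pool.Agent.Lib.SM3X.D2

set_option autoImplicit false

open MeasureTheory Set

namespace Pool.SM3X

variable {X : Type} [MetricSpace X]

private theorem D6_snoc {k : ℕ} : ∀ {Y : Set (CP X)} {a : X} {s : ℝ} {u : X} {τ : ℝ}
    {Q : Set (CP X)}, Rch (k + 1) Y a s u τ Q ↔ ∃ u₁ τ₁ Q₁, Rch k Y a s u₁ τ₁ Q₁ ∧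
      ∃ y ∈ Q₁, dist u₁ y.1 < τ₁ ∧ u = y.1 ∧ τ = dist u₁ y.1 ∧ Q = Q₁ \ {y} := by
  induction k with
  | zero =>
    intro Y a s u τ Q
    constructor
    · rintro ⟨y, hy, hd, rfl, rfl, rfl⟩
      exact ⟨a, s, Y, ⟨rfl, rfl, rfl⟩, y, hy, hd, rfl, rfl, rfl⟩
    · rintro ⟨u₁, τ₁, Q₁, ⟨rfl, rfl, rfl⟩, y, hy, hd, h1, h2, h3⟩
      exact ⟨y, hy, hd, h1, h2, h3⟩
  | succ k ih =>
    intro Y a s u τ Q
    constructor
    · rintro ⟨y, hy, hd, hr⟩
      obtain ⟨u₁, τ₁, Q₁, h1, h2⟩ := ih.1 hr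
      exact ⟨u₁, τ₁, Q₁, ⟨y, hy, hd, h1⟩, h2⟩
    · rintro ⟨u₁, τ₁, Q₁, ⟨y, hy, hd, h1⟩, h2⟩
      exact ⟨y, hy, hd, ih.2 ⟨u₁, τ₁, Q₁, h1, h2⟩⟩

theorem Rch_snoc {k : ℕ} {Y : Set (CP X)} {a : X} {s : ℝ} {u : X} {τ : ℝ} {Q : Set (CP X)} :
    Rch (k + 1) Y a s u τ Q ↔ ∃ u₁ τ₁ Q₁, Rch k Y a s u₁ τ₁ Q₁ ∧
      ∃ y ∈ Q₁, dist u₁ y.1 < τ₁ ∧ u = y.1 ∧ τ = dist u₁ y.1 ∧ Q = Q₁ \ {y} := D6_snoc

private theorem D6_sub {k : ℕ} : ∀ {Y : Set (CP X)} {a : X} {s : ℝ} {u : X} {τ : ℝ}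
    {Q : Set (CP X)}, Rch k Y a s u τ Q → Q ⊆ Y ∧ τ ≤ s := by
  induction k with
  | zero =>
    rintro Y a s u τ Q ⟨rfl, rfl, rfl⟩
    exact ⟨Subset.rfl, le_rfl⟩
  | succ k ih =>
    rintro Y a s u τ Q ⟨y, hy, hd, hr⟩
    obtain ⟨h1, h2⟩ := ih hr
    exact ⟨h1.trans Set.sdiff_subset, h2.trans hd.le⟩

theorem Rch_sub {k : ℕ} {Y : Set (CP X)} {a : X} {s : ℝ} {u : X} {τ : ℝ} {Q : Set (CP X)}
    (h : Rch k Y a s u τ Q) : Q ⊆ Y ∧ τ ≤ s := D6_sub h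

private theorem D6_trunc {k : ℕ} {z : CP X} {e : ℝ} (he : 0 ≤ e) : ∀ {Y : Set (CP X)} {a : X}
    {s : ℝ} {u : X} {τ : ℝ} {Q : Set (CP X)}, Rch k Y a s u τ Q → z ∈ Y → dist z.1 u < τ + e →
    ∃ k' u' τ' Q', Rch k' Y a s u' τ' Q' ∧ z ∈ Q' ∧ dist z.1 u' < τ' + e := by
  induction k with
  | zero =>
    rintro Y a s u τ Q ⟨rfl, rfl, rfl⟩ hz hd
    exact ⟨0, u, τ, Q, ⟨rfl, rfl, rfl⟩, hz, hd⟩
  | succ k ih =>
    rintro Y a s u τ Q ⟨y, hy, hay, hr⟩ hz hd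
    by_cases hzy : z = y
    · subst hzy
      refine ⟨0, a, s, Y, ⟨rfl, rfl, rfl⟩, hz, ?_⟩
      rw [dist_comm]
      linarith
    · obtain ⟨k', u', τ', Q', h1, h2, h3⟩ := ih hr ⟨hz, hzy⟩ hd
      exact ⟨k' + 1, u', τ', Q', ⟨y, hy, hay, h1⟩, h2, h3⟩

theorem Rch_trunc {k : ℕ} {Y : Set (CP X)} {a : X} {s : ℝ} {u : X} {τ : ℝ} {Q : Set (CP X)}
    (h : Rch k Y a s u τ Q) {z : CP X} (hz : z ∈ Y) {e : ℝ} (he : 0 ≤ e)
    (hd : dist z.1 u < τ + e) :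
    ∃ k' u' τ' Q', Rch k' Y a s u' τ' Q' ∧ z ∈ Q' ∧ dist z.1 u' < τ' + e :=
  D6_trunc he h hz hd

private theorem D6_dist {k : ℕ} : ∀ {Y : Set (CP X)} {a : X} {s : ℝ} {u : X} {τ : ℝ}
    {Q : Set (CP X)}, Rch k Y a s u τ Q → dist a u ≤ k * s := by
  induction k with
  | zero =>
    rintro Y a s u τ Q ⟨rfl, rfl, rfl⟩
    simp
  | succ k ih =>
    rintro Y a s u τ Q ⟨y, hy, hay, hr⟩
    have h1 := ih hr
    have h2 := dist_triangle a y.1 u
    have h3 : (k : ℝ) * dist a y.1 ≤ k * s := mul_le_mul_of_nonneg_left hay.le (Nat.cast_nonneg k)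
    push_cast
    linarith

theorem Rch_dist {k : ℕ} {Y : Set (CP X)} {a : X} {s : ℝ} {u : X} {τ : ℝ} {Q : Set (CP X)}
    (h : Rch k Y a s u τ Q) : dist a u ≤ k * s := D6_dist h

theorem Ex_sub_ball {n : ℕ} {Y : Set (CP X)} {a : X} {s : ℝ} (h : NoCh n Y a s) {z : X}
    (hz : z ∈ Ex Y a s) : dist a z < n * s := by
  obtain ⟨k, u, τ, Q, hr, hd⟩ := hz
  have hk : k < n := by
    by_contra hk
    exact h.le (not_lt.1 hk) u τ Q hr
  have h1 := Rch_dist hr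
  have h2 := (Rch_sub hr).2
  have h3 := dist_triangle a u z
  rw [dist_comm z u] at hd
  have h4 : ((k : ℝ) + 1) ≤ n := by exact_mod_cast hk
  have hs : 0 < s := lt_of_le_of_lt dist_nonneg (hd.trans_le h2)
  have h5 : ((k : ℝ) + 1) * s ≤ n * s := mul_le_mul_of_nonneg_right h4 hs.le
  linarith

private theorem D6_congr {n : ℕ} : ∀ {Y Y' : Set (CP X)} {a : X} {s : ℝ},
    (∀ y : CP X, dist a y.1 < n * s → (y ∈ Y ↔ y ∈ Y')) → NoCh n Y a s → NoCh n Y' a s := by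
  induction n with
  | zero =>
    intro Y Y' a s _ h
    exact absurd h not_NoCh_zero
  | succ n ih =>
    rintro Y Y' a s h hn u τ Q ⟨y, hy, hay, hr⟩
    have hs : 0 < s := lt_of_le_of_lt dist_nonneg hay
    have hns : 0 ≤ (n : ℝ) * s := by positivity
    have hcast : ((n + 1 : ℕ) : ℝ) * s = n * s + s := by push_cast; ring
    have hy' : y ∈ Y := (h y (by rw [hcast]; linarith)).2 hy
    refine ih (Y := Y \ {y}) (Y' := Y' \ {y}) ?_ (hn.tail hy' hay) u τ Q hr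
    intro z hz
    have h1 : dist a z.1 < ((n + 1 : ℕ) : ℝ) * s := by
      have h2 := dist_triangle a y.1 z.1
      have h3 : (n : ℝ) * dist a y.1 ≤ n * s :=
        mul_le_mul_of_nonneg_left hay.le (Nat.cast_nonneg n)
      rw [hcast]
      linarith
    rw [Set.mem_sdiff, Set.mem_sdiff, h z h1]

theorem NoCh_congr_ball {n : ℕ} {Y Y' : Set (CP X)} {a : X} {s : ℝ}
    (h : ∀ y : CP X, dist a y.1 < n * s → (y ∈ Y ↔ y ∈ Y')) : NoCh n Y a s ↔ NoCh n Y' a s :=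
  ⟨D6_congr h, D6_congr fun y hy => (h y hy).symm⟩

private theorem D6_split {b : CP X} {k : ℕ} : ∀ {Y : Set (CP X)} {a : X} {s : ℝ} {u : X} {τ : ℝ}
    {Q : Set (CP X)}, b ∉ Y → Rch k (insert b Y) a s u τ Q →
    ¬ NoCh k Y a s ∨ ∃ i j, i + j + 1 = k ∧ ¬ NoCh i Y a s ∧ ¬ NoCh j Y b.1 s := by
  induction k with
  | zero =>
    intro Y a s u τ Q _ _
    exact Or.inl not_NoCh_zero
  | succ k ih =>
    rintro Y a s u τ Q hb ⟨y, hy, hay, hr⟩
    rcases Set.mem_insert_iff.1 hy with hyb | hyY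
    · subst hyb
      have h1 : insert y Y \ {y} = Y := by
        ext z
        simp only [Set.mem_sdiff, Set.mem_insert_iff, Set.mem_singleton_iff]
        constructor
        · rintro ⟨h1 | h1, h2⟩
          · exact absurd h1 h2
          · exact h1
        · intro h1
          refine ⟨Or.inr h1, ?_⟩
          rintro rfl
          exact hb h1
      rw [h1] at hr
      refine Or.inr ⟨0, k, by omega, not_NoCh_zero, fun hn => ?_⟩
      exact (hn.mono Subset.rfl hay.le) u τ Q hr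
    · have hne : b ≠ y := fun h => hb (h ▸ hyY)
      have h1 : insert b Y \ {y} = insert b (Y \ {y}) := by
        ext z
        simp only [Set.mem_sdiff, Set.mem_insert_iff, Set.mem_singleton_iff]
        constructor
        · rintro ⟨h1 | h1, h2⟩
          · exact Or.inl h1
          · exact Or.inr ⟨h1, h2⟩
        · rintro (h1 | ⟨h1, h2⟩)
          · exact ⟨Or.inl h1, fun h => hne (h1 ▸ h)⟩
          · exact ⟨Or.inr h1, h2⟩
      rw [h1] at hr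
      have hb' : b ∉ Y \ {y} := fun h => hb h.1
      rcases ih hb' hr with h2 | ⟨i, j, hij, h2, h3⟩
      · exact Or.inl fun hn => h2 (hn.tail hyY hay)
      · refine Or.inr ⟨i + 1, j, by omega, fun hn => h2 (hn.tail hyY hay), fun hn => h3 ?_⟩
        exact hn.mono Set.sdiff_subset hay.le

theorem NoCh_insert {m : ℕ} {Y : Set (CP X)} {a : X} {b : CP X} {s : ℝ} (h1 : NoCh m Y a s)
    (h2 : NoCh m Y b.1 s) : NoCh (2 * m + 1) (insert b Y) a s := by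
  by_cases hb : b ∈ Y
  · rw [Set.insert_eq_of_mem hb]
    exact h1.le (by omega)
  · intro u τ Q hr
    rcases D6_split hb hr with h3 | ⟨i, j, hij, h3, h4⟩
    · exact h3 (h1.le (by omega))
    · rcases le_or_gt m i with hi | hi
      · exact h3 (h1.le hi)
      · exact h4 (h2.le (by omega))

end Pool.SM3X
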