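/-
SM3X.D5 : the explored region is a stopping set (deterministic).
PROOF. Induction on `Y.ncard` (for all `Y'`, `a`, `s`).  Let `y ∈ Y`, `dist a y.1 < s`: then `y.1 ∈ Ex Y a s` (chain of length 0, dist_comm), so `y ∈ Y'`; and
`Ex (Y \ {y}) y.1 (dist a y.1) ⊆ Ex Y a s` (prefix `y`), so `Y \ {y}` and `Y' \ {y}` agree on `Ex (Y \ {y}) y.1 (dist a y.1)`; the induction hypothesis gives
`Ex (Y' \ {y}) .. = Ex (Y \ {y}) ..` and the equivalence of aliveness.  Conversely `y ∈ Y'`, `dist a y.1 < s` gives `y ∈ Y`.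
`Ex Y a s = {z | dist z a < s} ∪ ⋃ y ∈ Y, dist a y.1 < s, Ex (Y \ {y}) y.1 (dist a y.1)` (cases on `k` in the definition; `Rch 0` means `u = a`, `τ = s`, `Q = Y`), the same for
`Y'`; aliveness by `Al_rec` (D2) for both.
-/
import Pool.Agent.Lib.SM3X.D2

set_option autoImplicit false

open MeasureTheory Set

namespace Pool.SM3X

variable {X : Type} [MetricSpace X]

private theorem D5_Ex {Y : Set (CP X)} {a : X} {s : ℝ} {z : X} :
    z ∈ Ex Y a s ↔ dist z a < s ∨ ∃ y ∈ Y, dist a y.1 < s ∧ z ∈ Ex (Y \ {y}) y.1 (dist a y.1) := by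
  constructor
  · rintro ⟨k, u, τ, Q, h, hz⟩
    cases k with
    | zero =>
      obtain ⟨rfl, rfl, rfl⟩ := h
      exact Or.inl hz
    | succ k =>
      obtain ⟨y, hy, hd, hr⟩ := h
      exact Or.inr ⟨y, hy, hd, k, u, τ, Q, hr, hz⟩
  · rintro (h | ⟨y, hy, hd, k, u, τ, Q, hr, hz⟩)
    · exact ⟨0, a, s, Y, ⟨rfl, rfl, rfl⟩, h⟩
    · exact ⟨k + 1, u, τ, Q, ⟨y, hy, hd, hr⟩, hz⟩

private theorem D5_aux (n : ℕ) : ∀ {Y Y' : Set (CP X)} {a : X} {s : ℝ}, Y.Finite → Y'.Finite →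
    Y.ncard = n → (∀ y : CP X, y.1 ∈ Ex Y a s → (y ∈ Y ↔ y ∈ Y')) →
    Ex Y' a s = Ex Y a s ∧ ∀ c : Fin 3, (Al Y (a, c) s ↔ Al Y' (a, c) s) := by
  induction n using Nat.strong_induction_on with
  | _ n ih =>
    intro Y Y' a s hY hY' hn h
    have hmem : ∀ y : CP X, dist a y.1 < s → (y ∈ Y ↔ y ∈ Y') := fun y hd =>
      h y (D5_Ex.2 (Or.inl (by rw [dist_comm]; exact hd)))
    have key : ∀ y ∈ Y, dist a y.1 < s →
        Ex (Y' \ {y}) y.1 (dist a y.1) = Ex (Y \ {y}) y.1 (dist a y.1) ∧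
        (Al (Y \ {y}) y (dist a y.1) ↔ Al (Y' \ {y}) y (dist a y.1)) := by
      intro y hy hd
      have h1 : (Y \ {y}).ncard < n := by
        rw [← hn]
        exact Set.ncard_sdiff_singleton_lt_of_mem hy hY
      have h2 := ih _ h1 (Y := Y \ {y}) (Y' := Y' \ {y}) (a := y.1) (s := dist a y.1)
        (hY.subset Set.sdiff_subset) (hY'.subset Set.sdiff_subset) rfl (fun z hz => by
          rw [Set.mem_sdiff, Set.mem_sdiff, h z (D5_Ex.2 (Or.inr ⟨y, hy, hd, hz⟩))])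
      exact ⟨h2.1, h2.2 y.2⟩
    constructor
    · ext z
      rw [D5_Ex, D5_Ex]
      constructor
      · rintro (h1 | ⟨y, hy, hd, hz⟩)
        · exact Or.inl h1
        · have hy' := (hmem y hd).2 hy
          refine Or.inr ⟨y, hy', hd, ?_⟩
          rwa [(key y hy' hd).1] at hz
      · rintro (h1 | ⟨y, hy, hd, hz⟩)
        · exact Or.inl h1
        · refine Or.inr ⟨y, (hmem y hd).1 hy, hd, ?_⟩
          rwa [(key y hy hd).1]
    · intro c
      rw [Al_rec hY, Al_rec hY']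
      constructor
      · intro h1 y hy hc hd h2
        have hy' := (hmem y hd).2 hy
        exact h1 y hy' hc hd ((key y hy' hd).2.2 h2)
      · intro h1 y hy hc hd h2
        exact h1 y ((hmem y hd).1 hy) hc hd ((key y hy hd).2.1 h2)

theorem Ex_congr {Y Y' : Set (CP X)} (hY : Y.Finite) (hY' : Y'.Finite) {a : X} {s : ℝ}
    (h : ∀ y : CP X, y.1 ∈ Ex Y a s → (y ∈ Y ↔ y ∈ Y')) :
    Ex Y' a s = Ex Y a s ∧ ∀ c : Fin 3, (Al Y (a, c) s ↔ Al Y' (a, c) s) :=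
  D5_aux _ hY hY' rfl h

end Pool.SM3X
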