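/-
SM3X.M1 : measurable families of coloured sets.
PROOF. `comp`: compose the maps.  `insert`: `∃ z ∈ insert (x q) (Y q), (q,z) ∈ Q` iff `(q, x q) ∈ Q` or `∃ z ∈ Y q, (q,z) ∈ Q`.
`filter`: replace `Q` by `Q ∩ {(q,z) | (π q, z) ∈ B}`.  `diff`: filter with `B = {(q,z) | z ≠ x q}` (measurable: `measurableSet_eq_fun` for positions and colours, or
`measurableSet_diagonal`-type lemmas; `CP (XX d)` is second countable Hausdorff / the diagonal of a standard Borel space is measurable).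
`MFam_GX`: `z ∈ GX Φ l` iff `(Φ.φ z.1, z.2) ∈ l`; so `∃ z ∈ GX Φ (π q), (q,z) ∈ Q` iff `∃ y ∈ π q, Φ.φ (Φ.ψ y.1) = y.1 ∧ (q, (Φ.ψ y.1, y.2)) ∈ Q` (`Φ.left`), and
`SM3.measurableSet_exists_mem` (A2) with `Θ = Θ'` composed with `q ↦ (q, π q)`.
`forall`: complement of `exists`.  `mem`: `x q ∈ Y q` iff `∃ z ∈ Y q, z = x q`.
`MFam.union`: obvious.
-/
import Pool.Agent.Lib.SM3X.Defs
import Pool.Agent.Lib.SM3.A2

set_option autoImplicit false

open MeasureTheory Set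

namespace Pool.SM3X

variable {d : ℕ} {Θ : Type} [MeasurableSpace Θ] {Y : Θ → Set (CP (XX d))}

private lemma M1_eq {Θ' : Type} [MeasurableSpace Θ'] {x y : Θ' → CP (XX d)} (hx : Measurable x)
    (hy : Measurable y) : MeasurableSet {q | x q = y q} := by
  have h1 : MeasurableSet {q | (x q).1 = (y q).1} :=
    measurableSet_eq_fun (measurable_fst.comp hx) (measurable_fst.comp hy)
  have h2 : MeasurableSet {q | (x q).2 = (y q).2} := by
    have h4 : {q | (x q).2 = (y q).2} =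
        ⋃ i : Fin 3, ({q | (x q).2 = i} ∩ {q | (y q).2 = i}) := by
      ext q
      constructor
      · intro hq
        have hq' : (x q).2 = (y q).2 := hq
        exact mem_iUnion.mpr ⟨(x q).2, rfl, hq'.symm⟩
      · intro hq
        obtain ⟨i, h5, h6⟩ := mem_iUnion.mp hq
        have h5' : (x q).2 = i := h5
        have h6' : (y q).2 = i := h6
        show (x q).2 = (y q).2
        rw [h5', h6']
    rw [h4]
    refine MeasurableSet.iUnion fun i => ?_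
    exact ((measurable_snd.comp hx) (measurableSet_singleton i)).inter
      ((measurable_snd.comp hy) (measurableSet_singleton i))
  have h3 : {q | x q = y q} = {q | (x q).1 = (y q).1} ∩ {q | (x q).2 = (y q).2} := by
    ext q
    exact Prod.ext_iff
  rw [h3]
  exact h1.inter h2

theorem MFam.comp (h : MFam Y) {Θ' : Type} [MeasurableSpace Θ'] {π : Θ' → Θ} (hπ : Measurable π) :
    MFam (fun q => Y (π q)) := by
  intro Θ'' _ π' Q hπ' hQ
  exact h Θ'' (fun q => π (π' q)) Q (hπ.comp hπ') hQ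

theorem MFam.insert (h : MFam Y) {x : Θ → CP (XX d)} (hx : Measurable x) :
    MFam (fun q => insert (x q) (Y q)) := by
  intro Θ' _ π Q hπ hQ
  have h1 : MeasurableSet {q : Θ' | (q, x (π q)) ∈ Q} :=
    (measurable_id.prodMk (hx.comp hπ)) hQ
  have h2 := h Θ' π Q hπ hQ
  have h3 : {q : Θ' | ∃ z ∈ Insert.insert (x (π q)) (Y (π q)), (q, z) ∈ Q} =
      {q : Θ' | (q, x (π q)) ∈ Q} ∪ {q | ∃ z ∈ Y (π q), (q, z) ∈ Q} := by
    ext q
    constructor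
    · rintro ⟨z, hz, hzQ⟩
      rcases hz with rfl | hz
      · exact Or.inl hzQ
      · exact Or.inr ⟨z, hz, hzQ⟩
    · rintro (hq | ⟨z, hz, hzQ⟩)
      · exact ⟨_, Or.inl rfl, hq⟩
      · exact ⟨z, Or.inr hz, hzQ⟩
  rw [h3]
  exact h1.union h2

theorem MFam.filter (h : MFam Y) {B : Set (Θ × CP (XX d))} (hB : MeasurableSet B) :
    MFam (fun q => {y | y ∈ Y q ∧ (q, y) ∈ B}) := by
  intro Θ' _ π Q hπ hQ
  have hB' : MeasurableSet {r : Θ' × CP (XX d) | (π r.1, r.2) ∈ B} :=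
    ((hπ.comp measurable_fst).prodMk measurable_snd) hB
  have h2 := h Θ' π (Q ∩ {r : Θ' × CP (XX d) | (π r.1, r.2) ∈ B}) hπ (hQ.inter hB')
  have h3 : {q : Θ' | ∃ z ∈ {y | y ∈ Y (π q) ∧ (π q, y) ∈ B}, (q, z) ∈ Q} =
      {q | ∃ z ∈ Y (π q), (q, z) ∈ Q ∩ {r : Θ' × CP (XX d) | (π r.1, r.2) ∈ B}} := by
    ext q
    constructor
    · rintro ⟨z, ⟨hz, hzB⟩, hzQ⟩
      exact ⟨z, hz, hzQ, hzB⟩
    · rintro ⟨z, hz, hzQ, hzB⟩
      exact ⟨z, ⟨hz, hzB⟩, hzQ⟩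
  rw [h3]
  exact h2

theorem MFam.diff (h : MFam Y) {x : Θ → CP (XX d)} (hx : Measurable x) :
    MFam (fun q => Y q \ {x q}) := by
  have hB : MeasurableSet {r : Θ × CP (XX d) | r.2 = x r.1}ᶜ :=
    (M1_eq measurable_snd (hx.comp measurable_fst)).compl
  exact h.filter hB

theorem MFam.union (h : MFam Y) {Y' : Θ → Set (CP (XX d))} (h' : MFam Y') :
    MFam (fun q => Y q ∪ Y' q) := by
  intro Θ' _ π Q hπ hQ
  have h1 := h Θ' π Q hπ hQ
  have h2 := h' Θ' π Q hπ hQ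
  have h3 : {q : Θ' | ∃ z ∈ Y (π q) ∪ Y' (π q), (q, z) ∈ Q} =
      {q | ∃ z ∈ Y (π q), (q, z) ∈ Q} ∪ {q | ∃ z ∈ Y' (π q), (q, z) ∈ Q} := by
    ext q
    constructor
    · rintro ⟨z, hz | hz, hzQ⟩
      · exact Or.inl ⟨z, hz, hzQ⟩
      · exact Or.inr ⟨z, hz, hzQ⟩
    · rintro (⟨z, hz, hzQ⟩ | ⟨z, hz, hzQ⟩)
      · exact ⟨z, Or.inl hz, hzQ⟩
      · exact ⟨z, Or.inr hz, hzQ⟩
  rw [h3]
  exact h1.union h2

theorem MFam_GX (Φ : PhiM d) : MFam (fun l : List SM3.Pt => GX Φ l) := by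
  intro Θ' _ π Q hπ hQ
  have hψ : Measurable (fun r : Θ' × SM3.Pt => (r.1, ((Φ.ψ r.2.1, r.2.2) : CP (XX d)))) :=
    measurable_fst.prodMk ((Φ.hψ.comp (measurable_fst.comp measurable_snd)).prodMk
      (measurable_snd.comp measurable_snd))
  have hA : MeasurableSet {r : Θ' × SM3.Pt | Φ.φ (Φ.ψ r.2.1) = r.2.1} :=
    measurableSet_eq_fun (Φ.hφ.comp (Φ.hψ.comp (measurable_fst.comp measurable_snd)))
      (measurable_fst.comp measurable_snd)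
  have hB : MeasurableSet {r : Θ' × SM3.Pt | (fun (q : Θ') (y : SM3.Pt) =>
      Φ.φ (Φ.ψ y.1) = y.1 ∧ (q, ((Φ.ψ y.1, y.2) : CP (XX d))) ∈ Q) r.1 r.2} :=
    hA.inter (hψ hQ)
  have h2 := SM3.measurableSet_exists_mem (Θ := Θ') (Q := fun (q : Θ') (y : SM3.Pt) =>
      Φ.φ (Φ.ψ y.1) = y.1 ∧ (q, ((Φ.ψ y.1, y.2) : CP (XX d))) ∈ Q) hB
  have h3 : MeasurableSet {q : Θ' | ∃ y ∈ π q,
      (Φ.φ (Φ.ψ y.1) = y.1 ∧ (q, ((Φ.ψ y.1, y.2) : CP (XX d))) ∈ Q)} :=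
    (measurable_id.prodMk hπ) h2
  have h4 : {q : Θ' | ∃ z ∈ GX Φ (π q), (q, z) ∈ Q} = {q : Θ' | ∃ y ∈ π q,
      (Φ.φ (Φ.ψ y.1) = y.1 ∧ (q, ((Φ.ψ y.1, y.2) : CP (XX d))) ∈ Q)} := by
    ext q
    constructor
    · rintro ⟨z, hz, hzQ⟩
      refine ⟨(Φ.φ z.1, z.2), hz, ?_, ?_⟩
      · show Φ.φ (Φ.ψ (Φ.φ z.1)) = Φ.φ z.1
        rw [Φ.left]
      · show (q, ((Φ.ψ (Φ.φ z.1), z.2) : CP (XX d))) ∈ Q
        rw [Φ.left]
        exact hzQ
    · rintro ⟨y, hy, hy1, hyQ⟩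
      refine ⟨(Φ.ψ y.1, y.2), ?_, hyQ⟩
      show (Φ.φ (Φ.ψ y.1), y.2) ∈ π q
      rw [hy1]
      exact hy
  rw [h4]
  exact h3

theorem MFam.exists (h : MFam Y) {Q : Set (Θ × CP (XX d))} (hQ : MeasurableSet Q) :
    MeasurableSet {q | ∃ z ∈ Y q, (q, z) ∈ Q} :=
  h Θ id Q measurable_id hQ

theorem MFam.forall (h : MFam Y) {Q : Set (Θ × CP (XX d))} (hQ : MeasurableSet Q) :
    MeasurableSet {q | ∀ z ∈ Y q, (q, z) ∈ Q} := by
  have h1 := (MFam.exists h hQ.compl).compl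
  have h2 : {q | ∀ z ∈ Y q, (q, z) ∈ Q} = {q | ∃ z ∈ Y q, (q, z) ∈ Qᶜ}ᶜ := by
    ext q
    constructor
    · rintro hq ⟨z, hz, hzQ⟩
      exact hzQ (hq z hz)
    · intro hq z hz
      by_contra hzQ
      exact hq ⟨z, hz, hzQ⟩
  rw [h2]
  exact h1

theorem MFam.mem (h : MFam Y) {x : Θ → CP (XX d)} (hx : Measurable x) :
    MeasurableSet {q | x q ∈ Y q} := by
  have hB : MeasurableSet {r : Θ × CP (XX d) | r.2 = x r.1} :=
    M1_eq measurable_snd (hx.comp measurable_fst)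
  have h1 := MFam.exists h hB
  have h2 : {q | x q ∈ Y q} = {q | ∃ z ∈ Y q, (q, z) ∈ {r : Θ × CP (XX d) | r.2 = x r.1}} := by
    ext q
    constructor
    · intro hq
      exact ⟨x q, hq, rfl⟩
    · rintro ⟨z, hz, hzx⟩
      have : z = x q := hzx
      rw [this] at hz
      exact hz
  rw [h2]
  exact h1

end Pool.SM3X
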