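/-
SM3X.M2 : measurability of the matching, of aliveness and of chains for measurable families.
PROOF. `MtN`: induction on the fuel, for all measurable families, `x`, `y` (parameter space arbitrary): `x ∈ Y`, `y ∈ Y` by MFam.mem, `x.2 ≠ y.2` measurable, and
`∀ z, dist x.1 z.1 < dist x.1 y.1 → ¬ MtN Y n x z` iff `∀ z ∈ Y, ..` (`MtN_mem`, D1: `MtN Y n x z` implies `z ∈ Y`); by MFam.forall this needs measurability of
`{(q,z) | ..}`, i.e. the induction hypothesis on the parameter space `Θ × CP (XX d)` with the family `Y ∘ fst` (MFam.comp) and `Mt`'s arguments `x ∘ fst`, `snd`.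
`Mt`: countable union over `N` of intersections over `n ≥ N`.  `Fr`: `∀ y, Mt Y x y → r ≤ dist` iff `∀ y ∈ Y, ..` (Mt_mem).
`AlN`: induction on the fuel for all families: on `Θ × CP (XX d)` the family `Y q.1 \ {q.2}` (MFam.comp, MFam.diff).  `Al`: countable.
`Rch`: induction on `k` for all families: `k = 0`: `{q | (q, a q, s q) ∈ O}`; `k + 1`: `∃ y ∈ Y q, dist (a q) y.1 < s q ∧ (∃ u τ Q, Rch k (Y q \ {y}) y.1 (dist (a q) y.1) u τ Q ∧ (q,u,τ) ∈ O)`:
MFam.exists and the induction hypothesis on `Θ × CP (XX d)` (with `O' = {((q,y),u,τ) | (q,u,τ) ∈ O}`).  `NoCh`: complement with `O = univ`.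
Distances of measurable maps are measurable (`Measurable.dist`; `Measurable.fst`, `Measurable.snd`).
-/
import Pool.Agent.Lib.SM3X.D2
import Pool.Agent.Lib.SM3X.M1

set_option autoImplicit false

open MeasureTheory Set

namespace Pool.SM3X

variable {d : ℕ} {Θ : Type} [MeasurableSpace Θ] {Y : Θ → Set (CP (XX d))}

private theorem M2_fst {x : Θ → CP (XX d)} (hx : Measurable x) : Measurable fun q => (x q).1 :=
  measurable_fst.comp hx

private theorem M2_MtN (n : ℕ) : ∀ {Θ : Type} [MeasurableSpace Θ] {Y : Θ → Set (CP (XX d))},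
    MFam Y → ∀ {x y : Θ → CP (XX d)}, Measurable x → Measurable y →
    MeasurableSet {q | MtN (Y q) n (x q) (y q)} := by
  induction n with
  | zero =>
    intro Θ _ Y _ x y _ _
    have : {q | MtN (Y q) 0 (x q) (y q)} = ∅ := by
      ext q
      simp [MtN]
    rw [this]
    exact MeasurableSet.empty
  | succ n ih =>
    intro Θ _ Y h x y hx hy
    have key : ∀ {a : Θ → CP (XX d)}, Measurable a →
        MeasurableSet {q | ∀ z ∈ Y q, (q, z) ∈ ({p : Θ × CP (XX d) |
          dist (a p.1).1 p.2.1 < dist (x p.1).1 (y p.1).1} ∩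
            {p : Θ × CP (XX d) | MtN (Y p.1) n (a p.1) p.2})ᶜ} := by
      intro a ha
      refine h.forall (MeasurableSet.compl (MeasurableSet.inter ?_ ?_))
      · exact measurableSet_lt
          (Measurable.dist (M2_fst (ha.comp measurable_fst)) (M2_fst measurable_snd))
          (Measurable.dist (M2_fst (hx.comp measurable_fst)) (M2_fst (hy.comp measurable_fst)))
      · exact ih (h.comp measurable_fst) (ha.comp measurable_fst) measurable_snd
    have h2 : MeasurableSet {q | (x q).2 ≠ (y q).2} :=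
      (measurableSet_eq_fun (measurable_snd.comp hx) (measurable_snd.comp hy)).compl
    have : {q | MtN (Y q) (n + 1) (x q) (y q)} =
        {q | x q ∈ Y q} ∩ {q | y q ∈ Y q} ∩ {q | (x q).2 ≠ (y q).2} ∩
        {q | ∀ z ∈ Y q, (q, z) ∈ ({p : Θ × CP (XX d) |
          dist (x p.1).1 p.2.1 < dist (x p.1).1 (y p.1).1} ∩
            {p : Θ × CP (XX d) | MtN (Y p.1) n (x p.1) p.2})ᶜ} ∩
        {q | ∀ z ∈ Y q, (q, z) ∈ ({p : Θ × CP (XX d) |
          dist (y p.1).1 p.2.1 < dist (x p.1).1 (y p.1).1} ∩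
            {p : Θ × CP (XX d) | MtN (Y p.1) n (y p.1) p.2})ᶜ} := by
      ext q
      simp only [mem_inter_iff, mem_setOf_eq, mem_compl_iff, not_and]
      constructor
      · rintro ⟨h1, h2, h3, h4, h5⟩
        exact ⟨⟨⟨⟨h1, h2⟩, h3⟩, fun z _ => h4 z⟩, fun z _ => h5 z⟩
      · rintro ⟨⟨⟨⟨h1, h2⟩, h3⟩, h4⟩, h5⟩
        exact ⟨h1, h2, h3, fun z hz hm => h4 z (MtN_mem hm).2.1 hz hm,
          fun z hz hm => h5 z (MtN_mem hm).2.1 hz hm⟩
    rw [this]
    exact ((((h.mem hx).inter (h.mem hy)).inter h2).inter (key hx)).inter (key hy)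

theorem measurableSet_Mt (h : MFam Y) {x y : Θ → CP (XX d)} (hx : Measurable x)
    (hy : Measurable y) : MeasurableSet {q | Mt (Y q) (x q) (y q)} := by
  simp only [Mt, setOf_exists, setOf_forall]
  exact MeasurableSet.iUnion fun N => MeasurableSet.iInter fun n => MeasurableSet.iInter fun _ =>
    M2_MtN n h hx hy

theorem measurableSet_Fr (h : MFam Y) {x : Θ → CP (XX d)} (hx : Measurable x) {r : Θ → ℝ}
    (hr : Measurable r) : MeasurableSet {q | Fr (Y q) (r q) (x q)} := by
  have h1 : MeasurableSet {p : Θ × CP (XX d) | dist (x p.1).1 p.2.1 < r p.1} :=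
    measurableSet_lt
      (Measurable.dist (M2_fst (hx.comp measurable_fst)) (M2_fst measurable_snd))
      (hr.comp measurable_fst)
  have h2 : MeasurableSet {p : Θ × CP (XX d) | Mt (Y p.1) (x p.1) p.2} :=
    measurableSet_Mt (h.comp measurable_fst) (hx.comp measurable_fst) measurable_snd
  have h3 := h.forall (h1.inter h2).compl
  have : {q | Fr (Y q) (r q) (x q)} = {q | ∀ z ∈ Y q, (q, z) ∈
      ({p : Θ × CP (XX d) | dist (x p.1).1 p.2.1 < r p.1} ∩
        {p : Θ × CP (XX d) | Mt (Y p.1) (x p.1) p.2})ᶜ} := by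
    ext q
    simp only [Fr, mem_inter_iff, mem_setOf_eq, mem_compl_iff, not_and]
    constructor
    · intro h z _ hz hm
      exact absurd hz (not_lt.2 (h z hm))
    · intro h z hm
      by_contra hz
      exact h z (Mt_mem hm).2.1 (not_le.1 hz) hm
  rw [this]
  exact h3

private theorem M2_AlN (n : ℕ) : ∀ {Θ : Type} [MeasurableSpace Θ] {Y : Θ → Set (CP (XX d))},
    MFam Y → ∀ {x : Θ → CP (XX d)}, Measurable x → ∀ {r : Θ → ℝ}, Measurable r →
    MeasurableSet {q | AlN n (Y q) (x q) (r q)} := by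
  induction n with
  | zero =>
    intro Θ _ Y _ x _ r _
    have : {q | AlN 0 (Y q) (x q) (r q)} = univ := by
      ext q
      simp [AlN]
    rw [this]
    exact MeasurableSet.univ
  | succ n ih =>
    intro Θ _ Y h x hx r hr
    have h1 : MeasurableSet {p : Θ × CP (XX d) | dist (x p.1).1 p.2.1 < r p.1} :=
      measurableSet_lt
        (Measurable.dist (M2_fst (hx.comp measurable_fst)) (M2_fst measurable_snd))
        (hr.comp measurable_fst)
    have h2 : MeasurableSet {p : Θ × CP (XX d) | p.2.2 ≠ (x p.1).2} :=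
      (measurableSet_eq_fun (measurable_snd.comp measurable_snd)
        (measurable_snd.comp (hx.comp measurable_fst))).compl
    have h3 : MeasurableSet {p : Θ × CP (XX d) |
        AlN n (Y p.1 \ {p.2}) p.2 (dist (x p.1).1 p.2.1)} :=
      ih ((h.comp measurable_fst).diff measurable_snd) measurable_snd
        (Measurable.dist (M2_fst (hx.comp measurable_fst)) (M2_fst measurable_snd))
    have h4 := h.forall ((h2.inter h1).inter h3).compl
    have : {q | AlN (n + 1) (Y q) (x q) (r q)} = {q | ∀ z ∈ Y q, (q, z) ∈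
        ({p : Θ × CP (XX d) | p.2.2 ≠ (x p.1).2} ∩
          {p : Θ × CP (XX d) | dist (x p.1).1 p.2.1 < r p.1} ∩
          {p : Θ × CP (XX d) | AlN n (Y p.1 \ {p.2}) p.2 (dist (x p.1).1 p.2.1)})ᶜ} := by
      ext q
      simp only [AlN, mem_inter_iff, mem_setOf_eq, mem_compl_iff, not_and, and_imp]
    rw [this]
    exact h4

theorem measurableSet_AlN (n : ℕ) (h : MFam Y) {x : Θ → CP (XX d)} (hx : Measurable x) {r : Θ → ℝ}
    (hr : Measurable r) : MeasurableSet {q | AlN n (Y q) (x q) (r q)} :=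
  M2_AlN n h hx hr

theorem measurableSet_Al (h : MFam Y) {x : Θ → CP (XX d)} (hx : Measurable x) {r : Θ → ℝ}
    (hr : Measurable r) : MeasurableSet {q | Al (Y q) (x q) (r q)} := by
  simp only [Al, setOf_exists, setOf_forall]
  exact MeasurableSet.iUnion fun N => MeasurableSet.iInter fun n => MeasurableSet.iInter fun _ =>
    measurableSet_AlN n h hx hr

private theorem M2_Rch (k : ℕ) : ∀ {Θ : Type} [MeasurableSpace Θ] {Y : Θ → Set (CP (XX d))},
    MFam Y → ∀ {a : Θ → XX d}, Measurable a → ∀ {s : Θ → ℝ}, Measurable s →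
    ∀ {O : Set (Θ × XX d × ℝ)}, MeasurableSet O →
    MeasurableSet {q | ∃ u τ Q, Rch k (Y q) (a q) (s q) u τ Q ∧ (q, u, τ) ∈ O} := by
  induction k with
  | zero =>
    intro Θ _ Y _ a ha s hs O hO
    have : {q | ∃ u τ Q, Rch 0 (Y q) (a q) (s q) u τ Q ∧ (q, u, τ) ∈ O} =
        (fun q => (q, a q, s q)) ⁻¹' O := by
      ext q
      simp only [Rch, mem_setOf_eq, mem_preimage]
      constructor
      · rintro ⟨u, τ, Q, ⟨rfl, rfl, rfl⟩, h⟩
        exact h
      · intro h
        exact ⟨_, _, _, ⟨rfl, rfl, rfl⟩, h⟩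
    rw [this]
    exact (measurable_id.prodMk (ha.prodMk hs)) hO
  | succ k ih =>
    intro Θ _ Y h a ha s hs O hO
    have hd : Measurable fun p : Θ × CP (XX d) => dist (a p.1) p.2.1 :=
      Measurable.dist (ha.comp measurable_fst) (M2_fst measurable_snd)
    have h1 : MeasurableSet {p : Θ × CP (XX d) | dist (a p.1) p.2.1 < s p.1} :=
      measurableSet_lt hd (hs.comp measurable_fst)
    have hO' : MeasurableSet {x : (Θ × CP (XX d)) × XX d × ℝ | (x.1.1, x.2) ∈ O} :=
      ((measurable_fst.comp measurable_fst).prodMk measurable_snd) hO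
    have h2 := ih ((h.comp (π := fun p : Θ × CP (XX d) => p.1) measurable_fst).diff
      (x := fun p : Θ × CP (XX d) => p.2) measurable_snd)
      (a := fun p => p.2.1) (M2_fst measurable_snd) hd hO'
    have h3 := h.exists (h1.inter h2)
    have : {q | ∃ u τ Q, Rch (k + 1) (Y q) (a q) (s q) u τ Q ∧ (q, u, τ) ∈ O} =
        {q | ∃ z ∈ Y q, (q, z) ∈ {p : Θ × CP (XX d) | dist (a p.1) p.2.1 < s p.1} ∩
          {p | ∃ u τ Q, Rch k (Y p.1 \ {p.2}) p.2.1 (dist (a p.1) p.2.1) u τ Q ∧
            (p, u, τ) ∈ {x : (Θ × CP (XX d)) × XX d × ℝ | (x.1.1, x.2) ∈ O}}} := by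
      ext q
      simp only [Rch, mem_setOf_eq, mem_inter_iff]
      constructor
      · rintro ⟨u, τ, Q, ⟨y, hy, hys, hr⟩, hO⟩
        exact ⟨y, hy, hys, u, τ, Q, hr, hO⟩
      · rintro ⟨y, hy, hys, u, τ, Q, hr, hO⟩
        exact ⟨u, τ, Q, ⟨y, hy, hys, hr⟩, hO⟩
    rw [this]
    exact h3

theorem measurableSet_Rch (k : ℕ) (h : MFam Y) {a : Θ → XX d} (ha : Measurable a) {s : Θ → ℝ}
    (hs : Measurable s) {O : Set (Θ × XX d × ℝ)} (hO : MeasurableSet O) :
    MeasurableSet {q | ∃ u τ Q, Rch k (Y q) (a q) (s q) u τ Q ∧ (q, u, τ) ∈ O} :=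
  M2_Rch k h ha hs hO

theorem measurableSet_NoCh (n : ℕ) (h : MFam Y) {a : Θ → XX d} (ha : Measurable a) {s : Θ → ℝ}
    (hs : Measurable s) : MeasurableSet {q | NoCh n (Y q) (a q) (s q)} := by
  have h1 := measurableSet_Rch n h ha hs (O := univ) MeasurableSet.univ
  have : {q | NoCh n (Y q) (a q) (s q)} =
      {q | ∃ u τ Q, Rch n (Y q) (a q) (s q) u τ Q ∧ (q, u, τ) ∈ (univ : Set (Θ × XX d × ℝ))}ᶜ := by
    ext q
    simp only [NoCh, mem_setOf_eq, mem_compl_iff, mem_univ, and_true, not_exists]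
  rw [this]
  exact h1.compl

end Pool.SM3X
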