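/-
SM3X.P4 : the list of the points in a long interval is the concatenation of independent lists.
PROOF. `measurable_flatten`: induction on `M`: `List.ofFn ω = ω 0 :: List.ofFn (ω ∘ Fin.succ)` (List.ofFn_succ), `(a :: L).flatten = a ++ L.flatten`, `SM3.measurable_append` (A2).
`prod_cells`: induction on `M` for all `u`: `SM3.lintegral_Pm_append` (A7) at the point `u + δ` gives `∫ l₁ ∫ l₂ F (l₁ ++ l₂)`; the inner integral is over `Pm p (u + δ) (u + δ + M δ)`, by induction a
product integral; `MeasureTheory.measurePreserving_piFinSuccAbove` (with `i = 0`) and `lintegral_prod` identify the product over `Fin (M + 1)` with (first factor) × (product over `Fin M`).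
All `Pm` are probability measures (`SM3.isProb_Pm hp`).
-/
import Pool.Agent.Lib.SM3.A7

set_option autoImplicit false

open MeasureTheory Set

namespace Pool.SM3X

private theorem P4_ofFn_flatten {M : ℕ} (ω : Fin (M + 1) → List SM3.Pt) :
    (List.ofFn ω).flatten = ω 0 ++ (List.ofFn (fun i => ω (Fin.succ i))).flatten := by
  rw [List.ofFn_succ, List.flatten_cons]

theorem measurable_flatten (M : ℕ) :
    Measurable (fun ω : Fin M → List SM3.Pt => (List.ofFn ω).flatten) := by
  induction M with
  | zero =>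
    simp only [List.ofFn_zero, List.flatten_nil]
    exact measurable_const
  | succ M ih =>
    simp only [P4_ofFn_flatten]
    have h1 : Measurable (fun ω : Fin (M + 1) → List SM3.Pt => (fun i : Fin M => ω (Fin.succ i))) :=
      measurable_pi_lambda _ fun i => measurable_pi_apply _
    have h2 : Measurable (fun ω : Fin (M + 1) → List SM3.Pt => ω 0) := measurable_pi_apply 0
    exact SM3.measurable_append.comp (h2.prodMk (ih.comp h1))

private theorem P4_point (p : Fin 3 → ℝ) (u : ℝ) {F : List SM3.Pt → ENNReal}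
    (hF : Measurable F) : ∫⁻ l, F l ∂(SM3.Pm p u u) = F [] := by
  rw [SM3.lintegral_Pm, tsum_eq_single 0]
  · rw [SM3.lintegral_Jm_zero p u u hF]
    simp
  · intro n hn
    obtain ⟨m, rfl⟩ := Nat.exists_eq_succ_of_ne_zero hn
    rw [Nat.succ_eq_add_one, SM3.lintegral_Jm_succ p m u u hF]
    simp

theorem prod_cells {p : Fin 3 → ℝ} (hp : SM3.PV p) (M : ℕ) (u : ℝ) {δ : ℝ} (hδ : 0 ≤ δ)
    {F : List SM3.Pt → ENNReal} (hF : Measurable F) :
    ∫⁻ l, F l ∂(SM3.Pm p u (u + M * δ))
      = ∫⁻ ω : Fin M → List SM3.Pt, F ((List.ofFn ω).flatten)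
          ∂(Measure.pi fun i : Fin M => SM3.Pm p (u + (i : ℕ) * δ) (u + ((i : ℕ) + 1) * δ)) := by
  induction M generalizing u F with
  | zero =>
    have e : u + ((0 : ℕ) : ℝ) * δ = u := by simp
    rw [e, P4_point p u hF]
    simp only [List.ofFn_zero, List.flatten_nil, lintegral_const]
    rw [Measure.pi_of_empty (fun i : Fin 0 => SM3.Pm p (u + (i : ℕ) * δ) (u + ((i : ℕ) + 1) * δ))]
    simp
  | succ M ih =>
    have hM : 0 ≤ (M : ℝ) * δ := mul_nonneg (Nat.cast_nonneg _) hδ
    have e : u + ((M + 1 : ℕ) : ℝ) * δ = (u + δ) + M * δ := by push_cast; ring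
    rw [e, SM3.lintegral_Pm_append p (s := u + δ) (by linarith) (by linarith) hF]
    set μ : Fin (M + 1) → Measure (List SM3.Pt) :=
      fun i => SM3.Pm p (u + (i : ℕ) * δ) (u + ((i : ℕ) + 1) * δ) with hμ
    have hpr : ∀ i, IsProbabilityMeasure (μ i) := fun i => SM3.isProb_Pm hp (by
      have : ((i : ℕ) : ℝ) * δ ≤ (((i : ℕ) : ℝ) + 1) * δ :=
        mul_le_mul_of_nonneg_right (by linarith) hδ
      linarith)
    have h0 : μ 0 = SM3.Pm p u (u + δ) := by
      simp [hμ]
    have h1 : (fun j : Fin M => μ ((0 : Fin (M + 1)).succAbove j))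
        = fun j : Fin M => SM3.Pm p ((u + δ) + (j : ℕ) * δ) ((u + δ) + ((j : ℕ) + 1) * δ) := by
      funext j
      simp only [hμ, Fin.zero_succAbove, Fin.val_succ]
      congr 1
      · push_cast; ring
      · push_cast; ring
    have hG : Measurable (fun q : List SM3.Pt × (Fin M → List SM3.Pt) =>
        F (q.1 ++ (List.ofFn q.2).flatten)) :=
      hF.comp (SM3.measurable_append.comp (measurable_fst.prodMk
        ((measurable_flatten M).comp measurable_snd)))
    have h2 := (measurePreserving_piFinSuccAbove μ 0).lintegral_comp hG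
    have h3 : ∀ ω : Fin (M + 1) → List SM3.Pt,
        (fun q : List SM3.Pt × (Fin M → List SM3.Pt) => F (q.1 ++ (List.ofFn q.2).flatten))
          (MeasurableEquiv.piFinSuccAbove (fun _ => List SM3.Pt) 0 ω)
        = F ((List.ofFn ω).flatten) := by
      intro ω
      rw [P4_ofFn_flatten]
      rfl
    rw [lintegral_congr h3] at h2
    rw [h2, h1, h0]
    have : ∀ j : Fin M, IsProbabilityMeasure
        (SM3.Pm p ((u + δ) + (j : ℕ) * δ) ((u + δ) + ((j : ℕ) + 1) * δ)) := fun j => by
      have := congrFun h1 j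
      rw [← this]
      infer_instance
    have : IsProbabilityMeasure (SM3.Pm p u (u + δ)) := h0 ▸ hpr 0
    rw [lintegral_prod _ hG.aemeasurable]
    refine lintegral_congr fun l₁ => ?_
    exact ih (u + δ) (F := fun l₂ => F (l₁ ++ l₂))
      (hF.comp (SM3.measurable_append.comp (measurable_const.prodMk measurable_id)))

end Pool.SM3X
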