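/-
SM3X.P6 : almost sure properties of the lists.
PROOF. `ae_list`: sorted lists have no duplicates (`SM3.ae_Pm`, A4: SL; Pairwise (x.1 < y.1) implies Nodup); `Φ.φ (Φ.ψ y.1) = y.1` for all `y ∈ l`: let `Z = {t | Φ.φ (Φ.ψ t) ≠ t}` (null, `ae_range`, P3);
`∫⁻ splitSum (fun _ y _ => ind (y.1 ∈ Z)) ∂Pm = ∫⁻ t in Ioo, (∑ p c) * ind (t ∈ Z) * .. = 0` (`SM3.mecke`, A6), so a.e. the sum is 0, and `SM3.le_splitSum` (E16).
`ae_not_mem`: `mecke_X` (P3) with `G y _ = ind (y.1 = a)`: the right side is 0 (points are null, `d ≥ 1`); `le_xsum` (C1).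
`ae_noIso_at`: `mecke_X` twice: `G y q = xsum Φ (fun z _ => ind (dist a y.1 = dist a z.1)) q`; the inner integral is over a sphere around `a` of radius `dist a x`, a null set
(`Measure.addHaar_sphere`, `d ≥ 1`); if `y ≠ z` are in `GX Φ l` use `le_xsum` twice.
`ae_noIso`: `mecke_X` with `G x q = ind (¬ ((∀ y ∈ GX Φ q, y.1 ≠ x.1) ∧ ∀ y ∈ GX Φ q, ∀ z ∈ GX Φ q, dist x.1 y.1 = dist x.1 z.1 → y = z))` (measurable by M1), the right side is 0 by the two previous
statements; so a.e. `l` (with `l.Nodup`): for all `x ∈ GX Φ l` the condition holds for `q` with `GX Φ q = GX Φ l \ {x}` (`le_xsum`), which gives NoIso.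
-/
import Pool.Agent.Lib.SM3X.C1
import Pool.Agent.Lib.SM3X.M1
import Pool.Agent.Lib.SM3X.P3
import Pool.Agent.Lib.SM3.A6

set_option autoImplicit false

open MeasureTheory Set

namespace Pool.SM3X

private theorem P6_ind_true {P : Prop} (h : P) : SM3.ind P = 1 := by
  unfold SM3.ind
  rw [if_pos h]

private theorem P6_ind_false {P : Prop} (h : ¬ P) : SM3.ind P = 0 := by
  unfold SM3.ind
  rw [if_neg h]

private theorem P6_not_of_ind {P : Prop} (h : SM3.ind P ≤ 0) : ¬ P := by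
  intro hP
  rw [P6_ind_true hP] at h
  exact absurd h (by simp)

theorem ae_list {d : ℕ} (p : Fin 3 → ℝ) (Φ : PhiM d) (T : ℝ) :
    ∀ᵐ l ∂(SM3.Pm p (-T) T), l.Nodup ∧ ∀ y ∈ l, -T < y.1 ∧ y.1 < T ∧ Φ.φ (Φ.ψ y.1) = y.1 := by
  have hZ : MeasurableSet {t : ℝ | Φ.φ (Φ.ψ t) ≠ t} :=
    (measurableSet_eq_fun (Φ.hφ.comp Φ.hψ) measurable_id).compl
  have hG : Measurable (fun q : SM3.Pt × List SM3.Pt =>
      SM3.ind (Φ.φ (Φ.ψ q.1.1) ≠ q.1.1)) :=
    SM3.measurable_ind ((measurable_fst.comp measurable_fst :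
      Measurable (fun q : SM3.Pt × List SM3.Pt => q.1.1)) hZ)
  have h := mecke_list (p := p) (u := -T) (w := T)
    (G := fun y _ => SM3.ind (Φ.φ (Φ.ψ y.1) ≠ y.1)) hG
  have h0 : ∫⁻ t in Ioo (-T) T, ∑ c : Fin 3, ENNReal.ofReal (p c) *
      ∫⁻ _l : List SM3.Pt, SM3.ind (Φ.φ (Φ.ψ (t, c).1) ≠ (t, c).1) ∂(SM3.Pm p (-T) T) = 0 := by
    rw [← lintegral_zero (μ := volume.restrict (Ioo (-T) T))]
    refine lintegral_congr_ae ?_
    filter_upwards [ae_restrict_of_ae (ae_range Φ)] with t ht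
    refine Finset.sum_eq_zero fun c _ => ?_
    have e : ∀ _l : List SM3.Pt, SM3.ind (Φ.φ (Φ.ψ (t, c).1) ≠ (t, c).1) = 0 :=
      fun _ => P6_ind_false (fun hne => hne ht)
    exact (congrArg _ ((lintegral_congr e).trans lintegral_zero)).trans (mul_zero _)
  rw [h0] at h
  have hm : Measurable (fun l : List SM3.Pt => SM3.splitSum
      (fun l₁ y l₂ => SM3.ind (Φ.φ (Φ.ψ y.1) ≠ y.1)) l) := by
    have h1 : Measurable (fun q : Unit × List SM3.Pt × SM3.Pt × List SM3.Pt =>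
        SM3.ind (Φ.φ (Φ.ψ q.2.2.1.1) ≠ q.2.2.1.1)) :=
      SM3.measurable_ind ((measurable_fst.comp (measurable_fst.comp
        (measurable_snd.comp measurable_snd)) :
        Measurable (fun q : Unit × List SM3.Pt × SM3.Pt × List SM3.Pt => q.2.2.1.1)) hZ)
    have h2 := SM3.measurable_splitSum (Θ := Unit)
      (Ψ := fun _ _ y _ => SM3.ind (Φ.φ (Φ.ψ y.1) ≠ y.1)) h1
    exact h2.comp (measurable_const.prodMk measurable_id : Measurable
      (fun l : List SM3.Pt => ((), l)))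
  have h1 := (lintegral_eq_zero_iff hm).1 h
  filter_upwards [h1, SM3.ae_Pm p (-T) T] with l hl hs
  refine ⟨hs.1.imp (fun hlt he => ?_), fun y hy => ⟨(hs.2 y hy).1, (hs.2 y hy).2, ?_⟩⟩
  · rw [he] at hlt
    exact lt_irrefl _ hlt
  · obtain ⟨l₁, l₂, rfl⟩ := List.append_of_mem hy
    have h2 := SM3.le_splitSum (fun _ y _ => SM3.ind (Φ.φ (Φ.ψ y.1) ≠ y.1)) l₁ y l₂
    have h3 : SM3.ind (Φ.φ (Φ.ψ y.1) ≠ y.1) ≤ 0 := by
      refine le_trans h2 ?_
      have h4 : SM3.splitSum (fun l₁ y l₂ => SM3.ind (Φ.φ (Φ.ψ y.1) ≠ y.1))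
        (l₁ ++ y :: l₂) = 0 := hl
      rw [h4]
    exact not_not.1 (P6_not_of_ind h3)

private theorem P6_ae_xsum {d : ℕ} {p : Fin 3 → ℝ} (Φ : PhiM d) {T : ℝ}
    {G : CP (XX d) → List SM3.Pt → ENNReal}
    (hG : Measurable (fun q : CP (XX d) × List SM3.Pt => G q.1 q.2))
    (h0 : ∀ᵐ x : XX d, ∀ c : Fin 3, ∫⁻ l, G (x, c) l ∂(SM3.Pm p (-T) T) = 0) :
    ∫⁻ l, xsum Φ G l ∂(SM3.Pm p (-T) T) = 0 ∧
      ∀ᵐ l ∂(SM3.Pm p (-T) T), xsum Φ G l = 0 := by
  have h := mecke_X (p := p) Φ (T := T) hG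
  have h1 : ∫⁻ x in Φ.φ ⁻¹' Ioo (-T) T, ∑ c : Fin 3, ENNReal.ofReal (p c) *
      ∫⁻ l, G (x, c) l ∂(SM3.Pm p (-T) T) = 0 := by
    rw [← lintegral_zero (μ := volume.restrict (Φ.φ ⁻¹' Ioo (-T) T))]
    refine lintegral_congr_ae ?_
    filter_upwards [ae_restrict_of_ae h0] with x hx
    refine Finset.sum_eq_zero fun c _ => ?_
    rw [hx c, mul_zero]
  rw [h1] at h
  refine ⟨h, ?_⟩
  have hm : Measurable (fun l : List SM3.Pt => xsum Φ G l) := by
    have h2 := measurable_xsum Φ (Θ := Unit) (G := fun _ => G) (hG.comp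
      (measurable_snd : Measurable (fun q : Unit × CP (XX d) × List SM3.Pt => q.2)))
    exact h2.comp (measurable_const.prodMk measurable_id : Measurable
      (fun l : List SM3.Pt => ((), l)))
  exact (lintegral_eq_zero_iff hm).1 h

private theorem P6_nontrivial {d : ℕ} (hd : 1 ≤ d) : Nontrivial (XX d) := by
  have : Nonempty (Fin d) := ⟨⟨0, hd⟩⟩
  infer_instance

theorem ae_not_mem {d : ℕ} (hd : 1 ≤ d) (p : Fin 3 → ℝ) (Φ : PhiM d) (T : ℝ) (a : XX d) :
    ∀ᵐ l ∂(SM3.Pm p (-T) T), ∀ y ∈ GX Φ l, y.1 ≠ a := by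
  have := P6_nontrivial hd
  have hG : Measurable (fun q : CP (XX d) × List SM3.Pt => SM3.ind (q.1.1 = a)) :=
    SM3.measurable_ind ((measurable_fst.comp measurable_fst :
      Measurable (fun q : CP (XX d) × List SM3.Pt => q.1.1)) (measurableSet_singleton a))
  have h := (P6_ae_xsum (p := p) Φ (T := T) (G := fun y _ => SM3.ind (y.1 = a)) hG ?_).2
  · filter_upwards [h, ae_list p Φ T] with l hl hn y hy he
    obtain ⟨q, -, -, hq⟩ := le_xsum Φ hn.1 hy
    have h1 := hq (fun y _ => SM3.ind (y.1 = a))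
    rw [hl] at h1
    exact P6_not_of_ind h1 he
  · have h2 : ∀ᵐ x : XX d, x ≠ a := by
      have h3 : (volume : Measure (XX d)) {a} = 0 := measure_singleton a
      exact measure_eq_zero_iff_ae_notMem.1 h3
    filter_upwards [h2] with x hx c
    have e : ∀ _l : List SM3.Pt, SM3.ind ((x, c).1 = a) = 0 := fun _ => P6_ind_false hx
    exact (lintegral_congr e).trans lintegral_zero

private theorem P6_sphere {d : ℕ} (hd : 1 ≤ d) (a : XX d) (r : ℝ) :
    ∀ᵐ x : XX d, r ≠ dist a x := by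
  have := P6_nontrivial hd
  have h3 : (volume : Measure (XX d)) (Metric.sphere a r) = 0 := Measure.addHaar_sphere _ a r
  filter_upwards [measure_eq_zero_iff_ae_notMem.1 h3] with x hx he
  refine hx ?_
  rw [Metric.mem_sphere, dist_comm, he]

theorem ae_noIso_at {d : ℕ} (hd : 1 ≤ d) (p : Fin 3 → ℝ) (Φ : PhiM d) (T : ℝ) (a : XX d) :
    ∀ᵐ l ∂(SM3.Pm p (-T) T), ∀ y ∈ GX Φ l, ∀ z ∈ GX Φ l, dist a y.1 = dist a z.1 → y = z := by
  have hm0 : MeasurableSet {q : CP (XX d) × CP (XX d) × List SM3.Pt |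
      dist a q.1.1 = dist a q.2.1.1} := by
    refine measurableSet_eq_fun ?_ ?_
    · exact measurable_const.dist (measurable_fst.comp measurable_fst)
    · exact measurable_const.dist (measurable_fst.comp (measurable_fst.comp measurable_snd))
  have hG0 : Measurable (fun q : CP (XX d) × CP (XX d) × List SM3.Pt =>
      SM3.ind (dist a q.1.1 = dist a q.2.1.1)) := SM3.measurable_ind hm0
  have hG : Measurable (fun q : CP (XX d) × List SM3.Pt =>
      xsum Φ (fun z _ => SM3.ind (dist a q.1.1 = dist a z.1)) q.2) :=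
    measurable_xsum Φ (Θ := CP (XX d))
      (G := fun y z _ => SM3.ind (dist a y.1 = dist a z.1)) hG0
  have h := (P6_ae_xsum (p := p) Φ (T := T)
    (G := fun y q => xsum Φ (fun z _ => SM3.ind (dist a y.1 = dist a z.1)) q) hG ?_).2
  · filter_upwards [h, ae_list p Φ T] with l hl hn y hy z hz he
    by_contra hne
    obtain ⟨q, hq1, hq2, hq3⟩ := le_xsum Φ hn.1 hy
    have h1 := hq3 (fun y q => xsum Φ (fun z _ => SM3.ind (dist a y.1 = dist a z.1)) q)
    rw [hl] at h1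
    have hz' : z ∈ GX Φ q := by
      rw [hq2]
      exact ⟨hz, fun h => hne h.symm⟩
    obtain ⟨q', -, -, hq'⟩ := le_xsum Φ hq1 hz'
    have h2 := hq' (fun z _ => SM3.ind (dist a y.1 = dist a z.1))
    exact P6_not_of_ind (le_trans h2 h1) he
  · refine Filter.Eventually.of_forall fun x c => ?_
    refine (P6_ae_xsum (p := p) Φ (T := T)
      (G := fun z _ => SM3.ind (dist a (x, c).1 = dist a z.1)) ?_ ?_).1
    · refine SM3.measurable_ind ?_
      exact measurableSet_eq_fun measurable_const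
        (measurable_const.dist (measurable_fst.comp measurable_fst))
    · filter_upwards [P6_sphere hd a (dist a x)] with z hz c'
      have e : ∀ _l : List SM3.Pt, SM3.ind (dist a (x, c).1 = dist a (z, c').1) = 0 :=
        fun _ => P6_ind_false hz
      exact (lintegral_congr e).trans lintegral_zero

/-- the condition on the point `x` and the other points -/
private def P6C {d : ℕ} (Φ : PhiM d) (x : CP (XX d)) (q : List SM3.Pt) : Prop :=
  (∀ y ∈ GX Φ q, y.1 ≠ x.1) ∧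
    ∀ y ∈ GX Φ q, ∀ z ∈ GX Φ q, dist x.1 y.1 = dist x.1 z.1 → y = z

private theorem P6_measC {d : ℕ} (Φ : PhiM d) :
    MeasurableSet {q : CP (XX d) × List SM3.Pt | P6C Φ q.1 q.2} := by
  have hY : MFam (fun q : CP (XX d) × List SM3.Pt => GX Φ q.2) :=
    (MFam_GX Φ).comp (measurable_snd : Measurable (fun q : CP (XX d) × List SM3.Pt => q.2))
  have hY' : MFam (fun q : (CP (XX d) × List SM3.Pt) × CP (XX d) => GX Φ q.1.2) :=
    hY.comp (measurable_fst :
      Measurable (fun q : (CP (XX d) × List SM3.Pt) × CP (XX d) => q.1))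
  have h1 : MeasurableSet {q : CP (XX d) × List SM3.Pt | ∀ y ∈ GX Φ q.2, y.1 ≠ q.1.1} := by
    refine hY.forall (Q := {r | r.2.1 ≠ r.1.1.1}) ?_
    exact (measurableSet_eq_fun (measurable_fst.comp measurable_snd)
      (measurable_fst.comp (measurable_fst.comp measurable_fst))).compl
  have h3 : MeasurableSet {r : ((CP (XX d) × List SM3.Pt) × CP (XX d)) × CP (XX d) |
      dist r.1.1.1.1 r.1.2.1 = dist r.1.1.1.1 r.2.1 → r.1.2 = r.2} := by
    have m1 : Measurable (fun r : ((CP (XX d) × List SM3.Pt) × CP (XX d)) × CP (XX d) =>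
        r.1.1.1.1) :=
      measurable_fst.comp (measurable_fst.comp (measurable_fst.comp measurable_fst))
    have m2 : Measurable (fun r : ((CP (XX d) × List SM3.Pt) × CP (XX d)) × CP (XX d) =>
        r.1.2.1) := measurable_fst.comp (measurable_snd.comp measurable_fst)
    have m3 : Measurable (fun r : ((CP (XX d) × List SM3.Pt) × CP (XX d)) × CP (XX d) =>
        r.2.1) := measurable_fst.comp measurable_snd
    have m4 : Measurable (fun r : ((CP (XX d) × List SM3.Pt) × CP (XX d)) × CP (XX d) =>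
        (r.1.2.2, r.2.2)) :=
      (measurable_snd.comp (measurable_snd.comp measurable_fst)).prodMk
        (measurable_snd.comp measurable_snd)
    have s1 : MeasurableSet {r : ((CP (XX d) × List SM3.Pt) × CP (XX d)) × CP (XX d) |
        dist r.1.1.1.1 r.1.2.1 = dist r.1.1.1.1 r.2.1} :=
      measurableSet_eq_fun (m1.dist m2) (m1.dist m3)
    have s2 : MeasurableSet {r : ((CP (XX d) × List SM3.Pt) × CP (XX d)) × CP (XX d) |
        r.1.2.1 = r.2.1} := measurableSet_eq_fun m2 m3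
    have s3 : MeasurableSet {r : ((CP (XX d) × List SM3.Pt) × CP (XX d)) × CP (XX d) |
        r.1.2.2 = r.2.2} :=
      m4 (MeasurableSet.of_discrete (s := {v : Fin 3 × Fin 3 | v.1 = v.2}))
    have e : {r : ((CP (XX d) × List SM3.Pt) × CP (XX d)) × CP (XX d) |
        dist r.1.1.1.1 r.1.2.1 = dist r.1.1.1.1 r.2.1 → r.1.2 = r.2}
        = {r | dist r.1.1.1.1 r.1.2.1 = dist r.1.1.1.1 r.2.1}ᶜ ∪
          ({r | r.1.2.1 = r.2.1} ∩ {r | r.1.2.2 = r.2.2}) := by
      ext r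
      simp only [mem_ofPred_eq, mem_union, mem_compl_iff, mem_inter_iff, Prod.ext_iff]
      tauto
    rw [e]
    exact s1.compl.union (s2.inter s3)
  have h2 : MeasurableSet {q : CP (XX d) × List SM3.Pt | ∀ y ∈ GX Φ q.2, ∀ z ∈ GX Φ q.2,
      dist q.1.1 y.1 = dist q.1.1 z.1 → y = z} := by
    refine hY.forall (Q := {r | ∀ z ∈ GX Φ r.1.2,
      dist r.1.1.1 r.2.1 = dist r.1.1.1 z.1 → r.2 = z}) ?_
    exact hY'.forall (Q := {r | dist r.1.1.1.1 r.1.2.1 = dist r.1.1.1.1 r.2.1 → r.1.2 = r.2}) h3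
  exact h1.inter h2

theorem ae_noIso {d : ℕ} (hd : 1 ≤ d) (p : Fin 3 → ℝ) (Φ : PhiM d) (T : ℝ) :
    ∀ᵐ l ∂(SM3.Pm p (-T) T), NoIso (GX Φ l) := by
  have hG : Measurable (fun q : CP (XX d) × List SM3.Pt => SM3.ind (¬ P6C Φ q.1 q.2)) :=
    SM3.measurable_ind (P6_measC Φ).compl
  have h := (P6_ae_xsum (p := p) Φ (T := T) (G := fun x q => SM3.ind (¬ P6C Φ x q)) hG ?_).2
  · filter_upwards [h, ae_list p Φ T] with l hl hn x hx y hy z hz he
    obtain ⟨q, -, hq2, hq3⟩ := le_xsum Φ hn.1 hx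
    have h1 := hq3 (fun x q => SM3.ind (¬ P6C Φ x q))
    rw [hl] at h1
    have hC : P6C Φ x q := not_not.1 (P6_not_of_ind h1)
    by_cases hyx : y = x
    · by_cases hzx : z = x
      · rw [hyx, hzx]
      · exfalso
        refine hC.1 z (by rw [hq2]; exact ⟨hz, hzx⟩) ?_
        rw [hyx, dist_self] at he
        exact (dist_eq_zero.1 he.symm).symm
    · by_cases hzx : z = x
      · exfalso
        refine hC.1 y (by rw [hq2]; exact ⟨hy, hyx⟩) ?_
        rw [hzx, dist_self] at he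
        exact (dist_eq_zero.1 he).symm
      · exact hC.2 y (by rw [hq2]; exact ⟨hy, hyx⟩) z (by rw [hq2]; exact ⟨hz, hzx⟩) he
  · refine Filter.Eventually.of_forall fun x c => ?_
    rw [← lintegral_zero (μ := SM3.Pm p (-T) T)]
    refine lintegral_congr_ae ?_
    filter_upwards [ae_not_mem hd p Φ T x, ae_noIso_at hd p Φ T x] with l h1 h2
    exact P6_ind_false (fun hn => hn ⟨h1, h2⟩)

end Pool.SM3X
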