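/-
SM3X.P7 : decoupling for aliveness events of the Poisson process.
PROOF. Cells: `M = 2 T 2^(d n)`, `δ = 2^(-d n)`, `t i = -T + i δ`; `-T + M δ = T`.  Let `μ = Measure.pi (fun i => Pm p (t i) (t (i+1)))` (probability measures: SM3.isProb_Pm) and for `ω : Fin M → List Pt`
`Yω = {y | ∃ i, (Φ.φ y.1, y.2) ∈ ω i ∧ t i < Φ.φ y.1 ∧ Φ.φ y.1 < t (i+1)}` (a finite set, a measurable family on the product: M1).
(1) For `μ`-a.e. `ω`: all `ω i` are sorted in `(t i, t (i+1))` (`SM3.ae_Pm`; `Measure.quasiMeasurePreserving_eval`-type argument or `Measure.ae_eval_pi`), so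
`GX Φ (List.ofFn ω).flatten = Yω`, all points `y` of all `ω i` satisfy `Φ.φ (Φ.ψ y.1) = y.1` (as in P6, `ae_range`), and `(List.ofFn ω).flatten` has no duplicates (sorted lists in disjoint intervals).
(2) `SM3X.prod_cells` (P4) turns the three probabilities into `μ`-probabilities of `A ∩ G`, `A`, `G` with `A = {ω | Al Yω (a,c) s}`, `G = {ω | Al Yω (b,c') s}` (measurable: M2).
(3) `I ω = {i | ∃ x ∈ Ex Yω a s, t i < Φ.φ x ∧ Φ.φ x < t (i+1)}`, `J` the same for `b`.  Measurable: `{(u,τ) | ∃ x, t i < Φ.φ x < t (i+1) ∧ dist x u < τ}` is open; `measurableSet_Rch` (M2), union over `k`.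
`h1`: if `ω' = ω` on `I ω` then for `y` with `y.1 ∈ Ex Yω a s`: `y ∈ Yω ↔ y ∈ Yω'` (the cell of `y` is in `I ω`); `Ex_congr` (D5).  `h2` the same.
(4) Bad event: `i ∈ I ω ∩ J ω'`, `ω i ≠ ω' i`: one of the two lists is nonempty, say it contains `y`; put `z = (Φ.ψ y.1, y.2)`, `z ∈ Yω` or `z ∈ Yω'`.  There are `x`, `x'` with `Φ.φ x`, `Φ.φ x'` in the open cell `i`,
`dist x u < τ`, `dist x' u' < τ'` with chains in `Yω` and `Yω'`.  By `Φ.small n` (points with `φ` in the same open cell have the same floor of `2^(d n) φ`: `t i = (integer) / 2^(d n)`) `dist z.1 x ≤ √d / 2^n`,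
so `dist z.1 u < τ + √d / 2^n`, the same for `u'`: `BadL`.  With (1): `1 ≤ F (List.ofFn ω).flatten (List.ofFn ω').flatten` for a.e. `(ω,ω')`.
(5) `decouple` (P5), and `prod_cells` twice for the right side (`lintegral_prod`, measurable_flatten, measurability of `l ↦ ∫⁻ l', F l l'`: Measurable.lintegral_prod_right').
-/
import Pool.Agent.Lib.SM3X.D5
import Pool.Agent.Lib.SM3X.M2
import Pool.Agent.Lib.SM3X.P3
import Pool.Agent.Lib.SM3X.P4
import Pool.Agent.Lib.SM3X.P5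
import Pool.Agent.Lib.SM3X.P6

set_option autoImplicit false

open MeasureTheory Set

namespace Pool.SM3X

/-- the bad event: a point `z` of one of the two configurations is within `h` of both explored regions -/
def BadL {d : ℕ} (h : ℝ) (a b : XX d) (s : ℝ) (Y Y' : Set (CP (XX d))) : Prop :=
  ∃ z : CP (XX d), (z ∈ Y ∨ z ∈ Y') ∧
    (∃ k u τ Q, Rch k Y a s u τ Q ∧ dist z.1 u < τ + h) ∧
    (∃ k u τ Q, Rch k Y' b s u τ Q ∧ dist z.1 u < τ + h)

private theorem P7_mem_wf {u w : ℝ} {l : List SM3.Pt} {y : SM3.Pt} :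
    y ∈ SM3.wf u w l ↔ y ∈ l ∧ u < y.1 ∧ y.1 < w := by
  classical
  unfold SM3.wf
  rw [List.mem_filter]
  simp

private theorem P7_wf_self {u w : ℝ} {l : List SM3.Pt} (h : ∀ y ∈ l, u < y.1 ∧ y.1 < w) :
    SM3.wf u w l = l := by
  classical
  unfold SM3.wf
  rw [List.filter_eq_self]
  intro y hy
  simpa using h y hy

section cells

variable {d : ℕ} (Φ : PhiM d) (M : ℕ) (u δ : ℝ)

/-- the concatenation of the lists, restricted to their cells -/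
private noncomputable def P7_L (ω : Fin M → List SM3.Pt) : List SM3.Pt :=
  (List.ofFn fun i : Fin M =>
    SM3.wf (u + (i : ℕ) * δ) (u + ((i : ℕ) + 1) * δ) (ω i)).flatten

private theorem P7_mem {ω : Fin M → List SM3.Pt} {y : CP (XX d)} :
    y ∈ GX Φ (P7_L M u δ ω) ↔ ∃ i : Fin M, (Φ.φ y.1, y.2) ∈ ω i ∧
      u + (i : ℕ) * δ < Φ.φ y.1 ∧ Φ.φ y.1 < u + ((i : ℕ) + 1) * δ := by
  show (Φ.φ y.1, y.2) ∈ P7_L M u δ ω ↔ _
  unfold P7_L
  rw [List.mem_flatten]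
  constructor
  · rintro ⟨l, hl, hy⟩
    rw [List.mem_ofFn] at hl
    obtain ⟨i, rfl⟩ := hl
    exact ⟨i, P7_mem_wf.1 hy⟩
  · rintro ⟨i, hy⟩
    exact ⟨_, List.mem_ofFn.2 ⟨i, rfl⟩, P7_mem_wf.2 hy⟩

private theorem P7_measL : Measurable (P7_L M u δ) := by
  have h : Measurable (fun ω : Fin M → List SM3.Pt => fun i : Fin M =>
      SM3.wf (u + (i : ℕ) * δ) (u + ((i : ℕ) + 1) * δ) (ω i)) :=
    measurable_pi_iff.2 fun i => (SM3.measurable_wf _ _).comp (measurable_pi_apply i)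
  exact (measurable_flatten M).comp h

private theorem P7_MFam : MFam (fun ω => GX Φ (P7_L M u δ ω)) :=
  (MFam_GX Φ).comp (P7_measL M u δ)

/-- the explored cells -/
private def P7_I (a : XX d) (s : ℝ) (ω : Fin M → List SM3.Pt) : Set (Fin M) :=
  {i | ∃ x ∈ Ex (GX Φ (P7_L M u δ ω)) a s,
    u + (i : ℕ) * δ < Φ.φ x ∧ Φ.φ x < u + ((i : ℕ) + 1) * δ}

private theorem P7_stop {a : XX d} {s : ℝ} {ω ω' : Fin M → List SM3.Pt}
    (h : ∀ i ∈ P7_I Φ M u δ a s ω, ω' i = ω i) :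
    P7_I Φ M u δ a s ω' = P7_I Φ M u δ a s ω ∧
      ∀ c : Fin 3, (Al (GX Φ (P7_L M u δ ω')) (a, c) s ↔ Al (GX Φ (P7_L M u δ ω)) (a, c) s) := by
  have key := Ex_congr (Y := GX Φ (P7_L M u δ ω)) (Y' := GX Φ (P7_L M u δ ω'))
    (GX_finite Φ _) (GX_finite Φ _) (a := a) (s := s) (fun y hy => by
      rw [P7_mem, P7_mem]
      constructor
      · rintro ⟨i, h1, h2, h3⟩
        refine ⟨i, ?_, h2, h3⟩
        rw [h i ⟨y.1, hy, h2, h3⟩]
        exact h1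
      · rintro ⟨i, h1, h2, h3⟩
        refine ⟨i, ?_, h2, h3⟩
        rw [← h i ⟨y.1, hy, h2, h3⟩]
        exact h1)
  refine ⟨?_, fun c => (key.2 c).symm⟩
  unfold P7_I
  rw [key.1]

private theorem P7_open (i : Fin M) : MeasurableSet {q : XX d × ℝ | ∃ x : XX d,
    (u + (i : ℕ) * δ < Φ.φ x ∧ Φ.φ x < u + ((i : ℕ) + 1) * δ) ∧ dist x q.1 < q.2} := by
  apply IsOpen.measurableSet
  have h : {q : XX d × ℝ | ∃ x : XX d,
      (u + (i : ℕ) * δ < Φ.φ x ∧ Φ.φ x < u + ((i : ℕ) + 1) * δ) ∧ dist x q.1 < q.2} =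
      ⋃ x ∈ {x : XX d | u + (i : ℕ) * δ < Φ.φ x ∧ Φ.φ x < u + ((i : ℕ) + 1) * δ},
        {q : XX d × ℝ | dist x q.1 < q.2} := by
    ext q
    simp only [mem_ofPred_eq, mem_iUnion, exists_prop]
  rw [h]
  refine isOpen_biUnion fun x _ => ?_
  exact isOpen_lt (continuous_const.dist continuous_fst) continuous_snd

private theorem P7_measI (a : XX d) (s : ℝ) (i : Fin M) :
    MeasurableSet {ω | i ∈ P7_I Φ M u δ a s ω} := by
  have h : {ω | i ∈ P7_I Φ M u δ a s ω} = ⋃ k : ℕ, {ω | ∃ v τ Q,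
      Rch k (GX Φ (P7_L M u δ ω)) a s v τ Q ∧ (ω, v, τ) ∈ {q : (Fin M → List SM3.Pt) × XX d × ℝ |
        ∃ x : XX d, (u + (i : ℕ) * δ < Φ.φ x ∧ Φ.φ x < u + ((i : ℕ) + 1) * δ) ∧
          dist x q.2.1 < q.2.2}} := by
    ext ω
    simp only [mem_ofPred_eq, mem_iUnion]
    constructor
    · rintro ⟨x, ⟨k, v, τ, Q, hr, hd⟩, hx⟩
      exact ⟨k, v, τ, Q, hr, x, hx, hd⟩
    · rintro ⟨k, v, τ, Q, hr, x, hx, hd⟩
      exact ⟨x, ⟨k, v, τ, Q, hr, hd⟩, hx⟩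
  rw [h]
  refine MeasurableSet.iUnion fun k => ?_
  refine measurableSet_Rch k (P7_MFam Φ M u δ) measurable_const measurable_const ?_
  exact (P7_open Φ M u δ i).preimage measurable_snd

end cells

private theorem P7_cell {d : ℕ} (Φ : PhiM d) (T n : ℕ) (i : ℕ) {x y : XX d}
    (h1 : -(T : ℝ) + i * (1 / 2 ^ (d * n)) < Φ.φ x)
    (h2 : Φ.φ x < -(T : ℝ) + (i + 1) * (1 / 2 ^ (d * n)))
    (h3 : -(T : ℝ) + i * (1 / 2 ^ (d * n)) < Φ.φ y)
    (h4 : Φ.φ y < -(T : ℝ) + (i + 1) * (1 / 2 ^ (d * n))) :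
    dist x y ≤ Real.sqrt d / 2 ^ n := by
  have hP : (0 : ℝ) < 2 ^ (d * n) := by positivity
  have key : ∀ z : ℝ, -(T : ℝ) + i * (1 / 2 ^ (d * n)) < z →
      z < -(T : ℝ) + (i + 1) * (1 / 2 ^ (d * n)) →
      ⌊(2 : ℝ) ^ (d * n) * z⌋ = -((T : ℤ) * 2 ^ (d * n)) + i := by
    intro z hz1 hz2
    rw [Int.floor_eq_iff]
    push_cast
    have e1 := mul_lt_mul_of_pos_left hz1 hP
    have e2 := mul_lt_mul_of_pos_left hz2 hP
    have e3 : (2 : ℝ) ^ (d * n) * (-(T : ℝ) + i * (1 / 2 ^ (d * n))) =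
        -((T : ℝ) * 2 ^ (d * n)) + i := by
      field_simp
    have e4 : (2 : ℝ) ^ (d * n) * (-(T : ℝ) + (i + 1) * (1 / 2 ^ (d * n))) =
        -((T : ℝ) * 2 ^ (d * n)) + i + 1 := by
      field_simp
      ring
    rw [e3] at e1
    rw [e4] at e2
    exact ⟨e1.le, e2⟩
  exact Φ.small n x y ((key _ h1 h2).trans (key _ h3 h4).symm)

theorem decouple_list {d : ℕ} {p : Fin 3 → ℝ} (hp : SM3.PV p) (Φ : PhiM d) (T n : ℕ)
    (c c' : Fin 3) (a b : XX d) (s : ℝ) {F : List SM3.Pt → List SM3.Pt → ENNReal}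
    (hF : Measurable (fun q : List SM3.Pt × List SM3.Pt => F q.1 q.2))
    (hbad : ∀ l l' : List SM3.Pt, l.Nodup → l'.Nodup →
      BadL (Real.sqrt d / 2 ^ n) a b s (GX Φ l) (GX Φ l') → 1 ≤ F l l') :
    ENNReal.ofReal |(SM3.Pm p (-(T : ℝ)) T).real
          {l | Al (GX Φ l) (a, c) s ∧ Al (GX Φ l) (b, c') s}
        - (SM3.Pm p (-(T : ℝ)) T).real {l | Al (GX Φ l) (a, c) s} *
          (SM3.Pm p (-(T : ℝ)) T).real {l | Al (GX Φ l) (b, c') s}|
      ≤ ∫⁻ l, ∫⁻ l', F l l' ∂(SM3.Pm p (-(T : ℝ)) T) ∂(SM3.Pm p (-(T : ℝ)) T) := by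
  obtain ⟨δ, hδ⟩ : ∃ δ : ℝ, δ = 1 / 2 ^ (d * n) := ⟨_, rfl⟩
  obtain ⟨u, hu⟩ : ∃ u : ℝ, u = -(T : ℝ) := ⟨_, rfl⟩
  obtain ⟨M, hM⟩ : ∃ M : ℕ, M = 2 * T * 2 ^ (d * n) := ⟨_, rfl⟩
  have hδ0 : 0 ≤ δ := by
    rw [hδ]
    positivity
  have hT : u + M * δ = T := by
    rw [hu, hδ, hM]
    push_cast
    field_simp
    ring
  let μ : Fin M → Measure (List SM3.Pt) :=
    fun i => SM3.Pm p (u + (i : ℕ) * δ) (u + ((i : ℕ) + 1) * δ)
  have hμ : ∀ i, IsProbabilityMeasure (μ i) := fun i => SM3.isProb_Pm hp (by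
    have : (0 : ℝ) ≤ (i : ℕ) := Nat.cast_nonneg _
    nlinarith)
  let fl : (Fin M → List SM3.Pt) → List SM3.Pt := fun ω => (List.ofFn ω).flatten
  have hfl : Measurable fl := measurable_flatten M
  have hmap : SM3.Pm p (-(T : ℝ)) T = (Measure.pi μ).map fl := by
    refine Measure.ext fun B hB => ?_
    rw [Measure.map_apply hfl hB]
    have h1 := prod_cells hp M u hδ0 (F := B.indicator 1) (measurable_one.indicator hB)
    rw [hT, lintegral_indicator_one hB, hu] at h1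
    rw [h1]
    have h2 : (fun ω : Fin M → List SM3.Pt => B.indicator (1 : List SM3.Pt → ENNReal)
        ((List.ofFn ω).flatten)) = (fl ⁻¹' B).indicator 1 := by
      ext ω
      by_cases h : fl ω ∈ B
      · rw [indicator_of_mem (show ω ∈ fl ⁻¹' B from h), indicator_of_mem (show _ ∈ B from h)]
        rfl
      · rw [indicator_of_notMem (show ω ∉ fl ⁻¹' B from h),
          indicator_of_notMem (show _ ∉ B from h)]
    rw [h2, lintegral_indicator_one (hfl hB), ← hu]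
  -- almost sure facts
  have hae : ∀ᵐ ω ∂(Measure.pi μ), (fl ω).Nodup ∧ (∀ y ∈ fl ω, Φ.φ (Φ.ψ y.1) = y.1) ∧
      P7_L M u δ ω = fl ω := by
    have h1 : ∀ᵐ l ∂((Measure.pi μ).map fl), l.Nodup ∧
        ∀ y ∈ l, -(T : ℝ) < y.1 ∧ y.1 < (T : ℝ) ∧ Φ.φ (Φ.ψ y.1) = y.1 := by
      rw [← hmap]
      exact ae_list p Φ T
    have h2 := ae_of_ae_map hfl.aemeasurable h1
    have h3 : ∀ᵐ ω ∂(Measure.pi μ), ∀ i : Fin M,
        SM3.SL (u + (i : ℕ) * δ) (u + ((i : ℕ) + 1) * δ) (ω i) := by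
      rw [ae_all_iff]
      intro i
      exact (Measure.quasiMeasurePreserving_eval μ i).ae (SM3.ae_Pm p _ _)
    filter_upwards [h2, h3] with ω h2 h3
    refine ⟨h2.1, fun y hy => (h2.2 y hy).2.2, ?_⟩
    show (List.ofFn fun i : Fin M =>
      SM3.wf (u + (i : ℕ) * δ) (u + ((i : ℕ) + 1) * δ) (ω i)).flatten = (List.ofFn ω).flatten
    congr 2
    funext i
    exact P7_wf_self (h3 i).2
  -- probabilities
  have hmeas : ∀ (e : XX d) (k : Fin 3), MeasurableSet {l : List SM3.Pt | Al (GX Φ l) (e, k) s} :=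
    fun e k => measurableSet_Al (MFam_GX Φ) measurable_const measurable_const
  have hreal : ∀ B : Set (List SM3.Pt), MeasurableSet B → (SM3.Pm p (-(T : ℝ)) T).real B =
      (Measure.pi μ).real {ω | P7_L M u δ ω ∈ B} := by
    intro B hB
    rw [hmap, map_measureReal_apply hfl hB]
    apply measureReal_congr
    filter_upwards [hae] with ω hω
    show (fl ω ∈ B) = (P7_L M u δ ω ∈ B)
    rw [hω.2.2]
  let A : Set (Fin M → List SM3.Pt) := {ω | Al (GX Φ (P7_L M u δ ω)) (a, c) s}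
  let G : Set (Fin M → List SM3.Pt) := {ω | Al (GX Φ (P7_L M u δ ω)) (b, c') s}
  have hA : MeasurableSet A := (hmeas a c).preimage (P7_measL M u δ)
  have hG : MeasurableSet G := (hmeas b c').preimage (P7_measL M u δ)
  have e1 : (SM3.Pm p (-(T : ℝ)) T).real {l | Al (GX Φ l) (a, c) s ∧ Al (GX Φ l) (b, c') s} =
      (Measure.pi μ).real (A ∩ G) := hreal _ ((hmeas a c).inter (hmeas b c'))
  have e2 : (SM3.Pm p (-(T : ℝ)) T).real {l | Al (GX Φ l) (a, c) s} = (Measure.pi μ).real A :=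
    hreal _ (hmeas a c)
  have e3 : (SM3.Pm p (-(T : ℝ)) T).real {l | Al (GX Φ l) (b, c') s} = (Measure.pi μ).real G :=
    hreal _ (hmeas b c')
  rw [e1, e2, e3]
  have hF2 : Measurable (fun q : (Fin M → List SM3.Pt) × (Fin M → List SM3.Pt) =>
      F (fl q.1) (fl q.2)) :=
    hF.comp ((hfl.comp measurable_fst).prodMk (hfl.comp measurable_snd))
  have hbad2 : ∀ᵐ q ∂((Measure.pi μ).prod (Measure.pi μ)),
      (∃ i, i ∈ P7_I Φ M u δ a s q.1 ∧ i ∈ P7_I Φ M u δ b s q.2 ∧ q.1 i ≠ q.2 i) →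
        1 ≤ F (fl q.1) (fl q.2) := by
    have h1 : ∀ᵐ q ∂((Measure.pi μ).prod (Measure.pi μ)), (fl q.1).Nodup ∧
        (∀ y ∈ fl q.1, Φ.φ (Φ.ψ y.1) = y.1) ∧ P7_L M u δ q.1 = fl q.1 :=
      Measure.quasiMeasurePreserving_fst.ae hae
    have h2 : ∀ᵐ q ∂((Measure.pi μ).prod (Measure.pi μ)), (fl q.2).Nodup ∧
        (∀ y ∈ fl q.2, Φ.φ (Φ.ψ y.1) = y.1) ∧ P7_L M u δ q.2 = fl q.2 :=
      Measure.quasiMeasurePreserving_snd.ae hae
    have h3 : ∀ᵐ ω ∂(Measure.pi μ), ∀ i : Fin M,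
        SM3.SL (u + (i : ℕ) * δ) (u + ((i : ℕ) + 1) * δ) (ω i) := by
      rw [ae_all_iff]
      intro i
      exact (Measure.quasiMeasurePreserving_eval μ i).ae (SM3.ae_Pm p _ _)
    have h4 : ∀ᵐ q ∂((Measure.pi μ).prod (Measure.pi μ)), ∀ i : Fin M,
        SM3.SL (u + (i : ℕ) * δ) (u + ((i : ℕ) + 1) * δ) (q.1 i) :=
      Measure.quasiMeasurePreserving_fst.ae h3
    have h5 : ∀ᵐ q ∂((Measure.pi μ).prod (Measure.pi μ)), ∀ i : Fin M,
        SM3.SL (u + (i : ℕ) * δ) (u + ((i : ℕ) + 1) * δ) (q.2 i) :=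
      Measure.quasiMeasurePreserving_snd.ae h3
    filter_upwards [h1, h2, h4, h5] with q h1 h2 h4 h5
    rintro ⟨i, hi, hj, hne⟩
    have hin : ∀ (ω : Fin M → List SM3.Pt) (y : SM3.Pt), y ∈ ω i → y ∈ fl ω := by
      intro ω y hy
      show y ∈ (List.ofFn ω).flatten
      rw [List.mem_flatten]
      exact ⟨ω i, List.mem_ofFn.2 ⟨i, rfl⟩, hy⟩
    -- a point in one of the lists
    obtain ⟨y, hy⟩ : ∃ y, y ∈ q.1 i ∨ y ∈ q.2 i := by
      by_contra hno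
      push Not at hno
      apply hne
      rw [List.eq_nil_iff_forall_not_mem.2 fun y => (hno y).1,
        List.eq_nil_iff_forall_not_mem.2 fun y => (hno y).2]
    have hy1 : u + (i : ℕ) * δ < y.1 ∧ y.1 < u + ((i : ℕ) + 1) * δ := by
      rcases hy with hy | hy
      · exact (h4 i).2 y hy
      · exact (h5 i).2 y hy
    have hy2 : Φ.φ (Φ.ψ y.1) = y.1 := by
      rcases hy with hy | hy
      · exact h1.2.1 y (hin _ y hy)
      · exact h2.2.1 y (hin _ y hy)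
    have hdist : ∀ x : XX d, u + (i : ℕ) * δ < Φ.φ x → Φ.φ x < u + ((i : ℕ) + 1) * δ →
        dist (Φ.ψ y.1) x ≤ Real.sqrt d / 2 ^ n := by
      intro x hx1 hx2
      rw [hu, hδ] at hx1 hx2
      have hy3 := hy1
      rw [hu, hδ, ← hy2] at hy3
      exact P7_cell Φ T n i hy3.1 hy3.2 hx1 hx2
    apply hbad _ _ h1.1 h2.1
    refine ⟨(Φ.ψ y.1, y.2), ?_, ?_, ?_⟩
    · rcases hy with hy | hy
      · left
        show (Φ.φ (Φ.ψ y.1), y.2) ∈ fl q.1
        rw [hy2]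
        exact hin _ y hy
      · right
        show (Φ.φ (Φ.ψ y.1), y.2) ∈ fl q.2
        rw [hy2]
        exact hin _ y hy
    · obtain ⟨x, ⟨k, v, τ, Q, hr, hd⟩, hx1, hx2⟩ := hi
      rw [h1.2.2] at hr
      refine ⟨k, v, τ, Q, hr, ?_⟩
      have h6 := dist_triangle (Φ.ψ y.1) x v
      have h7 := hdist x hx1 hx2
      show dist (Φ.ψ y.1) v < τ + Real.sqrt d / 2 ^ n
      linarith
    · obtain ⟨x, ⟨k, v, τ, Q, hr, hd⟩, hx1, hx2⟩ := hj
      rw [h2.2.2] at hr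
      refine ⟨k, v, τ, Q, hr, ?_⟩
      have h6 := dist_triangle (Φ.ψ y.1) x v
      have h7 := hdist x hx1 hx2
      show dist (Φ.ψ y.1) v < τ + Real.sqrt d / 2 ^ n
      linarith
  have hdec := decouple μ hA hG (P7_I Φ M u δ a s) (P7_I Φ M u δ b s)
    (P7_measI Φ M u δ a s)
    (fun ω ω' h => ⟨(P7_stop Φ M u δ h).1, (P7_stop Φ M u δ h).2 c⟩)
    (fun ω ω' h => (P7_stop Φ M u δ h).2 c') hF2 hbad2
  refine hdec.trans (le_of_eq ?_)
  rw [lintegral_prod _ hF2.aemeasurable, hmap]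
  have hF3 : Measurable (fun l : List SM3.Pt => ∫⁻ l', F l l' ∂((Measure.pi μ).map fl)) :=
    Measurable.lintegral_prod_right' (ν := (Measure.pi μ).map fl) hF
  rw [lintegral_map hF3 hfl]
  refine lintegral_congr fun ω => ?_
  have hF4 : Measurable (fun l' : List SM3.Pt => F (fl ω) l') := hF.comp measurable_prodMk_left
  rw [lintegral_map hF4 hfl]

end Pool.SM3X
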