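/-
SM3X.C5 : counting functionals for the bad event (deterministic).
PROOF. `F2`, `c1`, `c2`, `c3` below.  `bad_count`: let `s' = s + h`.  Case `z ∈ GX Φ l`: by `Rch_trunc` (D6) there is a chain of length `k` in `GX Φ l` from `(a,s)` with end `(u,τ)`, rest `Q ∋ z`, `dist z.1 u < τ + h ≤ s'`
(`Rch_sub`: `τ ≤ s`); and a chain of length `k'` in `GX Φ l'` from `(b,s)` with end `(u',τ')`, `dist z.1 u' < τ' + h ≤ s'`.
`k' = 0`: `u' = b`.  If `k = 0`: `u = a`, so `1 ≤ c1 Φ a b s' l` (`le_xsum`, C1).  If `k = j + 1`: `Rch_snoc`: chain of length `j` with end `(u₁,τ₁)`, rest `Q₁`, `y ∈ Q₁`, `dist u₁ y.1 < τ₁ ≤ s ≤ s'`, `u = y.1`, `Q = Q₁ \ {y}`;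
`le_Cnt` gives `q₁` with `GX Φ q₁ = Q₁`; `le_xsum` for `y` gives `q'` with `GX Φ q' = Q₁ \ {y} ∋ z`; `le_xsum` for `z`: `1 ≤ F2 Φ b s' u₁ τ₁ q₁ ≤ Cnt j .. ≤ c2 Φ a b s s' l` (`ENNReal.le_tsum`).
`k' = j' + 1`: `Rch_snoc` for the second chain: end `(u₁',τ₁')`, rest `Q₁'`, `y ∈ Q₁'`, `dist u₁' y.1 < τ₁' ≤ s'`, `u' = y.1`, `dist z.1 y.1 < s'`; so `1 ≤ c3 Φ a b s s' l l'` (`le_Cnt` for both chains, `le_xsum` for `z` and for `y`).
Case `z ∈ GX Φ l'`: the same with the roles of `(a,l)` and `(b,l')` exchanged.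
`reach_count`: a chain of length `k` in `GX Φ l` from `(a,s)` with end `(u,τ)`, `dist b u < τ`, `s = dist a b`.  `k = 0` is impossible.  `k = 1`: `u = y.1`, `dist a y.1 < s`, `dist b y.1 < dist a y.1 < s`: `1 ≤ c1 Φ a b s l`.
`k = j + 2`: `Rch_snoc` twice: chain of length `j` with end `(u₁,τ₁)`, rest `Q₁`, `y ∈ Q₁`, `dist u₁ y.1 < τ₁ ≤ s`, `z ∈ Q₁ \ {y}`, `dist y.1 z.1 < dist u₁ y.1 < s`, `dist b z.1 < dist y.1 z.1 < s`: `1 ≤ F2 Φ b s u₁ τ₁ q₁`.
Measurability: C1 (`measurable_xsum`, `measurable_Cnt`), `SM3.measurable_ind`, `Measurable.ennreal_tsum`.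
-/
import Pool.Agent.Lib.SM3X.C1
import Pool.Agent.Lib.SM3X.D6
import Pool.Agent.Lib.SM3X.P7

set_option autoImplicit false

open MeasureTheory Set

namespace Pool.SM3X

variable {d : ℕ}

/-- number of points in the intersection of the balls around `a` and `b` -/
noncomputable def c1 (Φ : PhiM d) (a b : XX d) (s' : ℝ) (l : List SM3.Pt) : ENNReal :=
  xsum Φ (fun z _ => SM3.ind (dist z.1 a < s' ∧ dist z.1 b < s')) l

/-- terminal functional: pairs `y`, `z` with `|y - u|, |z - y|, |z - b| < s'` -/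
noncomputable def F2 (Φ : PhiM d) (b : XX d) (s' : ℝ) (u : XX d) (_ : ℝ) (q : List SM3.Pt) :
    ENNReal :=
  xsum Φ (fun y q' => SM3.ind (dist y.1 u < s') *
    xsum Φ (fun z _ => SM3.ind (dist z.1 y.1 < s' ∧ dist z.1 b < s')) q') q

noncomputable def c2 (Φ : PhiM d) (a b : XX d) (s s' : ℝ) (l : List SM3.Pt) : ENNReal :=
  ∑' k : ℕ, Cnt Φ k a s (F2 Φ b s') l

/-- terminal functional for two configurations: `z ∈ q`, `y ∈ q'` with `|z - u|, |y - u'|, |z - y| < s'` -/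
noncomputable def F3 (Φ : PhiM d) (s' : ℝ) (u : XX d) (q : List SM3.Pt) (u' : XX d)
    (q' : List SM3.Pt) : ENNReal :=
  xsum Φ (fun z _ => SM3.ind (dist z.1 u < s') *
    xsum Φ (fun y _ => SM3.ind (dist y.1 z.1 < s' ∧ dist y.1 u' < s')) q') q

noncomputable def c3 (Φ : PhiM d) (a b : XX d) (s s' : ℝ) (l l' : List SM3.Pt) : ENNReal :=
  ∑' k : ℕ, ∑' k' : ℕ,
    Cnt Φ k a s (fun u _ q => Cnt Φ k' b s (fun u' _ q' => F3 Φ s' u q u' q') l') l

private theorem C5_ind {P : Prop} (h : P) : SM3.ind P = 1 := by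
  unfold SM3.ind
  rw [if_pos h]

private theorem C5_inner (Φ : PhiM d) (s' : ℝ) :
    Measurable (fun q : (XX d × XX d) × List SM3.Pt =>
      xsum Φ (fun z _ => SM3.ind (dist z.1 q.1.1 < s' ∧ dist z.1 q.1.2 < s')) q.2) := by
  refine measurable_xsum Φ (Θ := XX d × XX d)
    (G := fun θ z _ => SM3.ind (dist z.1 θ.1 < s' ∧ dist z.1 θ.2 < s')) ?_
  refine SM3.measurable_ind ?_
  have m0 : Measurable (fun q : (XX d × XX d) × CP (XX d) × List SM3.Pt => q.2.1.1) :=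
    measurable_fst.comp (measurable_fst.comp measurable_snd)
  have m1 : Measurable (fun q : (XX d × XX d) × CP (XX d) × List SM3.Pt => q.1.1) :=
    measurable_fst.comp measurable_fst
  have m2 : Measurable (fun q : (XX d × XX d) × CP (XX d) × List SM3.Pt => q.1.2) :=
    measurable_snd.comp measurable_fst
  exact (measurableSet_lt (m0.dist m1) measurable_const).inter
    (measurableSet_lt (m0.dist m2) measurable_const)

theorem measurable_c1 (Φ : PhiM d) (a b : XX d) (s' : ℝ) : Measurable (c1 Φ a b s') := by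
  have h := (C5_inner Φ s').comp
    (g := fun q : (XX d × XX d) × List SM3.Pt =>
      xsum Φ (fun z _ => SM3.ind (dist z.1 q.1.1 < s' ∧ dist z.1 q.1.2 < s')) q.2)
    (f := fun l : List SM3.Pt => (((a, b) : XX d × XX d), l))
    (Measurable.prodMk measurable_const measurable_id)
  exact h

private theorem C5_F2 (Φ : PhiM d) (b : XX d) (s' : ℝ) :
    Measurable (fun q : XX d × List SM3.Pt => F2 Φ b s' q.1 0 q.2) := by
  refine measurable_xsum Φ (Θ := XX d)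
    (G := fun u y q' => SM3.ind (dist y.1 u < s') *
      xsum Φ (fun z _ => SM3.ind (dist z.1 y.1 < s' ∧ dist z.1 b < s')) q') ?_
  have m0 : Measurable (fun q : XX d × CP (XX d) × List SM3.Pt => q.2.1.1) :=
    measurable_fst.comp (measurable_fst.comp measurable_snd)
  have m1 : Measurable (fun q : XX d × CP (XX d) × List SM3.Pt => q.1) := measurable_fst
  have m2 : Measurable (fun q : XX d × CP (XX d) × List SM3.Pt => q.2.2) :=
    measurable_snd.comp measurable_snd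
  refine Measurable.mul ?_ ?_
  · exact SM3.measurable_ind (measurableSet_lt (m0.dist m1) measurable_const)
  · exact (C5_inner Φ s').comp (f := fun q : XX d × CP (XX d) × List SM3.Pt =>
      ((q.2.1.1, b), q.2.2)) ((m0.prodMk measurable_const).prodMk m2)

theorem measurable_c2 (Φ : PhiM d) (a b : XX d) (s s' : ℝ) : Measurable (c2 Φ a b s s') := by
  have h : ∀ k : ℕ, Measurable (fun l : List SM3.Pt => Cnt Φ k a s (F2 Φ b s') l) := by
    intro k
    have h1 := measurable_Cnt Φ k (Θ := Unit) (F := fun _ => F2 Φ b s')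
      ((C5_F2 Φ b s').comp (f := fun q : Unit × XX d × ℝ × List SM3.Pt => (q.2.1, q.2.2.2))
        ((measurable_fst.comp measurable_snd).prodMk
          (measurable_snd.comp (measurable_snd.comp measurable_snd))))
    exact h1.comp (f := fun l : List SM3.Pt => ((), a, s, l))
      (measurable_const.prodMk (measurable_const.prodMk
        (measurable_const.prodMk measurable_id)))
  have h2 : c2 Φ a b s s' = fun l => ∑' k : ℕ, Cnt Φ k a s (F2 Φ b s') l := rfl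
  rw [h2]
  exact Measurable.ennreal_tsum h

private theorem C5_F3 (Φ : PhiM d) (s' : ℝ) :
    Measurable (fun q : (XX d × XX d × List SM3.Pt) × List SM3.Pt =>
      F3 Φ s' q.1.1 q.2 q.1.2.1 q.1.2.2) := by
  refine measurable_xsum Φ (Θ := XX d × XX d × List SM3.Pt)
    (G := fun θ z _ => SM3.ind (dist z.1 θ.1 < s') *
      xsum Φ (fun y _ => SM3.ind (dist y.1 z.1 < s' ∧ dist y.1 θ.2.1 < s')) θ.2.2) ?_
  have m0 : Measurable (fun q : (XX d × XX d × List SM3.Pt) × CP (XX d) × List SM3.Pt =>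
      q.2.1.1) := measurable_fst.comp (measurable_fst.comp measurable_snd)
  have m1 : Measurable (fun q : (XX d × XX d × List SM3.Pt) × CP (XX d) × List SM3.Pt =>
      q.1.1) := measurable_fst.comp measurable_fst
  have m2 : Measurable (fun q : (XX d × XX d × List SM3.Pt) × CP (XX d) × List SM3.Pt =>
      q.1.2.1) := measurable_fst.comp (measurable_snd.comp measurable_fst)
  have m3 : Measurable (fun q : (XX d × XX d × List SM3.Pt) × CP (XX d) × List SM3.Pt =>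
      q.1.2.2) := measurable_snd.comp (measurable_snd.comp measurable_fst)
  refine Measurable.mul ?_ ?_
  · exact SM3.measurable_ind (measurableSet_lt (m0.dist m1) measurable_const)
  · exact (C5_inner Φ s').comp
      (f := fun q : (XX d × XX d × List SM3.Pt) × CP (XX d) × List SM3.Pt =>
        ((q.2.1.1, q.1.2.1), q.1.2.2)) ((m0.prodMk m2).prodMk m3)

private theorem C5_c3k (Φ : PhiM d) (b : XX d) (s s' : ℝ) (k' : ℕ) :
    Measurable (fun q : (XX d × List SM3.Pt) × List SM3.Pt =>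
      Cnt Φ k' b s (fun u' _ q' => F3 Φ s' q.1.1 q.1.2 u' q') q.2) := by
  have h1 := measurable_Cnt Φ k' (Θ := XX d × List SM3.Pt)
    (F := fun θ u' _ q' => F3 Φ s' θ.1 θ.2 u' q')
    ((C5_F3 Φ s').comp
      (f := fun q : (XX d × List SM3.Pt) × XX d × ℝ × List SM3.Pt =>
        ((q.1.1, q.2.1, q.2.2.2), q.1.2))
      (((measurable_fst.comp measurable_fst).prodMk
        ((measurable_fst.comp measurable_snd).prodMk
          (measurable_snd.comp (measurable_snd.comp measurable_snd)))).prodMk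
        (measurable_snd.comp measurable_fst)))
  exact h1.comp (f := fun q : (XX d × List SM3.Pt) × List SM3.Pt => (q.1, b, s, q.2))
    (measurable_fst.prodMk (measurable_const.prodMk
      (measurable_const.prodMk measurable_snd)))

theorem measurable_c3 (Φ : PhiM d) (a b : XX d) (s s' : ℝ) :
    Measurable (fun q : List SM3.Pt × List SM3.Pt => c3 Φ a b s s' q.1 q.2) := by
  unfold c3
  refine Measurable.ennreal_tsum fun k => Measurable.ennreal_tsum fun k' => ?_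
  have h1 := measurable_Cnt Φ k (Θ := List SM3.Pt)
    (F := fun l' u _ q => Cnt Φ k' b s (fun u' _ q' => F3 Φ s' u q u' q') l')
    ((C5_c3k Φ b s s' k').comp
      (f := fun q : List SM3.Pt × XX d × ℝ × List SM3.Pt => ((q.2.1, q.2.2.2), q.1))
      (((measurable_fst.comp measurable_snd).prodMk
          (measurable_snd.comp (measurable_snd.comp measurable_snd))).prodMk measurable_fst))
  exact h1.comp (f := fun q : List SM3.Pt × List SM3.Pt => (q.2, a, s, q.1))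
    (measurable_snd.prodMk (measurable_const.prodMk
      (measurable_const.prodMk measurable_fst)))

/-- a lower bound for the terminal functional `F2` -/
private theorem C5_one_le_F2 (Φ : PhiM d) {b : XX d} {s' : ℝ} {u : XX d} {τ : ℝ}
    {q : List SM3.Pt} (hq : q.Nodup) {y z : CP (XX d)} (hy : y ∈ GX Φ q)
    (hz : z ∈ GX Φ q \ {y}) (h1 : dist y.1 u < s') (h2 : dist z.1 y.1 < s')
    (h3 : dist z.1 b < s') : 1 ≤ F2 Φ b s' u τ q := by
  obtain ⟨q', hq', hG', hle'⟩ := le_xsum Φ hq hy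
  rw [← hG'] at hz
  obtain ⟨q'', _, _, hle''⟩ := le_xsum Φ hq' hz
  have e1 := hle'' (fun z _ => SM3.ind (dist z.1 y.1 < s' ∧ dist z.1 b < s'))
  have e2 := hle' (fun y q' => SM3.ind (dist y.1 u < s') *
    xsum Φ (fun z _ => SM3.ind (dist z.1 y.1 < s' ∧ dist z.1 b < s')) q')
  rw [C5_ind ⟨h2, h3⟩] at e1
  rw [C5_ind h1, one_mul] at e2
  exact e1.trans e2

private theorem C5_one_le_c1 (Φ : PhiM d) {a b : XX d} {s' : ℝ} {l : List SM3.Pt} (hl : l.Nodup)
    {z : CP (XX d)} (hz : z ∈ GX Φ l) (h1 : dist z.1 a < s') (h2 : dist z.1 b < s') :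
    1 ≤ c1 Φ a b s' l := by
  obtain ⟨q, _, _, hle⟩ := le_xsum Φ hl hz
  have e1 := hle (fun z _ => SM3.ind (dist z.1 a < s' ∧ dist z.1 b < s'))
  rw [C5_ind ⟨h1, h2⟩] at e1
  exact e1

private theorem C5_one_le_c2 (Φ : PhiM d) {a b : XX d} {s s' : ℝ} {l : List SM3.Pt}
    (hl : l.Nodup) {j : ℕ} {u₁ : XX d} {τ₁ : ℝ} {Q₁ : Set (CP (XX d))}
    (hr : Rch j (GX Φ l) a s u₁ τ₁ Q₁) {y z : CP (XX d)} (hy : y ∈ Q₁) (hz : z ∈ Q₁ \ {y})
    (h1 : dist y.1 u₁ < s') (h2 : dist z.1 y.1 < s') (h3 : dist z.1 b < s') :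
    1 ≤ c2 Φ a b s s' l := by
  obtain ⟨q₁, hq₁, hG₁, hle₁⟩ := le_Cnt Φ j hl hr
  rw [← hG₁] at hy hz
  refine (C5_one_le_F2 Φ (τ := τ₁) hq₁ hy hz h1 h2 h3).trans ((hle₁ (F2 Φ b s')).trans ?_)
  exact ENNReal.le_tsum (f := fun k : ℕ => Cnt Φ k a s (F2 Φ b s') l) j

private theorem C5_one_le_F3 (Φ : PhiM d) {s' : ℝ} {u u' : XX d} {q q' : List SM3.Pt}
    (hq : q.Nodup) (hq' : q'.Nodup) {y z : CP (XX d)} (hz : z ∈ GX Φ q) (hy : y ∈ GX Φ q')
    (h1 : dist z.1 u < s') (h2 : dist y.1 z.1 < s') (h3 : dist y.1 u' < s') :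
    1 ≤ F3 Φ s' u q u' q' := by
  obtain ⟨_, _, _, hle⟩ := le_xsum Φ hq hz
  obtain ⟨_, _, _, hle'⟩ := le_xsum Φ hq' hy
  have e1 := hle' (fun y _ => SM3.ind (dist y.1 z.1 < s' ∧ dist y.1 u' < s'))
  have e2 := hle (fun z _ => SM3.ind (dist z.1 u < s') *
    xsum Φ (fun y _ => SM3.ind (dist y.1 z.1 < s' ∧ dist y.1 u' < s')) q')
  rw [C5_ind ⟨h2, h3⟩] at e1
  rw [C5_ind h1, one_mul] at e2
  exact e1.trans e2

private theorem C5_one_le_c3 (Φ : PhiM d) {a b : XX d} {s s' : ℝ} {l l' : List SM3.Pt}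
    (hl : l.Nodup) (hl' : l'.Nodup) {k k' : ℕ} {u u' : XX d} {τ τ' : ℝ}
    {Q Q' : Set (CP (XX d))} (hr : Rch k (GX Φ l) a s u τ Q)
    (hr' : Rch k' (GX Φ l') b s u' τ' Q') {y z : CP (XX d)} (hz : z ∈ Q) (hy : y ∈ Q')
    (h1 : dist z.1 u < s') (h2 : dist y.1 z.1 < s') (h3 : dist y.1 u' < s') :
    1 ≤ c3 Φ a b s s' l l' := by
  obtain ⟨q, hq, hG, hle⟩ := le_Cnt Φ k hl hr
  obtain ⟨q', hq', hG', hle'⟩ := le_Cnt Φ k' hl' hr'
  rw [← hG] at hz
  rw [← hG'] at hy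
  refine (C5_one_le_F3 Φ hq hq' hz hy h1 h2 h3).trans ?_
  refine (hle' (fun u' _ q' => F3 Φ s' u q u' q')).trans ?_
  refine (hle (fun u _ q => Cnt Φ k' b s (fun u' _ q' => F3 Φ s' u q u' q') l')).trans ?_
  refine (ENNReal.le_tsum (f := fun k' : ℕ =>
    Cnt Φ k a s (fun u _ q => Cnt Φ k' b s (fun u' _ q' => F3 Φ s' u q u' q') l') l) k').trans ?_
  exact ENNReal.le_tsum (f := fun k : ℕ => ∑' k' : ℕ,
    Cnt Φ k a s (fun u _ q => Cnt Φ k' b s (fun u' _ q' => F3 Φ s' u q u' q') l') l) k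

private theorem C5_half (Φ : PhiM d) {h : ℝ} (hh : 0 ≤ h) {a b : XX d} {s : ℝ}
    {l l' : List SM3.Pt} (hl : l.Nodup) (hl' : l'.Nodup) {z : CP (XX d)} (hz : z ∈ GX Φ l)
    (h1 : ∃ k u τ Q, Rch k (GX Φ l) a s u τ Q ∧ dist z.1 u < τ + h)
    (h2 : ∃ k u τ Q, Rch k (GX Φ l') b s u τ Q ∧ dist z.1 u < τ + h) :
    1 ≤ c1 Φ a b (s + h) l + c2 Φ a b s (s + h) l + c3 Φ a b s (s + h) l l' := by
  obtain ⟨k₀, u₀, τ₀, Q₀, hr₀, hd₀⟩ := h1
  obtain ⟨k, u, τ, Q, hr, hzQ, hd⟩ := Rch_trunc hr₀ hz hh hd₀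
  obtain ⟨k', u', τ', Q', hr', hd'⟩ := h2
  have hτ := (Rch_sub hr).2
  have hτ' := (Rch_sub hr').2
  have hzu : dist z.1 u < s + h := by linarith
  have hzu' : dist z.1 u' < s + h := by linarith
  rcases k' with _ | j'
  · obtain ⟨rfl, -, -⟩ := hr'
    rcases k with _ | j
    · obtain ⟨rfl, -, -⟩ := hr
      refine (C5_one_le_c1 Φ hl hz hzu hzu').trans ?_
      rw [add_assoc]
      exact le_self_add
    · obtain ⟨u₁, τ₁, Q₁, hr₁, y, hy, hyd, rfl, -, rfl⟩ := Rch_snoc.1 hr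
      have hτ₁ := (Rch_sub hr₁).2
      refine (C5_one_le_c2 Φ (s' := s + h) hl hr₁ hy hzQ ?_ hzu hzu').trans ?_
      · rw [dist_comm]
        linarith
      · exact le_add_right le_add_self
  · obtain ⟨u₁, τ₁, Q₁, hr₁, y, hy, hyd, rfl, -, rfl⟩ := Rch_snoc.1 hr'
    have hτ₁ := (Rch_sub hr₁).2
    refine (C5_one_le_c3 Φ (s' := s + h) hl hl' hr hr₁ hzQ hy hzu ?_ ?_).trans ?_
    · rw [dist_comm]
      exact hzu'
    · rw [dist_comm]
      linarith
    · exact le_add_self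

theorem bad_count (Φ : PhiM d) {h : ℝ} (hh : 0 ≤ h) {a b : XX d} {s : ℝ} {l l' : List SM3.Pt}
    (hl : l.Nodup) (hl' : l'.Nodup) (hbad : BadL h a b s (GX Φ l) (GX Φ l')) :
    1 ≤ c1 Φ a b (s + h) l + c2 Φ a b s (s + h) l + c3 Φ a b s (s + h) l l' +
      (c1 Φ b a (s + h) l' + c2 Φ b a s (s + h) l' + c3 Φ b a s (s + h) l' l) := by
  obtain ⟨z, hz, h1, h2⟩ := hbad
  rcases hz with hz | hz
  · exact (C5_half Φ hh hl hl' hz h1 h2).trans le_self_add
  · exact (C5_half Φ hh hl' hl hz h2 h1).trans le_add_self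

theorem reach_count (Φ : PhiM d) {a b : XX d} {l : List SM3.Pt} (hl : l.Nodup)
    (hb : b ∈ Ex (GX Φ l) a (dist a b)) :
    1 ≤ c1 Φ a b (dist a b) l + c2 Φ a b (dist a b) (dist a b) l := by
  obtain ⟨k, u, τ, Q, hr, hd⟩ := hb
  rcases k with _ | _ | j
  · obtain ⟨rfl, rfl, -⟩ := hr
    rw [dist_comm] at hd
    exact absurd hd (lt_irrefl _)
  · obtain ⟨y, hy, hyd, rfl, rfl, -⟩ := hr
    refine (C5_one_le_c1 Φ hl hy ?_ ?_).trans le_self_add
    · rw [dist_comm]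
      exact hyd
    · rw [dist_comm]
      exact hd.trans hyd
  · obtain ⟨u₀, τ₀, Q₀, hr₀, z, hz, hzd, rfl, rfl, -⟩ := Rch_snoc.1 hr
    obtain ⟨u₁, τ₁, Q₁, hr₁, y, hy, hyd, rfl, rfl, rfl⟩ := Rch_snoc.1 hr₀
    have hτ₁ := (Rch_sub hr₁).2
    refine (C5_one_le_c2 Φ hl hr₁ hy hz ?_ ?_ ?_).trans le_add_self
    · rw [dist_comm]
      exact hyd.trans_le hτ₁
    · rw [dist_comm]
      exact (hzd.trans hyd).trans_le hτ₁
    · rw [dist_comm]
      exact (hd.trans (hzd.trans hyd)).trans_le hτ₁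

end Pool.SM3X
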