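/-
SM3X.C6 : means of the counting functionals.
PROOF. `mean_c1`: `mecke_le` (P3), `∑ c, ofReal (p c) = 1`, Pm is a probability measure; `ind (dist z a < s' ∧ dist z b < s')` is the indicator of `ball a s' ∩ ball b s'`.
`mean_F2`: `mecke_le` twice: `≤ ∫⁻ y, ind (dist y u < s') * volume (ball y s' ∩ ball b s')` and `J_le` (C4; the ball around `u`).
`mean_F3`: for fixed `q`: inner: `∫⁻ l', xsum Φ (fun y _ => ind (dist y.1 z.1 < s' ∧ dist y.1 u' < s')) l' ≤ volume (ball z.1 s' ∩ ball u' s')`; then `mecke_le` for the outer sum (after exchanging the integral over `l'`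
with the sum: write `F3` as an `xsum` with an integrated functional: lintegral of `xsum`; or apply `mecke_le` first in `l` for fixed `l'`, then exchange `∫⁻ x` and `∫⁻ l'`, then `mecke_le` in `l'`), `J_le`.
`exp_sum`: `∑' k, vB d s ^ k / k! = ofReal (exp (VR d s))` (`vB d s = ofReal (VR d s)`, `Real.exp_eq_tsum`-type lemma, `ENNReal.ofReal_tsum_of_nonneg`).
`mean_c2`: `lintegral_tsum` and `lintegral_Cnt_le` (C3) with `Θ = Unit` (dirac), `F = F2`, `B = 2 q0^d V(s')^2`.
`mean_c3`: for fixed `k`, `k'`: `lintegral_Cnt_le` with `Θ = List Pt`, `ν = Pm`, `F l' u τ l = Cnt Φ k' b s (fun u' _ q' => F3 Φ s' u l u' q') l'` needs `∫⁻ l' ∫⁻ l F ≤ V^k'/k'! B` for all `u`: exchange the integrals and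
`lintegral_Cnt_le` again with `Θ = List Pt` (parameter `l`), `F l u' τ' q' = F3 Φ s' u l u' q'`, bound `B` by `mean_F3`.  Sum over `k`, `k'` (exp_sum twice).
Beware of the order of integration: in `mean_c3` the outer variable is `l`, the inner `l'` (lintegral_lintegral_swap, measurable_c3).
-/
import Pool.Agent.Lib.SM3X.C3
import Pool.Agent.Lib.SM3X.C4
import Pool.Agent.Lib.SM3X.C5

set_option autoImplicit false

open MeasureTheory Set

namespace Pool.SM3X

variable {d : ℕ}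

/-- the number of points in the intersection of two balls -/
private noncomputable def C6_X (Φ : PhiM d) (s' : ℝ) (v w : XX d) (q : List SM3.Pt) : ENNReal :=
  xsum Φ (fun y _ => SM3.ind (dist y.1 v < s' ∧ dist y.1 w < s')) q

private theorem C6_sum {p : Fin 3 → ℝ} (hp : SM3.PV p) (x : ENNReal) :
    ∑ c : Fin 3, ENNReal.ofReal (p c) * x = x := by
  rw [← Finset.sum_mul, ← ENNReal.ofReal_sum_of_nonneg (fun i _ => (hp.pos i).le),
    Fin.sum_univ_three, hp.sum, ENNReal.ofReal_one, one_mul]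

private theorem C6_mecke {p : Fin 3 → ℝ} (hp : SM3.PV p) (Φ : PhiM d) {T : ℝ}
    {G : XX d → List SM3.Pt → ENNReal}
    (hG : Measurable (fun q : XX d × List SM3.Pt => G q.1 q.2)) :
    ∫⁻ l, xsum Φ (fun y q => G y.1 q) l ∂(SM3.Pm p (-T) T)
      ≤ ∫⁻ x, ∫⁻ l, G x l ∂(SM3.Pm p (-T) T) := by
  have h1 : Measurable (fun q : CP (XX d) × List SM3.Pt => G q.1.1 q.2) :=
    hG.comp (measurable_fst.fst.prodMk measurable_snd)
  refine (mecke_le (p := p) (T := T) Φ (G := fun y q => G y.1 q) h1).trans ?_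
  refine lintegral_mono fun x => ?_
  exact (C6_sum hp _).le

private theorem C6_ball (a : XX d) (s' : ℝ) (f : XX d → ENNReal) :
    ∫⁻ x, SM3.ind (dist x a < s') * f x = ∫⁻ x in Metric.ball a s', f x := by
  rw [← lintegral_indicator Metric.isOpen_ball.measurableSet]
  refine lintegral_congr fun x => ?_
  by_cases h : dist x a < s'
  · rw [indicator_of_mem (Metric.mem_ball.2 h), SM3.ind, if_pos h, one_mul]
  · rw [indicator_of_notMem (fun h' => h (Metric.mem_ball.1 h')), SM3.ind, if_neg h, zero_mul]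

private theorem C6_inter (a b : XX d) (s' : ℝ) :
    ∫⁻ x : XX d, SM3.ind (dist x a < s' ∧ dist x b < s')
      = volume (Metric.ball a s' ∩ Metric.ball b s') := by
  rw [← lintegral_indicator_one (Metric.isOpen_ball.inter Metric.isOpen_ball).measurableSet]
  refine lintegral_congr fun x => ?_
  by_cases h : dist x a < s' ∧ dist x b < s'
  · rw [indicator_of_mem (show x ∈ Metric.ball a s' ∩ Metric.ball b s' from
      ⟨Metric.mem_ball.2 h.1, Metric.mem_ball.2 h.2⟩), SM3.ind, if_pos h]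
    rfl
  · rw [indicator_of_notMem (fun h' : x ∈ Metric.ball a s' ∩ Metric.ball b s' =>
      h ⟨Metric.mem_ball.1 h'.1, Metric.mem_ball.1 h'.2⟩), SM3.ind, if_neg h]

private theorem C6_mind1 (s' : ℝ) :
    Measurable (fun q : XX d × XX d => SM3.ind (dist q.1 q.2 < s')) :=
  SM3.measurable_ind (measurableSet_lt (measurable_fst.dist measurable_snd) measurable_const)

private theorem C6_mind2 (s' : ℝ) :
    Measurable (fun q : XX d × XX d × XX d =>
      SM3.ind (dist q.1 q.2.1 < s' ∧ dist q.1 q.2.2 < s')) :=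
  SM3.measurable_ind
    ((measurableSet_lt (measurable_fst.dist measurable_snd.fst) measurable_const).inter
      (measurableSet_lt (measurable_fst.dist measurable_snd.snd) measurable_const))

private theorem C6_mX (Φ : PhiM d) (s' : ℝ) :
    Measurable (fun q : (XX d × XX d) × List SM3.Pt => C6_X Φ s' q.1.1 q.1.2 q.2) := by
  refine measurable_xsum Φ (Θ := XX d × XX d)
    (G := fun θ y _ => SM3.ind (dist y.1 θ.1 < s' ∧ dist y.1 θ.2 < s')) ?_
  have hf : Measurable (fun q : (XX d × XX d) × CP (XX d) × List SM3.Pt =>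
      (q.2.1.1, q.1.1, q.1.2)) := by fun_prop
  have h := (C6_mind2 s').comp hf
  exact h

private theorem C6_meanX {p : Fin 3 → ℝ} (hp : SM3.PV p) (Φ : PhiM d) {T : ℝ} (hT : 0 ≤ T)
    (a b : XX d) (s' : ℝ) :
    ∫⁻ l, C6_X Φ s' a b l ∂(SM3.Pm p (-T) T)
      ≤ volume (Metric.ball a s' ∩ Metric.ball b s') := by
  have hprob : IsProbabilityMeasure (SM3.Pm p (-T) T) := SM3.isProb_Pm hp (by linarith)
  have h1 : Measurable (fun q : XX d × List SM3.Pt =>
      SM3.ind (dist q.1 a < s' ∧ dist q.1 b < s')) := by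
    have hf : Measurable (fun q : XX d × List SM3.Pt => (q.1, a, b)) := by fun_prop
    have h := (C6_mind2 s').comp hf
    exact h
  refine (C6_mecke hp Φ (T := T)
    (G := fun x _ => SM3.ind (dist x a < s' ∧ dist x b < s')) h1).trans ?_
  rw [← C6_inter]
  refine lintegral_mono fun x => ?_
  simp only [lintegral_const, measure_univ, mul_one]
  exact le_rfl

theorem mean_c1 (hd : 1 ≤ d) {p : Fin 3 → ℝ} (hp : SM3.PV p) (Φ : PhiM d) {T : ℝ} (hT : 0 ≤ T)
    (a b : XX d) (s' : ℝ) :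
    ∫⁻ l, c1 Φ a b s' l ∂(SM3.Pm p (-T) T)
      ≤ volume (Metric.ball a s' ∩ Metric.ball b s') :=
  C6_meanX hp Φ hT a b s'

private theorem C6_mG2 (Φ : PhiM d) (s' : ℝ) :
    Measurable (fun q : (XX d × XX d) × XX d × List SM3.Pt =>
      SM3.ind (dist q.2.1 q.1.1 < s') * C6_X Φ s' q.2.1 q.1.2 q.2.2) := by
  have hf : Measurable (fun q : (XX d × XX d) × XX d × List SM3.Pt => (q.2.1, q.1.1)) := by
    fun_prop
  have hf2 : Measurable (fun q : (XX d × XX d) × XX d × List SM3.Pt =>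
    ((q.2.1, q.1.2), q.2.2)) := by fun_prop
  have h := ((C6_mind1 s').comp hf).mul ((C6_mX Φ s').comp hf2)
  exact h

private theorem C6_J (hd : 1 ≤ d) {p : Fin 3 → ℝ} (hp : SM3.PV p) (Φ : PhiM d) {T : ℝ}
    (hT : 0 ≤ T) {s s' : ℝ} (hs : 0 < s) (hss : s ≤ s') (hs' : s' ≤ (1 + 3 / 500) * s)
    (u b : XX d) :
    ∫⁻ x, SM3.ind (dist x u < s') * ∫⁻ l, C6_X Φ s' x b l ∂(SM3.Pm p (-T) T)
      ≤ 2 * ENNReal.ofReal ((9 / 10) ^ d) * vB d s' ^ 2 := by
  refine le_trans ?_ (J_le hd hs hss hs' u b)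
  rw [← C6_ball]
  exact lintegral_mono fun x => mul_le_mul_right (C6_meanX hp Φ hT x b s') _

theorem mean_F2 (hd : 1 ≤ d) {p : Fin 3 → ℝ} (hp : SM3.PV p) (Φ : PhiM d) {T : ℝ} (hT : 0 ≤ T)
    (b : XX d) {s s' : ℝ} (hs : 0 < s) (hss : s ≤ s') (hs' : s' ≤ (1 + 3 / 500) * s) (u : XX d)
    (τ : ℝ) :
    ∫⁻ l, F2 Φ b s' u τ l ∂(SM3.Pm p (-T) T)
      ≤ 2 * ENNReal.ofReal ((9 / 10) ^ d) * vB d s' ^ 2 := by
  refine le_trans ?_ (C6_J hd hp Φ hT hs hss hs' u b)
  have h1 : Measurable (fun q : XX d × List SM3.Pt =>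
      SM3.ind (dist q.1 u < s') * C6_X Φ s' q.1 b q.2) := by
    have hf : Measurable (fun q : XX d × List SM3.Pt => ((u, b), q.1, q.2)) := by fun_prop
    have h := (C6_mG2 Φ s').comp hf
    exact h
  refine (C6_mecke hp Φ (T := T)
    (G := fun x q => SM3.ind (dist x u < s') * C6_X Φ s' x b q) h1).trans ?_
  refine lintegral_mono fun x => ?_
  refine (lintegral_const_mul _ ?_).le
  have hf : Measurable (fun q : List SM3.Pt => ((x, b), q)) := by fun_prop
  have h := (C6_mX Φ s').comp hf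
  exact h

private theorem C6_mF3 (Φ : PhiM d) (s' : ℝ) :
    Measurable (fun q : (XX d × XX d × List SM3.Pt) × List SM3.Pt =>
      F3 Φ s' q.1.1 q.2 q.1.2.1 q.1.2.2) := by
  refine measurable_xsum Φ (Θ := XX d × XX d × List SM3.Pt)
    (G := fun θ z _ => SM3.ind (dist z.1 θ.1 < s') * C6_X Φ s' z.1 θ.2.1 θ.2.2) ?_
  have hf : Measurable (fun q : (XX d × XX d × List SM3.Pt) × CP (XX d) × List SM3.Pt =>
    ((q.1.1, q.1.2.1), q.2.1.1, q.1.2.2)) := by fun_prop
  have h := (C6_mG2 Φ s').comp hf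
  exact h

theorem mean_F3 (hd : 1 ≤ d) {p : Fin 3 → ℝ} (hp : SM3.PV p) (Φ : PhiM d) {T : ℝ} (hT : 0 ≤ T)
    {s s' : ℝ} (hs : 0 < s) (hss : s ≤ s') (hs' : s' ≤ (1 + 3 / 500) * s) (u u' : XX d) :
    ∫⁻ l, ∫⁻ l', F3 Φ s' u l u' l' ∂(SM3.Pm p (-T) T) ∂(SM3.Pm p (-T) T)
      ≤ 2 * ENNReal.ofReal ((9 / 10) ^ d) * vB d s' ^ 2 := by
  have hprob : IsProbabilityMeasure (SM3.Pm p (-T) T) := SM3.isProb_Pm hp (by linarith)
  refine le_trans ?_ (C6_J hd hp Φ hT hs hss hs' u u')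
  have hm : Measurable (Function.uncurry fun l l' : List SM3.Pt => F3 Φ s' u l u' l') := by
    have hf : Measurable (fun q : List SM3.Pt × List SM3.Pt => ((u, u', q.2), q.1)) := by
      fun_prop
    have h := (C6_mF3 Φ s').comp hf
    exact h
  rw [lintegral_lintegral_swap hm.aemeasurable]
  have hX : Measurable (Function.uncurry fun (l' : List SM3.Pt) (x : XX d) =>
      SM3.ind (dist x u < s') * C6_X Φ s' x u' l') := by
    have hf : Measurable (fun q : List SM3.Pt × XX d => ((u, u'), q.2, q.1)) := by fun_prop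
    have h := (C6_mG2 Φ s').comp hf
    exact h
  calc ∫⁻ l', ∫⁻ l, F3 Φ s' u l u' l' ∂(SM3.Pm p (-T) T) ∂(SM3.Pm p (-T) T)
      ≤ ∫⁻ l', ∫⁻ x, SM3.ind (dist x u < s') * C6_X Φ s' x u' l' ∂volume
          ∂(SM3.Pm p (-T) T) := by
        refine lintegral_mono fun l' => ?_
        have h1 : Measurable (fun q : XX d × List SM3.Pt =>
            SM3.ind (dist q.1 u < s') * C6_X Φ s' q.1 u' l') := by
          have hf : Measurable (fun q : XX d × List SM3.Pt => (l', q.1)) := by fun_prop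
          have h := hX.comp hf
          exact h
        refine (C6_mecke hp Φ (T := T)
          (G := fun x _ => SM3.ind (dist x u < s') * C6_X Φ s' x u' l') h1).trans ?_
        refine lintegral_mono fun x => ?_
        simp only [lintegral_const, measure_univ, mul_one]
        exact le_rfl
    _ = ∫⁻ x, ∫⁻ l', SM3.ind (dist x u < s') * C6_X Φ s' x u' l' ∂(SM3.Pm p (-T) T) :=
        lintegral_lintegral_swap hX.aemeasurable
    _ = ∫⁻ x, SM3.ind (dist x u < s') * ∫⁻ l', C6_X Φ s' x u' l' ∂(SM3.Pm p (-T) T) := by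
        refine lintegral_congr fun x => lintegral_const_mul _ ?_
        have hf : Measurable (fun q : List SM3.Pt => ((x, u'), q)) := by fun_prop
        have h := (C6_mX Φ s').comp hf
        exact h

theorem exp_sum (s : ℝ) :
    ∑' k : ℕ, vB d s ^ k / (k.factorial : ENNReal) = ENNReal.ofReal (Real.exp (VR d s)) := by
  have h0 : vB d s = ENNReal.ofReal (VR d s) := by rw [vB, vB_eq]
  have hV : 0 ≤ VR d s := VR_nonneg d s
  have h1 : ∀ k : ℕ, vB d s ^ k / (k.factorial : ENNReal) =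
      ENNReal.ofReal (VR d s ^ k / k.factorial) := by
    intro k
    rw [h0, ENNReal.ofReal_div_of_pos (by positivity), ENNReal.ofReal_pow hV,
      ENNReal.ofReal_natCast]
  simp only [h1]
  rw [← ENNReal.ofReal_tsum_of_nonneg (fun k => by positivity)
    (Real.summable_pow_div_factorial _)]
  congr 1
  rw [Real.exp_eq_exp_ℝ, NormedSpace.exp_eq_tsum_div]

private theorem C6_mCnt2 (Φ : PhiM d) (b : XX d) (s' : ℝ) (k : ℕ) :
    Measurable (fun q : XX d × ℝ × List SM3.Pt => Cnt Φ k q.1 q.2.1 (F2 Φ b s') q.2.2) := by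
  have h1 : Measurable (fun q : Unit × XX d × ℝ × List SM3.Pt =>
      F2 Φ b s' q.2.1 q.2.2.1 q.2.2.2) := by
    have h2 : Measurable (fun q : XX d × List SM3.Pt => F2 Φ b s' q.1 0 q.2) := by
      refine measurable_xsum Φ (Θ := XX d)
        (G := fun θ y q' => SM3.ind (dist y.1 θ < s') * C6_X Φ s' y.1 b q') ?_
      have hf : Measurable (fun q : XX d × CP (XX d) × List SM3.Pt =>
        ((q.1, b), q.2.1.1, q.2.2)) := by fun_prop
      have h := (C6_mG2 Φ s').comp hf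
      exact h
    have hf : Measurable (fun q : Unit × XX d × ℝ × List SM3.Pt => (q.2.1, q.2.2.2)) := by
      fun_prop
    have h := h2.comp hf
    exact h
  have hf : Measurable (fun q : XX d × ℝ × List SM3.Pt => ((), q)) := by fun_prop
  have h := (measurable_Cnt Φ k (Θ := Unit) (F := fun _ => F2 Φ b s') h1).comp hf
  exact h

theorem mean_c2 (hd : 1 ≤ d) {p : Fin 3 → ℝ} (hp : SM3.PV p) (Φ : PhiM d) {T : ℝ} (hT : 0 ≤ T)
    (a b : XX d) {s s' : ℝ} (hs : 0 < s) (hss : s ≤ s') (hs' : s' ≤ (1 + 3 / 500) * s) :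
    ∫⁻ l, c2 Φ a b s s' l ∂(SM3.Pm p (-T) T)
      ≤ ENNReal.ofReal (Real.exp (VR d s)) *
        (2 * ENNReal.ofReal ((9 / 10) ^ d) * vB d s' ^ 2) := by
  have h1 : Measurable (fun q : Unit × XX d × ℝ × List SM3.Pt =>
      F2 Φ b s' q.2.1 q.2.2.1 q.2.2.2) := by
    have hf : Measurable (fun q : Unit × XX d × ℝ × List SM3.Pt => q.2) := by fun_prop
    have h := (C6_mCnt2 Φ b s' 0).comp hf
    exact h
  have hm : ∀ k, Measurable (fun l : List SM3.Pt => Cnt Φ k a s (F2 Φ b s') l) := by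
    intro k
    have hf : Measurable (fun l : List SM3.Pt => (a, s, l)) := by fun_prop
    have h := (C6_mCnt2 Φ b s' k).comp hf
    exact h
  unfold c2
  rw [lintegral_tsum fun k => (hm k).aemeasurable, ← exp_sum, ← ENNReal.tsum_mul_right]
  refine ENNReal.tsum_le_tsum fun k => ?_
  have h2 := lintegral_Cnt_le hd hp Φ hT (Θ := Unit) (Measure.dirac ())
    (F := fun _ => F2 Φ b s') h1 (B := 2 * ENNReal.ofReal ((9 / 10) ^ d) * vB d s' ^ 2)
    (fun u τ => by
      rw [lintegral_dirac]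
      exact mean_F2 hd hp Φ hT b hs hss hs' u τ) k a s
  rw [lintegral_dirac] at h2
  exact h2

private theorem C6_mCnt3 (Φ : PhiM d) (b : XX d) (s s' : ℝ) (k' : ℕ) :
    Measurable (fun q : List SM3.Pt × XX d × ℝ × List SM3.Pt =>
      Cnt Φ k' b s (fun u' _ q' => F3 Φ s' q.2.1 q.2.2.2 u' q') q.1) := by
  have h1 : Measurable (fun q : (XX d × List SM3.Pt) × XX d × ℝ × List SM3.Pt =>
      F3 Φ s' q.1.1 q.1.2 q.2.1 q.2.2.2) := by
    have hf : Measurable (fun q : (XX d × List SM3.Pt) × XX d × ℝ × List SM3.Pt =>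
      ((q.1.1, q.2.1, q.2.2.2), q.1.2)) := by fun_prop
    have h := (C6_mF3 Φ s').comp hf
    exact h
  have hf : Measurable (fun q : List SM3.Pt × XX d × ℝ × List SM3.Pt =>
    ((q.2.1, q.2.2.2), b, s, q.1)) := by fun_prop
  have h := (measurable_Cnt Φ k' (Θ := XX d × List SM3.Pt)
    (F := fun θ u' _ q' => F3 Φ s' θ.1 θ.2 u' q') h1).comp hf
  exact h

private theorem C6_term (hd : 1 ≤ d) {p : Fin 3 → ℝ} (hp : SM3.PV p) (Φ : PhiM d) {T : ℝ}
    (hT : 0 ≤ T) (a b : XX d) {s s' : ℝ} (hs : 0 < s) (hss : s ≤ s')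
    (hs' : s' ≤ (1 + 3 / 500) * s) (k k' : ℕ) :
    ∫⁻ l', ∫⁻ l, Cnt Φ k a s (fun u _ q => Cnt Φ k' b s
        (fun u' _ q' => F3 Φ s' u q u' q') l') l ∂(SM3.Pm p (-T) T) ∂(SM3.Pm p (-T) T)
      ≤ vB d s ^ k / (k.factorial : ENNReal) * (vB d s ^ k' / (k'.factorial : ENNReal) *
        (2 * ENNReal.ofReal ((9 / 10) ^ d) * vB d s' ^ 2)) := by
  have hprob : IsProbabilityMeasure (SM3.Pm p (-T) T) := SM3.isProb_Pm hp (by linarith)
  refine lintegral_Cnt_le hd hp Φ hT (Θ := List SM3.Pt) (SM3.Pm p (-T) T)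
    (F := fun l' u _ q => Cnt Φ k' b s (fun u' _ q' => F3 Φ s' u q u' q') l')
    (C6_mCnt3 Φ b s s' k') ?_ k a s
  intro u τ
  have hm : Measurable (Function.uncurry fun l' l : List SM3.Pt =>
      Cnt Φ k' b s (fun u' _ q' => F3 Φ s' u l u' q') l') := by
    have hf : Measurable (fun q : List SM3.Pt × List SM3.Pt => (q.1, u, (0 : ℝ), q.2)) := by
      fun_prop
    have h := (C6_mCnt3 Φ b s s' k').comp hf
    exact h
  rw [lintegral_lintegral_swap hm.aemeasurable]
  have h1 : Measurable (fun q : List SM3.Pt × XX d × ℝ × List SM3.Pt =>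
      F3 Φ s' u q.1 q.2.1 q.2.2.2) := by
    have hf : Measurable (fun q : List SM3.Pt × XX d × ℝ × List SM3.Pt =>
      ((u, q.2.1, q.2.2.2), q.1)) := by fun_prop
    have h := (C6_mF3 Φ s').comp hf
    exact h
  exact lintegral_Cnt_le hd hp Φ hT (Θ := List SM3.Pt) (SM3.Pm p (-T) T)
    (F := fun l u' _ q' => F3 Φ s' u l u' q') h1
    (fun u' _ => mean_F3 hd hp Φ hT hs hss hs' u u') k' b s

theorem mean_c3 (hd : 1 ≤ d) {p : Fin 3 → ℝ} (hp : SM3.PV p) (Φ : PhiM d) {T : ℝ} (hT : 0 ≤ T)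
    (a b : XX d) {s s' : ℝ} (hs : 0 < s) (hss : s ≤ s') (hs' : s' ≤ (1 + 3 / 500) * s) :
    ∫⁻ l, ∫⁻ l', c3 Φ a b s s' l l' ∂(SM3.Pm p (-T) T) ∂(SM3.Pm p (-T) T)
      ≤ ENNReal.ofReal (Real.exp (2 * VR d s)) *
        (2 * ENNReal.ofReal ((9 / 10) ^ d) * vB d s' ^ 2) := by
  have hprob : IsProbabilityMeasure (SM3.Pm p (-T) T) := SM3.isProb_Pm hp (by linarith)
  rw [lintegral_lintegral_swap (measurable_c3 Φ a b s s').aemeasurable]
  have hC : ∀ k k' : ℕ, Measurable (fun q : List SM3.Pt × List SM3.Pt =>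
      Cnt Φ k a s (fun u _ r => Cnt Φ k' b s (fun u' _ q' => F3 Φ s' u r u' q') q.1) q.2) := by
    intro k k'
    have hf : Measurable (fun q : List SM3.Pt × List SM3.Pt => (q.1, a, s, q.2)) := by fun_prop
    have h := (measurable_Cnt Φ k (Θ := List SM3.Pt)
      (F := fun l' u _ r => Cnt Φ k' b s (fun u' _ q' => F3 Φ s' u r u' q') l')
      (C6_mCnt3 Φ b s s' k')).comp hf
    exact h
  have hin : ∀ l' : List SM3.Pt, ∫⁻ l, c3 Φ a b s s' l l' ∂(SM3.Pm p (-T) T) =
      ∑' k : ℕ, ∑' k' : ℕ, ∫⁻ l, Cnt Φ k a s (fun u _ r => Cnt Φ k' b s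
        (fun u' _ q' => F3 Φ s' u r u' q') l') l ∂(SM3.Pm p (-T) T) := by
    intro l'
    have hm : ∀ k k' : ℕ, Measurable (fun l : List SM3.Pt =>
        Cnt Φ k a s (fun u _ r => Cnt Φ k' b s (fun u' _ q' => F3 Φ s' u r u' q') l') l) := by
      intro k k'
      have hf : Measurable (fun l : List SM3.Pt => (l', l)) := by fun_prop
      have h := (hC k k').comp hf
      exact h
    unfold c3
    rw [lintegral_tsum fun k => (Measurable.tsum fun k' => hm k k').aemeasurable]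
    refine tsum_congr fun k => ?_
    rw [lintegral_tsum fun k' => (hm k k').aemeasurable]
  simp only [hin]
  have hm2 : ∀ k k' : ℕ, Measurable (fun l' : List SM3.Pt =>
      ∫⁻ l, Cnt Φ k a s (fun u _ r => Cnt Φ k' b s
        (fun u' _ q' => F3 Φ s' u r u' q') l') l ∂(SM3.Pm p (-T) T)) :=
    fun k k' => (hC k k').lintegral_prod_right'
  rw [lintegral_tsum fun k => (Measurable.tsum fun k' => hm2 k k').aemeasurable]
  have hfin : ∑' k : ℕ, ∑' k' : ℕ, vB d s ^ k / (k.factorial : ENNReal) *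
      (vB d s ^ k' / (k'.factorial : ENNReal) *
        (2 * ENNReal.ofReal ((9 / 10) ^ d) * vB d s' ^ 2)) =
      ENNReal.ofReal (Real.exp (2 * VR d s)) *
        (2 * ENNReal.ofReal ((9 / 10) ^ d) * vB d s' ^ 2) := by
    have h1 : ∀ k : ℕ, ∑' k' : ℕ, vB d s ^ k / (k.factorial : ENNReal) *
        (vB d s ^ k' / (k'.factorial : ENNReal) *
          (2 * ENNReal.ofReal ((9 / 10) ^ d) * vB d s' ^ 2)) =
        vB d s ^ k / (k.factorial : ENNReal) * (ENNReal.ofReal (Real.exp (VR d s)) *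
          (2 * ENNReal.ofReal ((9 / 10) ^ d) * vB d s' ^ 2)) := by
      intro k
      rw [ENNReal.tsum_mul_left, ENNReal.tsum_mul_right, exp_sum]
    simp only [h1]
    have h2 : ENNReal.ofReal (Real.exp (2 * VR d s)) =
        ENNReal.ofReal (Real.exp (VR d s)) * ENNReal.ofReal (Real.exp (VR d s)) := by
      rw [← ENNReal.ofReal_mul (Real.exp_pos _).le, ← Real.exp_add, ← two_mul]
    rw [ENNReal.tsum_mul_right, exp_sum, ← mul_assoc, h2]
  rw [← hfin]
  refine ENNReal.tsum_le_tsum fun k => ?_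
  rw [lintegral_tsum fun k' => (hm2 k k').aemeasurable]
  exact ENNReal.tsum_le_tsum fun k' => C6_term hd hp Φ hT a b hs hss hs' k k'

end Pool.SM3X
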