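/-
SM3X.C7 : decorrelation.
PROOF. Let `s = dist a b > 0`, `v = VR d s`, `A = {l | Al (GX Φ l) (a,c) s}`, `G = {l | Al (GX Φ l) (b,c') s}` (measurable: M2, MFam_GX).
(1) a.e. `l`: `l.Nodup`, `(a,c), (b,c') ∉ GX Φ l` (P6), so `Mt (insert (a,c) (insert (b,c') (GX Φ l))) (a,c) (b,c') ↔ Al (insert (b,c') (GX Φ l)) (a,c) s ∧ Al (GX Φ l) (b,c') s` (`Mt_iff_Al`, D2; GX_finite).
If `b ∉ Ex (GX Φ l) a s` then `Al (insert (b,c') (GX Φ l)) (a,c) s ↔ Al (GX Φ l) (a,c) s` (`Ex_congr`, D5).  So `|gT - Pm.real (A ∩ G)| ≤ Pm.real {l | b ∈ Ex (GX Φ l) a s}` and by `reach_count` (C5), Markov, `mean_c1`,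
`mean_c2` (C6, with `s' = s`) and `lens` (C4) this is `≤ q0^d v + 2 q0^d v^2 e^v`.
(2) For all large `n`: `h = √d / 2^n ≤ 3/500 s`, `s' = s + h`, `v' = VR d s'`: `decouple_list` (P7) with `F` = the sum in `bad_count` (C5) and the means (C6; `volume (ball a s' ∩ ball b s') ≤ q0^d v` by `lens`):
`|Pm.real (A ∩ G) - Pm.real A * Pm.real G| ≤ 2 (q0^d v + 2 q0^d v'^2 e^v + 2 q0^d v'^2 e^(2v))`.
(3) Let `n → ∞`: `v' → v` (`VR_cont`, C2), ge_of_tendsto: the sum of the bounds is `eta d v`.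
-/
import Pool.Agent.Lib.SM3X.C6
import Pool.Agent.Lib.SM3X.P6
import Pool.Agent.Lib.SM3X.P7

set_option autoImplicit false

open MeasureTheory Set

namespace Pool.SM3X

private theorem C7_vB (d : ℕ) (s : ℝ) : vB d s = ENNReal.ofReal (VR d s) := by
  have h := vB_eq (0 : XX d) s
  exact h

private theorem C7_near {d : ℕ} (hd : 1 ≤ d) {p : Fin 3 → ℝ} (hp : SM3.PV p) (Φ : PhiM d) (T : ℕ)
    {c c' : Fin 3} (hc : c ≠ c') {a b : XX d} :
    ∀ᵐ l ∂(SM3.Pm p (-(T : ℝ)) T),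
      (Mt (insert (a, c) (insert (b, c') (GX Φ l))) (a, c) (b, c') ↔
        (Al (GX Φ l) (a, c) (dist a b) ∧ Al (GX Φ l) (b, c') (dist a b))) ∨
      1 ≤ c1 Φ a b (dist a b) l + c2 Φ a b (dist a b) (dist a b) l := by
  have _ := hp
  filter_upwards [ae_list p Φ (T : ℝ), ae_not_mem hd p Φ (T : ℝ) a, ae_not_mem hd p Φ (T : ℝ) b]
    with l h1 h2 h3
  by_cases hb : b ∈ Ex (GX Φ l) a (dist a b)
  · exact Or.inr (reach_count Φ h1.1 hb)
  left
  have hfin : (GX Φ l).Finite := GX_finite Φ l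
  have ha1 : (a, c) ∉ GX Φ l := fun h => h2 _ h rfl
  have hb1 : (b, c') ∉ GX Φ l := fun h => h3 _ h rfl
  have hM := Mt_iff_Al hfin ha1 hb1 (show ((a, c) : CP (XX d)).2 ≠ ((b, c') : CP (XX d)).2 from hc)
  rw [hM]
  have hE := (Ex_congr (Y' := insert (b, c') (GX Φ l)) hfin (hfin.insert _) (a := a)
    (s := dist a b) (by
      intro y hy
      constructor
      · intro h
        exact Set.mem_insert_of_mem _ h
      · intro h
        rcases h with h | h
        · exfalso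
          rw [h] at hy
          exact hb hy
        · exact h)).2 c
  change (Al (insert (b, c') (GX Φ l)) (a, c) (dist a b) ∧ Al (GX Φ l) (b, c') (dist a b)) ↔ _
  rw [← hE]

theorem gT_near {d : ℕ} (hd : 1 ≤ d) {p : Fin 3 → ℝ} (hp : SM3.PV p) (Φ : PhiM d) (T : ℕ)
    {c c' : Fin 3} (hc : c ≠ c') {a b : XX d} (hab : a ≠ b) :
    |gT Φ p T c c' a b - (SM3.Pm p (-(T : ℝ)) T).real
          {l | Al (GX Φ l) (a, c) (dist a b) ∧ Al (GX Φ l) (b, c') (dist a b)}|
      ≤ (9 / 10) ^ d * (VR d (dist a b) + 2 * VR d (dist a b) ^ 2 * Real.exp (VR d (dist a b))) := by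
  have hT : (0 : ℝ) ≤ (T : ℝ) := Nat.cast_nonneg T
  have hTT : -(T : ℝ) ≤ (T : ℝ) := by linarith
  have : IsProbabilityMeasure (SM3.Pm p (-(T : ℝ)) T) := SM3.isProb_Pm hp hTT
  have hs : 0 < dist a b := dist_pos.2 hab
  have hs' : dist a b ≤ (1 + 3 / 500) * dist a b := by nlinarith
  set s : ℝ := dist a b with hsdef
  set P := SM3.Pm p (-(T : ℝ)) T with hP
  set E : Set (List SM3.Pt) := {l | Mt (insert (a, c) (insert (b, c') (GX Φ l))) (a, c) (b, c')}
    with hE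
  set E' : Set (List SM3.Pt) := {l | Al (GX Φ l) (a, c) s ∧ Al (GX Φ l) (b, c') s} with hE'
  set N : Set (List SM3.Pt) := {l | 1 ≤ c1 Φ a b s l + c2 Φ a b s s l} with hN
  have hnear := C7_near hd hp Φ T hc (a := a) (b := b)
  have h1 : P E ≤ P (E' ∪ N) := by
    apply measure_mono_ae
    filter_upwards [hnear] with l hl
    intro hlE
    rcases hl with hl | hl
    · exact Or.inl (hl.1 hlE)
    · exact Or.inr hl
  have h2 : P E' ≤ P (E ∪ N) := by
    apply measure_mono_ae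
    filter_upwards [hnear] with l hl
    intro hlE
    rcases hl with hl | hl
    · exact Or.inl (hl.2 hlE)
    · exact Or.inr hl
  -- Markov
  have hv : vB d s = ENNReal.ofReal (VR d s) := C7_vB d s
  have hV0 : 0 ≤ VR d s := VR_nonneg d s
  have hq0 : (0 : ℝ) ≤ (9 / 10) ^ d := by positivity
  have hNle : P N ≤ ENNReal.ofReal
      ((9 / 10) ^ d * (VR d s + 2 * VR d s ^ 2 * Real.exp (VR d s))) := by
    have hm1 : Measurable (c1 Φ a b s) := measurable_c1 Φ a b s
    have hm2 : Measurable (c2 Φ a b s s) := measurable_c2 Φ a b s s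
    have hmk := mul_meas_ge_le_lintegral₀ (μ := P)
      (f := fun l => c1 Φ a b s l + c2 Φ a b s s l) (hm1.add hm2).aemeasurable 1
    rw [one_mul] at hmk
    refine hmk.trans ?_
    rw [lintegral_add_left hm1]
    have e1 : ∫⁻ l, c1 Φ a b s l ∂P ≤ ENNReal.ofReal ((9 / 10) ^ d) * vB d s :=
      (mean_c1 hd hp Φ hT a b s).trans (lens hd hs hs' (by rw [← hsdef]; linarith))
    have e2 := mean_c2 hd hp Φ hT a b hs le_rfl hs'
    refine (add_le_add e1 e2).trans (le_of_eq ?_)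
    rw [hv, ← ENNReal.ofReal_pow hV0, show (2 : ENNReal) = ENNReal.ofReal 2 by simp,
      ← ENNReal.ofReal_mul hq0, ← ENNReal.ofReal_mul (by norm_num),
      ← ENNReal.ofReal_mul (by positivity), ← ENNReal.ofReal_mul (Real.exp_pos _).le,
      ← ENNReal.ofReal_add (by positivity) (by positivity)]
    congr 1
    ring
  have hB0 : 0 ≤ (9 / 10) ^ d * (VR d s + 2 * VR d s ^ 2 * Real.exp (VR d s)) := by positivity
  have hNr : P.real N ≤ (9 / 10) ^ d * (VR d s + 2 * VR d s ^ 2 * Real.exp (VR d s)) := by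
    unfold Measure.real
    exact ENNReal.toReal_le_of_le_ofReal hB0 hNle
  have h1r : P.real E ≤ P.real E' + P.real N := by
    have h3 : P.real E ≤ P.real (E' ∪ N) := by
      unfold Measure.real
      exact ENNReal.toReal_mono (measure_ne_top _ _) h1
    exact h3.trans (measureReal_union_le _ _)
  have h2r : P.real E' ≤ P.real E + P.real N := by
    have h3 : P.real E' ≤ P.real (E ∪ N) := by
      unfold Measure.real
      exact ENNReal.toReal_mono (measure_ne_top _ _) h2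
    exact h3.trans (measureReal_union_le _ _)
  have hg : gT Φ p T c c' a b = P.real E := rfl
  rw [hg, abs_le]
  constructor <;> linarith

private theorem C7_add6 {α : Type} [MeasurableSpace α] (μ : Measure α)
    {f1 f2 f3 f4 f5 f6 : α → ENNReal} (h1 : Measurable f1) (h2 : Measurable f2)
    (h3 : Measurable f3) (h4 : Measurable f4) (h5 : Measurable f5) :
    ∫⁻ x, (f1 x + f2 x + f3 x + (f4 x + f5 x + f6 x)) ∂μ =
      (∫⁻ x, f1 x ∂μ) + (∫⁻ x, f2 x ∂μ) + (∫⁻ x, f3 x ∂μ) +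
      ((∫⁻ x, f4 x ∂μ) + (∫⁻ x, f5 x ∂μ) + (∫⁻ x, f6 x ∂μ)) := by
  have m1 : Measurable (fun x => f1 x + f2 x) := h1.add h2
  have m2 : Measurable (fun x => f1 x + f2 x + f3 x) := m1.add h3
  have m3 : Measurable (fun x => f4 x + f5 x) := h4.add h5
  rw [lintegral_add_left m2, lintegral_add_left m1, lintegral_add_left h1, lintegral_add_left m3,
    lintegral_add_left h4]

private theorem C7_prod {d : ℕ} (hd : 1 ≤ d) {p : Fin 3 → ℝ} (hp : SM3.PV p) (Φ : PhiM d) (T : ℕ)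
    {c c' : Fin 3} {a b : XX d} (hab : a ≠ b) (n : ℕ)
    (hn : Real.sqrt d / 2 ^ n ≤ 3 / 500 * dist a b) :
    |(SM3.Pm p (-(T : ℝ)) T).real
          {l | Al (GX Φ l) (a, c) (dist a b) ∧ Al (GX Φ l) (b, c') (dist a b)}
        - fT Φ p T c a (dist a b) * fT Φ p T c' b (dist a b)|
      ≤ (9 / 10) ^ d * (2 * (VR d (dist a b) + 2 * VR d (dist a b + Real.sqrt d / 2 ^ n) ^ 2 *
        Real.exp (VR d (dist a b)) + 2 * VR d (dist a b + Real.sqrt d / 2 ^ n) ^ 2 *
        Real.exp (2 * VR d (dist a b)))) := by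
  have hT : (0 : ℝ) ≤ (T : ℝ) := Nat.cast_nonneg T
  have hTT : -(T : ℝ) ≤ (T : ℝ) := by linarith
  have : IsProbabilityMeasure (SM3.Pm p (-(T : ℝ)) T) := SM3.isProb_Pm hp hTT
  have hs : 0 < dist a b := dist_pos.2 hab
  have hh : 0 ≤ Real.sqrt d / 2 ^ n := by positivity
  have hba : dist b a = dist a b := dist_comm b a
  set s : ℝ := dist a b with hsdef
  set s' : ℝ := s + Real.sqrt d / 2 ^ n with hs'def
  have hss : s ≤ s' := by linarith
  have hs' : s' ≤ (1 + 3 / 500) * s := by linarith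
  set P := SM3.Pm p (-(T : ℝ)) T with hP
  have mc1 := measurable_c1 Φ a b s'
  have mc1' := measurable_c1 Φ b a s'
  have mc2 := measurable_c2 Φ a b s s'
  have mc2' := measurable_c2 Φ b a s s'
  have mc3 := measurable_c3 Φ a b s s'
  have mc3' := measurable_c3 Φ b a s s'
  have mc3s : Measurable (fun q : List SM3.Pt × List SM3.Pt => c3 Φ b a s s' q.2 q.1) :=
    mc3'.comp measurable_swap
  have hF : Measurable (fun q : List SM3.Pt × List SM3.Pt =>
      (c1 Φ a b s' q.1 + c2 Φ a b s s' q.1 + c3 Φ a b s s' q.1 q.2 +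
      (c1 Φ b a s' q.2 + c2 Φ b a s s' q.2 + c3 Φ b a s s' q.2 q.1))) := by
    refine Measurable.add (Measurable.add (Measurable.add ?_ ?_) mc3)
      (Measurable.add (Measurable.add ?_ ?_) mc3s)
    · exact mc1.comp measurable_fst
    · exact mc2.comp measurable_fst
    · exact mc1'.comp measurable_snd
    · exact mc2'.comp measurable_snd
  have hdec := decouple_list hp Φ T n c c' a b s
    (F := fun l l' => c1 Φ a b s' l + c2 Φ a b s s' l + c3 Φ a b s s' l l' +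
      (c1 Φ b a s' l' + c2 Φ b a s s' l' + c3 Φ b a s s' l' l)) hF
    (fun l l' hl hl' hbad => bad_count Φ hh hl hl' hbad)
  have hv : vB d s = ENNReal.ofReal (VR d s) := C7_vB d s
  have hv' : vB d s' = ENNReal.ofReal (VR d s') := C7_vB d s'
  have hV0 : 0 ≤ VR d s := VR_nonneg d s
  have hV0' : 0 ≤ VR d s' := VR_nonneg d s'
  have hq0 : (0 : ℝ) ≤ (9 / 10) ^ d := by positivity
  -- the six means
  have e1 : ∫⁻ l, c1 Φ a b s' l ∂P ≤ ENNReal.ofReal ((9 / 10) ^ d) * vB d s :=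
    (mean_c1 hd hp Φ hT a b s').trans (lens hd hs hs' (by rw [← hsdef]; linarith))
  have e1' : ∫⁻ l, c1 Φ b a s' l ∂P ≤ ENNReal.ofReal ((9 / 10) ^ d) * vB d s :=
    (mean_c1 hd hp Φ hT b a s').trans (lens hd hs hs' (by rw [hba]; linarith))
  have e2 := mean_c2 hd hp Φ hT a b hs hss hs'
  have e2' := mean_c2 hd hp Φ hT b a hs hss hs'
  have e3 := mean_c3 hd hp Φ hT a b hs hss hs'
  have e3' := mean_c3 hd hp Φ hT b a hs hss hs'
  have hsplit : ∫⁻ l, ∫⁻ l', (c1 Φ a b s' l + c2 Φ a b s s' l + c3 Φ a b s s' l l' +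
      (c1 Φ b a s' l' + c2 Φ b a s s' l' + c3 Φ b a s s' l' l)) ∂P ∂P =
      (∫⁻ l, c1 Φ a b s' l ∂P) + (∫⁻ l, c2 Φ a b s s' l ∂P) +
      (∫⁻ l, ∫⁻ l', c3 Φ a b s s' l l' ∂P ∂P) +
      ((∫⁻ l, c1 Φ b a s' l ∂P) + (∫⁻ l, c2 Φ b a s s' l ∂P) +
      (∫⁻ l, ∫⁻ l', c3 Φ b a s s' l l' ∂P ∂P)) := by
    have mm3 : Measurable (fun l => ∫⁻ l', c3 Φ a b s s' l l' ∂P) :=
      Measurable.lintegral_prod_right' (f := fun q : List SM3.Pt × List SM3.Pt =>
        c3 Φ a b s s' q.1 q.2) mc3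
    have mm3s : Measurable (fun l => ∫⁻ l', c3 Φ b a s s' l' l ∂P) :=
      Measurable.lintegral_prod_right' (f := fun q : List SM3.Pt × List SM3.Pt =>
        c3 Φ b a s s' q.2 q.1) mc3s
    have inner : ∀ l, ∫⁻ l', (c1 Φ a b s' l + c2 Φ a b s s' l + c3 Φ a b s s' l l' +
        (c1 Φ b a s' l' + c2 Φ b a s s' l' + c3 Φ b a s s' l' l)) ∂P =
        c1 Φ a b s' l + c2 Φ a b s s' l + (∫⁻ l', c3 Φ a b s s' l l' ∂P) +
        ((∫⁻ l', c1 Φ b a s' l' ∂P) + (∫⁻ l', c2 Φ b a s s' l' ∂P) +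
        (∫⁻ l', c3 Φ b a s s' l' l ∂P)) := by
      intro l
      have m3l : Measurable (fun l' => c3 Φ a b s s' l l') := mc3.comp measurable_prodMk_left
      have h := C7_add6 P (f1 := fun _ => c1 Φ a b s' l) (f2 := fun _ => c2 Φ a b s s' l)
        (f3 := fun l' => c3 Φ a b s s' l l') (f4 := fun l' => c1 Φ b a s' l')
        (f5 := fun l' => c2 Φ b a s s' l') (f6 := fun l' => c3 Φ b a s s' l' l)
        measurable_const measurable_const m3l mc1' mc2'
      rw [h, lintegral_const, lintegral_const, measure_univ, mul_one, mul_one]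
    simp_rw [inner]
    have h := C7_add6 P (f1 := fun l => c1 Φ a b s' l) (f2 := fun l => c2 Φ a b s s' l)
      (f3 := fun l => ∫⁻ l', c3 Φ a b s s' l l' ∂P) (f4 := fun _ => ∫⁻ l', c1 Φ b a s' l' ∂P)
      (f5 := fun _ => ∫⁻ l', c2 Φ b a s s' l' ∂P) (f6 := fun l => ∫⁻ l', c3 Φ b a s s' l' l ∂P)
      mc1 mc2 mm3 measurable_const measurable_const
    rw [h, lintegral_const, lintegral_const, measure_univ, mul_one, mul_one]
    congr 2
    exact lintegral_lintegral_swap (f := fun l l' => c3 Φ b a s s' l' l) mc3s.aemeasurable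
  have htot : ∫⁻ l, ∫⁻ l', (c1 Φ a b s' l + c2 Φ a b s s' l + c3 Φ a b s s' l l' +
      (c1 Φ b a s' l' + c2 Φ b a s s' l' + c3 Φ b a s s' l' l)) ∂P ∂P ≤
      ENNReal.ofReal ((9 / 10) ^ d * (2 * (VR d s + 2 * VR d s' ^ 2 *
        Real.exp (VR d s) + 2 * VR d s' ^ 2 * Real.exp (2 * VR d s)))) := by
    rw [hsplit]
    refine (add_le_add (add_le_add (add_le_add e1 e2) e3)
      (add_le_add (add_le_add e1' e2') e3')).trans (le_of_eq ?_)
    rw [hv, hv', ← ENNReal.ofReal_pow hV0', show (2 : ENNReal) = ENNReal.ofReal 2 by simp,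
      ← ENNReal.ofReal_mul hq0, ← ENNReal.ofReal_mul (by norm_num),
      ← ENNReal.ofReal_mul (by positivity), ← ENNReal.ofReal_mul (Real.exp_pos _).le,
      ← ENNReal.ofReal_mul (Real.exp_pos _).le,
      ← ENNReal.ofReal_add (by positivity) (by positivity),
      ← ENNReal.ofReal_add (by positivity) (by positivity),
      ← ENNReal.ofReal_add (by positivity) (by positivity)]
    congr 1
    ring
  have hB0 : 0 ≤ (9 / 10) ^ d * (2 * (VR d s + 2 * VR d s' ^ 2 *
        Real.exp (VR d s) + 2 * VR d s' ^ 2 * Real.exp (2 * VR d s))) := by positivity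
  have hfin := (ENNReal.ofReal_le_ofReal_iff hB0).1 (hdec.trans htot)
  exact hfin

theorem decorr {d : ℕ} (hd : 1 ≤ d) {p : Fin 3 → ℝ} (hp : SM3.PV p) (Φ : PhiM d) (T : ℕ)
    {c c' : Fin 3} (hc : c ≠ c') {a b : XX d} (hab : a ≠ b) :
    |gT Φ p T c c' a b - fT Φ p T c a (dist a b) * fT Φ p T c' b (dist a b)|
      ≤ eta d (VR d (dist a b)) := by
  have h1 := gT_near hd hp Φ T hc hab
  have hs : 0 < dist a b := dist_pos.2 hab
  have hlim : Filter.Tendsto (fun n : ℕ => Real.sqrt d / 2 ^ n) Filter.atTop (nhds 0) := by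
    have h := (tendsto_pow_atTop_nhds_zero_of_lt_one (by norm_num : (0 : ℝ) ≤ 1 / 2)
      (by norm_num)).const_mul (Real.sqrt d)
    simp only [mul_zero] at h
    refine h.congr fun n => ?_
    rw [one_div, inv_pow, div_eq_mul_inv]
  have hlim2 : Filter.Tendsto (fun n : ℕ => (9 / 10 : ℝ) ^ d * (2 * (VR d (dist a b) +
        2 * VR d (dist a b + Real.sqrt d / 2 ^ n) ^ 2 *
        Real.exp (VR d (dist a b)) + 2 * VR d (dist a b + Real.sqrt d / 2 ^ n) ^ 2 *
        Real.exp (2 * VR d (dist a b))))) Filter.atTop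
      (nhds ((9 / 10 : ℝ) ^ d * (2 * (VR d (dist a b) + 2 * VR d (dist a b) ^ 2 *
        Real.exp (VR d (dist a b)) + 2 * VR d (dist a b) ^ 2 *
        Real.exp (2 * VR d (dist a b)))))) := by
    have h3 : Filter.Tendsto (fun n : ℕ => VR d (dist a b + Real.sqrt d / 2 ^ n)) Filter.atTop
        (nhds (VR d (dist a b))) := by
      have h4 := (tendsto_const_nhds (x := dist a b)).add hlim
      rw [add_zero] at h4
      exact ((VR_cont hd).tendsto _).comp h4
    have h5 := (h3.pow 2).const_mul 2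
    exact (((tendsto_const_nhds.add (h5.mul_const _)).add (h5.mul_const _)).const_mul 2).const_mul _
  have hev : ∀ᶠ n : ℕ in Filter.atTop, Real.sqrt d / 2 ^ n ≤ 3 / 500 * dist a b :=
    hlim.eventually (ge_mem_nhds (by positivity))
  have h2 := ge_of_tendsto hlim2 (hev.mono fun n hn => C7_prod hd hp Φ T (c := c) (c' := c') hab n hn)
  have h3 := abs_add_le (gT Φ p T c c' a b - (SM3.Pm p (-(T : ℝ)) T).real
          {l | Al (GX Φ l) (a, c) (dist a b) ∧ Al (GX Φ l) (b, c') (dist a b)})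
    ((SM3.Pm p (-(T : ℝ)) T).real
          {l | Al (GX Φ l) (a, c) (dist a b) ∧ Al (GX Φ l) (b, c') (dist a b)} -
      fT Φ p T c a (dist a b) * fT Φ p T c' b (dist a b))
  rw [sub_add_sub_cancel] at h3
  refine h3.trans ((add_le_add h1 h2).trans (le_of_eq ?_))
  unfold eta
  ring

end Pool.SM3X
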