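/-
SM3X.D3 : the matching `MSX Y` of an infinite good set `Y`.
PROOF. `MSX_mem`: take `F = F₀`.  `MSX_symm`: Mt_symm.
`MSX_iff`: let `ρ = dist x.1 y.1` and `F₁ = (Y ∩ {z | dist x.1 z.1 < n ρ + 1}) ∪ (Y ∩ {z | dist y.1 z.1 < n ρ + 1}) ∪ {x, y}` (finite, GoodX.fin).
Claim: for every finite `F` with `F₁ ⊆ F ⊆ Y`: `Mt F x y ↔ AlN n (Y \ {x}) x ρ ∧ AlN n (Y \ {y}) y ρ`.  Indeed `Mt F x y ↔ Fr F ρ x ∧ Fr F ρ y` (Mt_iff_Fr),
`Fr F ρ x ↔ AlN n (F \ {x}) x ρ` (rec_AlN with `M = Mt F`, Mt_rec, Mt_symm, `NoCh.mono` for `F \ {x} ⊆ Y \ {x}`), and `AlN n (F \ {x}) x ρ ↔ AlN n (Y \ {x}) x ρ`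
(AlN_congr_ball).  `←` of `MSX_iff`: `F₀ = F₁`.  `→`: if `Mt F x y` for all `F ⊇ F₀`, take `F = F₀ ∪ F₁`.
`MSX_rec`: `→`: `MSX_mem`; if `dist x z < dist x y`, `MSX Y x z` and `MSX Y x y`: take `F` = union of the two finite sets `F₀`: `Mt F x z` and `Mt F x y`
contradict Mt_rec for `F`.  `←`: choose `n` with `NoCh n (Y \ {x}) x.1 ρ` and `NoCh n (Y \ {y}) y.1 ρ` (GoodX.chain, NoCh.le).  By MSX_iff it is enough that
`AlN n (Y \ {x}) x ρ` (and the same for `y`).  By `rec_AlN`-free argument: take a finite `F ⊇ F₁` which also contains, for every `z ∈ Y` with `dist x z < ρ`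
(finitely many) and `z.2 ≠ x.2`, the set `F₁` of the pair `(x,z)` (with an `n_z` for this pair), so that `Mt F x z ↔ MSX Y x z` for these `z`.  Then `Fr F ρ x` by the
hypothesis (a partner in `F` is in `Y` and has another colour), and `Fr F ρ x ↔ AlN n (Y \ {x}) x ρ` as above.
`MSX_eq`: if `M x y`: `x, y ∈ Y`, `x.2 ≠ y.2` and no closer partners (hM with `r = ρ + 1`); conversely these imply `M x y`; by `rec_AlN` (for `M` and `Y`,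
`s = ρ`, `r = ρ + 1`) `no closer partner of x ↔ AlN n (Y \ {x}) x ρ`.  So `M x y ↔ x ∈ Y ∧ y ∈ Y ∧ x.2 ≠ y.2 ∧ AlN .. ∧ AlN ..`, and MSX_iff, MSX_mem.
-/
import Pool.Agent.Lib.SM3X.D2

set_option autoImplicit false

open MeasureTheory Set

namespace Pool.SM3X

variable {X : Type} [MetricSpace X]

theorem MSX_symm {Y : Set (CP X)} {x y : CP X} (h : MSX Y x y) : MSX Y y x := by
  obtain ⟨F₀, h1, h2, h3⟩ := h
  exact ⟨F₀, h1, h2, fun F hF hs hY => Mt_symm (h3 F hF hs hY)⟩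

theorem MSX_mem {Y : Set (CP X)} {x y : CP X} (h : MSX Y x y) : x ∈ Y ∧ y ∈ Y ∧ x.2 ≠ y.2 := by
  obtain ⟨F₀, h1, h2, h3⟩ := h
  have h4 := Mt_mem (h3 F₀ h1 Subset.rfl h2)
  exact ⟨h2 h4.1, h2 h4.2.1, h4.2.2⟩

private theorem D3_Fr {Y F : Set (CP X)} {x : CP X} {n : ℕ} {s : ℝ} (hF : F.Finite) (hFY : F ⊆ Y)
    (hx : x ∈ F) (hn : NoCh n (Y \ {x}) x.1 s) (hb : ∀ z ∈ Y, dist x.1 z.1 < n * s → z ∈ F) :
    Fr F s x ↔ AlN n (Y \ {x}) x s := by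
  have h1 := rec_AlN (Mt_rec hF s) (fun _ _ => Mt_symm) hx le_rfl
    (hn.mono (Set.sdiff_subset_sdiff_left hFY) le_rfl)
  have h2 : AlN n (F \ {x}) x s ↔ AlN n (Y \ {x}) x s := by
    refine AlN_congr_ball fun z hz => ?_
    rw [Set.mem_sdiff, Set.mem_sdiff]
    exact ⟨fun h => ⟨hFY h.1, h.2⟩, fun h => ⟨hb z h.1 hz, h.2⟩⟩
  rw [← h2, ← h1]
  exact Iff.rfl

private theorem D3_key {Y F : Set (CP X)} {x y : CP X} {n : ℕ} (hF : F.Finite) (hFY : F ⊆ Y)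
    (hx : x ∈ F) (hy : y ∈ F) (hc : x.2 ≠ y.2) (h1 : NoCh n (Y \ {x}) x.1 (dist x.1 y.1))
    (h2 : NoCh n (Y \ {y}) y.1 (dist x.1 y.1))
    (b1 : ∀ z ∈ Y, dist x.1 z.1 < n * dist x.1 y.1 → z ∈ F)
    (b2 : ∀ z ∈ Y, dist y.1 z.1 < n * dist x.1 y.1 → z ∈ F) :
    Mt F x y ↔ (AlN n (Y \ {x}) x (dist x.1 y.1) ∧ AlN n (Y \ {y}) y (dist x.1 y.1)) := by
  rw [Mt_iff_Fr hF hx hy hc, D3_Fr hF hFY hx h1 b1, D3_Fr hF hFY hy h2 b2]

private def D3_F (Y : Set (CP X)) (x y : CP X) (n : ℕ) : Set (CP X) :=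
  insert x (insert y ((Y ∩ {z | dist x.1 z.1 < n * dist x.1 y.1}) ∪
    (Y ∩ {z | dist y.1 z.1 < n * dist x.1 y.1})))

private theorem D3_F_fin {Y : Set (CP X)} (h : GoodX Y) (x y : CP X) (n : ℕ) :
    (D3_F Y x y n).Finite :=
  (((h.fin x.1 _).union (h.fin y.1 _)).insert y).insert x

private theorem D3_F_sub {Y : Set (CP X)} {x y : CP X} (hx : x ∈ Y) (hy : y ∈ Y) (n : ℕ) :
    D3_F Y x y n ⊆ Y := by
  intro z hz
  rcases hz with rfl | rfl | ⟨h, -⟩ | ⟨h, -⟩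
  · exact hx
  · exact hy
  · exact h
  · exact h

private theorem D3_keyF {Y F : Set (CP X)} {x y : CP X} {n : ℕ} (hF : F.Finite) (hFY : F ⊆ Y)
    (hc : x.2 ≠ y.2) (h1 : NoCh n (Y \ {x}) x.1 (dist x.1 y.1))
    (h2 : NoCh n (Y \ {y}) y.1 (dist x.1 y.1)) (hs : D3_F Y x y n ⊆ F) :
    Mt F x y ↔ (AlN n (Y \ {x}) x (dist x.1 y.1) ∧ AlN n (Y \ {y}) y (dist x.1 y.1)) := by
  refine D3_key hF hFY (hs (Or.inl rfl)) (hs (Or.inr (Or.inl rfl))) hc h1 h2 ?_ ?_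
  · intro z hz hd
    exact hs (Or.inr (Or.inr (Or.inl ⟨hz, hd⟩)))
  · intro z hz hd
    exact hs (Or.inr (Or.inr (Or.inr ⟨hz, hd⟩)))

theorem MSX_iff {Y : Set (CP X)} (h : GoodX Y) {x y : CP X} (hx : x ∈ Y) (hy : y ∈ Y)
    (hc : x.2 ≠ y.2) {n : ℕ} (h1 : NoCh n (Y \ {x}) x.1 (dist x.1 y.1))
    (h2 : NoCh n (Y \ {y}) y.1 (dist x.1 y.1)) :
    MSX Y x y ↔ (AlN n (Y \ {x}) x (dist x.1 y.1) ∧ AlN n (Y \ {y}) y (dist x.1 y.1)) := by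
  constructor
  · rintro ⟨F₀, hf, hs, hM⟩
    refine (D3_keyF (hf.union (D3_F_fin h x y n)) (Set.union_subset hs (D3_F_sub hx hy n)) hc h1 h2
      Set.subset_union_right).1 ?_
    exact hM _ (hf.union (D3_F_fin h x y n)) Set.subset_union_left
      (Set.union_subset hs (D3_F_sub hx hy n))
  · intro hA
    exact ⟨D3_F Y x y n, D3_F_fin h x y n, D3_F_sub hx hy n, fun F hF hs hFY =>
      (D3_keyF hF hFY hc h1 h2 hs).2 hA⟩

private theorem D3_chain {Y : Set (CP X)} (h : GoodX Y) {x y : CP X} (hx : x ∈ Y) (hy : y ∈ Y)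
    (s : ℝ) : ∃ n, NoCh n (Y \ {x}) x.1 s ∧ NoCh n (Y \ {y}) y.1 s := by
  obtain ⟨n1, h1⟩ := h.chain x hx s
  obtain ⟨n2, h2⟩ := h.chain y hy s
  exact ⟨max n1 n2, h1.le (le_max_left _ _), h2.le (le_max_right _ _)⟩

private theorem D3_stab {Y : Set (CP X)} (h : GoodX Y) {x y : CP X} (hx : x ∈ Y) (hy : y ∈ Y)
    (hc : x.2 ≠ y.2) : ∃ F₁ : Set (CP X), F₁.Finite ∧ F₁ ⊆ Y ∧
      ∀ F : Set (CP X), F.Finite → F₁ ⊆ F → F ⊆ Y → (Mt F x y ↔ MSX Y x y) := by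
  obtain ⟨n, h1, h2⟩ := D3_chain h hx hy (dist x.1 y.1)
  refine ⟨D3_F Y x y n, D3_F_fin h x y n, D3_F_sub hx hy n, fun F hF hs hFY => ?_⟩
  rw [MSX_iff h hx hy hc h1 h2]
  exact D3_keyF hF hFY hc h1 h2 hs

private theorem D3_free {Y : Set (CP X)} (h : GoodX Y) {x : CP X} (hx : x ∈ Y) {s : ℝ} {n : ℕ}
    (hA : ∀ z, dist x.1 z.1 < s → ¬ MSX Y x z) (hn : NoCh n (Y \ {x}) x.1 s) :
    AlN n (Y \ {x}) x s := by
  have hst : ∀ z : CP X, ∃ F₁ : Set (CP X), F₁.Finite ∧ F₁ ⊆ Y ∧ (z ∈ Y → x.2 ≠ z.2 →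
      ∀ F : Set (CP X), F.Finite → F₁ ⊆ F → F ⊆ Y → (Mt F x z ↔ MSX Y x z)) := by
    intro z
    by_cases hz : z ∈ Y ∧ x.2 ≠ z.2
    · obtain ⟨F₁, h1, h2, h3⟩ := D3_stab h hx hz.1 hz.2
      exact ⟨F₁, h1, h2, fun _ _ => h3⟩
    · exact ⟨∅, Set.finite_empty, Set.empty_subset _, fun h1 h2 => absurd ⟨h1, h2⟩ hz⟩
  choose F₁ g1 g2 g3 using hst
  have hZ := h.fin x.1 s
  have hU : (⋃ z ∈ Y ∩ {z | dist x.1 z.1 < s}, F₁ z).Finite := hZ.biUnion fun z _ => g1 z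
  have hUY : (⋃ z ∈ Y ∩ {z | dist x.1 z.1 < s}, F₁ z) ⊆ Y := Set.iUnion₂_subset fun z _ => g2 z
  have hB := h.fin x.1 (n * s)
  have hfin : (insert x ((Y ∩ {z | dist x.1 z.1 < n * s}) ∪
      ⋃ z ∈ Y ∩ {z | dist x.1 z.1 < s}, F₁ z)).Finite := (hB.union hU).insert x
  have hsub : (insert x ((Y ∩ {z | dist x.1 z.1 < n * s}) ∪
      ⋃ z ∈ Y ∩ {z | dist x.1 z.1 < s}, F₁ z)) ⊆ Y := by
    refine Set.insert_subset hx (Set.union_subset Set.inter_subset_left hUY)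
  refine (D3_Fr hfin hsub (Set.mem_insert _ _) hn fun z hz hd => Or.inr (Or.inl ⟨hz, hd⟩)).1 ?_
  intro z hz
  by_contra hlt
  rw [not_le] at hlt
  have h1 := Mt_mem hz
  have hzY := hsub h1.2.1
  refine hA z hlt ((g3 z hzY h1.2.2 _ hfin ?_ hsub).1 hz)
  intro w hw
  refine Or.inr (Or.inr ?_)
  exact Set.mem_iUnion₂.2 ⟨z, ⟨hzY, hlt⟩, hw⟩

theorem MSX_rec {Y : Set (CP X)} (h : GoodX Y) (r : ℝ) : Rec Y r (MSX Y) := by
  intro x y _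
  have key : ∀ {a b z : CP X}, MSX Y a b → dist a.1 z.1 < dist a.1 b.1 → ¬ MSX Y a z := by
    rintro a b z ⟨F, hf, hs, hM⟩ hz ⟨F', hf', hs', hM'⟩
    have h1 := hM (F ∪ F') (hf.union hf') Set.subset_union_left (Set.union_subset hs hs')
    have h2 := hM' (F ∪ F') (hf.union hf') Set.subset_union_right (Set.union_subset hs hs')
    exact ((Mt_rec (hf.union hf') (dist a.1 b.1 + 1) a b (lt_add_one _)).1 h1).2.2.2.1 z hz h2
  constructor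
  · intro hm
    obtain ⟨hx, hy, hc⟩ := MSX_mem hm
    refine ⟨hx, hy, hc, fun z hz => key hm hz, fun z hz => key (MSX_symm hm) ?_⟩
    rw [dist_comm y.1 x.1]
    exact hz
  · rintro ⟨hx, hy, hc, hA, hB⟩
    obtain ⟨n, h1, h2⟩ := D3_chain h hx hy (dist x.1 y.1)
    exact (MSX_iff h hx hy hc h1 h2).2 ⟨D3_free h hx hA h1, D3_free h hy hB h2⟩

theorem MSX_eq {Y : Set (CP X)} (h : GoodX Y) {M : CP X → CP X → Prop} (hM : ∀ r, Rec Y r M)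
    (hs : ∀ x y, M x y → M y x) (x y : CP X) : M x y ↔ MSX Y x y := by
  have h0 := hM (dist x.1 y.1 + 1) x y (lt_add_one _)
  by_cases hxy : x ∈ Y ∧ y ∈ Y ∧ x.2 ≠ y.2
  · obtain ⟨hx, hy, hc⟩ := hxy
    obtain ⟨n, h1, h2⟩ := D3_chain h hx hy (dist x.1 y.1)
    rw [MSX_iff h hx hy hc h1 h2, ← rec_AlN (hM (dist x.1 y.1 + 1)) hs hx (le_add_of_nonneg_right
      zero_le_one) h1, ← rec_AlN (hM (dist x.1 y.1 + 1)) hs hy (le_add_of_nonneg_right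
      zero_le_one) h2, h0]
    constructor
    · rintro ⟨-, -, -, hA, hB⟩
      exact ⟨fun z hz => not_lt.1 fun hlt => hA z hlt hz,
        fun z hz => not_lt.1 fun hlt => hB z hlt hz⟩
    · rintro ⟨hA, hB⟩
      exact ⟨hx, hy, hc, fun z hlt hz => absurd (hA z hz) (not_le.2 hlt),
        fun z hlt hz => absurd (hB z hz) (not_le.2 hlt)⟩
  · constructor
    · intro hm
      have h1 := h0.1 hm
      exact absurd ⟨h1.1, h1.2.1, h1.2.2.1⟩ hxy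
    · intro hm
      exact absurd (MSX_mem hm) hxy

end Pool.SM3X
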