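/-
SM3X.D4 : stable matchings in the sense of the problem are `MSX` (port of SM3.E9).
PROOF. Copy the proof of SM3.E9 (`|x - y|` becomes `dist x y`; `Real.dist_eq` is not needed; `abs_sub_comm` becomes `dist_comm`) with `MS` replaced by `MSX`,
`MS_rec`, `MS_eq`, `MS_mem`, `MS_symm` by the theorems of D3.
-/
import Pool.Agent.Lib.SM3X.D3

set_option autoImplicit false

open MeasureTheory Set

namespace Pool.SM3X

variable {X : Type} [MetricSpace X]

private theorem D4_pos_inj {Y : Set (CP X)} (h : NoIso Y) {x y : CP X} (hx : x ∈ Y) (hy : y ∈ Y)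
    (hxy : x.1 = y.1) : x = y := h x hx x hx y hy (by rw [hxy])

theorem stable_MSX {T : Fin 3 → Set X} (h : GoodX {y : CP X | y.1 ∈ T y.2}) :
    StableX T (fun x y => ∃ i j : Fin 3, MSX {y : CP X | y.1 ∈ T y.2} (x, i) (y, j)) := by
  refine ⟨?_, ?_, ?_, ?_⟩
  · rintro x y ⟨i, j, hxy⟩
    exact ⟨j, i, MSX_symm hxy⟩
  · rintro x y ⟨i, j, hxy⟩
    obtain ⟨h1, h2, h3⟩ := MSX_mem hxy
    refine ⟨?_, i, j, h3, h1, h2⟩
    rintro rfl
    have := D4_pos_inj h.noIso h1 h2 rfl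
    exact h3 (congrArg Prod.snd this)
  · rintro x y z ⟨i, j, hxy⟩ ⟨i', l, hxz⟩
    obtain ⟨h1, h2, h3⟩ := MSX_mem hxy
    obtain ⟨h1', h2', h3'⟩ := MSX_mem hxz
    have hii : i = i' := congrArg Prod.snd (D4_pos_inj h.noIso h1 h1' rfl)
    subst hii
    rcases lt_trichotomy (dist x y) (dist x z) with hlt | heq | hgt
    · exfalso
      have := (MSX_rec h ((dist x z) + 1) (x, i) (z, l) (by simp)).1 hxz
      exact this.2.2.2.1 (y, j) hlt hxy
    · exact congrArg Prod.fst (h.noIso _ h1 _ h2 _ h2' heq)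
    · exfalso
      have := (MSX_rec h ((dist x y) + 1) (x, i) (y, j) (by simp)).1 hxy
      exact this.2.2.2.1 (z, l) hgt hxz
  · rintro x y hxy ⟨i, j, hij, hx, hy⟩ ⟨h1, h2⟩
    have hM : MSX {y : CP X | y.1 ∈ T y.2} (x, i) (y, j) := by
      refine (MSX_rec h ((dist x y) + 1) (x, i) (y, j) (by simp)).2 ⟨hx, hy, hij, ?_, ?_⟩
      · intro z hz hMz
        have := h1 z.1 ⟨i, z.2, hMz⟩
        exact absurd this (not_lt.2 (le_of_lt hz))
      · intro z hz hMz
        have := h2 z.1 ⟨j, z.2, hMz⟩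
        exact absurd this (not_lt.2 (le_of_lt hz))
    exact lt_irrefl _ (h1 y ⟨i, j, hM⟩)

theorem stable_iffX {T : Fin 3 → Set X} (h : GoodX {y : CP X | y.1 ∈ T y.2}) {M : X → X → Prop}
    (hM : StableX T M) {i : Fin 3} {x : X} (hx : x ∈ T i) :
    (∃ y, M x y) ↔ ∃ z : CP X, MSX {y : CP X | y.1 ∈ T y.2} (x, i) z := by
  obtain ⟨hsym, hmem, huni, hblk⟩ := hM
  set Y : Set (CP X) := {y : CP X | y.1 ∈ T y.2} with hY
  -- partners of a point of `Y`
  have hpart : ∀ a : CP X, a ∈ Y → ∀ z : X, M a.1 z → ∃ c : Fin 3, (z, c) ∈ Y ∧ a.2 ≠ c := by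
    intro a ha z haz
    obtain ⟨-, i', j', hij, hi', hj'⟩ := hmem _ _ haz
    have : a = (a.1, i') := D4_pos_inj h.noIso ha (show (a.1, i') ∈ Y from hi') rfl
    refine ⟨j', hj', ?_⟩
    rw [congrArg Prod.snd this]
    exact hij
  have hrec : ∀ r, Rec Y r (fun a b => M a.1 b.1 ∧ a ∈ Y ∧ b ∈ Y ∧ a.2 ≠ b.2) := by
    intro r a b _
    constructor
    · rintro ⟨h1, h2, h3, h4⟩
      refine ⟨h2, h3, h4, ?_, ?_⟩
      · rintro z hz ⟨h5, -⟩
        have := huni _ _ _ h1 h5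
        rw [this] at hz
        exact lt_irrefl _ hz
      · rintro z hz ⟨h5, -⟩
        have := huni _ _ _ (hsym _ _ h1) h5
        rw [← this, dist_comm] at hz
        exact lt_irrefl _ hz
    · rintro ⟨h2, h3, h4, h5, h6⟩
      refine ⟨?_, h2, h3, h4⟩
      by_contra hnot
      have hne : a.1 ≠ b.1 := by
        intro hab
        exact h4 (congrArg Prod.snd (D4_pos_inj h.noIso h2 h3 hab))
      refine hblk a.1 b.1 hne ⟨a.2, b.2, h4, h2, h3⟩ ⟨?_, ?_⟩
      · intro z hz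
        obtain ⟨c, hc, hac⟩ := hpart a h2 z hz
        refine lt_of_le_of_ne (not_lt.1 fun hlt => h5 (z, c) hlt ⟨hz, h2, hc, hac⟩) ?_
        intro heq
        have := h.noIso a h2 b h3 (z, c) hc heq
        apply hnot
        rw [this]
        exact hz
      · intro z hz
        obtain ⟨c, hc, hac⟩ := hpart b h3 z hz
        refine lt_of_le_of_ne (not_lt.1 fun hlt => h6 (z, c) hlt ⟨hz, h3, hc, hac⟩) ?_
        intro heq
        rw [dist_comm] at heq
        have := h.noIso b h3 a h2 (z, c) hc heq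
        apply hnot
        apply hsym
        rw [this]
        exact hz
  have hiff := MSX_eq h hrec (fun a b hab => ⟨hsym _ _ hab.1, hab.2.2.1, hab.2.1,
    fun he => hab.2.2.2 he.symm⟩)
  constructor
  · rintro ⟨y, hxy⟩
    obtain ⟨c, hc, hac⟩ := hpart (x, i) hx y hxy
    exact ⟨(y, c), (hiff (x, i) (y, c)).1 ⟨hxy, hx, hc, hac⟩⟩
  · rintro ⟨z, hz⟩
    exact ⟨z.1, ((hiff (x, i) z).2 hz).1⟩

end Pool.SM3X
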