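/-
SM3X.D7 : symmetries of the matching and of aliveness.
PROOF. Induction on the fuel for `MtN_equiv` and `AlN_equiv` (quantifiers over all `z` are transported by the bijection `f`: `z = f (f.symm z)`;
`f ⁻¹' Y \ {y} = f ⁻¹' (Y \ {f y})`).  `Mt_equiv`, `Al_equiv`: from the definitions.  `trX w` is the translation `x ↦ (x.1 + w, x.2)`.
-/
import Pool.Agent.Lib.SM3X.D2

set_option autoImplicit false

open MeasureTheory Set

namespace Pool.SM3X

section sym

variable {X : Type} [MetricSpace X]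

private theorem D7_MtN (f : CP X ≃ CP X) (hd : ∀ x y, dist (f x).1 (f y).1 = dist x.1 y.1)
    (hc : ∀ x y, (f x).2 = (f y).2 ↔ x.2 = y.2) (Y : Set (CP X)) (n : ℕ) : ∀ x y : CP X,
    MtN (f ⁻¹' Y) n x y ↔ MtN Y n (f x) (f y) := by
  induction n with
  | zero => intro x y; exact Iff.rfl
  | succ n ih =>
    intro x y
    simp only [MtN, Set.mem_preimage, hd, Ne, hc]
    refine and_congr_right fun _ => and_congr_right fun _ => and_congr_right fun _ => ?_
    refine and_congr ?_ ?_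
    · constructor
      · intro h z hz hm
        have h1 := h (f.symm z)
        rw [ih, Equiv.apply_symm_apply] at h1
        refine h1 ?_ hm
        rw [← hd, Equiv.apply_symm_apply]
        exact hz
      · intro h z hz hm
        refine h (f z) ?_ ((ih x z).1 hm)
        rw [hd]
        exact hz
    · constructor
      · intro h z hz hm
        have h1 := h (f.symm z)
        rw [ih, Equiv.apply_symm_apply] at h1
        refine h1 ?_ hm
        rw [← hd, Equiv.apply_symm_apply]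
        exact hz
      · intro h z hz hm
        refine h (f z) ?_ ((ih y z).1 hm)
        rw [hd]
        exact hz

theorem Mt_equiv (f : CP X ≃ CP X) (hd : ∀ x y, dist (f x).1 (f y).1 = dist x.1 y.1)
    (hc : ∀ x y, (f x).2 = (f y).2 ↔ x.2 = y.2) (Y : Set (CP X)) (x y : CP X) :
    Mt (f ⁻¹' Y) x y ↔ Mt Y (f x) (f y) := by
  unfold Mt
  simp only [D7_MtN f hd hc Y]

private theorem D7_AlN (f : CP X ≃ CP X) (hd : ∀ x y, dist (f x).1 (f y).1 = dist x.1 y.1)
    (hc : ∀ x y, (f x).2 = (f y).2 ↔ x.2 = y.2) (n : ℕ) : ∀ (Y : Set (CP X)) (x : CP X) (r : ℝ),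
    AlN n (f ⁻¹' Y) x r ↔ AlN n Y (f x) r := by
  induction n with
  | zero => intro Y x r; exact Iff.rfl
  | succ n ih =>
    intro Y x r
    have key : ∀ y : CP X, f ⁻¹' Y \ {y} = f ⁻¹' (Y \ {f y}) := by
      intro y
      ext z
      simp only [Set.mem_sdiff, Set.mem_preimage, Set.mem_singleton_iff, f.injective.eq_iff]
    constructor
    · intro h z hz hcz hdz hal
      have h1 := h (f.symm z)
      rw [Set.mem_preimage, Equiv.apply_symm_apply, key, ih, Equiv.apply_symm_apply, ← hd,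
        Equiv.apply_symm_apply] at h1
      refine h1 hz (fun h2 => hcz ?_) hdz hal
      rw [← (hc (f.symm z) x).2 h2, Equiv.apply_symm_apply]
    · intro h z hz hcz hdz hal
      rw [key, ih, ← hd] at hal
      refine h (f z) hz (fun h2 => hcz ((hc z x).1 h2)) ?_ hal
      rw [hd]
      exact hdz

theorem AlN_equiv (f : CP X ≃ CP X) (hd : ∀ x y, dist (f x).1 (f y).1 = dist x.1 y.1)
    (hc : ∀ x y, (f x).2 = (f y).2 ↔ x.2 = y.2) (n : ℕ) (Y : Set (CP X)) (x : CP X) (r : ℝ) :
    AlN n (f ⁻¹' Y) x r ↔ AlN n Y (f x) r := D7_AlN f hd hc n Y x r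

theorem Al_equiv (f : CP X ≃ CP X) (hd : ∀ x y, dist (f x).1 (f y).1 = dist x.1 y.1)
    (hc : ∀ x y, (f x).2 = (f y).2 ↔ x.2 = y.2) (Y : Set (CP X)) (x : CP X) (r : ℝ) :
    Al (f ⁻¹' Y) x r ↔ Al Y (f x) r := by
  unfold Al
  simp only [D7_AlN f hd hc]

end sym

/-- the translation by `w` -/
def trX {d : ℕ} (w : XX d) : CP (XX d) ≃ CP (XX d) where
  toFun x := (x.1 + w, x.2)
  invFun x := (x.1 - w, x.2)
  left_inv x := by simp
  right_inv x := by simp

theorem shX_eq {d : ℕ} (w : XX d) (Y : Set (CP (XX d))) : shX w Y = trX w ⁻¹' Y := rfl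

theorem AlN_shX {d : ℕ} (w : XX d) (n : ℕ) (Y : Set (CP (XX d))) (x : CP (XX d)) (r : ℝ) :
    AlN n (shX w Y) x r ↔ AlN n Y (x.1 + w, x.2) r := by
  rw [shX_eq]
  exact AlN_equiv (trX w) (fun x y => dist_add_right x.1 y.1 w) (fun x y => Iff.rfl) n Y x r

/-- exchange of colours -/
theorem Al_colour {d : ℕ} (σ : Equiv.Perm (Fin 3)) (Y : Set (CP (XX d))) (x : CP (XX d)) (r : ℝ) :
    Al {y | (y.1, σ y.2) ∈ Y} x r ↔ Al Y (x.1, σ x.2) r :=
  Al_equiv (Equiv.prodCongr (Equiv.refl (XX d)) σ) (fun x y => rfl)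
    (fun x y => σ.injective.eq_iff) Y x r

end Pool.SM3X
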