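/-
SM3X.FDefs : the facts on which the analysis is based.
-/
import Pool.Agent.Lib.SM3X.Defs

set_option autoImplicit false

open MeasureTheory Set

namespace Pool.SM3X

/-- `f c r`: probability that an additional point of colour `c` at `0` has no partner at distance `< r`; `g c c' b`: probability that additional points at `0`, `b` of the colours
`c`, `c'` are matched to each other; `ε` is the error of the approximation by a finite window, `rm` the maximal distance -/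
structure Facts (d : ℕ) (p : Fin 3 → ℝ) (ε rm : ℝ) (f : Fin 3 → ℝ → ℝ)
    (g : Fin 3 → Fin 3 → XX d → ℝ) : Prop where
  f01 : ∀ c r, 0 ≤ f c r ∧ f c r ≤ 1
  g01 : ∀ c c' b, 0 ≤ g c c' b ∧ g c c' b ≤ 1
  gm : ∀ c c', Measurable (g c c')
  gd : ∀ c b, g c c b = 0
  mecke : ∀ c r, 0 ≤ r → r ≤ rm →
    1 - f c r = ∑ c' : Fin 3, p c' * ∫ b in Metric.ball (0 : XX d) r, g c c' b
  dec : ∀ c c' b, c ≠ c' → 0 < ‖b‖ → ‖b‖ ≤ rm →
    |g c c' b - f c ‖b‖ * f c' ‖b‖| ≤ eta d (VR d ‖b‖) + ε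
  symm : ∀ c c' b, ‖b‖ ≤ rm → |g c c' b - g c' c (-b)| ≤ ε
  col : ∀ r, f 1 r = f 2 r
  low : ∀ b, 0 < ‖b‖ → ‖b‖ ≤ rm → Real.exp (-((1 + p 0) * VR d ‖b‖)) ≤ g 1 2 b ∧
    Real.exp (-((1 + p 0) * VR d ‖b‖)) ≤ g 2 1 b

end Pool.SM3X
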