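/-
SM3X.H1 : the exponential of the integral of `q f1` (pure analysis).
PROOF. As in K2 (private lemma K2_core; copy what is useful).  Replace `f0`, `f1` by the continuous extensions `IccExtend hT ((Icc 0 T).domRestrict f0)`, ... (the integrals over `[0,v]`, `v ∈ [0,T]`, do not change).  `E v = exp (∫ u in 0..v, q * f1 u)`, `E' = q f1 E`; `E` is nondecreasing on
`[0,T]` (`f1 ≥ 0`), so `E ≥ 1`.  Let `I01 v = ∫_0^v f0 f1`, `I11 v = ∫_0^v f1 f1`.
(1) `A = p - 2 p q I01`, `A' = -2 (q f1) (p f0)`, and `p f0 = A + p ε0`, `|ε0| ≤ e` (`h0`).  `(A E^2)' = -2 (q f1) p ε0 E^2`, `(E^2)' = 2 (q f1) E^2 ≥ 0`, so `|A E^2 - p| ≤ p e (E^2 - 1)` (the functions `± (A E^2 - p) - p e (E^2 - 1)` have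
nonpositive derivative and vanish at `0`), hence `|p f0 - p/E^2| ≤ p e + p e (E^2 - 1)/E^2 ≤ 2 p e`.
(2) `B = (p - q) - p q I01 + q^2 I11`, `B' = -(q f1) (p f0 - q f1)`, and `p f0 - q f1 = B + ε`, `|ε| ≤ (p + q) e ≤ e` (`h0`, `h1`).  `(B E)' = -(q f1) ε E`, so `|B E - (p - q)| ≤ e (E - 1)`, hence `|(p f0 - q f1) - (p - q)/E| ≤ 2 e`.
-/
import Mathlib

set_option autoImplicit false

open MeasureTheory Set

namespace Pool.SM3X

private theorem H1_anti {T : ℝ} {g g' : ℝ → ℝ} (hg : ∀ x, HasDerivAt g (g' x) x)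
    (h : ∀ x ∈ Icc (0 : ℝ) T, g' x ≤ 0) {v : ℝ} (hv : v ∈ Icc (0 : ℝ) T) : g v ≤ g 0 := by
  have hT : (0 : ℝ) ∈ Icc (0 : ℝ) T := ⟨le_rfl, hv.1.trans hv.2⟩
  have hm : AntitoneOn g (Icc (0 : ℝ) T) := by
    apply antitoneOn_of_deriv_nonpos (convex_Icc 0 T)
    · exact fun x _ => (hg x).continuousAt.continuousWithinAt
    · exact fun x _ => (hg x).differentiableAt.differentiableWithinAt
    · intro x hx
      rw [interior_Icc] at hx
      rw [(hg x).deriv]
      exact h x ⟨hx.1.le, hx.2.le⟩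
  exact hm hT hv hv.1

private theorem H1_core {p q T e : ℝ} (hp : 0 < p) (hq : 0 < q) (hs : p + 2 * q = 1)
    (hT0 : 0 ≤ T) {f0 f1 : ℝ → ℝ} (c0 : Continuous f0)
    (c1 : Continuous f1) (b1 : ∀ v ∈ Icc 0 T, 0 ≤ f1 v)
    (h0 : ∀ v ∈ Icc 0 T, |f0 v - 1 + 2 * q * ∫ u in (0 : ℝ)..v, f0 u * f1 u| ≤ e)
    (h1 : ∀ v ∈ Icc 0 T, |f1 v - 1 + (p * (∫ u in (0 : ℝ)..v, f0 u * f1 u) +
      q * ∫ u in (0 : ℝ)..v, f1 u * f1 u)| ≤ e) :
    ∃ E : ℝ → ℝ, Continuous E ∧ E 0 = 1 ∧ (∀ v ∈ Icc 0 T, 1 ≤ E v) ∧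
      (∀ v ∈ Icc 0 T, |p * f0 v - p / E v ^ 2| ≤ 2 * p * e) ∧
      (∀ v ∈ Icc 0 T, |(p * f0 v - q * f1 v) - (p - q) / E v| ≤ 2 * e) := by
  have he0 : 0 ≤ e := (abs_nonneg _).trans (h0 0 ⟨le_rfl, hT0⟩)
  obtain ⟨I01, hI01⟩ : ∃ I : ℝ → ℝ, I = fun v => ∫ u in (0 : ℝ)..v, f0 u * f1 u := ⟨_, rfl⟩
  obtain ⟨I11, hI11⟩ : ∃ I : ℝ → ℝ, I = fun v => ∫ u in (0 : ℝ)..v, f1 u * f1 u := ⟨_, rfl⟩
  obtain ⟨L, hL⟩ : ∃ I : ℝ → ℝ, I = fun v => ∫ u in (0 : ℝ)..v, f1 u := ⟨_, rfl⟩
  have dI01 : ∀ x, HasDerivAt I01 (f0 x * f1 x) x := fun x => by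
    rw [hI01]
    exact ((c0.mul c1).integral_hasStrictDerivAt 0 x).hasDerivAt
  have dI11 : ∀ x, HasDerivAt I11 (f1 x * f1 x) x := fun x => by
    rw [hI11]
    exact ((c1.mul c1).integral_hasStrictDerivAt 0 x).hasDerivAt
  have dL : ∀ x, HasDerivAt L (f1 x) x := fun x => by
    rw [hL]
    exact (c1.integral_hasStrictDerivAt 0 x).hasDerivAt
  have zI01 : I01 0 = 0 := by rw [hI01]; simp
  have zI11 : I11 0 = 0 := by rw [hI11]; simp
  have zL : L 0 = 0 := by rw [hL]; simp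
  obtain ⟨E, hE⟩ : ∃ E : ℝ → ℝ, E = fun v => Real.exp (q * L v) := ⟨_, rfl⟩
  have dE : ∀ x, HasDerivAt E (E x * (q * f1 x)) x := fun x => by
    rw [hE]
    exact ((dL x).const_mul q).exp
  have zE : E 0 = 1 := by rw [hE]; simp [zL]
  have pE : ∀ x, 0 < E x := fun x => by rw [hE]; exact Real.exp_pos _
  have h0' : ∀ v ∈ Icc 0 T, |f0 v - 1 + 2 * q * I01 v| ≤ e := fun v hv => by
    rw [hI01]; exact h0 v hv
  have h1' : ∀ v ∈ Icc 0 T, |f1 v - 1 + (p * I01 v + q * I11 v)| ≤ e := fun v hv => by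
    rw [hI01, hI11]; exact h1 v hv
  -- the derivative of `E²`
  have dE2 : ∀ x, HasDerivAt (fun v => E v * E v) (2 * (E x * E x) * (q * f1 x)) x := fun x => by
    have := (dE x).mul (dE x)
    refine this.congr_deriv ?_
    ring
  have pos1 : ∀ x ∈ Icc 0 T, 0 ≤ (E x * E x) * (q * f1 x) := fun x hx =>
    mul_nonneg (mul_nonneg (pE x).le (pE x).le) (mul_nonneg hq.le (b1 x hx))
  have pos2 : ∀ x ∈ Icc 0 T, 0 ≤ E x * (q * f1 x) := fun x hx =>
    mul_nonneg (pE x).le (mul_nonneg hq.le (b1 x hx))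
  -- first pair of bounds
  have dA : ∀ x, HasDerivAt (fun v => (p - 2 * p * q * I01 v) * (E v * E v))
      (2 * ((E x * E x) * (q * f1 x)) * (-(p * f0 x) + (p - 2 * p * q * I01 x))) x := fun x => by
    have := (((dI01 x).const_mul (2 * p * q)).const_sub p).mul (dE2 x)
    refine this.congr_deriv ?_
    ring
  have u1 : ∀ v ∈ Icc 0 T, (p - 2 * p * q * I01 v) * (E v * E v) - p * e * (E v * E v) ≤
      p - p * e := by
    intro v hv
    have hg : ∀ x, HasDerivAt (fun v => (p - 2 * p * q * I01 v) * (E v * E v) -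
        p * e * (E v * E v)) (2 * ((E x * E x) * (q * f1 x)) *
        (-(p * f0 x) + (p - 2 * p * q * I01 x)) - p * e * (2 * (E x * E x) * (q * f1 x))) x :=
      fun x => (dA x).sub ((dE2 x).const_mul (p * e))
    have := H1_anti hg (fun x hx => by
      have a1 := (abs_le.mp (h0' x hx)).1
      have a2 := pos1 x hx
      have a3 : 2 * ((E x * E x) * (q * f1 x)) * (-(p * f0 x) + (p - 2 * p * q * I01 x)) -
        p * e * (2 * (E x * E x) * (q * f1 x)) =
        -(2 * ((E x * E x) * (q * f1 x)) * (p * (f0 x - 1 + 2 * q * I01 x + e))) := by ring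
      rw [a3, neg_nonpos]
      have a4 : 0 ≤ f0 x - 1 + 2 * q * I01 x + e := by linarith
      positivity) hv
    simp only [zI01, zE] at this
    linarith
  have u2 : ∀ v ∈ Icc 0 T, p + p * e ≤
      (p - 2 * p * q * I01 v) * (E v * E v) + p * e * (E v * E v) := by
    intro v hv
    have hg : ∀ x, HasDerivAt (fun v => -((p - 2 * p * q * I01 v) * (E v * E v) +
        p * e * (E v * E v))) (-(2 * ((E x * E x) * (q * f1 x)) *
        (-(p * f0 x) + (p - 2 * p * q * I01 x)) + p * e * (2 * (E x * E x) * (q * f1 x)))) x :=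
      fun x => ((dA x).add ((dE2 x).const_mul (p * e))).neg
    have := H1_anti hg (fun x hx => by
      have a1 := (abs_le.mp (h0' x hx)).2
      have a2 := pos1 x hx
      have a3 : -(2 * ((E x * E x) * (q * f1 x)) * (-(p * f0 x) + (p - 2 * p * q * I01 x)) +
        p * e * (2 * (E x * E x) * (q * f1 x))) =
        -(2 * ((E x * E x) * (q * f1 x)) * (p * (e - (f0 x - 1 + 2 * q * I01 x)))) := by ring
      rw [a3, neg_nonpos]
      have a4 : 0 ≤ e - (f0 x - 1 + 2 * q * I01 x) := by linarith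
      positivity) hv
    simp only [zI01, zE] at this
    linarith
  -- second pair of bounds
  have dB : ∀ x, HasDerivAt (fun v => (p - q - p * q * I01 v + q * q * I11 v) * E v)
      (E x * (q * f1 x) * (-(p * f0 x) + q * f1 x + (p - q - p * q * I01 x + q * q * I11 x)))
      x := fun x => by
    have := ((((dI01 x).const_mul (p * q)).const_sub (p - q)).add
      ((dI11 x).const_mul (q * q))).mul (dE x)
    refine this.congr_deriv ?_
    simp only [Pi.add_apply]
    ring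
  have hDB : ∀ x ∈ Icc 0 T, |p * f0 x - q * f1 x - (p - q - p * q * I01 x + q * q * I11 x)| ≤
      e := by
    intro x hx
    have a1 := abs_le.mp (h0' x hx)
    have a2 := abs_le.mp (h1' x hx)
    have a3 : p * f0 x - q * f1 x - (p - q - p * q * I01 x + q * q * I11 x) =
      p * (f0 x - 1 + 2 * q * I01 x) - q * (f1 x - 1 + (p * I01 x + q * I11 x)) := by ring
    rw [a3, abs_le]
    have b2 := mul_le_mul_of_nonneg_left a1.1 hp.le
    have b3 := mul_le_mul_of_nonneg_left a1.2 hp.le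
    have b4 := mul_le_mul_of_nonneg_left a2.1 hq.le
    have b5 := mul_le_mul_of_nonneg_left a2.2 hq.le
    have b6 : (p + q) * e ≤ e := by nlinarith
    constructor <;> linarith
  have u3 : ∀ v ∈ Icc 0 T, (p - q - p * q * I01 v + q * q * I11 v) * E v - e * E v ≤
      p - q - e := by
    intro v hv
    have hg : ∀ x, HasDerivAt (fun v => (p - q - p * q * I01 v + q * q * I11 v) * E v -
        e * E v) (E x * (q * f1 x) * (-(p * f0 x) + q * f1 x +
        (p - q - p * q * I01 x + q * q * I11 x)) - e * (E x * (q * f1 x))) x :=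
      fun x => (dB x).sub ((dE x).const_mul e)
    have := H1_anti hg (fun x hx => by
      have a1 := (abs_le.mp (hDB x hx)).1
      have a2 := pos2 x hx
      have a3 : E x * (q * f1 x) * (-(p * f0 x) + q * f1 x +
        (p - q - p * q * I01 x + q * q * I11 x)) - e * (E x * (q * f1 x)) =
        -(E x * (q * f1 x) * (p * f0 x - q * f1 x -
          (p - q - p * q * I01 x + q * q * I11 x) + e)) := by ring
      rw [a3, neg_nonpos]
      exact mul_nonneg a2 (by linarith)) hv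
    simp only [zI01, zI11, zE] at this
    linarith
  have u4 : ∀ v ∈ Icc 0 T, p - q + e ≤
      (p - q - p * q * I01 v + q * q * I11 v) * E v + e * E v := by
    intro v hv
    have hg : ∀ x, HasDerivAt (fun v => -((p - q - p * q * I01 v + q * q * I11 v) * E v +
        e * E v)) (-(E x * (q * f1 x) * (-(p * f0 x) + q * f1 x +
        (p - q - p * q * I01 x + q * q * I11 x)) + e * (E x * (q * f1 x)))) x :=
      fun x => ((dB x).add ((dE x).const_mul e)).neg
    have := H1_anti hg (fun x hx => by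
      have a1 := (abs_le.mp (hDB x hx)).2
      have a2 := pos2 x hx
      have a3 : -(E x * (q * f1 x) * (-(p * f0 x) + q * f1 x +
        (p - q - p * q * I01 x + q * q * I11 x)) + e * (E x * (q * f1 x))) =
        -(E x * (q * f1 x) * (e - (p * f0 x - q * f1 x -
          (p - q - p * q * I01 x + q * q * I11 x)))) := by ring
      rw [a3, neg_nonpos]
      exact mul_nonneg a2 (by linarith)) hv
    simp only [zI01, zI11, zE] at this
    linarith
  -- `F0` and `D`
  have w1 : ∀ v ∈ Icc 0 T, p - 2 * p * e * (E v * E v) ≤ p * f0 v * (E v * E v) := by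
    intro v hv
    have a1 := (abs_le.mp (h0' v hv)).1
    have a2 := u2 v hv
    have a3 : 0 < E v * E v := mul_pos (pE v) (pE v)
    have a4 : 0 ≤ p * (E v * E v) * (f0 v - 1 + 2 * q * I01 v + e) :=
      mul_nonneg (by positivity) (by linarith)
    have a5 : 0 ≤ p * e := by positivity
    nlinarith
  have w2 : ∀ v ∈ Icc 0 T, p * f0 v * (E v * E v) ≤ p + 2 * p * e * (E v * E v) := by
    intro v hv
    have a1 := (abs_le.mp (h0' v hv)).2
    have a2 := u1 v hv
    have a3 : 0 < E v * E v := mul_pos (pE v) (pE v)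
    have a4 : 0 ≤ p * (E v * E v) * (e - (f0 v - 1 + 2 * q * I01 v)) :=
      mul_nonneg (by positivity) (by linarith)
    have a5 : 0 ≤ p * e := by positivity
    nlinarith
  have w3 : ∀ v ∈ Icc 0 T, (p * f0 v - q * f1 v) * E v ≤ p - q + 2 * e * E v := by
    intro v hv
    have a1 := (abs_le.mp (hDB v hv)).2
    have a2 := u3 v hv
    have a4 : 0 ≤ E v * (e - (p * f0 v - q * f1 v -
      (p - q - p * q * I01 v + q * q * I11 v))) := mul_nonneg (pE v).le (by linarith)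
    nlinarith
  have w4 : ∀ v ∈ Icc 0 T, p - q - 2 * e * E v ≤ (p * f0 v - q * f1 v) * E v := by
    intro v hv
    have a1 := (abs_le.mp (hDB v hv)).1
    have a2 := u4 v hv
    have a4 : 0 ≤ E v * (p * f0 v - q * f1 v -
      (p - q - p * q * I01 v + q * q * I11 v) + e) := mul_nonneg (pE v).le (by linarith)
    nlinarith
  have oneE : ∀ v ∈ Icc 0 T, 1 ≤ E v := by
    intro v hv
    have hg : ∀ x, HasDerivAt (fun v => -E v) (-(E x * (q * f1 x))) x := fun x => (dE x).neg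
    have := H1_anti hg (fun x hx => neg_nonpos.2 (pos2 x hx)) hv
    simp only [zE] at this
    linarith
  refine ⟨E, ?_, zE, oneE, ?_, ?_⟩
  · exact continuous_iff_continuousAt.2 fun x => (dE x).continuousAt
  · intro v hv
    have a1 := w1 v hv
    have a2 := w2 v hv
    have a3 : 0 < E v * E v := mul_pos (pE v) (pE v)
    have a4 : p * f0 v - p / E v ^ 2 = (p * f0 v * (E v * E v) - p) / (E v * E v) := by
      have := (pE v).ne'
      field_simp
    rw [a4, abs_div, abs_of_pos a3, div_le_iff₀ a3, abs_le]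
    constructor <;> linarith
  · intro v hv
    have a1 := w3 v hv
    have a2 := w4 v hv
    have a3 := pE v
    have a4 : (p * f0 v - q * f1 v) - (p - q) / E v =
        ((p * f0 v - q * f1 v) * E v - (p - q)) / E v := by
      have := (pE v).ne'
      field_simp
    rw [a4, abs_div, abs_of_pos a3, div_le_iff₀ a3, abs_le]
    constructor <;> linarith

theorem ode_E {p q T e : ℝ} (hp : 0 < p) (hq : 0 < q) (hs : p + 2 * q = 1) (hT : 0 ≤ T)
    {f0 f1 : ℝ → ℝ} (c0 : ContinuousOn f0 (Icc 0 T)) (c1 : ContinuousOn f1 (Icc 0 T))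
    (b1 : ∀ v ∈ Icc 0 T, 0 ≤ f1 v)
    (h0 : ∀ v ∈ Icc 0 T, |f0 v - 1 + 2 * q * ∫ u in (0 : ℝ)..v, f0 u * f1 u| ≤ e)
    (h1 : ∀ v ∈ Icc 0 T, |f1 v - 1 + ∫ u in (0 : ℝ)..v, (p * (f0 u * f1 u) + q * (f1 u * f1 u))| ≤ e) :
    ∃ E : ℝ → ℝ, Continuous E ∧ E 0 = 1 ∧ (∀ v ∈ Icc 0 T, 1 ≤ E v) ∧
      (∀ v ∈ Icc 0 T, |p * f0 v - p / E v ^ 2| ≤ 2 * p * e) ∧
      (∀ v ∈ Icc 0 T, |(p * f0 v - q * f1 v) - (p - q) / E v| ≤ 2 * e) := by
  have hT0 : 0 ≤ T := hT
  have g0c : Continuous (IccExtend hT0 ((Icc 0 T).domRestrict f0)) :=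
    (continuousOn_iff_continuous_domRestrict.mp c0).Icc_extend'
  have g1c : Continuous (IccExtend hT0 ((Icc 0 T).domRestrict f1)) :=
    (continuousOn_iff_continuous_domRestrict.mp c1).Icc_extend'
  have e0 : ∀ v ∈ Icc 0 T, IccExtend hT0 ((Icc 0 T).domRestrict f0) v = f0 v := fun v hv => by
    rw [IccExtend_of_mem hT0 _ hv]
    rfl
  have e1 : ∀ v ∈ Icc 0 T, IccExtend hT0 ((Icc 0 T).domRestrict f1) v = f1 v := fun v hv => by
    rw [IccExtend_of_mem hT0 _ hv]
    rfl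
  set g0 := IccExtend hT0 ((Icc 0 T).domRestrict f0) with hg0
  set g1 := IccExtend hT0 ((Icc 0 T).domRestrict f1) with hg1
  have i01 : ∀ v ∈ Icc 0 T, ∫ u in (0 : ℝ)..v, f0 u * f1 u = ∫ u in (0 : ℝ)..v, g0 u * g1 u := by
    intro v hv
    refine intervalIntegral.integral_congr fun u hu => ?_
    rw [uIcc_of_le hv.1] at hu
    have hu' : u ∈ Icc 0 T := ⟨hu.1, hu.2.trans hv.2⟩
    show f0 u * f1 u = g0 u * g1 u
    rw [e0 u hu', e1 u hu']
  have i2 : ∀ v ∈ Icc 0 T, ∫ u in (0 : ℝ)..v, (p * (f0 u * f1 u) + q * (f1 u * f1 u)) =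
      p * (∫ u in (0 : ℝ)..v, g0 u * g1 u) + q * ∫ u in (0 : ℝ)..v, g1 u * g1 u := by
    intro v hv
    rw [← intervalIntegral.integral_const_mul, ← intervalIntegral.integral_const_mul,
      ← intervalIntegral.integral_add]
    · refine intervalIntegral.integral_congr fun u hu => ?_
      rw [uIcc_of_le hv.1] at hu
      have hu' : u ∈ Icc 0 T := ⟨hu.1, hu.2.trans hv.2⟩
      show p * (f0 u * f1 u) + q * (f1 u * f1 u) = p * (g0 u * g1 u) + q * (g1 u * g1 u)
      rw [e0 u hu', e1 u hu']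
    · exact (continuous_const.mul (g0c.mul g1c)).intervalIntegrable _ _
    · exact (continuous_const.mul (g1c.mul g1c)).intervalIntegrable _ _
  obtain ⟨E, cE, zE, oE, h2, h3⟩ := H1_core (e := e) hp hq hs hT0 g0c g1c
    (fun v hv => by rw [e1 v hv]; exact b1 v hv)
    (fun v hv => by rw [e0 v hv, ← i01 v hv]; exact h0 v hv)
    (fun v hv => by rw [e1 v hv, ← i2 v hv]; exact h1 v hv)
  refine ⟨E, cE, zE, oE, fun v hv => ?_, fun v hv => ?_⟩
  · have := h2 v hv
    rwa [e0 v hv] at this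
  · have := h3 v hv
    rwa [e0 v hv, e1 v hv] at this

end Pool.SM3X
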