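/-
SM3X.H2 : the limit of the system, uniformly in the parameters (pure analysis).
PROOF of `ode_f1`. `f0`, `f1` replaced by continuous extensions (`IccExtend`, as in K2).  `H v = q - q ∫_0^v (p f0 f1 + q f1 f1)`, `|q f1 - H| ≤ q e ≤ e` (`q ≤ 1/2`), `H' = -(q f1) (p f0 + q f1) ≤ -(q f1)^2 ≤ 0`.  If `H T ≤ e`, then `q f1 T ≤ 2 e`.  Otherwise `H v ≥ H T > e` on `[0,T]`,
`w = H - e > 0`, `q f1 ≥ w`, `w' ≤ -w^2`, `(1/w)' ≥ 1`, `1/w T ≥ T` (the function `1/w v - v` is nondecreasing and positive at `0`), so `w T ≤ 1/T` and `q f1 T ≤ H T + e ≤ 1/T + 2 e`.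
PROOF of `ode_lim`. `E` from H1, `δ = p - q`, `x v = p / E v ∈ (0,p]`, `F0 = p f0`, `F1 = q f1`, `a = (max δ 0)^2/p`.  `|F0 - x^2/p| ≤ 2 p e ≤ 2 e`, `|F1 - x (x - δ)/p| ≤ 4 e` (`F1 = F0 - (F0 - F1)`), on `[0,T]`.
`δ ≤ 0`: `a = 0`, `0 ≤ F0 T ≤ x^2/p + 2 e ≤ x (x - δ)/p + 2 e ≤ F1 T + 6 e`.
`δ > 0`, `16 p e < δ^2`: `x v > δ/2` for all `v ∈ [0,T]`: `x 0 = p > δ/2`; otherwise by the intermediate value theorem some `v` has `x v = δ/2`, there `F1 v ≤ -δ^2/(4p) + 4 e < 0`: contradiction.  At `T`, if `x ≥ δ`: `0 ≤ (x^2 - δ^2)/p = (x (x - δ)/p) (x + δ)/x ≤ 2 (F1 + 4 e)`; if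
`x < δ`: `x (δ - x)/p ≤ 4 e` and `(δ^2 - x^2)/p = (x (δ - x)/p) (δ + x)/x ≤ 12 e`.  So `|F0 - a| ≤ 2 F1 + 14 e`.
`δ > 0`, `δ^2 ≤ 16 p e`: `a ≤ 16 e`; `x^2/p = x (x - δ)/p + δ x/p ≤ F1 + 4 e + x^2/(2p) + a/2`, so `x^2/p ≤ 2 F1 + 24 e`, `0 ≤ F0 ≤ 2 F1 + 26 e`.
In all cases `|F0 - a| ≤ 2 F1 T + 26 e ≤ 2/T + 30 e` by `ode_f1`.
-/
import Pool.Agent.Lib.SM3X.H1

set_option autoImplicit false

open MeasureTheory Set

namespace Pool.SM3X

private theorem H2_anti {T : ℝ} {g g' : ℝ → ℝ} (hg : ∀ x ∈ Icc (0 : ℝ) T, HasDerivAt g (g' x) x)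
    (h : ∀ x ∈ Icc (0 : ℝ) T, g' x ≤ 0) : AntitoneOn g (Icc (0 : ℝ) T) := by
  apply antitoneOn_of_deriv_nonpos (convex_Icc 0 T)
  · exact fun x hx => (hg x hx).continuousAt.continuousWithinAt
  · intro x hx
    rw [interior_Icc] at hx
    exact (hg x ⟨hx.1.le, hx.2.le⟩).differentiableAt.differentiableWithinAt
  · intro x hx
    rw [interior_Icc] at hx
    rw [(hg x ⟨hx.1.le, hx.2.le⟩).deriv]
    exact h x ⟨hx.1.le, hx.2.le⟩

private theorem H2_core {p q T e : ℝ} (hp : 0 < p) (hq : 0 < q) (hs : p + 2 * q = 1) (hT : 0 < T)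
    {f0 f1 : ℝ → ℝ} (c0 : Continuous f0) (c1 : Continuous f1)
    (b0 : ∀ v ∈ Icc 0 T, 0 ≤ f0 v) (b1 : ∀ v ∈ Icc 0 T, 0 ≤ f1 v)
    (h1 : ∀ v ∈ Icc 0 T, |f1 v - 1 + (p * (∫ u in (0 : ℝ)..v, f0 u * f1 u) +
      q * ∫ u in (0 : ℝ)..v, f1 u * f1 u)| ≤ e) :
    q * f1 T ≤ 1 / T + 2 * e := by
  have he0 : 0 ≤ e := (abs_nonneg _).trans (h1 0 ⟨le_rfl, hT.le⟩)
  obtain ⟨I01, hI01⟩ : ∃ I : ℝ → ℝ, I = fun v => ∫ u in (0 : ℝ)..v, f0 u * f1 u := ⟨_, rfl⟩
  obtain ⟨I11, hI11⟩ : ∃ I : ℝ → ℝ, I = fun v => ∫ u in (0 : ℝ)..v, f1 u * f1 u := ⟨_, rfl⟩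
  have dI01 : ∀ x, HasDerivAt I01 (f0 x * f1 x) x := fun x => by
    rw [hI01]
    exact ((c0.mul c1).integral_hasStrictDerivAt 0 x).hasDerivAt
  have dI11 : ∀ x, HasDerivAt I11 (f1 x * f1 x) x := fun x => by
    rw [hI11]
    exact ((c1.mul c1).integral_hasStrictDerivAt 0 x).hasDerivAt
  have h1' : ∀ v ∈ Icc 0 T, |f1 v - 1 + (p * I01 v + q * I11 v)| ≤ e := fun v hv => by
    rw [hI01, hI11]; exact h1 v hv
  obtain ⟨W, hW⟩ : ∃ W : ℝ → ℝ, W = fun v => (q - e) - q * (p * I01 v + q * I11 v) := ⟨_, rfl⟩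
  have dW : ∀ x, HasDerivAt W (-(q * f1 x * (p * f0 x + q * f1 x))) x := fun x => by
    rw [hW]
    have := ((((dI01 x).const_mul p).add ((dI11 x).const_mul q)).const_mul q).const_sub (q - e)
    refine this.congr_deriv ?_
    ring
  have hlow : ∀ v ∈ Icc 0 T, W v ≤ q * f1 v := by
    intro v hv
    have a1 := (abs_le.mp (h1' v hv)).1
    have a2 : W v = (q - e) - q * (p * I01 v + q * I11 v) := by rw [hW]
    rw [a2]
    have a3 : 0 ≤ q * (f1 v - 1 + (p * I01 v + q * I11 v) + e) := mul_nonneg hq.le (by linarith)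
    nlinarith
  have hup : q * f1 T ≤ W T + 2 * e := by
    have a1 := (abs_le.mp (h1' T ⟨hT.le, le_rfl⟩)).2
    have a2 : W T = (q - e) - q * (p * I01 T + q * I11 T) := by rw [hW]
    rw [a2]
    have a3 : 0 ≤ q * (e - (f1 T - 1 + (p * I01 T + q * I11 T))) :=
      mul_nonneg hq.le (by linarith)
    nlinarith
  have hWanti : AntitoneOn W (Icc (0 : ℝ) T) := by
    refine H2_anti (fun x _ => dW x) fun x hx => ?_
    have a1 := b0 x hx
    have a2 := b1 x hx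
    have a3 : 0 ≤ q * f1 x * (p * f0 x + q * f1 x) := by positivity
    linarith
  have hT' : T ∈ Icc (0 : ℝ) T := ⟨hT.le, le_rfl⟩
  have h0' : (0 : ℝ) ∈ Icc (0 : ℝ) T := ⟨le_rfl, hT.le⟩
  rcases le_or_gt (W T) 0 with hneg | hpos
  · have a1 : 0 < 1 / T := by positivity
    linarith
  · have hWpos : ∀ v ∈ Icc (0 : ℝ) T, 0 < W v := fun v hv =>
      lt_of_lt_of_le hpos (hWanti hv hT' hv.2)
    have hg : AntitoneOn (fun v => v - (W v)⁻¹) (Icc (0 : ℝ) T) := by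
      refine H2_anti (g' := fun x => 1 - (-(-(q * f1 x * (p * f0 x + q * f1 x))) / W x ^ 2))
        (fun x hx => (hasDerivAt_id x).sub ((dW x).inv (hWpos x hx).ne')) fun x hx => ?_
      have a0 := hWpos x hx
      have a1 := b0 x hx
      have a2 := b1 x hx
      have a3 := hlow x hx
      have a4 : W x ^ 2 ≤ q * f1 x * (p * f0 x + q * f1 x) := by
        have a5 : W x ^ 2 ≤ (q * f1 x) ^ 2 := pow_le_pow_left₀ a0.le a3 2
        have a6 : 0 ≤ q * f1 x * (p * f0 x) := by positivity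
        nlinarith
      have a7 : 1 ≤ -(-(q * f1 x * (p * f0 x + q * f1 x))) / W x ^ 2 := by
        rw [neg_neg, le_div_iff₀ (by positivity), one_mul]
        exact a4
      linarith
    have a1 := hg h0' hT' hT.le
    have a2 : T - (W T)⁻¹ ≤ 0 - (W 0)⁻¹ := a1
    have a3 : 0 < (W 0)⁻¹ := inv_pos.2 (hWpos 0 h0')
    have a4 : T < (W T)⁻¹ := by linarith
    have a5 : W T ≤ 1 / T := by
      rw [one_div]
      exact ((lt_inv_comm₀ hT hpos).1 a4).le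
    linarith

theorem ode_f1 {p q T e : ℝ} (hp : 0 < p) (hq : 0 < q) (hs : p + 2 * q = 1) (hT : 0 < T)
    {f0 f1 : ℝ → ℝ} (c0 : ContinuousOn f0 (Icc 0 T)) (c1 : ContinuousOn f1 (Icc 0 T))
    (b0 : ∀ v ∈ Icc 0 T, 0 ≤ f0 v) (b1 : ∀ v ∈ Icc 0 T, 0 ≤ f1 v)
    (h1 : ∀ v ∈ Icc 0 T, |f1 v - 1 + ∫ u in (0 : ℝ)..v, (p * (f0 u * f1 u) + q * (f1 u * f1 u))| ≤ e) :
    q * f1 T ≤ 1 / T + 2 * e := by
  have hT0 : 0 ≤ T := hT.le
  have g0c : Continuous (IccExtend hT0 ((Icc 0 T).domRestrict f0)) :=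
    (continuousOn_iff_continuous_domRestrict.mp c0).Icc_extend'
  have g1c : Continuous (IccExtend hT0 ((Icc 0 T).domRestrict f1)) :=
    (continuousOn_iff_continuous_domRestrict.mp c1).Icc_extend'
  have e0 : ∀ v ∈ Icc 0 T, IccExtend hT0 ((Icc 0 T).domRestrict f0) v = f0 v := fun v hv => by
    rw [IccExtend_of_mem hT0 _ hv]
    rfl
  have e1 : ∀ v ∈ Icc 0 T, IccExtend hT0 ((Icc 0 T).domRestrict f1) v = f1 v := fun v hv => by
    rw [IccExtend_of_mem hT0 _ hv]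
    rfl
  set g0 := IccExtend hT0 ((Icc 0 T).domRestrict f0) with hg0
  set g1 := IccExtend hT0 ((Icc 0 T).domRestrict f1) with hg1
  have i2 : ∀ v ∈ Icc 0 T, ∫ u in (0 : ℝ)..v, (p * (f0 u * f1 u) + q * (f1 u * f1 u)) =
      p * (∫ u in (0 : ℝ)..v, g0 u * g1 u) + q * ∫ u in (0 : ℝ)..v, g1 u * g1 u := by
    intro v hv
    rw [← intervalIntegral.integral_const_mul, ← intervalIntegral.integral_const_mul,
      ← intervalIntegral.integral_add]
    · refine intervalIntegral.integral_congr fun u hu => ?_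
      rw [uIcc_of_le hv.1] at hu
      have hu' : u ∈ Icc 0 T := ⟨hu.1, hu.2.trans hv.2⟩
      show p * (f0 u * f1 u) + q * (f1 u * f1 u) = p * (g0 u * g1 u) + q * (g1 u * g1 u)
      rw [e0 u hu', e1 u hu']
    · exact (continuous_const.mul (g0c.mul g1c)).intervalIntegrable _ _
    · exact (continuous_const.mul (g1c.mul g1c)).intervalIntegrable _ _
  have h := H2_core (e := e) hp hq hs hT g0c g1c
    (fun v hv => by rw [e0 v hv]; exact b0 v hv)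
    (fun v hv => by rw [e1 v hv]; exact b1 v hv)
    (fun v hv => by rw [e1 v hv, ← i2 v hv]; exact h1 v hv)
  rwa [e1 T ⟨hT.le, le_rfl⟩] at h

private theorem H2_alg {p d e X F0 F1 : ℝ} (hp : 0 < p) (he : 0 ≤ e) (hX : 0 < X)
    (hF0 : 0 ≤ F0) (hF1 : 0 ≤ F1) (A : |F0 - X ^ 2 / p| ≤ 2 * e)
    (B : |F1 - (X ^ 2 / p - d * X / p)| ≤ 4 * e)
    (hc : 0 < d → 16 * p * e < d ^ 2 → d / 2 < X) :
    |F0 - (max d 0) ^ 2 / p| ≤ 2 * F1 + 26 * e := by
  have A' := abs_le.1 A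
  have B' := abs_le.1 B
  rcases le_or_gt d 0 with hd | hd
  · rw [max_eq_right hd]
    have s0 : d * X / p ≤ 0 := div_nonpos_of_nonpos_of_nonneg
      (mul_nonpos_of_nonpos_of_nonneg hd hX.le) hp.le
    have z0 : (0 : ℝ) ^ 2 / p = 0 := by norm_num
    rw [z0, sub_zero, abs_of_nonneg hF0]
    linarith [A'.1, A'.2, B'.1, B'.2]
  · rw [max_eq_left hd.le]
    have k1 : 0 ≤ X ^ 2 / p + d ^ 2 / p - 2 * (d * X / p) := by
      have : X ^ 2 / p + d ^ 2 / p - 2 * (d * X / p) = (X - d) ^ 2 / p := by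
        field_simp
        ring
      rw [this]
      positivity
    have up : F0 - d ^ 2 / p ≤ 2 * F1 + 26 * e := by linarith [A'.1, A'.2, B'.1, B'.2]
    have lo : d ^ 2 / p - F0 ≤ 2 * F1 + 26 * e := by
      rcases le_or_gt (d ^ 2) (16 * p * e) with h16 | h16
      · have : d ^ 2 / p ≤ 16 * e := by
          rw [div_le_iff₀ hp]
          linarith
        linarith
      · have hX2 := hc hd h16
        rcases le_or_gt d X with hdX | hdX
        · have : d ^ 2 / p ≤ X ^ 2 / p := by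
            apply div_le_div_of_nonneg_right _ hp.le
            exact pow_le_pow_left₀ hd.le hdX 2
          linarith [A'.1, A'.2]
        · have k2 : d ^ 2 / p - X ^ 2 / p ≤ 3 * (d * X / p - X ^ 2 / p) := by
            have e1 : d ^ 2 / p - X ^ 2 / p = (d - X) * (d + X) / p := by
              field_simp
              ring
            have e2 : 3 * (d * X / p - X ^ 2 / p) = (d - X) * (3 * X) / p := by
              field_simp
            rw [e1, e2]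
            apply div_le_div_of_nonneg_right _ hp.le
            apply mul_le_mul_of_nonneg_left _ (by linarith)
            linarith
          linarith [A'.1, A'.2, B'.1, B'.2]
    rw [abs_le]
    constructor <;> linarith

theorem ode_lim {p q T e : ℝ} (hp : 0 < p) (hq : 0 < q) (hs : p + 2 * q = 1) (hT : 0 < T)
    {f0 f1 : ℝ → ℝ} (c0 : ContinuousOn f0 (Icc 0 T)) (c1 : ContinuousOn f1 (Icc 0 T))
    (b0 : ∀ v ∈ Icc 0 T, 0 ≤ f0 v) (b1 : ∀ v ∈ Icc 0 T, 0 ≤ f1 v)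
    (h0 : ∀ v ∈ Icc 0 T, |f0 v - 1 + 2 * q * ∫ u in (0 : ℝ)..v, f0 u * f1 u| ≤ e)
    (h1 : ∀ v ∈ Icc 0 T, |f1 v - 1 + ∫ u in (0 : ℝ)..v, (p * (f0 u * f1 u) + q * (f1 u * f1 u))| ≤ e) :
    |p * f0 T - (max (p - q) 0) ^ 2 / p| ≤ 2 / T + 30 * e := by
  have he0 : 0 ≤ e := (abs_nonneg _).trans (h0 0 ⟨le_rfl, hT.le⟩)
  have hT' : T ∈ Icc (0 : ℝ) T := ⟨hT.le, le_rfl⟩
  have hp1 : p ≤ 1 := by linarith
  obtain ⟨E, cE, zE, oE, k0, k1⟩ := ode_E hp hq hs hT.le c0 c1 b1 h0 h1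
  have kA : ∀ v ∈ Icc 0 T, |p * f0 v - (p / E v) ^ 2 / p| ≤ 2 * e := by
    intro v hv
    have hE : 0 < E v := lt_of_lt_of_le one_pos (oE v hv)
    have a1 : (p / E v) ^ 2 / p = p / E v ^ 2 := by
      field_simp
    rw [a1]
    refine (k0 v hv).trans ?_
    nlinarith
  have kB : ∀ v ∈ Icc 0 T,
      |q * f1 v - ((p / E v) ^ 2 / p - (p - q) * (p / E v) / p)| ≤ 4 * e := by
    intro v hv
    have hE : 0 < E v := lt_of_lt_of_le one_pos (oE v hv)
    have a1 : (p - q) * (p / E v) / p = (p - q) / E v := by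
      field_simp
    have a2 := abs_le.1 (kA v hv)
    have a3 := abs_le.1 (k1 v hv)
    rw [a1, abs_le]
    constructor <;> linarith [a2.1, a2.2, a3.1, a3.2]
  have hET : 0 < E T := lt_of_lt_of_le one_pos (oE T hT')
  have hc : 0 < p - q → 16 * p * e < (p - q) ^ 2 → (p - q) / 2 < p / E T := by
    intro hd h16
    by_contra hcon
    have hcon' := not_lt.1 hcon
    have a1 : 2 * p / (p - q) ≤ E T := by
      rw [div_le_iff₀ hET] at hcon'
      rw [div_le_iff₀ hd]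
      linarith
    have a0 : E 0 ≤ 2 * p / (p - q) := by
      rw [zE, le_div_iff₀ hd]
      linarith
    obtain ⟨v, hv, hvE⟩ := intermediate_value_Icc hT.le cE.continuousOn
      (⟨a0, a1⟩ : 2 * p / (p - q) ∈ Icc (E 0) (E T))
    have a2 := abs_le.1 (kB v hv)
    have a3 : p / E v = (p - q) / 2 := by
      rw [hvE]
      field_simp
    rw [a3] at a2
    have a4 := b1 v hv
    have a5 : 0 ≤ q * f1 v := mul_nonneg hq.le a4
    have a6 : ((p - q) / 2) ^ 2 / p - (p - q) * ((p - q) / 2) / p = -((p - q) ^ 2 / (4 * p)) := by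
      field_simp
      ring
    rw [a6] at a2
    have a7 : 4 * e < (p - q) ^ 2 / (4 * p) := by
      rw [lt_div_iff₀ (by positivity)]
      linarith
    linarith [a2.1, a2.2]
  have h := H2_alg (d := p - q) (X := p / E T) (F0 := p * f0 T) (F1 := q * f1 T) hp he0
    (by positivity) (mul_nonneg hp.le (b0 T hT')) (mul_nonneg hq.le (b1 T hT')) (kA T hT')
    (kB T hT') hc
  have h2 := ode_f1 hp hq hs hT c0 c1 b0 b1 h1
  have h3 : 2 / T = 2 * (1 / T) := by ring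
  rw [h3]
  linarith

end Pool.SM3X
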