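/-
SM3X.H3 : numerics.
PROOF. `T = d/25`.  `(9/10)^d ≤ exp (-d/10)` (`1 - x ≤ exp (-x)`), `exp T ≤ exp (2T) = exp (2d/25)`.  So `T * eta d T ≤ exp (-d/50) (3 T^2 + 10 T^3)`.  `exp (d/50) ≥ (d/50)^4/24` (`Real.pow_div_factorial_le_exp`), `d ≥ 1`, so
`d (3 T^2 + 10 T^3) ≤ d^4 (3/625 + 10/15625) ≤ K exp (d/50)` with e.g. `K = 24 * 50^4`.
-/
import Pool.Agent.Lib.SM3X.Defs

set_option autoImplicit false

open MeasureTheory Set

namespace Pool.SM3X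

theorem eta_dim : ∃ K : ℝ, 0 < K ∧ ∀ d : ℕ, 1 ≤ d →
    (d / 25 : ℝ) * eta d (d / 25 : ℝ) ≤ K / d := by
  refine ⟨24 * 50 ^ 4, by norm_num, ?_⟩
  intro d hd
  have hd0 : (1 : ℝ) ≤ d := by exact_mod_cast hd
  have hdpos : (0 : ℝ) < d := by linarith
  have h9 : ((9 : ℝ) / 10) ^ d ≤ Real.exp (-(d : ℝ) / 10) := by
    have h1 : ((9 : ℝ) / 10) ≤ Real.exp (-(1 : ℝ) / 10) := by
      have := Real.add_one_le_exp (-(1 : ℝ) / 10)
      linarith
    calc ((9 : ℝ) / 10) ^ d ≤ (Real.exp (-(1 : ℝ) / 10)) ^ d := pow_le_pow_left₀ (by norm_num) h1 d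
      _ = Real.exp (-(d : ℝ) / 10) := by
        rw [← Real.exp_nat_mul]
        congr 1
        ring
  rw [le_div_iff₀ hdpos]
  unfold eta
  set T : ℝ := (d : ℝ) / 25 with hT
  have hT0 : 0 < T := by positivity
  have hE1 : 1 ≤ Real.exp (2 * T) := Real.one_le_exp (by positivity)
  have hE2 : Real.exp T ≤ Real.exp (2 * T) := Real.exp_le_exp.mpr (by linarith)
  have hX : 3 * T + 6 * T ^ 2 * Real.exp T + 4 * T ^ 2 * Real.exp (2 * T) ≤
      (3 * T + 10 * T ^ 2) * Real.exp (2 * T) := by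
    have h1 : 3 * T ≤ 3 * T * Real.exp (2 * T) := by nlinarith
    have h2 : 6 * T ^ 2 * Real.exp T ≤ 6 * T ^ 2 * Real.exp (2 * T) :=
      mul_le_mul_of_nonneg_left hE2 (by positivity)
    nlinarith
  have hprod : ((9 : ℝ) / 10) ^ d * (3 * T + 6 * T ^ 2 * Real.exp T + 4 * T ^ 2 * Real.exp (2 * T)) ≤
      (3 * T + 10 * T ^ 2) * Real.exp (-(d : ℝ) / 50) := by
    calc ((9 : ℝ) / 10) ^ d * (3 * T + 6 * T ^ 2 * Real.exp T + 4 * T ^ 2 * Real.exp (2 * T))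
        ≤ Real.exp (-(d : ℝ) / 10) * ((3 * T + 10 * T ^ 2) * Real.exp (2 * T)) :=
          mul_le_mul h9 hX (by positivity) (by positivity)
      _ = (3 * T + 10 * T ^ 2) * (Real.exp (-(d : ℝ) / 10) * Real.exp (2 * T)) := by ring
      _ = (3 * T + 10 * T ^ 2) * Real.exp (-(d : ℝ) / 50) := by
        rw [← Real.exp_add]
        congr 2
        rw [hT]
        ring
  have hexp : ((d : ℝ) / 50) ^ 4 / 24 ≤ Real.exp ((d : ℝ) / 50) := by
    have := Real.pow_div_factorial_le_exp ((d : ℝ) / 50) (by positivity) 4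
    simpa [Nat.factorial] using this
  have hmul : Real.exp ((d : ℝ) / 50) * Real.exp (-(d : ℝ) / 50) = 1 := by
    rw [← Real.exp_add]
    have : (d : ℝ) / 50 + -(d : ℝ) / 50 = 0 := by ring
    rw [this, Real.exp_zero]
  have hd4 : (d : ℝ) ^ 4 * Real.exp (-(d : ℝ) / 50) ≤ 24 * 50 ^ 4 := by
    have h1 : ((d : ℝ) / 50) ^ 4 / 24 * Real.exp (-(d : ℝ) / 50) ≤ 1 := by
      rw [← hmul]
      exact mul_le_mul_of_nonneg_right hexp (by positivity)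
    have h2 : ((d : ℝ) / 50) ^ 4 / 24 * Real.exp (-(d : ℝ) / 50) =
        (d : ℝ) ^ 4 * Real.exp (-(d : ℝ) / 50) / (24 * 50 ^ 4) := by
      ring
    rw [h2, div_le_one (by norm_num)] at h1
    exact h1
  have hEpos : 0 < Real.exp (-(d : ℝ) / 50) := Real.exp_pos _
  have hpoly : T * (3 * T + 10 * T ^ 2) * d ≤ (d : ℝ) ^ 4 := by
    have hT2 : T * (3 * T + 10 * T ^ 2) * d = 3 / 625 * (d : ℝ) ^ 3 + 10 / 15625 * (d : ℝ) ^ 4 := by
      rw [hT]; ring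
    rw [hT2]
    have h3 : (d : ℝ) ^ 3 ≤ (d : ℝ) ^ 4 := pow_le_pow_right₀ hd0 (by norm_num)
    have h4 : 0 ≤ (d : ℝ) ^ 4 := by positivity
    nlinarith
  calc T * (((9 : ℝ) / 10) ^ d * (3 * T + 6 * T ^ 2 * Real.exp T + 4 * T ^ 2 * Real.exp (2 * T))) * d
      ≤ T * ((3 * T + 10 * T ^ 2) * Real.exp (-(d : ℝ) / 50)) * d := by
        have := mul_le_mul_of_nonneg_left hprod hT0.le
        exact mul_le_mul_of_nonneg_right this hdpos.le
    _ = (T * (3 * T + 10 * T ^ 2) * d) * Real.exp (-(d : ℝ) / 50) := by ring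
    _ ≤ (d : ℝ) ^ 4 * Real.exp (-(d : ℝ) / 50) := mul_le_mul_of_nonneg_right hpoly hEpos.le
    _ ≤ 24 * 50 ^ 4 := hd4

end Pool.SM3X
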