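/-
SM3X.RV : the radius as a function of the volume; polar coordinates for real integrals.
PROOF. `rV d v = (v / VR d 1)^(1/d)`; `VR_eq`, `VR_pos` (C2), Real.rpow_natCast / Real.pow_rpow_inv_natCast.
`integral_rad`: by `lintegral_rad` (C2, with `a = 0`, indicator functions) the image of `volume.restrict (ball 0 r)` under `b ↦ VR d ‖b‖` is `volume.restrict (Ioo 0 (VR d r))`; `integral_map` (measurability of `VR d ‖b‖`: VR_cont);
`intervalIntegral.integral_of_le`, `integral_Ioc_eq_integral_Ioo`.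
-/
import Pool.Agent.Lib.SM3X.C2

set_option autoImplicit false

open MeasureTheory Set

namespace Pool.SM3X

/-- the radius of the ball of volume `v` -/
noncomputable def rV (d : ℕ) (v : ℝ) : ℝ := (v / VR d 1) ^ (1 / (d : ℝ))

theorem rV_nonneg {d : ℕ} {v : ℝ} (hv : 0 ≤ v) : 0 ≤ rV d v := by
  exact Real.rpow_nonneg (div_nonneg hv (VR_pos d).le) _

theorem VR_rV {d : ℕ} (hd : 1 ≤ d) {v : ℝ} (hv : 0 ≤ v) : VR d (rV d v) = v := by
  have h0 : d ≠ 0 := by omega
  rw [VR_eq hd (rV_nonneg hv), rV, one_div,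
    Real.rpow_inv_natCast_pow (div_nonneg hv (VR_pos d).le) h0, div_mul_cancel₀ _ (VR_pos d).ne']

theorem rV_VR {d : ℕ} (hd : 1 ≤ d) {r : ℝ} (hr : 0 ≤ r) : rV d (VR d r) = r := by
  have h0 : d ≠ 0 := by omega
  rw [VR_eq hd hr, rV, mul_div_cancel_right₀ _ (VR_pos d).ne', one_div,
    Real.pow_rpow_inv_natCast hr h0]

theorem rV_le {d : ℕ} (hd : 1 ≤ d) {v r : ℝ} (hv : 0 ≤ v) (hr : 0 ≤ r) (h : v ≤ VR d r) :
    rV d v ≤ r := by
  rw [← rV_VR hd hr]
  exact Real.rpow_le_rpow (div_nonneg hv (VR_pos d).le)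
    (div_le_div_of_nonneg_right h (VR_pos d).le) (by positivity)

private theorem RV_map {d : ℕ} (hd : 1 ≤ d) (r : ℝ) :
    (volume.restrict (Metric.ball (0 : XX d) r)).map (fun b => VR d ‖b‖) =
      volume.restrict (Ioo 0 (VR d r)) := by
  have hg : Measurable (fun b : XX d => VR d ‖b‖) :=
    ((VR_cont hd).comp continuous_norm).measurable
  ext s hs
  rw [Measure.map_apply hg hs]
  have h := lintegral_rad hd (0 : XX d) r (F := s.indicator 1) (measurable_one.indicator hs)
  have e1 : ∫⁻ x in Metric.ball (0 : XX d) r, s.indicator 1 (VR d (dist 0 x)) =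
      (volume.restrict (Metric.ball (0 : XX d) r)) ((fun b => VR d ‖b‖) ⁻¹' s) := by
    rw [← lintegral_indicator_one (hg hs)]
    refine lintegral_congr fun x => ?_
    rw [dist_zero_left]
    rfl
  have e2 : ∫⁻ v in Ioo 0 (VR d r), s.indicator 1 v = (volume.restrict (Ioo 0 (VR d r))) s :=
    lintegral_indicator_one hs
  rw [← e1, h, e2]

theorem integral_rad {d : ℕ} (hd : 1 ≤ d) {r : ℝ} (hr : 0 ≤ r) {F : ℝ → ℝ} (hF : Measurable F) :
    ∫ b in Metric.ball (0 : XX d) r, F (VR d ‖b‖) = ∫ v in (0 : ℝ)..(VR d r), F v := by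
  have hg : Measurable (fun b : XX d => VR d ‖b‖) :=
    ((VR_cont hd).comp continuous_norm).measurable
  have h := integral_map (μ := volume.restrict (Metric.ball (0 : XX d) r)) hg.aemeasurable
    (f := F) hF.aestronglyMeasurable
  rw [← h, RV_map hd r, intervalIntegral.integral_of_le (VR_nonneg d r),
    integral_Ioc_eq_integral_Ioo]

end Pool.SM3X
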