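/-
SM3X.K1 : transport from level `r` to level `r'`, and the case `5 p^2 > 1`.
PROOF. Write `I c c' r = ∫ b in ball 0 r, g c c' b`, `A c c' = I c c' r' - I c c' r = ∫ over {r ≤ ‖b‖ < r'}` (nonnegative).  `A 0 c' ≤ A c' 0 + ε VR d rm` (`symm`, `b ↦ -b` preserves the volume and the annulus; all `‖b‖ ≤ rm`).
`transport_f`: `p 0 (f 0 r - f 0 r') = ∑ c', p 0 p c' A 0 c' = p 0 p 1 A 0 1 + p 0 p 2 A 0 2` (`mecke`, `gd`) `≤ p 1 p 0 A 1 0 + p 2 p 0 A 2 0 + ε VR d rm`, and `p c' (f c' r - f c' r') = p c' ∑ c'', p c'' A c' c'' ≥ p c' p 0 A c' 0`, `f c' r' ≥ 0`.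
`balance`: `p 0 f 0 r - p 1 f 1 r - p 2 f 2 r = p 0 - p 1 - p 2 - p 0 p 1 (I 0 1 r - I 1 0 r) - p 0 p 2 (I 0 2 r - I 2 0 r) + p 1 p 2 (I 1 2 r + I 2 1 r)` (`mecke`, `gd`), `|I 0 c' r - I c' 0 r| ≤ ε VR d r` (`symm`).
`I 1 2 r, I 2 1 r ≥ ∫ b in ball 0 r, exp (-(1+p 0) VR d ‖b‖) = (1 - exp (-(1+p 0) VR d r))/(1 + p 0)` (`low` for `b ≠ 0`, a.e.; `integral_rad`, RV; integral_exp).
`key_A`: `q = p 1 = p 2 = (1 - p 0)/2`: `p 0 - 2 q + 2 q^2 /(1 + p 0) = (5 p 0^2 - 1)/(2 (1 + p 0)) =: 4 κ > 0`.  Choose `r₁ > 0` with `2 q^2 exp (-(1+p 0) VR d r₁)/(1 + p 0) ≤ κ` (`VR_surj`, C2), and for `r' ≥ r₁`: `ε = κ / (2 VR d r' + 2)`;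
`transport_f` with `r = r₁`.
-/
import Pool.Agent.Lib.SM3X.FDefs
import Pool.Agent.Lib.SM3X.RV

set_option autoImplicit false

open MeasureTheory Set

namespace Pool.SM3X

variable {d : ℕ} {p : Fin 3 → ℝ} {ε rm : ℝ} {f : Fin 3 → ℝ → ℝ} {g : Fin 3 → Fin 3 → XX d → ℝ}

private theorem K1_int (F : Facts d p ε rm f g) (c c' : Fin 3) {S : Set (XX d)} {r : ℝ}
    (hS : S ⊆ Metric.ball 0 r) : IntegrableOn (g c c') S := by
  have h : IntegrableOn (g c c') (Metric.ball (0 : XX d) r) := by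
    refine Measure.integrableOn_of_bounded (M := 1) ?_ (F.gm c c').aestronglyMeasurable ?_
    · exact measure_ball_lt_top.ne
    · refine Filter.Eventually.of_forall fun b => ?_
      rw [Real.norm_eq_abs, abs_of_nonneg (F.g01 c c' b).1]
      exact (F.g01 c c' b).2
  exact h.mono_set hS

private theorem K1_neg (c c' : Fin 3) {S : Set (XX d)} (hS : MeasurableSet S)
    (hs : ∀ x, -x ∈ S ↔ x ∈ S) (g : Fin 3 → Fin 3 → XX d → ℝ) :
    ∫ b in S, g c' c (-b) = ∫ b in S, g c' c b := by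
  rw [← integral_indicator hS, ← integral_indicator hS,
    ← integral_neg_eq_self (S.indicator (g c' c)) volume]
  refine integral_congr_ae (Filter.Eventually.of_forall fun x => ?_)
  by_cases hx : x ∈ S
  · rw [indicator_of_mem hx]
    have := indicator_of_mem ((hs x).2 hx) (g c' c)
    exact this.symm
  · rw [indicator_of_notMem hx]
    have := indicator_of_notMem (fun h => hx ((hs x).1 h)) (g c' c)
    exact this.symm

private theorem K1_symm (hε : 0 ≤ ε) (F : Facts d p ε rm f g) (c c' : Fin 3) {S : Set (XX d)}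
    (hS : MeasurableSet S) (hs : ∀ x, -x ∈ S ↔ x ∈ S) (hr : S ⊆ Metric.ball 0 rm) :
    |(∫ b in S, g c c' b) - ∫ b in S, g c' c b| ≤ ε * VR d rm := by
  rw [← K1_neg c c' hS hs g, ← integral_sub (K1_int F c c' hr)]
  · have hfin : volume S < ⊤ := lt_of_le_of_lt (measure_mono hr) measure_ball_lt_top
    have h1 := norm_setIntegral_le_of_norm_le_const (μ := volume) (s := S)
      (f := fun b => g c c' b - g c' c (-b)) (C := ε) hfin ?_
    · rw [Real.norm_eq_abs] at h1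
      refine h1.trans (mul_le_mul_of_nonneg_left ?_ hε)
      have : volume.real S ≤ volume.real (Metric.ball (0 : XX d) rm) :=
        measureReal_mono hr measure_ball_lt_top.ne
      exact this
    · intro b hb
      rw [Real.norm_eq_abs]
      refine F.symm c c' b ?_
      have := hr hb
      rw [mem_ball_zero_iff] at this
      exact this.le
  · have : Integrable (S.indicator (g c' c)) := (integrable_indicator_iff hS).2 (K1_int F c' c hr)
    have h2 := this.comp_neg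
    have h3 : Integrable (S.indicator (fun b => g c' c (-b))) := by
      refine h2.congr (Filter.Eventually.of_forall fun x => ?_)
      by_cases hx : x ∈ S
      · rw [indicator_of_mem hx]
        exact indicator_of_mem ((hs x).2 hx) (g c' c)
      · rw [indicator_of_notMem hx]
        exact indicator_of_notMem (fun h => hx ((hs x).1 h)) (g c' c)
    exact (integrable_indicator_iff hS).1 h3

private theorem K1_mecke (F : Facts d p ε rm f g) {r : ℝ} (h0 : 0 ≤ r) (h1 : r ≤ rm) :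
    f 0 r = 1 - p 1 * (∫ b in Metric.ball (0 : XX d) r, g 0 1 b)
        - p 2 * (∫ b in Metric.ball (0 : XX d) r, g 0 2 b) ∧
    f 1 r = 1 - p 0 * (∫ b in Metric.ball (0 : XX d) r, g 1 0 b)
        - p 2 * (∫ b in Metric.ball (0 : XX d) r, g 1 2 b) ∧
    f 2 r = 1 - p 0 * (∫ b in Metric.ball (0 : XX d) r, g 2 0 b)
        - p 1 * (∫ b in Metric.ball (0 : XX d) r, g 2 1 b) := by
  have hz : ∀ c : Fin 3, (∫ b in Metric.ball (0 : XX d) r, g c c b) = 0 := by
    intro c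
    have : g c c = fun _ => 0 := by
      funext b; exact F.gd c b
    rw [this]; simp
  have m0 := F.mecke 0 r h0 h1
  have m1 := F.mecke 1 r h0 h1
  have m2 := F.mecke 2 r h0 h1
  rw [Fin.sum_univ_three] at m0 m1 m2
  rw [hz 0] at m0
  rw [hz 1] at m1
  rw [hz 2] at m2
  refine ⟨by linarith, by linarith, by linarith⟩

private theorem K1_ann (F : Facts d p ε rm f g) (c c' : Fin 3) {r r' : ℝ} (h1 : r ≤ r') :
    (∫ b in Metric.ball (0 : XX d) r', g c c' b) = (∫ b in Metric.ball (0 : XX d) r, g c c' b) +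
      ∫ b in Metric.ball (0 : XX d) r' \ Metric.ball 0 r, g c c' b := by
  have hsub : Metric.ball (0 : XX d) r ⊆ Metric.ball 0 r' := Metric.ball_subset_ball h1
  rw [← setIntegral_union disjoint_sdiff_right (measurableSet_ball.diff measurableSet_ball)
    (K1_int F c c' (subset_refl _)) (K1_int F c c' sdiff_subset), union_sdiff_cancel hsub]

theorem transport_f (hd : 1 ≤ d) (hp : SM3.PV p) (hε : 0 ≤ ε) (F : Facts d p ε rm f g) {r r' : ℝ}
    (h0 : 0 ≤ r) (h1 : r ≤ r') (h2 : r' ≤ rm) :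
    p 0 * f 0 r - p 1 * f 1 r - p 2 * f 2 r - ε * VR d rm ≤ p 0 * f 0 r' := by
  obtain ⟨a0, a1, a2⟩ := K1_mecke F h0 (h1.trans h2)
  obtain ⟨b0, b1, b2⟩ := K1_mecke F (h0.trans h1) h2
  have hp0 := hp.pos 0
  have hp1 := hp.pos 1
  have hp2 := hp.pos 2
  have hsum := hp.sum
  have hSm : MeasurableSet (Metric.ball (0 : XX d) r' \ Metric.ball 0 r) :=
    measurableSet_ball.diff measurableSet_ball
  have hSs : ∀ x : XX d, -x ∈ Metric.ball (0 : XX d) r' \ Metric.ball 0 r ↔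
      x ∈ Metric.ball (0 : XX d) r' \ Metric.ball 0 r := by
    intro x
    simp only [mem_sdiff, mem_ball_zero_iff, norm_neg]
  have hSr : Metric.ball (0 : XX d) r' \ Metric.ball 0 r ⊆ Metric.ball 0 rm :=
    sdiff_subset.trans (Metric.ball_subset_ball h2)
  have s1 := K1_symm hε F 0 1 hSm hSs hSr
  have s2 := K1_symm hε F 0 2 hSm hSs hSr
  have nn : ∀ c c', 0 ≤ ∫ b in Metric.ball (0 : XX d) r' \ Metric.ball 0 r, g c c' b :=
    fun c c' => setIntegral_nonneg hSm fun b _ => (F.g01 c c' b).1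
  rw [K1_ann F 0 1 h1, K1_ann F 0 2 h1] at b0
  rw [K1_ann F 1 0 h1, K1_ann F 1 2 h1] at b1
  rw [K1_ann F 2 0 h1, K1_ann F 2 1 h1] at b2
  have n12 := nn 1 2
  have n21 := nn 2 1
  have f1 := (F.f01 1 r').1
  have f2 := (F.f01 2 r').1
  rw [b0, a0, a1, a2]
  rw [b1] at f1
  rw [b2] at f2
  have hV : 0 ≤ ε * VR d rm := mul_nonneg hε (VR_nonneg d rm)
  rw [abs_le] at s1 s2
  have t1 := mul_le_mul_of_nonneg_left s1.2 (mul_pos hp0 hp1).le
  have t2 := mul_le_mul_of_nonneg_left s2.2 (mul_pos hp0 hp2).le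
  have t3 := mul_nonneg hp1.le f1
  have t4 := mul_nonneg hp2.le f2
  have t5 := mul_nonneg (mul_pos hp1 hp2).le n12
  have t6 := mul_nonneg (mul_pos hp1 hp2).le n21
  have t7 : p 0 * (p 1 + p 2) * (ε * VR d rm) ≤ 1 * (ε * VR d rm) := by
    refine mul_le_mul_of_nonneg_right ?_ hV
    nlinarith
  nlinarith

private theorem K1_exp (hd : 1 ≤ d) {a : ℝ} (ha : 0 < a) {r : ℝ} (h0 : 0 ≤ r) :
    (∫ b in Metric.ball (0 : XX d) r, Real.exp (-(a * VR d ‖b‖))) =
      (1 - Real.exp (-(a * VR d r))) / a := by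
  have hm : Measurable (fun v : ℝ => Real.exp (-(a * v))) := by fun_prop
  have h := integral_rad hd h0 hm
  rw [h]
  have e1 : ∀ x : ℝ, HasDerivAt (fun v : ℝ => -(Real.exp (-(a * v)) / a))
      (Real.exp (-(a * x))) x := by
    intro x
    have h1 : HasDerivAt (fun v : ℝ => -(a * v)) (-(a * 1)) x :=
      ((hasDerivAt_id x).const_mul a).neg
    have h2 := (h1.exp.div_const a).neg
    have h3 : -(Real.exp (-(a * x)) * -(a * 1) / a) = Real.exp (-(a * x)) := by
      field_simp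
    rw [h3] at h2
    exact h2
  rw [intervalIntegral.integral_eq_sub_of_hasDerivAt (fun x _ => e1 x)
    ((Continuous.intervalIntegrable (by fun_prop) _ _))]
  simp only [mul_zero, neg_zero, Real.exp_zero]
  ring

private theorem K1_low (hd : 1 ≤ d) (hp : SM3.PV p) (F : Facts d p ε rm f g) {r : ℝ}
    (h0 : 0 ≤ r) (h1 : r ≤ rm) {c c' : Fin 3}
    (hc : ∀ b, 0 < ‖b‖ → ‖b‖ ≤ rm → Real.exp (-((1 + p 0) * VR d ‖b‖)) ≤ g c c' b) :
    (1 - Real.exp (-((1 + p 0) * VR d r))) / (1 + p 0) ≤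
      ∫ b in Metric.ball (0 : XX d) r, g c c' b := by
  have hp0 := hp.pos 0
  rw [← K1_exp hd (by linarith : 0 < 1 + p 0) h0]
  have : Nonempty (Fin d) := ⟨⟨0, by omega⟩⟩
  have : Nontrivial (XX d) := inferInstance
  refine setIntegral_mono_on_ae ?_ (K1_int F c c' (subset_refl _)) measurableSet_ball ?_
  · refine Measure.integrableOn_of_bounded (M := 1) measure_ball_lt_top.ne ?_ ?_
    · refine Measurable.aestronglyMeasurable ?_
      have : Measurable (fun b : XX d => VR d ‖b‖) := ((VR_cont hd).comp continuous_norm).measurable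
      fun_prop
    · refine Filter.Eventually.of_forall fun b => ?_
      rw [Real.norm_eq_abs, abs_of_pos (Real.exp_pos _), Real.exp_le_one_iff]
      have := mul_nonneg (by linarith : 0 ≤ 1 + p 0) (VR_nonneg d ‖b‖)
      linarith
  · have hz : ∀ᵐ b : XX d, b ≠ 0 := by
      rw [ae_iff]
      have : {a : XX d | ¬ a ≠ 0} = {0} := by
        ext a; simp
      rw [this]
      exact measure_singleton 0
    filter_upwards [hz] with b hb hbr
    rw [mem_ball_zero_iff] at hbr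
    exact hc b (norm_pos_iff.2 hb) (hbr.le.trans h1)

theorem balance (hd : 1 ≤ d) (hp : SM3.PV p) (hε : 0 ≤ ε) (F : Facts d p ε rm f g) {r : ℝ}
    (h0 : 0 ≤ r) (h1 : r ≤ rm) :
    p 0 - p 1 - p 2 + 2 * (p 1 * p 2) * ((1 - Real.exp (-((1 + p 0) * VR d r))) / (1 + p 0))
        - ε * VR d rm
      ≤ p 0 * f 0 r - p 1 * f 1 r - p 2 * f 2 r := by
  obtain ⟨a0, a1, a2⟩ := K1_mecke F h0 h1
  have hp0 := hp.pos 0
  have hp1 := hp.pos 1
  have hp2 := hp.pos 2
  have hsum := hp.sum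
  have hSs : ∀ x : XX d, -x ∈ Metric.ball (0 : XX d) r ↔ x ∈ Metric.ball (0 : XX d) r := by
    intro x
    simp only [mem_ball_zero_iff, norm_neg]
  have hSr : Metric.ball (0 : XX d) r ⊆ Metric.ball 0 rm := Metric.ball_subset_ball h1
  have s1 := K1_symm hε F 0 1 measurableSet_ball hSs hSr
  have s2 := K1_symm hε F 0 2 measurableSet_ball hSs hSr
  have l1 := K1_low hd hp F h0 h1 (c := 1) (c' := 2) fun b hb hb' => (F.low b hb hb').1
  have l2 := K1_low hd hp F h0 h1 (c := 2) (c' := 1) fun b hb hb' => (F.low b hb hb').2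
  have hV : 0 ≤ ε * VR d rm := mul_nonneg hε (VR_nonneg d rm)
  rw [abs_le] at s1 s2
  rw [a0, a1, a2]
  have t1 := mul_le_mul_of_nonneg_left s1.2 (mul_pos hp0 hp1).le
  have t2 := mul_le_mul_of_nonneg_left s2.2 (mul_pos hp0 hp2).le
  have t5 := mul_le_mul_of_nonneg_left l1 (mul_pos hp1 hp2).le
  have t6 := mul_le_mul_of_nonneg_left l2 (mul_pos hp1 hp2).le
  have t7 : p 0 * (p 1 + p 2) * (ε * VR d rm) ≤ 1 * (ε * VR d rm) := by
    refine mul_le_mul_of_nonneg_right ?_ hV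
    nlinarith
  nlinarith

theorem key_A (hd : 1 ≤ d) (hp : SM3.PV p) (hq : p 1 = p 2) (h5 : 1 < 5 * p 0 ^ 2) :
    ∃ κ : ℝ, 0 < κ ∧ ∃ r₁ : ℝ, 0 < r₁ ∧ ∀ r' : ℝ, r₁ ≤ r' → ∃ ε : ℝ, 0 < ε ∧
      ∀ (f : Fin 3 → ℝ → ℝ) (g : Fin 3 → Fin 3 → XX d → ℝ), Facts d p ε r' f g →
        κ ≤ p 0 * f 0 r' := by
  have hp0 := hp.pos 0
  have hp1 := hp.pos 1
  have hp2 := hp.pos 2
  have hsum := hp.sum
  obtain ⟨κ, hκ⟩ : ∃ κ, κ = (5 * p 0 ^ 2 - 1) / (8 * (1 + p 0)) := ⟨_, rfl⟩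
  have hκ0 : 0 < κ := by
    rw [hκ]
    exact div_pos (by linarith) (by linarith)
  obtain ⟨V, hV0, hV⟩ : ∃ V : ℝ, 0 < V ∧
      2 * (p 1 * p 2) * (Real.exp (-((1 + p 0) * V)) / (1 + p 0)) ≤ κ := by
    refine ⟨1 + 1 / κ, by positivity, ?_⟩
    have e1 : Real.exp (-((1 + p 0) * (1 + 1 / κ))) ≤ κ := by
      rw [Real.exp_neg]
      have h1 : 1 / κ ≤ Real.exp ((1 + p 0) * (1 + 1 / κ)) := by
        have h2 := Real.add_one_le_exp ((1 + p 0) * (1 + 1 / κ))
        have h3 : 0 < 1 / κ := by positivity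
        nlinarith
      rw [inv_le_comm₀ (Real.exp_pos _) hκ0, ← one_div]
      exact h1
    have e2 : Real.exp (-((1 + p 0) * (1 + 1 / κ))) / (1 + p 0) ≤ κ := by
      rw [div_le_iff₀ (by linarith)]
      nlinarith
    have e3 : 2 * (p 1 * p 2) ≤ 1 := by nlinarith
    have e4 : 0 ≤ 2 * (p 1 * p 2) := by positivity
    nlinarith
  obtain ⟨r₁, hr0, hr₁⟩ := VR_surj hd hV0.le
  have hrp : 0 < r₁ := by
    rcases hr0.lt_or_eq with h | h
    · exact h
    · exfalso
      rw [← h, VR_of_nonpos le_rfl] at hr₁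
      linarith
  refine ⟨κ, hκ0, r₁, hrp, fun r' hr' => ⟨κ / (2 * VR d r' + 2), ?_, ?_⟩⟩
  · have := VR_nonneg d r'
    exact div_pos hκ0 (by linarith)
  · intro f g F
    have hVn := VR_nonneg d r'
    have hε : 0 ≤ κ / (2 * VR d r' + 2) := (div_pos hκ0 (by linarith)).le
    have t := transport_f hd hp hε F hr0 hr' le_rfl
    have b := balance hd hp hε F hr0 hr'
    rw [hr₁] at b
    have e1 : κ / (2 * VR d r' + 2) * VR d r' ≤ κ / 2 := by
      rw [div_mul_eq_mul_div, div_le_div_iff₀ (by linarith) (by norm_num)]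
      nlinarith
    have e2 : p 0 - p 1 - p 2 + 2 * (p 1 * p 2) * (1 / (1 + p 0)) = 4 * κ := by
      rw [hκ]
      have hh : p 1 = (1 - p 0) / 2 := by linarith
      have hh2 : p 2 = (1 - p 0) / 2 := by linarith
      rw [hh, hh2]
      field_simp
      ring
    have e3 : 2 * (p 1 * p 2) * ((1 - Real.exp (-((1 + p 0) * V))) / (1 + p 0)) =
        2 * (p 1 * p 2) * (1 / (1 + p 0)) -
          2 * (p 1 * p 2) * (Real.exp (-((1 + p 0) * V)) / (1 + p 0)) := by ring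
    linarith

end Pool.SM3X
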