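/-
SM3X.K2 : the system of integral equations (pure analysis).
PROOF. `F0 = p f0`, `F1 = q f1`, `δ = p - q > 0`.  `F0 v = p - 2 ∫_0^v F0 F1 + e0 v`, `|e0| ≤ p e`; `F1 v = q - ∫_0^v F1 (F0 + F1) + e1 v`, `|e1| ≤ q e`; `D = F0 - F1 = δ - ∫_0^v F1 D + eD`, `|eD| ≤ (p + q) e ≤ e`.
`Λ v = ∫_0^v F1`, `E = exp Λ ≥ 1`, `E' = E F1`.  `A = F0 - e0 = p - 2 ∫ F0 F1` is C^1 with `A' = -2 F1 F0 = -2 F1 A - 2 F1 e0`, so `(A E^2)' = -2 F1 e0 E^2`, `|A E^2 - p| ≤ p e (E^2 - 1)`, hence `|F0 - p / E^2| ≤ 2 p e ≤ e`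
(`p ≤ 1/2`).  In the same way `B = D - eD`, `(B E)' = -F1 eD E`, `|B E - δ| ≤ e (E - 1)`, hence `|D - δ / E| ≤ 2 e`.  So `F1 = F0 - D ≥ p/E^2 - δ/E - 3 e`.
Let `E* = 11 p / (20 δ)` (`≥ 1`, because `p ≤ 1/2` gives `q ≥ 1/4`).  As long as `E ≤ E*`: `δ E ≤ 11 p / 20`, `e E^2 ≤ 121 p / 40000`, so `(E^2)' = 2 F1 E^2 ≥ 2 (p - δ E - 3 e E^2) ≥ (22/25) p`.
If `E < E*` on all of `[0,T]` then `E(T)^2 ≥ 1 + (22/25) p T > E*^2`: contradiction.  By the intermediate value theorem there is `v ∈ [0,T]` with `E v = E*`; there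
`p f0 - 2 q f1 = F0 - 2 F1 = 2 D - F0 ≥ 2 δ/E* - p/E*^2 - 5 e ≥ δ^2/(4p)`.
(The integrals over `[0,v]` involve only values in `[0,T]`; replace `f0`, `f1` by continuous extensions, e.g. `f ∘ projIcc`, to use the fundamental theorem of calculus.)
-/
import Mathlib

set_option autoImplicit false

open MeasureTheory Set

namespace Pool.SM3X

private theorem K2_anti {T : ℝ} {g g' : ℝ → ℝ} (hg : ∀ x, HasDerivAt g (g' x) x)
    (h : ∀ x ∈ Icc (0 : ℝ) T, g' x ≤ 0) {v : ℝ} (hv : v ∈ Icc (0 : ℝ) T) : g v ≤ g 0 := by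
  have hT : (0 : ℝ) ∈ Icc (0 : ℝ) T := ⟨le_rfl, hv.1.trans hv.2⟩
  have hm : AntitoneOn g (Icc (0 : ℝ) T) := by
    apply antitoneOn_of_deriv_nonpos (convex_Icc 0 T)
    · exact fun x _ => (hg x).continuousAt.continuousWithinAt
    · exact fun x _ => (hg x).differentiableAt.differentiableWithinAt
    · intro x hx
      rw [interior_Icc] at hx
      rw [(hg x).deriv]
      exact h x ⟨hx.1.le, hx.2.le⟩
  exact hm hT hv hv.1

private theorem K2_core {p q T e : ℝ} (hq : 0 < q) (hpq : q < p) (hs : p + 2 * q = 1)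
    (hp2 : p ≤ 1 / 2) (hT : T = 11 * p / (32 * (p - q) ^ 2)) {f0 f1 : ℝ → ℝ} (c0 : Continuous f0)
    (c1 : Continuous f1) (b1 : ∀ v ∈ Icc 0 T, 0 ≤ f1 v)
    (h0 : ∀ v ∈ Icc 0 T, |f0 v - 1 + 2 * q * ∫ u in (0 : ℝ)..v, f0 u * f1 u| ≤ e)
    (h1 : ∀ v ∈ Icc 0 T, |f1 v - 1 + (p * (∫ u in (0 : ℝ)..v, f0 u * f1 u) +
      q * ∫ u in (0 : ℝ)..v, f1 u * f1 u)| ≤ e)
    (he : e ≤ (p - q) ^ 2 / (100 * p)) :
    ∃ v ∈ Icc 0 T, (p - q) ^ 2 / (4 * p) ≤ p * f0 v - 2 * q * f1 v := by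
  have hp : 0 < p := hq.trans hpq
  have hd : 0 < p - q := by linarith
  have hT0 : 0 ≤ T := by rw [hT]; positivity
  have he0 : 0 ≤ e := (abs_nonneg _).trans (h0 0 ⟨le_rfl, hT0⟩)
  obtain ⟨I01, hI01⟩ : ∃ I : ℝ → ℝ, I = fun v => ∫ u in (0 : ℝ)..v, f0 u * f1 u := ⟨_, rfl⟩
  obtain ⟨I11, hI11⟩ : ∃ I : ℝ → ℝ, I = fun v => ∫ u in (0 : ℝ)..v, f1 u * f1 u := ⟨_, rfl⟩
  obtain ⟨L, hL⟩ : ∃ I : ℝ → ℝ, I = fun v => ∫ u in (0 : ℝ)..v, f1 u := ⟨_, rfl⟩
  have dI01 : ∀ x, HasDerivAt I01 (f0 x * f1 x) x := fun x => by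
    rw [hI01]
    exact ((c0.mul c1).integral_hasStrictDerivAt 0 x).hasDerivAt
  have dI11 : ∀ x, HasDerivAt I11 (f1 x * f1 x) x := fun x => by
    rw [hI11]
    exact ((c1.mul c1).integral_hasStrictDerivAt 0 x).hasDerivAt
  have dL : ∀ x, HasDerivAt L (f1 x) x := fun x => by
    rw [hL]
    exact (c1.integral_hasStrictDerivAt 0 x).hasDerivAt
  have zI01 : I01 0 = 0 := by rw [hI01]; simp
  have zI11 : I11 0 = 0 := by rw [hI11]; simp
  have zL : L 0 = 0 := by rw [hL]; simp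
  obtain ⟨E, hE⟩ : ∃ E : ℝ → ℝ, E = fun v => Real.exp (q * L v) := ⟨_, rfl⟩
  have dE : ∀ x, HasDerivAt E (E x * (q * f1 x)) x := fun x => by
    rw [hE]
    exact ((dL x).const_mul q).exp
  have zE : E 0 = 1 := by rw [hE]; simp [zL]
  have pE : ∀ x, 0 < E x := fun x => by rw [hE]; exact Real.exp_pos _
  have h0' : ∀ v ∈ Icc 0 T, |f0 v - 1 + 2 * q * I01 v| ≤ e := fun v hv => by
    rw [hI01]; exact h0 v hv
  have h1' : ∀ v ∈ Icc 0 T, |f1 v - 1 + (p * I01 v + q * I11 v)| ≤ e := fun v hv => by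
    rw [hI01, hI11]; exact h1 v hv
  -- the derivative of `E²`
  have dE2 : ∀ x, HasDerivAt (fun v => E v * E v) (2 * (E x * E x) * (q * f1 x)) x := fun x => by
    have := (dE x).mul (dE x)
    refine this.congr_deriv ?_
    ring
  have pos1 : ∀ x ∈ Icc 0 T, 0 ≤ (E x * E x) * (q * f1 x) := fun x hx =>
    mul_nonneg (mul_nonneg (pE x).le (pE x).le) (mul_nonneg hq.le (b1 x hx))
  have pos2 : ∀ x ∈ Icc 0 T, 0 ≤ E x * (q * f1 x) := fun x hx =>
    mul_nonneg (pE x).le (mul_nonneg hq.le (b1 x hx))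
  -- first pair of bounds
  have dA : ∀ x, HasDerivAt (fun v => (p - 2 * p * q * I01 v) * (E v * E v))
      (2 * ((E x * E x) * (q * f1 x)) * (-(p * f0 x) + (p - 2 * p * q * I01 x))) x := fun x => by
    have := (((dI01 x).const_mul (2 * p * q)).const_sub p).mul (dE2 x)
    refine this.congr_deriv ?_
    ring
  have u1 : ∀ v ∈ Icc 0 T, (p - 2 * p * q * I01 v) * (E v * E v) - p * e * (E v * E v) ≤
      p - p * e := by
    intro v hv
    have hg : ∀ x, HasDerivAt (fun v => (p - 2 * p * q * I01 v) * (E v * E v) -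
        p * e * (E v * E v)) (2 * ((E x * E x) * (q * f1 x)) *
        (-(p * f0 x) + (p - 2 * p * q * I01 x)) - p * e * (2 * (E x * E x) * (q * f1 x))) x :=
      fun x => (dA x).sub ((dE2 x).const_mul (p * e))
    have := K2_anti hg (fun x hx => by
      have a1 := (abs_le.mp (h0' x hx)).1
      have a2 := pos1 x hx
      have a3 : 2 * ((E x * E x) * (q * f1 x)) * (-(p * f0 x) + (p - 2 * p * q * I01 x)) -
        p * e * (2 * (E x * E x) * (q * f1 x)) =
        -(2 * ((E x * E x) * (q * f1 x)) * (p * (f0 x - 1 + 2 * q * I01 x + e))) := by ring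
      rw [a3, neg_nonpos]
      have a4 : 0 ≤ f0 x - 1 + 2 * q * I01 x + e := by linarith
      positivity) hv
    simp only [zI01, zE] at this
    linarith
  have u2 : ∀ v ∈ Icc 0 T, p + p * e ≤
      (p - 2 * p * q * I01 v) * (E v * E v) + p * e * (E v * E v) := by
    intro v hv
    have hg : ∀ x, HasDerivAt (fun v => -((p - 2 * p * q * I01 v) * (E v * E v) +
        p * e * (E v * E v))) (-(2 * ((E x * E x) * (q * f1 x)) *
        (-(p * f0 x) + (p - 2 * p * q * I01 x)) + p * e * (2 * (E x * E x) * (q * f1 x)))) x :=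
      fun x => ((dA x).add ((dE2 x).const_mul (p * e))).neg
    have := K2_anti hg (fun x hx => by
      have a1 := (abs_le.mp (h0' x hx)).2
      have a2 := pos1 x hx
      have a3 : -(2 * ((E x * E x) * (q * f1 x)) * (-(p * f0 x) + (p - 2 * p * q * I01 x)) +
        p * e * (2 * (E x * E x) * (q * f1 x))) =
        -(2 * ((E x * E x) * (q * f1 x)) * (p * (e - (f0 x - 1 + 2 * q * I01 x)))) := by ring
      rw [a3, neg_nonpos]
      have a4 : 0 ≤ e - (f0 x - 1 + 2 * q * I01 x) := by linarith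
      positivity) hv
    simp only [zI01, zE] at this
    linarith
  -- second pair of bounds
  have dB : ∀ x, HasDerivAt (fun v => (p - q - p * q * I01 v + q * q * I11 v) * E v)
      (E x * (q * f1 x) * (-(p * f0 x) + q * f1 x + (p - q - p * q * I01 x + q * q * I11 x)))
      x := fun x => by
    have := ((((dI01 x).const_mul (p * q)).const_sub (p - q)).add
      ((dI11 x).const_mul (q * q))).mul (dE x)
    refine this.congr_deriv ?_
    simp only [Pi.add_apply]
    ring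
  have hDB : ∀ x ∈ Icc 0 T, |p * f0 x - q * f1 x - (p - q - p * q * I01 x + q * q * I11 x)| ≤
      e := by
    intro x hx
    have a1 := abs_le.mp (h0' x hx)
    have a2 := abs_le.mp (h1' x hx)
    have a3 : p * f0 x - q * f1 x - (p - q - p * q * I01 x + q * q * I11 x) =
      p * (f0 x - 1 + 2 * q * I01 x) - q * (f1 x - 1 + (p * I01 x + q * I11 x)) := by ring
    rw [a3, abs_le]
    have b2 := mul_le_mul_of_nonneg_left a1.1 hp.le
    have b3 := mul_le_mul_of_nonneg_left a1.2 hp.le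
    have b4 := mul_le_mul_of_nonneg_left a2.1 hq.le
    have b5 := mul_le_mul_of_nonneg_left a2.2 hq.le
    have b6 : (p + q) * e ≤ e := by nlinarith
    constructor <;> linarith
  have u3 : ∀ v ∈ Icc 0 T, (p - q - p * q * I01 v + q * q * I11 v) * E v - e * E v ≤
      p - q - e := by
    intro v hv
    have hg : ∀ x, HasDerivAt (fun v => (p - q - p * q * I01 v + q * q * I11 v) * E v -
        e * E v) (E x * (q * f1 x) * (-(p * f0 x) + q * f1 x +
        (p - q - p * q * I01 x + q * q * I11 x)) - e * (E x * (q * f1 x))) x :=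
      fun x => (dB x).sub ((dE x).const_mul e)
    have := K2_anti hg (fun x hx => by
      have a1 := (abs_le.mp (hDB x hx)).1
      have a2 := pos2 x hx
      have a3 : E x * (q * f1 x) * (-(p * f0 x) + q * f1 x +
        (p - q - p * q * I01 x + q * q * I11 x)) - e * (E x * (q * f1 x)) =
        -(E x * (q * f1 x) * (p * f0 x - q * f1 x -
          (p - q - p * q * I01 x + q * q * I11 x) + e)) := by ring
      rw [a3, neg_nonpos]
      exact mul_nonneg a2 (by linarith)) hv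
    simp only [zI01, zI11, zE] at this
    linarith
  have u4 : ∀ v ∈ Icc 0 T, p - q + e ≤
      (p - q - p * q * I01 v + q * q * I11 v) * E v + e * E v := by
    intro v hv
    have hg : ∀ x, HasDerivAt (fun v => -((p - q - p * q * I01 v + q * q * I11 v) * E v +
        e * E v)) (-(E x * (q * f1 x) * (-(p * f0 x) + q * f1 x +
        (p - q - p * q * I01 x + q * q * I11 x)) + e * (E x * (q * f1 x)))) x :=
      fun x => ((dB x).add ((dE x).const_mul e)).neg
    have := K2_anti hg (fun x hx => by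
      have a1 := (abs_le.mp (hDB x hx)).2
      have a2 := pos2 x hx
      have a3 : -(E x * (q * f1 x) * (-(p * f0 x) + q * f1 x +
        (p - q - p * q * I01 x + q * q * I11 x)) + e * (E x * (q * f1 x))) =
        -(E x * (q * f1 x) * (e - (p * f0 x - q * f1 x -
          (p - q - p * q * I01 x + q * q * I11 x)))) := by ring
      rw [a3, neg_nonpos]
      exact mul_nonneg a2 (by linarith)) hv
    simp only [zI01, zI11, zE] at this
    linarith
  -- `F0` and `D`
  have w1 : ∀ v ∈ Icc 0 T, p - 2 * p * e * (E v * E v) ≤ p * f0 v * (E v * E v) := by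
    intro v hv
    have a1 := (abs_le.mp (h0' v hv)).1
    have a2 := u2 v hv
    have a3 : 0 < E v * E v := mul_pos (pE v) (pE v)
    have a4 : 0 ≤ p * (E v * E v) * (f0 v - 1 + 2 * q * I01 v + e) :=
      mul_nonneg (by positivity) (by linarith)
    have a5 : 0 ≤ p * e := by positivity
    nlinarith
  have w2 : ∀ v ∈ Icc 0 T, p * f0 v * (E v * E v) ≤ p + 2 * p * e * (E v * E v) := by
    intro v hv
    have a1 := (abs_le.mp (h0' v hv)).2
    have a2 := u1 v hv
    have a3 : 0 < E v * E v := mul_pos (pE v) (pE v)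
    have a4 : 0 ≤ p * (E v * E v) * (e - (f0 v - 1 + 2 * q * I01 v)) :=
      mul_nonneg (by positivity) (by linarith)
    have a5 : 0 ≤ p * e := by positivity
    nlinarith
  have w3 : ∀ v ∈ Icc 0 T, (p * f0 v - q * f1 v) * E v ≤ p - q + 2 * e * E v := by
    intro v hv
    have a1 := (abs_le.mp (hDB v hv)).2
    have a2 := u3 v hv
    have a4 : 0 ≤ E v * (e - (p * f0 v - q * f1 v -
      (p - q - p * q * I01 v + q * q * I11 v))) := mul_nonneg (pE v).le (by linarith)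
    nlinarith
  have w4 : ∀ v ∈ Icc 0 T, p - q - 2 * e * E v ≤ (p * f0 v - q * f1 v) * E v := by
    intro v hv
    have a1 := (abs_le.mp (hDB v hv)).1
    have a2 := u4 v hv
    have a4 : 0 ≤ E v * (p * f0 v - q * f1 v -
      (p - q - p * q * I01 v + q * q * I11 v) + e) := mul_nonneg (pE v).le (by linarith)
    nlinarith
  -- the level `Es`
  obtain ⟨Es, hEs⟩ : ∃ Es : ℝ, Es = 11 * p / (20 * (p - q)) := ⟨_, rfl⟩
  have hEs1 : (p - q) * Es = 11 * p / 20 := by
    rw [hEs]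
    field_simp
  have hEsp : 0 < Es := by rw [hEs]; positivity
  have hEs2 : 1 ≤ Es := by
    rw [hEs, le_div_iff₀ (by positivity)]
    linarith
  have hTe : 22 / 25 * p * T = Es * Es := by
    rw [hT, hEs]
    field_simp
    ring
  have hee : e * (Es * Es) ≤ 121 * p / 40000 := by
    have a1 : (p - q) ^ 2 / (100 * p) * (Es * Es) = 121 * p / 40000 := by
      have a2 : (p - q) ^ 2 * (Es * Es) = (11 * p / 20) ^ 2 := by
        rw [← hEs1]
        ring
      rw [div_mul_eq_mul_div, a2]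
      field_simp
      ring
    rw [← a1]
    exact mul_le_mul_of_nonneg_right he (by positivity)
  have hex : ∃ w ∈ Icc 0 T, Es ≤ E w := by
    by_contra hno
    push Not at hno
    have hg : ∀ x, HasDerivAt (fun v => 22 / 25 * p * v - E v * E v)
        (22 / 25 * p * 1 - 2 * (E x * E x) * (q * f1 x)) x :=
      fun x => ((hasDerivAt_id x).const_mul (22 / 25 * p)).sub (dE2 x)
    have := K2_anti hg (fun x hx => by
      have a1 := w1 x hx
      have a2 := w3 x hx
      have a3 := hno x hx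
      have a4 := pE x
      have a5 : E x * E x ≤ Es * Es := mul_le_mul a3.le a3.le a4.le hEsp.le
      have a6 : e * (E x * E x) ≤ 121 * p / 40000 :=
        (mul_le_mul_of_nonneg_left a5 he0).trans hee
      have a7 : (p * f0 x - q * f1 x) * E x * E x ≤ (p - q + 2 * e * E x) * E x :=
        mul_le_mul_of_nonneg_right a2 a4.le
      have a8 : (p - q) * E x ≤ 11 * p / 20 := by
        rw [← hEs1]
        exact mul_le_mul_of_nonneg_left a3.le hd.le
      have a9 : 2 * p * (e * (E x * E x)) ≤ e * (E x * E x) := by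
        have : 0 ≤ e * (E x * E x) := by positivity
        nlinarith
      nlinarith) (⟨hT0, le_rfl⟩ : T ∈ Icc 0 T)
    simp only [zE, mul_zero] at this
    have a3 := hno T ⟨hT0, le_rfl⟩
    have a5 : E T * E T ≤ Es * Es := mul_le_mul a3.le a3.le (pE T).le hEsp.le
    linarith
  obtain ⟨w, hw, hwE⟩ := hex
  have cE : ContinuousOn E (Icc 0 w) := fun x _ => (dE x).continuousAt.continuousWithinAt
  obtain ⟨v, hv, hvE⟩ := intermediate_value_Icc hw.1 cE
    (⟨by rw [zE]; exact hEs2, hwE⟩ : Es ∈ Icc (E 0) (E w))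
  have hv' : v ∈ Icc 0 T := ⟨hv.1, hv.2.trans hw.2⟩
  refine ⟨v, hv', ?_⟩
  have a1 := w2 v hv'
  have a2 := w4 v hv'
  rw [hvE] at a1 a2
  have a3 : (p - q - 2 * e * Es) * Es ≤ (p * f0 v - q * f1 v) * Es * Es :=
    mul_le_mul_of_nonneg_right a2 hEsp.le
  have a9 : 2 * p * (e * (Es * Es)) ≤ e * (Es * Es) := by
    have : 0 ≤ e * (Es * Es) := by positivity
    nlinarith
  have a4 : (p - q) ^ 2 / (4 * p) * (Es * Es) = 121 * p / 1600 := by
    have a5 : (p - q) ^ 2 * (Es * Es) = (11 * p / 20) ^ 2 := by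
      rw [← hEs1]
      ring
    rw [div_mul_eq_mul_div, a5]
    field_simp
    ring
  have a6 : (p - q) ^ 2 / (4 * p) * (Es * Es) ≤ (p * f0 v - 2 * q * f1 v) * (Es * Es) := by
    rw [a4]
    nlinarith
  exact le_of_mul_le_mul_right a6 (by positivity)

theorem ode_key {p q T e : ℝ} (hq : 0 < q) (hpq : q < p) (hs : p + 2 * q = 1) (hp2 : p ≤ 1 / 2)
    (hT : T = 11 * p / (32 * (p - q) ^ 2)) {f0 f1 : ℝ → ℝ} (c0 : ContinuousOn f0 (Icc 0 T))
    (c1 : ContinuousOn f1 (Icc 0 T)) (b0 : ∀ v ∈ Icc 0 T, 0 ≤ f0 v ∧ f0 v ≤ 1)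
    (b1 : ∀ v ∈ Icc 0 T, 0 ≤ f1 v ∧ f1 v ≤ 1)
    (h0 : ∀ v ∈ Icc 0 T, |f0 v - 1 + 2 * q * ∫ u in (0 : ℝ)..v, f0 u * f1 u| ≤ e)
    (h1 : ∀ v ∈ Icc 0 T, |f1 v - 1 + ∫ u in (0 : ℝ)..v, (p * (f0 u * f1 u) + q * (f1 u * f1 u))| ≤ e)
    (he : e ≤ (p - q) ^ 2 / (100 * p)) :
    ∃ v ∈ Icc 0 T, (p - q) ^ 2 / (4 * p) ≤ p * f0 v - 2 * q * f1 v := by
  have hp : 0 < p := hq.trans hpq
  have hd : 0 < p - q := by linarith
  have hT0 : 0 ≤ T := by rw [hT]; positivity
  have g0c : Continuous (IccExtend hT0 ((Icc 0 T).restrict f0)) :=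
    (continuousOn_iff_continuous_restrict.mp c0).Icc_extend'
  have g1c : Continuous (IccExtend hT0 ((Icc 0 T).restrict f1)) :=
    (continuousOn_iff_continuous_restrict.mp c1).Icc_extend'
  have e0 : ∀ v ∈ Icc 0 T, IccExtend hT0 ((Icc 0 T).restrict f0) v = f0 v := fun v hv => by
    rw [IccExtend_of_mem hT0 _ hv]
    rfl
  have e1 : ∀ v ∈ Icc 0 T, IccExtend hT0 ((Icc 0 T).restrict f1) v = f1 v := fun v hv => by
    rw [IccExtend_of_mem hT0 _ hv]
    rfl
  set g0 := IccExtend hT0 ((Icc 0 T).restrict f0) with hg0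
  set g1 := IccExtend hT0 ((Icc 0 T).restrict f1) with hg1
  have i01 : ∀ v ∈ Icc 0 T, ∫ u in (0 : ℝ)..v, f0 u * f1 u = ∫ u in (0 : ℝ)..v, g0 u * g1 u := by
    intro v hv
    refine intervalIntegral.integral_congr fun u hu => ?_
    rw [uIcc_of_le hv.1] at hu
    have hu' : u ∈ Icc 0 T := ⟨hu.1, hu.2.trans hv.2⟩
    show f0 u * f1 u = g0 u * g1 u
    rw [e0 u hu', e1 u hu']
  have i2 : ∀ v ∈ Icc 0 T, ∫ u in (0 : ℝ)..v, (p * (f0 u * f1 u) + q * (f1 u * f1 u)) =
      p * (∫ u in (0 : ℝ)..v, g0 u * g1 u) + q * ∫ u in (0 : ℝ)..v, g1 u * g1 u := by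
    intro v hv
    rw [← intervalIntegral.integral_const_mul, ← intervalIntegral.integral_const_mul,
      ← intervalIntegral.integral_add]
    · refine intervalIntegral.integral_congr fun u hu => ?_
      rw [uIcc_of_le hv.1] at hu
      have hu' : u ∈ Icc 0 T := ⟨hu.1, hu.2.trans hv.2⟩
      show p * (f0 u * f1 u) + q * (f1 u * f1 u) = p * (g0 u * g1 u) + q * (g1 u * g1 u)
      rw [e0 u hu', e1 u hu']
    · exact (continuous_const.mul (g0c.mul g1c)).intervalIntegrable _ _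
    · exact (continuous_const.mul (g1c.mul g1c)).intervalIntegrable _ _
  obtain ⟨v, hv, h⟩ := K2_core (e := e) hq hpq hs hp2 hT g0c g1c
    (fun v hv => by rw [e1 v hv]; exact (b1 v hv).1)
    (fun v hv => by rw [e0 v hv, ← i01 v hv]; exact h0 v hv)
    (fun v hv => by rw [e1 v hv, ← i2 v hv]; exact h1 v hv) he
  exact ⟨v, hv, by rw [e0 v hv, e1 v hv] at h; exact h⟩

end Pool.SM3X
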