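/-
SM3X.K3 : numerics for the decorrelation bound.
PROOF. `q = (1 - p)/2`, `δ = p - q = (3 p - 1)/2 = (3/2)(p - 1/3) ≤ 7/40`, `y = 1/δ^2 ≥ 32`.  `T ≤ 0.155 y` (`p ≤ 9/20`).  `p > 1/3 + 2/√d` gives `√d > 2/(p - 1/3) = 3/δ`, `d > 9 y`.  `(9/10)^d ≤ exp (-d/10) ≤ exp (-0.9 y)`
(`1 - x ≤ exp (-x)`).  `eta d T ≤ (9/10)^d exp (2T) (3 T + 10 T^2)`, so `T * eta d T ≤ exp (-0.9 y + 0.31 y) (3 T^2 + 10 T^3) ≤ exp (-0.59 y) (0.0721 y^2 + 0.0373 y^3)`.  The right side of the claim is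
`≥ 1/(90 y)`.  So it is enough that `6.489 y^3 + 3.357 y^4 ≤ exp (0.59 y)` for `y ≥ 32`.
`eta_mono`: all terms are monotone for `v ≥ 0`.
-/
import Pool.Agent.Lib.SM3X.Defs

set_option autoImplicit false

open MeasureTheory Set

namespace Pool.SM3X

theorem eta_nonneg {d : ℕ} {v : ℝ} (hv : 0 ≤ v) : 0 ≤ eta d v := by
  unfold eta
  positivity

theorem eta_mono {d : ℕ} {v w : ℝ} (hv : 0 ≤ v) (h : v ≤ w) : eta d v ≤ eta d w := by
  unfold eta
  gcongr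

private theorem K3_exp {y : ℝ} (hy : 32 ≤ y) :
    6.489 * y ^ 3 + 3.357 * y ^ 4 ≤ Real.exp (0.59 * y) := by
  have h1 : (53 : ℝ) ≤ Real.exp 4 := by
    have h := Real.exp_one_gt_d9
    have h2 : Real.exp 4 = Real.exp 1 ^ 4 := by rw [← Real.exp_nat_mul]; norm_num
    rw [h2]
    have h3 : (2.7 : ℝ) ^ 4 ≤ Real.exp 1 ^ 4 := by gcongr; linarith
    exact le_trans (by norm_num) h3
  have h2 : 1.4 * y ≤ Real.exp (0.1475 * y) := by
    have h3 : Real.exp (0.1475 * y) = Real.exp 4 * Real.exp (0.1475 * y - 4) := by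
      rw [← Real.exp_add]; congr 1; ring
    have h4 := Real.add_one_le_exp (0.1475 * y - 4)
    rw [h3]
    have h5 : (53 : ℝ) * (0.1475 * y - 4 + 1) ≤ Real.exp 4 * Real.exp (0.1475 * y - 4) := by
      have h6 : (0 : ℝ) ≤ 0.1475 * y - 4 + 1 := by linarith
      exact mul_le_mul h1 h4 h6 (Real.exp_pos _).le
    linarith
  have h3 : Real.exp (0.59 * y) = Real.exp (0.1475 * y) ^ 4 := by
    rw [← Real.exp_nat_mul]; congr 1; push_cast; ring
  have h4 : (1.4 * y) ^ 4 ≤ Real.exp (0.59 * y) := by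
    rw [h3]; gcongr
  have h5 : y ^ 3 * 32 ≤ y ^ 4 := by
    have : y ^ 4 = y ^ 3 * y := by ring
    rw [this]; gcongr
  have h6 : (1.4 * y) ^ 4 = 3.8416 * y ^ 4 := by ring
  have h7 : 0 ≤ y ^ 4 := by positivity
  rw [h6] at h4
  linarith

theorem eta_small {d : ℕ} (hd : 1 ≤ d) {p q : ℝ} (hs : p + 2 * q = 1) (hp2 : p ≤ 9 / 20)
    (hp : 1 / 3 + 2 / Real.sqrt d < p) :
    11 * p / (32 * (p - q) ^ 2) * eta d (11 * p / (32 * (p - q) ^ 2)) ≤
      (p - q) ^ 2 / (200 * p) := by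
  have hd0 : (0 : ℝ) < d := by exact_mod_cast hd
  have hsq : 0 < Real.sqrt d := Real.sqrt_pos.2 hd0
  have hdel : p - q = 3 / 2 * (p - 1 / 3) := by linarith
  have h4 : 0 < 2 / Real.sqrt d := by positivity
  have hδ : 0 < p - q := by rw [hdel]; nlinarith
  have hδ4 : p - q ≤ 7 / 40 := by rw [hdel]; linarith
  have hp0 : 0 < p := by linarith
  have h6 : 3 < (p - q) * Real.sqrt d := by
    have h1 : 2 / Real.sqrt d * Real.sqrt d = 2 := div_mul_cancel₀ _ hsq.ne'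
    have h2 : 2 / Real.sqrt d * Real.sqrt d < (p - 1 / 3) * Real.sqrt d :=
      mul_lt_mul_of_pos_right (by linarith) hsq
    rw [hdel]; nlinarith
  have h36 : 9 < (p - q) ^ 2 * d := by
    have h1 : (Real.sqrt d) ^ 2 = d := Real.sq_sqrt hd0.le
    have h2 : (3 : ℝ) ^ 2 < ((p - q) * Real.sqrt d) ^ 2 := by gcongr
    rw [mul_pow, h1] at h2
    linarith
  obtain ⟨δ, hδe⟩ : ∃ δ, δ = p - q := ⟨_, rfl⟩
  rw [← hδe] at hδ hδ4 h36 ⊢
  obtain ⟨y, hy⟩ : ∃ y, y = 1 / δ ^ 2 := ⟨_, rfl⟩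
  have hδ2 : 0 < δ ^ 2 := by positivity
  have hyδ : y * δ ^ 2 = 1 := by rw [hy]; field_simp
  have hy0 : 0 < y := by rw [hy]; positivity
  have hy32 : 32 ≤ y := by
    rw [hy, le_div_iff₀ hδ2]
    nlinarith
  have hdy : 9 * y ≤ d := by
    have h1 : 9 * y ≤ δ ^ 2 * d * y := by
      exact mul_le_mul_of_nonneg_right h36.le hy0.le
    have h2 : δ ^ 2 * (d : ℝ) * y = (d : ℝ) := by
      have h3 : δ ^ 2 * (d : ℝ) * y = (y * δ ^ 2) * (d : ℝ) := by ring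
      rw [h3, hyδ, one_mul]
    linarith
  obtain ⟨T, hT⟩ : ∃ T, T = 11 * p / (32 * δ ^ 2) := ⟨_, rfl⟩
  rw [← hT]
  have hT2 : T = 11 / 32 * p * y := by rw [hT, hy]; field_simp
  have hT0 : 0 < T := by rw [hT2]; positivity
  have hTy : T ≤ 0.155 * y := by
    rw [hT2]
    have : 11 / 32 * p * y ≤ 11 / 32 * (9 / 20) * y := by gcongr
    linarith
  have hpow : ((9 : ℝ) / 10) ^ d ≤ Real.exp (-(0.9 * y)) := by
    have h1 : (9 : ℝ) / 10 ≤ Real.exp (-(1 / 10)) := by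
      have := Real.add_one_le_exp (-(1 / 10 : ℝ))
      linarith
    have h2 : ((9 : ℝ) / 10) ^ d ≤ Real.exp (-(1 / 10)) ^ d := by gcongr
    refine h2.trans ?_
    rw [← Real.exp_nat_mul]
    apply Real.exp_le_exp.2
    nlinarith
  have heta : eta d T ≤ Real.exp (-(0.9 * y)) * (Real.exp (0.31 * y) * (3 * T + 10 * T ^ 2)) := by
    unfold eta
    have h1 : Real.exp T ≤ Real.exp (0.31 * y) := Real.exp_le_exp.2 (by linarith)
    have h2 : Real.exp (2 * T) ≤ Real.exp (0.31 * y) := Real.exp_le_exp.2 (by linarith)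
    have h3 : 1 ≤ Real.exp (0.31 * y) := Real.one_le_exp (by positivity)
    have h4 : 3 * T + 6 * T ^ 2 * Real.exp T + 4 * T ^ 2 * Real.exp (2 * T) ≤
        Real.exp (0.31 * y) * (3 * T + 10 * T ^ 2) := by
      have h5 : 3 * T * 1 ≤ 3 * T * Real.exp (0.31 * y) := by gcongr
      have h6 : 6 * T ^ 2 * Real.exp T ≤ 6 * T ^ 2 * Real.exp (0.31 * y) := by gcongr
      have h7 : 4 * T ^ 2 * Real.exp (2 * T) ≤ 4 * T ^ 2 * Real.exp (0.31 * y) := by gcongr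
      nlinarith
    have h5 : 0 ≤ 3 * T + 6 * T ^ 2 * Real.exp T + 4 * T ^ 2 * Real.exp (2 * T) := by positivity
    exact mul_le_mul hpow h4 h5 (Real.exp_pos _).le
  have hE : Real.exp (-(0.9 * y)) * Real.exp (0.31 * y) * Real.exp (0.59 * y) = 1 := by
    rw [← Real.exp_add, ← Real.exp_add, ← Real.exp_zero]; congr 1; ring
  obtain ⟨E, hEe⟩ : ∃ E, E = Real.exp (-(0.9 * y)) * Real.exp (0.31 * y) := ⟨_, rfl⟩
  rw [← hEe] at hE
  have hE0 : 0 < E := by rw [hEe]; positivity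
  have h8 : T * eta d T ≤ E * (3 * T ^ 2 + 10 * T ^ 3) := by
    have : T * eta d T ≤
        T * (Real.exp (-(0.9 * y)) * (Real.exp (0.31 * y) * (3 * T + 10 * T ^ 2))) := by gcongr
    refine this.trans (le_of_eq ?_)
    rw [hEe]; ring
  have h9 : 3 * T ^ 2 + 10 * T ^ 3 ≤ 0.0721 * y ^ 2 + 0.0373 * y ^ 3 := by
    have h1 : T ^ 2 ≤ (0.155 * y) ^ 2 := by gcongr
    have h2 : T ^ 3 ≤ (0.155 * y) ^ 3 := by gcongr
    have h3 : (0.155 * y) ^ 2 = 0.024025 * y ^ 2 := by ring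
    have h4 : (0.155 * y) ^ 3 = 0.003723875 * y ^ 3 := by ring
    have h5 : 0 ≤ y ^ 2 := by positivity
    have h6 : 0 ≤ y ^ 3 := by positivity
    rw [h3] at h1; rw [h4] at h2
    linarith
  have h10 : T * eta d T * (90 * y) ≤ 1 := by
    have h1 : T * eta d T * (90 * y) ≤ E * (0.0721 * y ^ 2 + 0.0373 * y ^ 3) * (90 * y) := by
      have : T * eta d T ≤ E * (0.0721 * y ^ 2 + 0.0373 * y ^ 3) :=
        h8.trans (by gcongr)
      gcongr
    have h2 : E * (0.0721 * y ^ 2 + 0.0373 * y ^ 3) * (90 * y) =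
        E * (6.489 * y ^ 3 + 3.357 * y ^ 4) := by ring
    have h3 : E * (6.489 * y ^ 3 + 3.357 * y ^ 4) ≤ E * Real.exp (0.59 * y) := by
      have := K3_exp hy32
      gcongr
    rw [hE] at h3
    linarith
  rw [le_div_iff₀ (by positivity)]
  have h11 : T * eta d T * (200 * p) ≤ T * eta d T * 90 := by
    have h0 : 0 ≤ T * eta d T := mul_nonneg hT0.le (eta_nonneg hT0.le)
    have : 200 * p ≤ 90 := by linarith
    gcongr
  have h12 : T * eta d T * 90 = T * eta d T * (90 * y) * δ ^ 2 := by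
    calc T * eta d T * 90 = T * eta d T * 90 * (y * δ ^ 2) := by rw [hyδ, mul_one]
      _ = _ := by ring
  rw [h12] at h11
  have h13 : T * eta d T * (90 * y) * δ ^ 2 ≤ 1 * δ ^ 2 := by gcongr
  linarith

end Pool.SM3X
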