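/-
SM3X.K4 : the case `p > 1/3 + 2/√d`.
PROOF. `f_lip`: from `mecke`: `f c r - f c r' = ∑ p c' * ∫ over {r ≤ ‖b‖ < r'} g c c'`, `0 ≤ g ≤ 1`, `∑ p c' = 1`.
`facts_ode`: let `F v = f c (rV d v) * f c' (rV d v)` (measurable: on `[0, VR d rm]` it is continuous by `f_lip`; replace it by `0` outside); by `integral_rad` (RV) `∫ b in ball 0 r, f c ‖b‖ * f c' ‖b‖ = ∫ v in 0..VR d r, F v`
(`rV d (VR d ‖b‖) = ‖b‖`), so with `r = rV d v`, `VR d r = v` (`VR_rV`): `|∫ b in ball 0 r, g c c' b - ∫_0^v F| ≤ ∫ b in ball 0 r, (eta d (VR d ‖b‖) + ε) ≤ v (eta d v + ε)` (`dec` for `b ≠ 0`, a.e.; `eta_mono`, K3; the volume of the ball is `v`).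
`mecke` and `gd` give `f_ode` (all weights sum to at most 1).
`key_B`: `q = p 1 = p 2`.  If `9/20 < p 0` then `key_A` (K1) applies (`5 * 81/400 > 1`).  Let `p 0 ≤ 9/20`; `T = 11 p 0/(32 (p 0 - q)^2)`, `r₁ = max 1 (rV d T)`, so `T ≤ VR d r₁`.  For `r' ≥ r₁` let `ε ≤ (p-q)^2/(200 p T)` and
`ε VR d r' ≤ κ := (p - q)^2/(8 p)`.  `ode_key` (K2) with `f0 v = f 0 (rV d v)`, `f1 v = f 1 (rV d v)` (`f 2 = f 1` by `col`), `e = T (eta d T + ε)` (`eta_small`, K3): some `v ∈ [0,T]` with `2 κ ≤ p f0 v - 2 q f1 v`; then `transport_f` (K1) from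
`r = rV d v ≤ r'` to `r'`.
-/
import Pool.Agent.Lib.SM3X.K1
import Pool.Agent.Lib.SM3X.K2
import Pool.Agent.Lib.SM3X.K3

set_option autoImplicit false

open MeasureTheory Set

namespace Pool.SM3X

variable {d : ℕ} {p : Fin 3 → ℝ} {ε rm : ℝ} {f : Fin 3 → ℝ → ℝ} {g : Fin 3 → Fin 3 → XX d → ℝ}

private theorem K4_io {h : XX d → ℝ} (hm : Measurable h) {M : ℝ} (hb : ∀ b, |h b| ≤ M) (r : ℝ) :
    IntegrableOn h (Metric.ball (0 : XX d) r) := by
  refine Measure.integrableOn_of_bounded (M := M) ?_ hm.aestronglyMeasurable ?_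
  · exact (measure_ball_lt_top).ne
  · exact Filter.Eventually.of_forall fun b => by rw [Real.norm_eq_abs]; exact hb b

private theorem K4_vol (r : ℝ) : volume.real (Metric.ball (0 : XX d) r) = VR d r := rfl

private theorem K4_ann {h : XX d → ℝ} (hm : Measurable h) (hb : ∀ b, 0 ≤ h b ∧ h b ≤ 1) {r r' : ℝ}
    (h1 : r ≤ r') :
    0 ≤ (∫ b in Metric.ball (0 : XX d) r', h b) - ∫ b in Metric.ball (0 : XX d) r, h b ∧
    (∫ b in Metric.ball (0 : XX d) r', h b) - (∫ b in Metric.ball (0 : XX d) r, h b)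
      ≤ VR d r' - VR d r := by
  have hab : ∀ b, |h b| ≤ 1 := fun b => abs_le.2 ⟨by linarith [(hb b).1], (hb b).2⟩
  have hsub : Metric.ball (0 : XX d) r ⊆ Metric.ball (0 : XX d) r' := Metric.ball_subset_ball h1
  have e1 := setIntegral_sdiff (μ := volume) Metric.isOpen_ball.measurableSet (K4_io hm hab r') hsub
  have i1 : IntegrableOn (fun _ : XX d => (1 : ℝ)) (Metric.ball (0 : XX d) r') :=
    K4_io measurable_const (M := 1) (fun _ => by simp) r'
  have e2 := setIntegral_sdiff (μ := volume) Metric.isOpen_ball.measurableSet i1 hsub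
  rw [← e1]
  constructor
  · exact integral_nonneg fun b => (hb b).1
  · have e3 : ∫ b in Metric.ball (0 : XX d) r' \ Metric.ball (0 : XX d) r, (1 : ℝ)
        = VR d r' - VR d r := by
      rw [e2]
      simp only [integral_const, smul_eq_mul, mul_one, MeasureTheory.measureReal_restrict_apply_univ]
      rw [K4_vol, K4_vol]
    rw [← e3]
    refine setIntegral_mono_on ((K4_io hm hab r').mono_set sdiff_subset) (i1.mono_set sdiff_subset)
      (Metric.isOpen_ball.measurableSet.diff Metric.isOpen_ball.measurableSet) ?_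
    intro b _
    exact (hb b).2

private theorem K4_rVmono (hd : 1 ≤ d) {v w : ℝ} (hv : 0 ≤ v) (h : v ≤ w) : rV d v ≤ rV d w := by
  refine rV_le hd hv (rV_nonneg (hv.trans h)) ?_
  rw [VR_rV hd (hv.trans h)]
  exact h

theorem f_lip (hd : 1 ≤ d) (hp : SM3.PV p) (F : Facts d p ε rm f g) (c : Fin 3) {r r' : ℝ}
    (h0 : 0 ≤ r) (h1 : r ≤ r') (h2 : r' ≤ rm) :
    |f c r' - f c r| ≤ VR d r' - VR d r := by
  have hr0 : r ≤ rm := h1.trans h2
  have m1 := F.mecke c r h0 hr0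
  have m2 := F.mecke c r' (h0.trans h1) h2
  rw [Fin.sum_univ_three] at m1 m2
  have A : ∀ c', 0 ≤ (∫ b in Metric.ball (0 : XX d) r', g c c' b)
      - ∫ b in Metric.ball (0 : XX d) r, g c c' b ∧
      (∫ b in Metric.ball (0 : XX d) r', g c c' b) - (∫ b in Metric.ball (0 : XX d) r, g c c' b)
      ≤ VR d r' - VR d r := fun c' => K4_ann (F.gm c c') (F.g01 c c') h1
  obtain ⟨a0, a0'⟩ := A 0
  obtain ⟨a1, a1'⟩ := A 1
  obtain ⟨a2, a2'⟩ := A 2
  have q0 := hp.pos 0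
  have q1 := hp.pos 1
  have q2 := hp.pos 2
  have hs := hp.sum
  have e : f c r - f c r' = p 0 * ((∫ b in Metric.ball (0 : XX d) r', g c 0 b)
      - ∫ b in Metric.ball (0 : XX d) r, g c 0 b)
      + p 1 * ((∫ b in Metric.ball (0 : XX d) r', g c 1 b)
      - ∫ b in Metric.ball (0 : XX d) r, g c 1 b)
      + p 2 * ((∫ b in Metric.ball (0 : XX d) r', g c 2 b)
      - ∫ b in Metric.ball (0 : XX d) r, g c 2 b) := by linarith
  have l0 : 0 ≤ f c r - f c r' := by rw [e]; positivity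
  have l1 : f c r - f c r' ≤ VR d r' - VR d r := by
    rw [e]
    calc _ ≤ p 0 * (VR d r' - VR d r) + p 1 * (VR d r' - VR d r) + p 2 * (VR d r' - VR d r) := by
          gcongr
      _ = (p 0 + p 1 + p 2) * (VR d r' - VR d r) := by ring
      _ = VR d r' - VR d r := by rw [hs, one_mul]
  rw [abs_sub_comm, abs_of_nonneg l0]
  exact l1

theorem f_cont (hd : 1 ≤ d) (hp : SM3.PV p) (F : Facts d p ε rm f g) (c : Fin 3) {T : ℝ}
    (hrm : 0 ≤ rm) (hT : T ≤ VR d rm) : ContinuousOn (fun v => f c (rV d v)) (Icc 0 T) := by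
  have key : ∀ v w, 0 ≤ v → v ≤ w → w ≤ T → |f c (rV d w) - f c (rV d v)| ≤ w - v := by
    intro v w hv hvw hw
    have hw0 : 0 ≤ w := hv.trans hvw
    have h := f_lip hd hp F c (rV_nonneg hv) (K4_rVmono hd hv hvw)
      (rV_le hd hw0 hrm (hw.trans hT))
    rwa [VR_rV hd hw0, VR_rV hd hv] at h
  have hL : LipschitzOnWith 1 (fun v => f c (rV d v)) (Icc 0 T) := by
    refine LipschitzOnWith.of_dist_le_mul ?_
    intro v hv w hw
    rw [NNReal.coe_one, one_mul, Real.dist_eq, Real.dist_eq]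
    rcases le_total v w with h | h
    · rw [abs_sub_comm, abs_sub_comm v w, abs_of_nonneg (sub_nonneg.2 h)]
      exact key v w hv.1 h hw.2
    · rw [abs_of_nonneg (sub_nonneg.2 h)]
      exact key w v hw.1 h hv.2
  exact hL.continuousOn

theorem facts_ode (hd : 1 ≤ d) (hp : SM3.PV p) (hε : 0 ≤ ε) (F : Facts d p ε rm f g)
    (hrm : 0 ≤ rm) {c c' : Fin 3} (hc : c ≠ c') {v : ℝ} (hv : 0 ≤ v) (hv' : v ≤ VR d rm) :
    |(∫ b in Metric.ball (0 : XX d) (rV d v), g c c' b)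
        - ∫ u in (0 : ℝ)..v, f c (rV d u) * f c' (rV d u)| ≤ v * (eta d v + ε) := by
  classical
  haveI : Nontrivial (XX d) := by
    haveI : Nonempty (Fin d) := ⟨⟨0, hd⟩⟩
    infer_instance
  set G : ℝ → ℝ := fun u => f c (rV d u) * f c' (rV d u) with hG
  set H : ℝ → ℝ := (Icc 0 (VR d rm)).piecewise G (fun _ => 0) with hH
  have hGc : ContinuousOn G (Icc 0 (VR d rm)) :=
    (f_cont hd hp F c hrm le_rfl).mul (f_cont hd hp F c' hrm le_rfl)
  have hHm : Measurable H :=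
    ContinuousOn.measurable_piecewise hGc continuousOn_const measurableSet_Icc
  have hr0 : 0 ≤ rV d v := rV_nonneg hv
  have hrr : rV d v ≤ rm := rV_le hd hv hrm hv'
  have hHb : ∀ u, |H u| ≤ 1 := by
    intro u
    by_cases hu : u ∈ Icc 0 (VR d rm)
    · rw [hH, piecewise_eq_of_mem _ _ _ hu, hG]
      have h1 := F.f01 c (rV d u)
      have h2 := F.f01 c' (rV d u)
      simp only
      rw [abs_of_nonneg (mul_nonneg h1.1 h2.1)]
      exact mul_le_one₀ h1.2 h2.1 h2.2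
    · rw [hH, piecewise_eq_of_notMem _ _ _ hu]
      simp
  have hI := integral_rad hd hr0 hHm
  rw [VR_rV hd hv] at hI
  have hJ : ∫ u in (0 : ℝ)..v, H u = ∫ u in (0 : ℝ)..v, f c (rV d u) * f c' (rV d u) := by
    refine intervalIntegral.integral_congr ?_
    intro u hu
    rw [uIcc_of_le hv] at hu
    have hu' : u ∈ Icc 0 (VR d rm) := ⟨hu.1, hu.2.trans hv'⟩
    simp only
    rw [hH, piecewise_eq_of_mem _ _ _ hu']
  rw [← hJ, ← hI]
  have hcm : Measurable fun b : XX d => H (VR d ‖b‖) :=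
    hHm.comp ((VR_cont hd).comp continuous_norm).measurable
  have i1 : IntegrableOn (g c c') (Metric.ball (0 : XX d) (rV d v)) :=
    K4_io (F.gm c c') (M := 1)
      (fun b => abs_le.2 ⟨by linarith [(F.g01 c c' b).1], (F.g01 c c' b).2⟩) _
  have i2 : IntegrableOn (fun b : XX d => H (VR d ‖b‖)) (Metric.ball (0 : XX d) (rV d v)) :=
    K4_io hcm (M := 1) (fun b => hHb _) _
  rw [← integral_sub i1 i2]
  have hne : ∀ᵐ b ∂(volume : Measure (XX d)), b ≠ 0 := by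
    rw [ae_iff]
    simp
  have hbd : ∀ᵐ b ∂(volume : Measure (XX d)).restrict (Metric.ball (0 : XX d) (rV d v)),
      ‖g c c' b - H (VR d ‖b‖)‖ ≤ eta d v + ε := by
    rw [ae_restrict_iff' Metric.isOpen_ball.measurableSet]
    filter_upwards [hne] with b hb0 hb
    have hbn : ‖b‖ < rV d v := by simpa using hb
    have hb1 : 0 < ‖b‖ := norm_pos_iff.2 hb0
    have hle : VR d ‖b‖ ≤ v := by
      have h := VR_mono d hbn.le
      rwa [VR_rV hd hv] at h
    have hmem : VR d ‖b‖ ∈ Icc 0 (VR d rm) := ⟨VR_nonneg d _, hle.trans hv'⟩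
    rw [hH, piecewise_eq_of_mem _ _ _ hmem, hG]
    simp only
    rw [rV_VR hd (norm_nonneg b), Real.norm_eq_abs]
    refine (F.dec c c' b hc hb1 (hbn.le.trans hrr)).trans ?_
    have := eta_mono (d := d) (VR_nonneg d ‖b‖) hle
    linarith
  have h := norm_setIntegral_le_of_norm_le_const_ae (μ := volume)
    (s := Metric.ball (0 : XX d) (rV d v)) (f := fun b => g c c' b - H (VR d ‖b‖))
    (measure_ball_lt_top) hbd
  rw [K4_vol, VR_rV hd hv, Real.norm_eq_abs] at h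
  rw [mul_comm v]
  exact h

theorem key_B (hd : 1 ≤ d) (hp : SM3.PV p) (hq : p 1 = p 2) (h4 : 1 / 3 + 2 / Real.sqrt d < p 0) :
    ∃ κ : ℝ, 0 < κ ∧ ∃ r₁ : ℝ, 0 < r₁ ∧ ∀ r' : ℝ, r₁ ≤ r' → ∃ ε : ℝ, 0 < ε ∧
      ∀ (f : Fin 3 → ℝ → ℝ) (g : Fin 3 → Fin 3 → XX d → ℝ), Facts d p ε r' f g →
        κ ≤ p 0 * f 0 r' := by
  have q0 := hp.pos 0
  have q1 := hp.pos 1
  have hsum := hp.sum
  rcases lt_or_ge (9 / 20) (p 0) with hhalf | hhalf
  · exact key_A hd hp hq (by nlinarith)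
  have hs : p 0 + 2 * p 1 = 1 := by rw [← hq] at hsum; linarith
  have hd0 : (0 : ℝ) < d := by exact_mod_cast hd
  have hsq : 0 < Real.sqrt d := Real.sqrt_pos.2 hd0
  have h4' : 0 < 2 / Real.sqrt d := by positivity
  have hlt : p 1 < p 0 := by linarith
  have hdel : 0 < p 0 - p 1 := sub_pos.2 hlt
  obtain ⟨T, hT⟩ : ∃ T, T = 11 * p 0 / (32 * (p 0 - p 1) ^ 2) := ⟨_, rfl⟩
  have hTpos : 0 < T := by rw [hT]; positivity
  have hsm := eta_small hd hs hhalf h4
  rw [← hT] at hsm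
  refine ⟨(p 0 - p 1) ^ 2 / (8 * p 0), by positivity, max 1 (rV d T),
    lt_max_of_lt_left one_pos, ?_⟩
  intro r' hr'
  have hr1 : 1 ≤ r' := (le_max_left _ _).trans hr'
  have hr0 : 0 ≤ r' := by linarith
  have hTV : T ≤ VR d r' := by
    have h := VR_mono d ((le_max_right 1 (rV d T)).trans hr')
    rwa [VR_rV hd hTpos.le] at h
  have hVpos : 0 < VR d r' := hTpos.trans_le hTV
  obtain ⟨ε, hε⟩ : ∃ ε, ε = min ((p 0 - p 1) ^ 2 / (200 * p 0 * T))
      ((p 0 - p 1) ^ 2 / (8 * p 0 * VR d r')) := ⟨_, rfl⟩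
  have hεpos : 0 < ε := by rw [hε]; exact lt_min (by positivity) (by positivity)
  have hε1 : T * ε ≤ (p 0 - p 1) ^ 2 / (200 * p 0) := by
    have h : ε ≤ (p 0 - p 1) ^ 2 / (200 * p 0 * T) := by rw [hε]; exact min_le_left _ _
    calc T * ε ≤ T * ((p 0 - p 1) ^ 2 / (200 * p 0 * T)) := by gcongr
      _ = (p 0 - p 1) ^ 2 / (200 * p 0) := by field_simp
  have hε2 : ε * VR d r' ≤ (p 0 - p 1) ^ 2 / (8 * p 0) := by
    have h : ε ≤ (p 0 - p 1) ^ 2 / (8 * p 0 * VR d r') := by rw [hε]; exact min_le_right _ _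
    calc ε * VR d r' ≤ (p 0 - p 1) ^ 2 / (8 * p 0 * VR d r') * VR d r' := by gcongr
      _ = (p 0 - p 1) ^ 2 / (8 * p 0) := by field_simp
  refine ⟨ε, hεpos, ?_⟩
  intro f g F
  have c0 := f_cont hd hp F 0 hr0 hTV
  have c1 := f_cont hd hp F 1 hr0 hTV
  have bd : ∀ (c c' : Fin 3), c ≠ c' → ∀ v ∈ Icc 0 T,
      |(∫ b in Metric.ball (0 : XX d) (rV d v), g c c' b)
        - ∫ u in (0 : ℝ)..v, f c (rV d u) * f c' (rV d u)| ≤ T * (eta d T + ε) := by
    intro c c' hc v hv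
    refine (facts_ode hd hp hεpos.le F hr0 hc hv.1 (hv.2.trans hTV)).trans ?_
    have e1 := eta_mono (d := d) hv.1 hv.2
    have e2 := eta_nonneg (d := d) hv.1
    have hv2 := hv.2
    have hv1 := hv.1
    gcongr
  have hI0 : ∀ (c : Fin 3) (r : ℝ), ∫ b in Metric.ball (0 : XX d) r, g c c b = 0 := by
    intro c r
    have : (fun b => g c c b) = fun _ => 0 := funext (F.gd c)
    rw [this]
    simp
  have he0 : 0 ≤ T * (eta d T + ε) := by
    have := eta_nonneg (d := d) hTpos.le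
    positivity
  have h0 : ∀ v ∈ Icc 0 T, |f 0 (rV d v) - 1 + 2 * p 1 *
      ∫ u in (0 : ℝ)..v, f 0 (rV d u) * f 1 (rV d u)| ≤ T * (eta d T + ε) := by
    intro v hv
    have hrv : rV d v ≤ r' := rV_le hd hv.1 hr0 (hv.2.trans hTV)
    have m := F.mecke 0 (rV d v) (rV_nonneg hv.1) hrv
    rw [Fin.sum_univ_three, hI0 0, ← hq] at m
    have b1 := bd 0 1 (by decide) v hv
    have b2 := bd 0 2 (by decide) v hv
    simp only [← F.col] at b2
    rw [abs_le] at b1 b2 ⊢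
    have n1 : p 1 * ((∫ b in Metric.ball (0 : XX d) (rV d v), g 0 1 b)
        - ∫ u in (0 : ℝ)..v, f 0 (rV d u) * f 1 (rV d u)) ≤ p 1 * (T * (eta d T + ε)) :=
      mul_le_mul_of_nonneg_left b1.2 q1.le
    have n2 : p 1 * ((∫ b in Metric.ball (0 : XX d) (rV d v), g 0 2 b)
        - ∫ u in (0 : ℝ)..v, f 0 (rV d u) * f 1 (rV d u)) ≤ p 1 * (T * (eta d T + ε)) :=
      mul_le_mul_of_nonneg_left b2.2 q1.le
    have n3 : p 1 * (-(T * (eta d T + ε))) ≤ p 1 * ((∫ b in Metric.ball (0 : XX d) (rV d v),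
        g 0 1 b) - ∫ u in (0 : ℝ)..v, f 0 (rV d u) * f 1 (rV d u)) :=
      mul_le_mul_of_nonneg_left b1.1 q1.le
    have n4 : p 1 * (-(T * (eta d T + ε))) ≤ p 1 * ((∫ b in Metric.ball (0 : XX d) (rV d v),
        g 0 2 b) - ∫ u in (0 : ℝ)..v, f 0 (rV d u) * f 1 (rV d u)) :=
      mul_le_mul_of_nonneg_left b2.1 q1.le
    have n5 : 2 * p 1 * (T * (eta d T + ε)) ≤ 1 * (T * (eta d T + ε)) :=
      mul_le_mul_of_nonneg_right (by linarith) he0
    constructor <;> linarith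
  have ii : ∀ (c c' : Fin 3), ContinuousOn (fun v => f c (rV d v)) (Icc 0 T) →
      ContinuousOn (fun v => f c' (rV d v)) (Icc 0 T) → ∀ v ∈ Icc 0 T,
      IntervalIntegrable (fun u => f c (rV d u) * f c' (rV d u)) volume 0 v := by
    intro c c' hc hc' v hv
    refine ContinuousOn.intervalIntegrable ?_
    rw [uIcc_of_le hv.1]
    exact (hc.mul hc').mono (Icc_subset_Icc_right hv.2)
  have h1 : ∀ v ∈ Icc 0 T, |f 1 (rV d v) - 1 + ∫ u in (0 : ℝ)..v,
      (p 0 * (f 0 (rV d u) * f 1 (rV d u)) + p 1 * (f 1 (rV d u) * f 1 (rV d u)))|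
        ≤ T * (eta d T + ε) := by
    intro v hv
    have hrv : rV d v ≤ r' := rV_le hd hv.1 hr0 (hv.2.trans hTV)
    have m := F.mecke 1 (rV d v) (rV_nonneg hv.1) hrv
    rw [Fin.sum_univ_three, hI0 1, ← hq] at m
    rw [intervalIntegral.integral_add ((ii 0 1 c0 c1 v hv).const_mul _)
      ((ii 1 1 c1 c1 v hv).const_mul _), intervalIntegral.integral_const_mul,
      intervalIntegral.integral_const_mul]
    have b1 := bd 1 0 (by decide) v hv
    have b2 := bd 1 2 (by decide) v hv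
    simp only [← F.col] at b2
    have hcomm : ∫ u in (0 : ℝ)..v, f 1 (rV d u) * f 0 (rV d u)
        = ∫ u in (0 : ℝ)..v, f 0 (rV d u) * f 1 (rV d u) := by
      exact intervalIntegral.integral_congr fun u _ => mul_comm _ _
    rw [hcomm] at b1
    rw [abs_le] at b1 b2 ⊢
    have n1 : p 0 * ((∫ b in Metric.ball (0 : XX d) (rV d v), g 1 0 b)
        - ∫ u in (0 : ℝ)..v, f 0 (rV d u) * f 1 (rV d u)) ≤ p 0 * (T * (eta d T + ε)) :=
      mul_le_mul_of_nonneg_left b1.2 q0.le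
    have n2 : p 1 * ((∫ b in Metric.ball (0 : XX d) (rV d v), g 1 2 b)
        - ∫ u in (0 : ℝ)..v, f 1 (rV d u) * f 1 (rV d u)) ≤ p 1 * (T * (eta d T + ε)) :=
      mul_le_mul_of_nonneg_left b2.2 q1.le
    have n3 : p 0 * (-(T * (eta d T + ε))) ≤ p 0 * ((∫ b in Metric.ball (0 : XX d) (rV d v),
        g 1 0 b) - ∫ u in (0 : ℝ)..v, f 0 (rV d u) * f 1 (rV d u)) :=
      mul_le_mul_of_nonneg_left b1.1 q0.le
    have n4 : p 1 * (-(T * (eta d T + ε))) ≤ p 1 * ((∫ b in Metric.ball (0 : XX d) (rV d v),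
        g 1 2 b) - ∫ u in (0 : ℝ)..v, f 1 (rV d u) * f 1 (rV d u)) :=
      mul_le_mul_of_nonneg_left b2.1 q1.le
    have n5 : (p 0 + p 1) * (T * (eta d T + ε)) ≤ 1 * (T * (eta d T + ε)) :=
      mul_le_mul_of_nonneg_right (by linarith) he0
    constructor <;> linarith
  have he : T * (eta d T + ε) ≤ (p 0 - p 1) ^ 2 / (100 * p 0) := by
    have h : (p 0 - p 1) ^ 2 / (200 * p 0) + (p 0 - p 1) ^ 2 / (200 * p 0)
        = (p 0 - p 1) ^ 2 / (100 * p 0) := by
      field_simp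
      norm_num
    rw [← h, mul_add]
    exact add_le_add hsm hε1
  obtain ⟨v, hv, hk⟩ := ode_key q1 hlt hs (by linarith) hT c0 c1 (fun v _ => F.f01 0 _)
    (fun v _ => F.f01 1 _) h0 h1 he
  have hrv : rV d v ≤ r' := rV_le hd hv.1 hr0 (hv.2.trans hTV)
  have ht := transport_f hd hp hεpos.le F (rV_nonneg hv.1) hrv le_rfl
  rw [← F.col, ← hq] at ht
  have h2 : (p 0 - p 1) ^ 2 / (8 * p 0) + (p 0 - p 1) ^ 2 / (8 * p 0)
      = (p 0 - p 1) ^ 2 / (4 * p 0) := by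
    field_simp
    norm_num
  linarith

end Pool.SM3X
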