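/-
SM3X.H4 : the system of integral equations, uniformly in the dimension.
PROOF. `facts_sys`: this is contained in the proof of `key_B` (K4; `h0`, `h1` there): copy it.  `f_anti`: `mecke`, `0 ≤ g`, `0 < p c'` (see `f_lip` and the private lemma K4_ann in K4).
`key_lim`: `K` from H3, `T = d/25`, `r = rV d T`, `r₁ = max 1 r`; for `r' ≥ r₁`: `T = VR d r ≤ VR d r'`; choose `ε > 0` with `T ε ≤ 1/d`, `ε VR d r' ≤ 1/d`.  `e = T (eta d T + ε) ≤ (K + 1)/d`.  `facts_sys`, `ode_lim` (H2) with `p 0`, `q = p 1`, `f 0 (rV d ·)`, `f 1 (rV d ·)`: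
`|p 0 f 0 r - a| ≤ 2/T + 30 e = 50/d + 30 e`, `p 1 f 1 r ≤ 25/d + 2 e`.  `p 0 f 0 r' ≤ p 0 f 0 r` (`f_anti`) and `p 0 f 0 r' ≥ p 0 f 0 r - p 1 f 1 r - p 2 f 2 r - ε VR d r'` (`transport_f`, K1; `col`, `hq`).  `C = 101 + 34 (K + 1)` works.
-/
import Pool.Agent.Lib.SM3X.K4
import Pool.Agent.Lib.SM3X.H2
import Pool.Agent.Lib.SM3X.H3

set_option autoImplicit false

open MeasureTheory Set

namespace Pool.SM3X

variable {d : ℕ} {p : Fin 3 → ℝ} {ε rm : ℝ} {f : Fin 3 → ℝ → ℝ} {g : Fin 3 → Fin 3 → XX d → ℝ}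

private theorem H4_io {h : XX d → ℝ} (hm : Measurable h) {M : ℝ} (hb : ∀ b, |h b| ≤ M) (r : ℝ) :
    IntegrableOn h (Metric.ball (0 : XX d) r) := by
  refine Measure.integrableOn_of_bounded (M := M) ?_ hm.aestronglyMeasurable ?_
  · exact (measure_ball_lt_top).ne
  · exact Filter.Eventually.of_forall fun b => by rw [Real.norm_eq_abs]; exact hb b

private theorem H4_ann {h : XX d → ℝ} (hm : Measurable h) (hb : ∀ b, 0 ≤ h b ∧ h b ≤ 1) {r r' : ℝ}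
    (h1 : r ≤ r') :
    0 ≤ (∫ b in Metric.ball (0 : XX d) r', h b) - ∫ b in Metric.ball (0 : XX d) r, h b := by
  have hab : ∀ b, |h b| ≤ 1 := fun b => abs_le.2 ⟨by linarith [(hb b).1], (hb b).2⟩
  have hsub : Metric.ball (0 : XX d) r ⊆ Metric.ball (0 : XX d) r' := Metric.ball_subset_ball h1
  have e1 := setIntegral_sdiff (μ := volume) Metric.isOpen_ball.measurableSet (H4_io hm hab r') hsub
  rw [← e1]
  exact integral_nonneg fun b => (hb b).1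

private theorem H4_rVmono (hd : 1 ≤ d) {v w : ℝ} (hv : 0 ≤ v) (h : v ≤ w) : rV d v ≤ rV d w := by
  refine rV_le hd hv (rV_nonneg (hv.trans h)) ?_
  rw [VR_rV hd (hv.trans h)]
  exact h

theorem facts_sys (hd : 1 ≤ d) (hp : SM3.PV p) (hq : p 1 = p 2) (hε : 0 ≤ ε)
    (F : Facts d p ε rm f g) (hrm : 0 ≤ rm) {T : ℝ} (hT : 0 ≤ T) (hT' : T ≤ VR d rm) :
    (∀ v ∈ Icc 0 T, |f 0 (rV d v) - 1 + 2 * p 1 * ∫ u in (0 : ℝ)..v, f 0 (rV d u) * f 1 (rV d u)|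
      ≤ T * (eta d T + ε)) ∧
    (∀ v ∈ Icc 0 T, |f 1 (rV d v) - 1 + ∫ u in (0 : ℝ)..v, (p 0 * (f 0 (rV d u) * f 1 (rV d u)) +
      p 1 * (f 1 (rV d u) * f 1 (rV d u)))| ≤ T * (eta d T + ε)) := by
  have q0 := hp.pos 0
  have q1 := hp.pos 1
  have hsum := hp.sum
  have hs : p 0 + 2 * p 1 = 1 := by rw [← hq] at hsum; linarith
  have c0 := f_cont hd hp F 0 hrm hT'
  have c1 := f_cont hd hp F 1 hrm hT'
  have bd : ∀ (c c' : Fin 3), c ≠ c' → ∀ v ∈ Icc 0 T,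
      |(∫ b in Metric.ball (0 : XX d) (rV d v), g c c' b)
        - ∫ u in (0 : ℝ)..v, f c (rV d u) * f c' (rV d u)| ≤ T * (eta d T + ε) := by
    intro c c' hc v hv
    refine (facts_ode hd hp hε F hrm hc hv.1 (hv.2.trans hT')).trans ?_
    have e1 := eta_mono (d := d) hv.1 hv.2
    have e2 := eta_nonneg (d := d) hv.1
    have hv2 := hv.2
    have hv1 := hv.1
    gcongr
  have hI0 : ∀ (c : Fin 3) (r : ℝ), ∫ b in Metric.ball (0 : XX d) r, g c c b = 0 := by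
    intro c r
    have : (fun b => g c c b) = fun _ => 0 := funext (F.gd c)
    rw [this]
    simp
  have he0 : 0 ≤ T * (eta d T + ε) := by
    have := eta_nonneg (d := d) hT
    positivity
  have h0 : ∀ v ∈ Icc 0 T, |f 0 (rV d v) - 1 + 2 * p 1 *
      ∫ u in (0 : ℝ)..v, f 0 (rV d u) * f 1 (rV d u)| ≤ T * (eta d T + ε) := by
    intro v hv
    have hrv : rV d v ≤ rm := rV_le hd hv.1 hrm (hv.2.trans hT')
    have m := F.mecke 0 (rV d v) (rV_nonneg hv.1) hrv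
    rw [Fin.sum_univ_three, hI0 0, ← hq] at m
    have b1 := bd 0 1 (by decide) v hv
    have b2 := bd 0 2 (by decide) v hv
    simp only [← F.col] at b2
    rw [abs_le] at b1 b2 ⊢
    have n1 : p 1 * ((∫ b in Metric.ball (0 : XX d) (rV d v), g 0 1 b)
        - ∫ u in (0 : ℝ)..v, f 0 (rV d u) * f 1 (rV d u)) ≤ p 1 * (T * (eta d T + ε)) :=
      mul_le_mul_of_nonneg_left b1.2 q1.le
    have n2 : p 1 * ((∫ b in Metric.ball (0 : XX d) (rV d v), g 0 2 b)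
        - ∫ u in (0 : ℝ)..v, f 0 (rV d u) * f 1 (rV d u)) ≤ p 1 * (T * (eta d T + ε)) :=
      mul_le_mul_of_nonneg_left b2.2 q1.le
    have n3 : p 1 * (-(T * (eta d T + ε))) ≤ p 1 * ((∫ b in Metric.ball (0 : XX d) (rV d v),
        g 0 1 b) - ∫ u in (0 : ℝ)..v, f 0 (rV d u) * f 1 (rV d u)) :=
      mul_le_mul_of_nonneg_left b1.1 q1.le
    have n4 : p 1 * (-(T * (eta d T + ε))) ≤ p 1 * ((∫ b in Metric.ball (0 : XX d) (rV d v),
        g 0 2 b) - ∫ u in (0 : ℝ)..v, f 0 (rV d u) * f 1 (rV d u)) :=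
      mul_le_mul_of_nonneg_left b2.1 q1.le
    have n5 : 2 * p 1 * (T * (eta d T + ε)) ≤ 1 * (T * (eta d T + ε)) :=
      mul_le_mul_of_nonneg_right (by linarith) he0
    constructor <;> linarith
  have ii : ∀ (c c' : Fin 3), ContinuousOn (fun v => f c (rV d v)) (Icc 0 T) →
      ContinuousOn (fun v => f c' (rV d v)) (Icc 0 T) → ∀ v ∈ Icc 0 T,
      IntervalIntegrable (fun u => f c (rV d u) * f c' (rV d u)) volume 0 v := by
    intro c c' hc hc' v hv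
    refine ContinuousOn.intervalIntegrable ?_
    rw [uIcc_of_le hv.1]
    exact (hc.mul hc').mono (Icc_subset_Icc_right hv.2)
  refine ⟨h0, ?_⟩
  intro v hv
  have hrv : rV d v ≤ rm := rV_le hd hv.1 hrm (hv.2.trans hT')
  have m := F.mecke 1 (rV d v) (rV_nonneg hv.1) hrv
  rw [Fin.sum_univ_three, hI0 1, ← hq] at m
  rw [intervalIntegral.integral_add ((ii 0 1 c0 c1 v hv).const_mul _)
    ((ii 1 1 c1 c1 v hv).const_mul _), intervalIntegral.integral_const_mul,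
    intervalIntegral.integral_const_mul]
  have b1 := bd 1 0 (by decide) v hv
  have b2 := bd 1 2 (by decide) v hv
  simp only [← F.col] at b2
  have hcomm : ∫ u in (0 : ℝ)..v, f 1 (rV d u) * f 0 (rV d u)
      = ∫ u in (0 : ℝ)..v, f 0 (rV d u) * f 1 (rV d u) := by
    exact intervalIntegral.integral_congr fun u _ => mul_comm _ _
  rw [hcomm] at b1
  rw [abs_le] at b1 b2 ⊢
  have n1 : p 0 * ((∫ b in Metric.ball (0 : XX d) (rV d v), g 1 0 b)
      - ∫ u in (0 : ℝ)..v, f 0 (rV d u) * f 1 (rV d u)) ≤ p 0 * (T * (eta d T + ε)) :=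
    mul_le_mul_of_nonneg_left b1.2 q0.le
  have n2 : p 1 * ((∫ b in Metric.ball (0 : XX d) (rV d v), g 1 2 b)
      - ∫ u in (0 : ℝ)..v, f 1 (rV d u) * f 1 (rV d u)) ≤ p 1 * (T * (eta d T + ε)) :=
    mul_le_mul_of_nonneg_left b2.2 q1.le
  have n3 : p 0 * (-(T * (eta d T + ε))) ≤ p 0 * ((∫ b in Metric.ball (0 : XX d) (rV d v),
      g 1 0 b) - ∫ u in (0 : ℝ)..v, f 0 (rV d u) * f 1 (rV d u)) :=
    mul_le_mul_of_nonneg_left b1.1 q0.le
  have n4 : p 1 * (-(T * (eta d T + ε))) ≤ p 1 * ((∫ b in Metric.ball (0 : XX d) (rV d v),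
      g 1 2 b) - ∫ u in (0 : ℝ)..v, f 1 (rV d u) * f 1 (rV d u)) :=
    mul_le_mul_of_nonneg_left b2.1 q1.le
  have n5 : (p 0 + p 1) * (T * (eta d T + ε)) ≤ 1 * (T * (eta d T + ε)) :=
    mul_le_mul_of_nonneg_right (by linarith) he0
  constructor <;> linarith

theorem f_anti (hd : 1 ≤ d) (hp : SM3.PV p) (F : Facts d p ε rm f g) (c : Fin 3) {r r' : ℝ}
    (h0 : 0 ≤ r) (h1 : r ≤ r') (h2 : r' ≤ rm) : f c r' ≤ f c r := by
  have m1 := F.mecke c r h0 (h1.trans h2)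
  have m2 := F.mecke c r' (h0.trans h1) h2
  rw [Fin.sum_univ_three] at m1 m2
  have A : ∀ c', 0 ≤ (∫ b in Metric.ball (0 : XX d) r', g c c' b)
      - ∫ b in Metric.ball (0 : XX d) r, g c c' b := fun c' => H4_ann (F.gm c c') (F.g01 c c') h1
  have a0 := mul_nonneg (hp.pos 0).le (A 0)
  have a1 := mul_nonneg (hp.pos 1).le (A 1)
  have a2 := mul_nonneg (hp.pos 2).le (A 2)
  linarith

theorem key_lim : ∃ C : ℝ, 0 < C ∧ ∀ (d : ℕ), 1 ≤ d → ∀ (p : Fin 3 → ℝ), SM3.PV p → p 1 = p 2 →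
    ∃ r₁ : ℝ, 0 < r₁ ∧ ∀ r' : ℝ, r₁ ≤ r' → ∃ ε : ℝ, 0 < ε ∧
      ∀ (f : Fin 3 → ℝ → ℝ) (g : Fin 3 → Fin 3 → XX d → ℝ), Facts d p ε r' f g →
        |p 0 * f 0 r' - (max (p 0 - p 1) 0) ^ 2 / p 0| ≤ C / d := by
  obtain ⟨K, hK, hE⟩ := eta_dim
  refine ⟨101 + 34 * (K + 1), by linarith, ?_⟩
  intro d hd p hp hq
  have hsum := hp.sum
  have hs : p 0 + 2 * p 1 = 1 := by rw [← hq] at hsum; linarith
  have hd0 : (0 : ℝ) < d := by exact_mod_cast hd
  obtain ⟨T, hT⟩ : ∃ T : ℝ, T = d / 25 := ⟨_, rfl⟩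
  have hTpos : 0 < T := by rw [hT]; positivity
  have hTE := hE d hd
  rw [← hT] at hTE
  refine ⟨max 1 (rV d T), lt_max_of_lt_left one_pos, ?_⟩
  intro r' hr'
  have hr0 : 0 ≤ r' := zero_le_one.trans ((le_max_left _ _).trans hr')
  have hrr : rV d T ≤ r' := (le_max_right _ _).trans hr'
  have hTV : T ≤ VR d r' := by
    have h := VR_mono d hrr
    rwa [VR_rV hd hTpos.le] at h
  have hVpos : 0 < VR d r' := hTpos.trans_le hTV
  obtain ⟨ε, hε⟩ : ∃ ε : ℝ, ε = min (1 / (d * T)) (1 / (d * VR d r')) := ⟨_, rfl⟩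
  have hεpos : 0 < ε := by rw [hε]; exact lt_min (by positivity) (by positivity)
  have hε1 : T * ε ≤ 1 / d := by
    have h : ε ≤ 1 / (d * T) := by rw [hε]; exact min_le_left _ _
    calc T * ε ≤ T * (1 / (d * T)) := by gcongr
      _ = 1 / d := by field_simp
  have hε2 : ε * VR d r' ≤ 1 / d := by
    have h : ε ≤ 1 / (d * VR d r') := by rw [hε]; exact min_le_right _ _
    calc ε * VR d r' ≤ 1 / (d * VR d r') * VR d r' := by gcongr
      _ = 1 / d := by field_simp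
  refine ⟨ε, hεpos, ?_⟩
  intro f g F
  have c0 := f_cont hd hp F 0 hr0 hTV
  have c1 := f_cont hd hp F 1 hr0 hTV
  obtain ⟨s0, s1⟩ := facts_sys hd hp hq hεpos.le F hr0 hTpos.le hTV
  have l1 := ode_lim (hp.pos 0) (hp.pos 1) hs hTpos c0 c1 (fun v _ => (F.f01 0 _).1)
    (fun v _ => (F.f01 1 _).1) s0 s1
  have l2 := ode_f1 (hp.pos 0) (hp.pos 1) hs hTpos c0 c1 (fun v _ => (F.f01 0 _).1)
    (fun v _ => (F.f01 1 _).1) s1
  have l3 := f_anti hd hp F 0 (rV_nonneg hTpos.le) hrr le_rfl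
  have l4 := transport_f hd hp hεpos.le F (rV_nonneg hTpos.le) hrr le_rfl
  rw [← F.col, ← hq] at l4
  have l5 : p 0 * f 0 r' ≤ p 0 * f 0 (rV d T) := mul_le_mul_of_nonneg_left l3 (hp.pos 0).le
  have e1 : T * (eta d T + ε) ≤ (K + 1) / d := by
    rw [mul_add, add_div]
    exact add_le_add hTE hε1
  have e2 : 2 / T = 50 / d := by rw [hT]; field_simp; norm_num
  have e3 : 1 / T = 25 / d := by rw [hT]; field_simp
  have e4 : (101 + 34 * (K + 1)) / (d : ℝ) = 50 / d + 2 * (25 / d) + 1 / d + 34 * ((K + 1) / d) := by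
    ring
  rw [e2] at l1
  rw [e3] at l2
  rw [e4]
  have e5 : (0 : ℝ) ≤ 25 / d := by positivity
  have e6 : (0 : ℝ) ≤ 1 / d := by positivity
  have e7 : (0 : ℝ) ≤ (K + 1) / d := by positivity
  rw [abs_le] at l1 ⊢
  constructor
  · linarith
  · linarith

end Pool.SM3X
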