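/-
SM3X.T1 : the local events.
PROOF. `Lev_loc`: if `Y`, `Y'` agree on `B = {z | ∃ x ∈ Q0, dist x z < m |r| + 1}` then they have the same points in `Q0` (`dist x x = 0`), and for such a point `x` the sets `Y \ {x}`, `Y' \ {x}` agree on the ball of radius `m r` around `x`
(`AlN_congr_ball`, D2).  `Lev_meas`: MFam.exists (M1) for `GX` (MFam_GX) and `measurableSet_AlN` (M2) for the family `GX Φ l \ {x}` with parameter `(l,x)`; `Q0` is measurable.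
`Lev_shift`: `x ↦ (x.1 + w, x.2)` is a bijection from `shX w Y` to `Y` and `shX w Y \ {x} = shX w (Y \ {(x.1 + w, x.2)})`; `AlN_shX` (D7).
`Lev_eventually`: the set `Y ∩ {x.1 ∈ Q0}` is finite (`GoodX.fin`); for each of its points `x` choose `n_x` with `NoCh n_x (Y \ {x}) x.1 r` (`GoodX.chain`), `m₀ = max n_x`; `rec_AlN` (D2) for `M = MSX Y` (`MSX_rec`, `MSX_symm`, D3), `s = r`, with
`NoCh m` (`NoCh.le`): `AlN m (Y \ {x}) x r ↔ ∀ y, MSX Y x y → r ≤ dist x.1 y.1`.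
`Vev_anti`: obvious.  `Vev_all`: finitely many `x` in `Q0`; if each had a partner (or not colour 0) then for `r` larger than all distances to the partners (choose one partner each; by `MSX_rec` and NoIso the partner is unique, or: if `x` has some
partner `y` then `Vev` at level `r > dist x.1 y.1` fails for this `x`) `Vev Q0 r Y` fails.
-/
import Pool.Agent.Lib.SM3X.D3
import Pool.Agent.Lib.SM3X.D7
import Pool.Agent.Lib.SM3X.M2

set_option autoImplicit false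

open MeasureTheory Set

namespace Pool.SM3X

variable {d : ℕ}

/-- local approximation (`m` steps of the recursion) of `Vev` -/
def Lev (Q0 : Set (XX d)) (r : ℝ) (m : ℕ) (Y : Set (CP (XX d))) : Prop :=
  ∃ x ∈ Y, x.2 = 0 ∧ x.1 ∈ Q0 ∧ AlN m (Y \ {x}) x r

/-- some point of colour 0 in `Q0` has no partner at distance `< r` -/
def Vev (Q0 : Set (XX d)) (r : ℝ) (Y : Set (CP (XX d))) : Prop :=
  ∃ x ∈ Y, x.2 = 0 ∧ x.1 ∈ Q0 ∧ ∀ y, MSX Y x y → r ≤ dist x.1 y.1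

private theorem T1_loc_aux {Q0 : Set (XX d)} {r : ℝ} {m : ℕ} {Y Y' : Set (CP (XX d))}
    (h : ∀ y : CP (XX d), y.1 ∈ {z | ∃ x ∈ Q0, dist x z < m * |r| + 1} → (y ∈ Y ↔ y ∈ Y'))
    (hY : Lev Q0 r m Y) : Lev Q0 r m Y' := by
  obtain ⟨x, hx, hx2, hxQ, hA⟩ := hY
  have h0 : (0 : ℝ) ≤ m * |r| := mul_nonneg (Nat.cast_nonneg _) (abs_nonneg _)
  have hxx : x ∈ Y' := (h x ⟨x.1, hxQ, by rw [dist_self]; linarith⟩).1 hx
  refine ⟨x, hxx, hx2, hxQ, ?_⟩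
  refine (AlN_congr_ball (n := m) (Y := Y \ {x}) (Y' := Y' \ {x}) (fun y hy => ?_)).1 hA
  have h1 : (m : ℝ) * r ≤ m * |r| := mul_le_mul_of_nonneg_left (le_abs_self r) (Nat.cast_nonneg _)
  have h2 := h y ⟨x.1, hxQ, by linarith⟩
  constructor
  · rintro ⟨ha, hb⟩
    exact ⟨h2.1 ha, hb⟩
  · rintro ⟨ha, hb⟩
    exact ⟨h2.2 ha, hb⟩

theorem Lev_loc (Q0 : Set (XX d)) (r : ℝ) (m : ℕ) :
    Loc (Lev Q0 r m) {z | ∃ x ∈ Q0, dist x z < m * |r| + 1} := by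
  intro Y Y' h
  exact ⟨T1_loc_aux h, T1_loc_aux fun y hy => (h y hy).symm⟩

theorem Lev_meas (Φ : PhiM d) {Q0 : Set (XX d)} (hQ : MeasurableSet Q0) (r : ℝ) (m : ℕ) :
    MeasurableSet {l | Lev Q0 r m (GX Φ l)} := by
  have h3 : MeasurableSet {q : List SM3.Pt × CP (XX d) | AlN m (GX Φ q.1 \ {q.2}) q.2 r} :=
    measurableSet_AlN m (MFam.diff ((MFam_GX Φ).comp measurable_fst) measurable_snd)
      measurable_snd measurable_const
  have h1 : MeasurableSet {q : List SM3.Pt × CP (XX d) | q.2.2 = 0} :=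
    measurable_snd.snd (measurableSet_singleton (0 : Fin 3))
  have h2 : MeasurableSet {q : List SM3.Pt × CP (XX d) | q.2.1 ∈ Q0} :=
    measurable_snd.fst hQ
  have h := (MFam_GX Φ).exists (h1.inter (h2.inter h3))
  exact h

private theorem T1_shX_diff (w : XX d) (Y : Set (CP (XX d))) (x : CP (XX d)) :
    shX w Y \ {x} = shX w (Y \ {(x.1 + w, x.2)}) := by
  ext y
  simp only [shX, mem_sdiff, mem_ofPred_eq, mem_singleton_iff]
  have h : (y = x) ↔ ((y.1 + w, y.2) = ((x.1 + w, x.2) : CP (XX d))) := by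
    constructor
    · rintro rfl
      rfl
    · intro h
      rw [Prod.mk.injEq] at h
      exact Prod.ext (add_right_cancel h.1) h.2
  rw [h]

theorem Lev_shift (Q0 : Set (XX d)) (r : ℝ) (m : ℕ) (w : XX d) (Y : Set (CP (XX d))) :
    Lev {x | x - w ∈ Q0} r m Y ↔ Lev Q0 r m (shX w Y) := by
  constructor
  · rintro ⟨x, hx, hx2, hxQ, hA⟩
    have hxx : (((x.1 - w, x.2) : CP (XX d)).1 + w, ((x.1 - w, x.2) : CP (XX d)).2) = x := by
      simp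
    refine ⟨(x.1 - w, x.2), ?_, hx2, hxQ, ?_⟩
    · change (((x.1 - w, x.2) : CP (XX d)).1 + w, ((x.1 - w, x.2) : CP (XX d)).2) ∈ Y
      rw [hxx]
      exact hx
    · rw [T1_shX_diff, AlN_shX, hxx]
      exact hA
  · rintro ⟨x, hx, hx2, hxQ, hA⟩
    refine ⟨(x.1 + w, x.2), hx, hx2, ?_, ?_⟩
    · change (x.1 + w) - w ∈ Q0
      rw [add_sub_cancel_right]
      exact hxQ
    · rw [T1_shX_diff, AlN_shX] at hA
      exact hA

private theorem T1_fin {Y : Set (CP (XX d))} (h : GoodX Y) {Q0 : Set (XX d)}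
    (hQ : Bornology.IsBounded Q0) : {x : CP (XX d) | x ∈ Y ∧ x.1 ∈ Q0}.Finite := by
  obtain ⟨R, hR⟩ := hQ.subset_ball (0 : XX d)
  refine (h.fin 0 R).subset ?_
  rintro x ⟨hx, hxQ⟩
  refine ⟨hx, ?_⟩
  have h1 := hR hxQ
  rw [Metric.mem_ball, dist_comm] at h1
  exact h1

theorem Lev_eventually {Y : Set (CP (XX d))} (h : GoodX Y) {Q0 : Set (XX d)}
    (hQ : Bornology.IsBounded Q0) (r : ℝ) :
    ∃ m₀ : ℕ, ∀ m : ℕ, m₀ ≤ m → (Lev Q0 r m Y ↔ Vev Q0 r Y) := by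
  have hfin := T1_fin h hQ
  choose! n hn using fun x (hx : x ∈ Y) => h.chain x hx r
  refine ⟨hfin.toFinset.sup n, fun m hm => ?_⟩
  refine exists_congr fun x => ?_
  constructor
  · rintro ⟨hx, hx2, hxQ, hA⟩
    have hmem : x ∈ hfin.toFinset := hfin.mem_toFinset.2 ⟨hx, hxQ⟩
    have hle : n x ≤ m := (Finset.le_sup hmem).trans hm
    exact ⟨hx, hx2, hxQ, (rec_AlN (MSX_rec h r) (fun _ _ => MSX_symm) hx le_rfl
      ((hn x hx).le hle)).2 hA⟩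
  · rintro ⟨hx, hx2, hxQ, hA⟩
    have hmem : x ∈ hfin.toFinset := hfin.mem_toFinset.2 ⟨hx, hxQ⟩
    have hle : n x ≤ m := (Finset.le_sup hmem).trans hm
    exact ⟨hx, hx2, hxQ, (rec_AlN (MSX_rec h r) (fun _ _ => MSX_symm) hx le_rfl
      ((hn x hx).le hle)).1 hA⟩

theorem Vev_anti {Y : Set (CP (XX d))} {Q0 : Set (XX d)} {r r' : ℝ} (hr : r ≤ r')
    (h : Vev Q0 r' Y) : Vev Q0 r Y := by
  obtain ⟨x, hx, hx2, hxQ, hA⟩ := h
  exact ⟨x, hx, hx2, hxQ, fun y hy => hr.trans (hA y hy)⟩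

theorem Vev_all {Y : Set (CP (XX d))} (h : GoodX Y) {Q0 : Set (XX d)}
    (hQ : Bornology.IsBounded Q0) (hV : ∀ r : ℕ, Vev Q0 r Y) :
    ∃ x ∈ Y, x.2 = 0 ∧ x.1 ∈ Q0 ∧ ∀ y, ¬ MSX Y x y := by
  classical
  by_contra hcon
  have hfin := T1_fin h hQ
  have hpart : ∀ x : CP (XX d), ∃ y : CP (XX d),
      (x ∈ Y ∧ x.2 = 0 ∧ x.1 ∈ Q0) → MSX Y x y := by
    intro x
    by_cases hx : x ∈ Y ∧ x.2 = 0 ∧ x.1 ∈ Q0
    · by_contra hno
      exact hcon ⟨x, hx.1, hx.2.1, hx.2.2, fun y hy => hno ⟨y, fun _ => hy⟩⟩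
    · exact ⟨x, fun h' => absurd h' hx⟩
  choose f hf using hpart
  obtain ⟨x, hx, hx2, hxQ, hA⟩ :=
    hV (hfin.toFinset.sup fun x => ⌊dist x.1 (f x).1⌋₊ + 1)
  have hmem : x ∈ hfin.toFinset := hfin.mem_toFinset.2 ⟨hx, hxQ⟩
  have h1 := hA (f x) (hf x ⟨hx, hx2, hxQ⟩)
  have h2 : ⌊dist x.1 (f x).1⌋₊ + 1 ≤ hfin.toFinset.sup fun x => ⌊dist x.1 (f x).1⌋₊ + 1 :=
    Finset.le_sup (f := fun x : CP (XX d) => ⌊dist x.1 (f x).1⌋₊ + 1) hmem
  have h3 : dist x.1 (f x).1 < (⌊dist x.1 (f x).1⌋₊ : ℝ) + 1 := Nat.lt_floor_add_one _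
  have h4 : ((⌊dist x.1 (f x).1⌋₊ + 1 : ℕ) : ℝ) ≤
      ((hfin.toFinset.sup fun x => ⌊dist x.1 (f x).1⌋₊ + 1 : ℕ) : ℝ) := by exact_mod_cast h2
  push_cast at h4
  linarith

end Pool.SM3X
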