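/-
SM3X.H5 : counts: definitions and measurability.
PROOF. `measurableSet_ncard`: induction on `k` over all `Θ`, `Y`: `k = 0` trivial; for a finite set `W`: `k + 1 ≤ W.ncard ↔ ∃ z ∈ W, k ≤ (W \ {z}).ncard` (`Set.ncard_sdiff_singleton_add_one` or similar); `MFam.exists` (M1) with the measurable set
`{(θ,z) | k ≤ (Y θ \ {z}).ncard}` (induction hypothesis for the family `(θ,z) ↦ Y θ \ {z}` on `Θ × CP (XX d)`, `MFam.comp`, `MFam.diff`).
`LSet_meas`: the family `l ↦ LSet A r m (GX Φ l)` is an MFam (`MFam.filter`, with the measurable set of all `(l,x)` with `x.2 = 0`, `x.1 ∈ A`, `AlN m (GX Φ l \ {x}) x r`, see `Lev_meas` in T1) of finite sets (`GX_finite`, C1).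
`LSet_loc`: if `Y`, `Y'` agree on that region then `LSet A r m Y = LSet A r m Y'` (proof of `Lev_loc` in T1: `AlN_congr_ball`, D2).
-/
import Pool.Agent.Lib.SM3X.T1
import Pool.Agent.Lib.SM3X.C1

set_option autoImplicit false

open MeasureTheory Set

namespace Pool.SM3X

variable {d : ℕ}

/-- the points of colour 0 in `A` which survive `m` steps of the recursion at level `r` -/
def LSet (A : Set (XX d)) (r : ℝ) (m : ℕ) (Y : Set (CP (XX d))) : Set (CP (XX d)) :=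
  {x | x ∈ Y ∧ x.2 = 0 ∧ x.1 ∈ A ∧ AlN m (Y \ {x}) x r}

/-- the points of colour 0 in `A` without a partner at distance `< r` -/
def VSet (A : Set (XX d)) (r : ℝ) (Y : Set (CP (XX d))) : Set (CP (XX d)) :=
  {x | x ∈ Y ∧ x.2 = 0 ∧ x.1 ∈ A ∧ ∀ y, MSX Y x y → r ≤ dist x.1 y.1}

/-- the unmatched points of colour 0 in `A` -/
def USet (A : Set (XX d)) (Y : Set (CP (XX d))) : Set (CP (XX d)) :=
  {x | x ∈ Y ∧ x.2 = 0 ∧ x.1 ∈ A ∧ ∀ y, ¬ MSX Y x y}

private theorem H5_ncard {W : Set (CP (XX d))} (hW : W.Finite) (k : ℕ) :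
    k + 1 ≤ W.ncard ↔ ∃ z ∈ W, k ≤ (W \ {z}).ncard := by
  constructor
  · intro h
    have hne : W.Nonempty := Set.nonempty_of_ncard_ne_zero (by omega)
    obtain ⟨z, hz⟩ := hne
    refine ⟨z, hz, ?_⟩
    have h1 := Set.ncard_sdiff_singleton_add_one hz hW
    omega
  · rintro ⟨z, hz, h⟩
    have h1 := Set.ncard_sdiff_singleton_add_one hz hW
    omega

private theorem H5_aux (k : ℕ) : ∀ {Θ : Type} [MeasurableSpace Θ] {Y : Θ → Set (CP (XX d))},
    MFam Y → (∀ θ, (Y θ).Finite) → MeasurableSet {θ | k ≤ (Y θ).ncard} := by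
  induction k with
  | zero =>
    intro Θ _ Y _ _
    have h0 : {θ | 0 ≤ (Y θ).ncard} = (Set.univ : Set Θ) := by
      ext θ
      simp
    rw [h0]
    exact MeasurableSet.univ
  | succ k ih =>
    intro Θ _ Y h hf
    have h1 : MeasurableSet {q : Θ × CP (XX d) | k ≤ (Y q.1 \ {q.2}).ncard} :=
      ih (MFam.diff (h.comp measurable_fst) measurable_snd)
        (fun q => (hf q.1).subset Set.sdiff_subset)
    have h2 := h.exists h1
    have h3 : {θ | k + 1 ≤ (Y θ).ncard} = {θ | ∃ z ∈ Y θ,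
        (θ, z) ∈ {q : Θ × CP (XX d) | k ≤ (Y q.1 \ {q.2}).ncard}} := by
      ext θ
      exact H5_ncard (hf θ) k
    rw [h3]
    exact h2

theorem measurableSet_ncard {Θ : Type} [MeasurableSpace Θ] {Y : Θ → Set (CP (XX d))}
    (h : MFam Y) (hf : ∀ θ, (Y θ).Finite) (k : ℕ) : MeasurableSet {θ | k ≤ (Y θ).ncard} :=
  H5_aux k h hf

private theorem H5_loc_aux {A : Set (XX d)} {r : ℝ} {m : ℕ} {Y Y' : Set (CP (XX d))}
    (h : ∀ y : CP (XX d), y.1 ∈ {z | ∃ x ∈ A, dist x z < m * |r| + 1} → (y ∈ Y ↔ y ∈ Y')) :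
    LSet A r m Y ⊆ LSet A r m Y' := by
  rintro x ⟨hx, hx2, hxQ, hA⟩
  have h0 : (0 : ℝ) ≤ m * |r| := mul_nonneg (Nat.cast_nonneg _) (abs_nonneg _)
  have hxx : x ∈ Y' := (h x ⟨x.1, hxQ, by rw [dist_self]; linarith⟩).1 hx
  refine ⟨hxx, hx2, hxQ, ?_⟩
  refine (AlN_congr_ball (n := m) (Y := Y \ {x}) (Y' := Y' \ {x}) (fun y hy => ?_)).1 hA
  have h1 : (m : ℝ) * r ≤ m * |r| := mul_le_mul_of_nonneg_left (le_abs_self r) (Nat.cast_nonneg _)
  have h2 := h y ⟨x.1, hxQ, by linarith⟩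
  constructor
  · rintro ⟨ha, hb⟩
    exact ⟨h2.1 ha, hb⟩
  · rintro ⟨ha, hb⟩
    exact ⟨h2.2 ha, hb⟩

theorem LSet_loc (A : Set (XX d)) (r : ℝ) (m k : ℕ) :
    Loc (fun Y => k ≤ (LSet A r m Y).ncard) {z | ∃ x ∈ A, dist x z < m * |r| + 1} := by
  intro Y Y' h
  have h1 : LSet A r m Y = LSet A r m Y' :=
    Set.Subset.antisymm (H5_loc_aux h) (H5_loc_aux fun y hy => (h y hy).symm)
  change k ≤ (LSet A r m Y).ncard ↔ k ≤ (LSet A r m Y').ncard
  rw [h1]

theorem LSet_meas (Φ : PhiM d) {A : Set (XX d)} (hA : MeasurableSet A) (r : ℝ) (m k : ℕ) :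
    MeasurableSet {l | k ≤ (LSet A r m (GX Φ l)).ncard} := by
  have h3 : MeasurableSet {q : List SM3.Pt × CP (XX d) | AlN m (GX Φ q.1 \ {q.2}) q.2 r} :=
    measurableSet_AlN m (MFam.diff ((MFam_GX Φ).comp measurable_fst) measurable_snd)
      measurable_snd measurable_const
  have h1 : MeasurableSet {q : List SM3.Pt × CP (XX d) | q.2.2 = 0} :=
    measurable_snd.snd (measurableSet_singleton (0 : Fin 3))
  have h2 : MeasurableSet {q : List SM3.Pt × CP (XX d) | q.2.1 ∈ A} :=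
    measurable_snd.fst hA
  have h := (MFam_GX Φ).filter (h1.inter (h2.inter h3))
  exact measurableSet_ncard h (fun l => (GX_finite Φ l).subset fun y hy => hy.1) k

end Pool.SM3X
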