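/-
SM3X.H6 : counts: limits of the sets.
PROOF. `LSet_eventually`: as `Lev_eventually` (T1): finitely many points in `A` (`GoodX.fin`), `rec_AlN` (D2) for `MSX Y`, `m` large.  `VSet_eventually`: as `Vev_all` (T1): for each of the finitely many points of colour 0 in `A` with a partner choose one partner `y`; `r₀` larger than these distances
(for `r > dist x.1 y.1`, `x ∉ VSet A r Y`); unmatched points are in all `VSet A r Y`.  `USet_ncard`: `x ↦ (x,0)` is a bijection of the two sets (`stable_iffX`, D4, for `T i = S i ω`, `SX S ω = {y | y.1 ∈ S y.2 ω}`): for `x ∈ S 0 ω`: `(∀ y, ¬ M x y) ↔ ∀ z, ¬ MSX (SX S ω) (x,0) z`.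
-/
import Pool.Agent.Lib.SM3X.H5
import Pool.Agent.Lib.SM3X.D4

set_option autoImplicit false

open MeasureTheory Set

namespace Pool.SM3X

variable {d : ℕ}

private theorem H6_fin {Y : Set (CP (XX d))} (h : GoodX Y) {A : Set (XX d)}
    (hA : Bornology.IsBounded A) : {x : CP (XX d) | x ∈ Y ∧ x.1 ∈ A}.Finite := by
  obtain ⟨R, hR⟩ := hA.subset_ball (0 : XX d)
  refine (h.fin 0 R).subset ?_
  rintro x ⟨hx, hxQ⟩
  refine ⟨hx, ?_⟩
  have h1 := hR hxQ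
  rw [Metric.mem_ball, dist_comm] at h1
  exact h1

theorem LSet_eventually {Y : Set (CP (XX d))} (h : GoodX Y) {A : Set (XX d)}
    (hA : Bornology.IsBounded A) (r : ℝ) :
    ∃ m₀ : ℕ, ∀ m : ℕ, m₀ ≤ m → LSet A r m Y = VSet A r Y := by
  have hfin := H6_fin h hA
  choose! n hn using fun x (hx : x ∈ Y) => h.chain x hx r
  refine ⟨hfin.toFinset.sup n, fun m hm => ?_⟩
  ext x
  constructor
  · rintro ⟨hx, hx2, hxQ, hx3⟩
    have hmem : x ∈ hfin.toFinset := hfin.mem_toFinset.2 ⟨hx, hxQ⟩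
    have hle : n x ≤ m := (Finset.le_sup hmem).trans hm
    exact ⟨hx, hx2, hxQ, (rec_AlN (MSX_rec h r) (fun _ _ => MSX_symm) hx le_rfl
      ((hn x hx).le hle)).2 hx3⟩
  · rintro ⟨hx, hx2, hxQ, hx3⟩
    have hmem : x ∈ hfin.toFinset := hfin.mem_toFinset.2 ⟨hx, hxQ⟩
    have hle : n x ≤ m := (Finset.le_sup hmem).trans hm
    exact ⟨hx, hx2, hxQ, (rec_AlN (MSX_rec h r) (fun _ _ => MSX_symm) hx le_rfl
      ((hn x hx).le hle)).1 hx3⟩

theorem VSet_eventually {Y : Set (CP (XX d))} (h : GoodX Y) {A : Set (XX d)}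
    (hA : Bornology.IsBounded A) :
    ∃ r₀ : ℕ, ∀ r : ℕ, r₀ ≤ r → VSet A (r : ℝ) Y = USet A Y := by
  classical
  have hfin := H6_fin h hA
  have hpart : ∀ x : CP (XX d), ∃ y : CP (XX d), (∃ z, MSX Y x z) → MSX Y x y := by
    intro x
    by_cases hx : ∃ z, MSX Y x z
    · obtain ⟨z, hz⟩ := hx
      exact ⟨z, fun _ => hz⟩
    · exact ⟨x, fun h' => absurd h' hx⟩
  choose f hf using hpart
  refine ⟨hfin.toFinset.sup fun x => ⌊dist x.1 (f x).1⌋₊ + 1, fun r hr => ?_⟩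
  ext x
  constructor
  · rintro ⟨hx, hx2, hxQ, hx3⟩
    refine ⟨hx, hx2, hxQ, fun y hy => ?_⟩
    have hmem : x ∈ hfin.toFinset := hfin.mem_toFinset.2 ⟨hx, hxQ⟩
    have h1 := hx3 (f x) (hf x ⟨y, hy⟩)
    have h2 : ⌊dist x.1 (f x).1⌋₊ + 1 ≤ hfin.toFinset.sup fun x => ⌊dist x.1 (f x).1⌋₊ + 1 :=
      Finset.le_sup (f := fun x : CP (XX d) => ⌊dist x.1 (f x).1⌋₊ + 1) hmem
    have h3 : dist x.1 (f x).1 < (⌊dist x.1 (f x).1⌋₊ : ℝ) + 1 := Nat.lt_floor_add_one _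
    have h4 : ((⌊dist x.1 (f x).1⌋₊ + 1 : ℕ) : ℝ) ≤ (r : ℝ) := by exact_mod_cast h2.trans hr
    push_cast at h4
    linarith
  · rintro ⟨hx, hx2, hxQ, hx3⟩
    exact ⟨hx, hx2, hxQ, fun y hy => absurd hy (hx3 y)⟩

theorem LSet_sub (A : Set (XX d)) (r : ℝ) (m : ℕ) (Y : Set (CP (XX d))) :
    LSet A r m Y ⊆ LSet A r 0 Y := by
  rintro x ⟨hx, hx2, hxQ, -⟩
  exact ⟨hx, hx2, hxQ, trivial⟩

theorem VSet_sub (A : Set (XX d)) (r : ℝ) (Y : Set (CP (XX d))) :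
    VSet A r Y ⊆ LSet A r 0 Y := by
  rintro x ⟨hx, hx2, hxQ, -⟩
  exact ⟨hx, hx2, hxQ, trivial⟩

theorem LSet_zero_finite {Y : Set (CP (XX d))} (h : GoodX Y) {A : Set (XX d)}
    (hA : Bornology.IsBounded A) (r : ℝ) : (LSet A r 0 Y).Finite := by
  refine (H6_fin h hA).subset ?_
  rintro x ⟨hx, -, hxQ, -⟩
  exact ⟨hx, hxQ⟩

theorem USet_ncard {Ω : Type} {S : Fin 3 → Ω → Set (XX d)} {ω : Ω} (h : GoodX (SX S ω))
    {M : XX d → XX d → Prop} (hM : StableX (fun i => S i ω) M) (A : Set (XX d)) :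
    {x : XX d | x ∈ S 0 ω ∧ x ∈ A ∧ ∀ y, ¬ M x y}.ncard = (USet A (SX S ω)).ncard := by
  have hinj : Function.Injective (fun x : XX d => ((x, 0) : CP (XX d))) := by
    intro x y hxy
    exact congrArg Prod.fst hxy
  rw [← Set.ncard_image_of_injective _ hinj]
  congr 1
  ext y
  constructor
  · rintro ⟨x, ⟨hx, hxA, hx3⟩, rfl⟩
    refine ⟨hx, rfl, hxA, fun z hz => ?_⟩
    obtain ⟨y, hy⟩ := (stable_iffX (T := fun i => S i ω) h hM (i := 0) hx).2 ⟨z, hz⟩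
    exact hx3 y hy
  · rintro ⟨hy, hy2, hyA, hy3⟩
    obtain ⟨x, i⟩ := y
    simp only at hy2
    subst hy2
    refine ⟨x, ⟨hy, hyA, fun z hz => ?_⟩, rfl⟩
    obtain ⟨w, hw⟩ := (stable_iffX (T := fun i => S i ω) h hM (i := 0) hy).1 ⟨z, hz⟩
    exact hy3 w hw

end Pool.SM3X
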