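/-
SM3X.T3 : second moment bound.
PROOF. Let `Q0 = Φ.φ ⁻¹' Ioo 0 1` (volume 1: `Φ.vol`), `N l = xsum Φ (fun x q => ind (x.2 = 0 ∧ x.1 ∈ Q0 ∧ AlN m (GX Φ q) x r)) l`.
(1) `∫⁻ N = ∫⁻ x in Φ.φ ⁻¹' Ioo (-T) T, ofReal (p 0) * ind (x ∈ Q0) * Pm {l | AlN m (GX Φ l) (x,0) r}` (`mecke_X`, P3; the other colours give 0).  For `x ∈ Q0`: `Pm {AlN m ..} ≥ fT 0 x r - V^m/m!` (`Al_iff_AlN`, D2, `escape`, C3) and so
`ofReal (p 0) * .. ≥ ofReal (κ - κ/2)`; `∫⁻ N ≥ ofReal (κ/2)` (`T ≥ 1`).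
(2) a.e. `l` (P6): `N l = number of x ∈ GX Φ l with x.2 = 0, x.1 ∈ Q0, AlN m (GX Φ l \ {x}) x r` (`xsum_eq`, C1) `≤ length of SM3.wf 0 1 l`, and `N l ≠ 0` iff `Lev Q0 r m (GX Φ l)`.  `∫⁻ (length (wf 0 1 l))^2 = 2` (`SM3.lintegral_Pm_wf`, A8, `SM3.lintegral_length_sq`, A4).
(3) `N ≤ (κ/8) * length^2 + (2/κ) * 1_{Lev}` (arithmetic-geometric mean), so `κ/2 ≤ κ/4 + (2/κ) Pm {Lev}`.
-/
import Pool.Agent.Lib.SM3X.C3
import Pool.Agent.Lib.SM3X.P6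
import Pool.Agent.Lib.SM3X.T1
import Pool.Agent.Lib.SM3.A8

set_option autoImplicit false

open MeasureTheory Set

namespace Pool.SM3X

private theorem T3_ind_t {P : Prop} (h : P) : SM3.ind P = 1 := by
  unfold SM3.ind
  rw [if_pos h]

private theorem T3_ind_f {P : Prop} (h : ¬ P) : SM3.ind P = 0 := by
  unfold SM3.ind
  rw [if_neg h]

private theorem T3_ind_le (P : Prop) : SM3.ind P ≤ 1 := by
  by_cases h : P
  · rw [T3_ind_t h]
  · rw [T3_ind_f h]; exact zero_le_one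

private theorem T3_lintegral_ind {α : Type} [MeasurableSpace α] (μ : Measure α) {Q : α → Prop}
    (hQ : MeasurableSet {a | Q a}) : ∫⁻ a, SM3.ind (Q a) ∂μ = μ {a | Q a} := by
  rw [← lintegral_indicator_one hQ]
  refine lintegral_congr fun a => ?_
  by_cases h : Q a
  · rw [T3_ind_t h, Set.indicator_of_mem (show a ∈ {a | Q a} from h)]
    rfl
  · rw [T3_ind_f h, Set.indicator_of_notMem (show a ∉ {a | Q a} from h)]

private theorem T3_meas {d : ℕ} (Φ : PhiM d) (r : ℝ) (m : ℕ) :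
    MeasurableSet {q : CP (XX d) × List SM3.Pt |
      q.1.2 = 0 ∧ q.1.1 ∈ Φ.φ ⁻¹' Ioo 0 1 ∧ AlN m (GX Φ q.2) q.1 r} := by
  have h1 : MeasurableSet {q : CP (XX d) × List SM3.Pt | q.1.2 = 0} :=
    (measurable_snd.comp measurable_fst) (measurableSet_singleton (0 : Fin 3))
  have h2 : MeasurableSet {q : CP (XX d) × List SM3.Pt | q.1.1 ∈ Φ.φ ⁻¹' Ioo 0 1} :=
    (Φ.hφ.comp (measurable_fst.comp measurable_fst)) measurableSet_Ioo
  have h3 : MeasurableSet {q : CP (XX d) × List SM3.Pt | AlN m (GX Φ q.2) q.1 r} :=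
    measurableSet_AlN m ((MFam_GX Φ).comp measurable_snd) measurable_fst measurable_const
  exact h1.inter (h2.inter h3)

private theorem T3_pt {d : ℕ} (hd : 1 ≤ d) {p : Fin 3 → ℝ} (hp : SM3.PV p) (Φ : PhiM d) {T : ℝ}
    (hT : 0 ≤ T) (r : ℝ) (m : ℕ) {κ : ℝ} (x : XX d)
    (hf : κ ≤ p 0 * fT Φ p T 0 x r)
    (hm : VR d r ^ m / (m.factorial : ℝ) ≤ κ / 2) :
    ENNReal.ofReal (κ / 2) ≤ ENNReal.ofReal (p 0) *
      SM3.Pm p (-T) T {l | AlN m (GX Φ l) (x, 0) r} := by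
  have hprob : IsProbabilityMeasure (SM3.Pm p (-T) T) := SM3.isProb_Pm hp (by linarith)
  have hp0 : 0 < p 0 := hp.pos 0
  have hp1 : p 0 ≤ 1 := by
    have := hp.sum
    have h1 := hp.pos 1
    have h2 := hp.pos 2
    linarith
  have hesc := escape hd hp Φ hT m x r
  have hfin : vB d r ≠ ⊤ := measure_ball_lt_top.ne
  have hesc2 : (SM3.Pm p (-T) T).real {l | ¬ NoCh m (GX Φ l) x r} ≤ κ / 2 := by
    refine le_trans ?_ hm
    unfold Measure.real VR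
    rw [← ENNReal.toReal_pow, ← ENNReal.toReal_natCast m.factorial, ← ENNReal.toReal_div]
    refine ENNReal.toReal_mono ?_ hesc
    refine ENNReal.div_ne_top (ENNReal.pow_ne_top hfin) ?_
    exact_mod_cast Nat.factorial_ne_zero m
  have hsub : {l | Al (GX Φ l) (x, (0 : Fin 3)) r} ⊆
      {l | AlN m (GX Φ l) (x, (0 : Fin 3)) r} ∪ {l | ¬ NoCh m (GX Φ l) x r} := by
    intro l hl
    by_cases h : NoCh m (GX Φ l) x r
    · left
      exact (Al_iff_AlN (a := (x, (0 : Fin 3))) h).1 hl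
    · right
      exact h
  have hle : fT Φ p T 0 x r ≤ (SM3.Pm p (-T) T).real {l | AlN m (GX Φ l) (x, (0 : Fin 3)) r}
      + (SM3.Pm p (-T) T).real {l | ¬ NoCh m (GX Φ l) x r} := by
    unfold fT
    exact (measureReal_mono hsub).trans (measureReal_union_le _ _)
  set A := (SM3.Pm p (-T) T).real {l | AlN m (GX Φ l) (x, (0 : Fin 3)) r} with hA
  have hκ2 : κ / 2 ≤ p 0 * A := by
    have h0 : 0 ≤ (SM3.Pm p (-T) T).real {l | ¬ NoCh m (GX Φ l) x r} := measureReal_nonneg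
    have h1 : κ ≤ p 0 * (A + (SM3.Pm p (-T) T).real {l | ¬ NoCh m (GX Φ l) x r}) :=
      hf.trans (mul_le_mul_of_nonneg_left hle hp0.le)
    have h2 : p 0 * (SM3.Pm p (-T) T).real {l | ¬ NoCh m (GX Φ l) x r} ≤ κ / 2 := by
      calc p 0 * (SM3.Pm p (-T) T).real {l | ¬ NoCh m (GX Φ l) x r}
          ≤ 1 * (SM3.Pm p (-T) T).real {l | ¬ NoCh m (GX Φ l) x r} :=
            mul_le_mul_of_nonneg_right hp1 h0
        _ ≤ κ / 2 := by rw [one_mul]; exact hesc2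
    nlinarith
  calc ENNReal.ofReal (κ / 2) ≤ ENNReal.ofReal (p 0 * A) := ENNReal.ofReal_le_ofReal hκ2
    _ = ENNReal.ofReal (p 0) * ENNReal.ofReal A := ENNReal.ofReal_mul hp0.le
    _ = ENNReal.ofReal (p 0) * SM3.Pm p (-T) T {l | AlN m (GX Φ l) (x, (0 : Fin 3)) r} := by
        rw [hA, ofReal_measureReal (measure_ne_top _ _)]

private theorem T3_count {d : ℕ} (Φ : PhiM d) (r : ℝ) (m : ℕ) {l : List SM3.Pt} (hl : l.Nodup)
    (hr : ∀ y ∈ l, Φ.φ (Φ.ψ y.1) = y.1) :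
    xsum Φ (fun x q => SM3.ind (x.2 = 0 ∧ x.1 ∈ Φ.φ ⁻¹' Ioo 0 1 ∧ AlN m (GX Φ q) x r)) l
      ≤ ((SM3.wf 0 1 l).length : ENNReal) * SM3.ind (Lev (Φ.φ ⁻¹' Ioo 0 1) r m (GX Φ l)) := by
  classical
  rw [xsum_eq Φ hl hr (fun x Y => SM3.ind (x.2 = 0 ∧ x.1 ∈ Φ.φ ⁻¹' Ioo 0 1 ∧ AlN m Y x r))]
  by_cases hL : Lev (Φ.φ ⁻¹' Ioo 0 1) r m (GX Φ l)
  · rw [T3_ind_t hL, mul_one]
    have h1 : ∑ y ∈ (GX_finite Φ l).toFinset,
        SM3.ind (y.2 = 0 ∧ y.1 ∈ Φ.φ ⁻¹' Ioo 0 1 ∧ AlN m (GX Φ l \ {y}) y r)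
        ≤ ∑ y ∈ (GX_finite Φ l).toFinset, SM3.ind (y.1 ∈ Φ.φ ⁻¹' Ioo 0 1) := by
      refine Finset.sum_le_sum fun y _ => ?_
      by_cases h : y.2 = 0 ∧ y.1 ∈ Φ.φ ⁻¹' Ioo 0 1 ∧ AlN m (GX Φ l \ {y}) y r
      · rw [T3_ind_t h, T3_ind_t h.2.1]
      · rw [T3_ind_f h]
        exact zero_le
    refine h1.trans ?_
    have h2 : ∑ y ∈ (GX_finite Φ l).toFinset, SM3.ind (y.1 ∈ Φ.φ ⁻¹' Ioo 0 1)
        = (((GX_finite Φ l).toFinset.filter (fun y => y.1 ∈ Φ.φ ⁻¹' Ioo 0 1)).card : ENNReal) := by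
      rw [Finset.card_filter]
      push_cast
      refine Finset.sum_congr rfl fun y _ => ?_
      by_cases h : y.1 ∈ Φ.φ ⁻¹' Ioo 0 1
      · rw [T3_ind_t h, if_pos h]
      · rw [T3_ind_f h, if_neg h]
    rw [h2]
    have h3 : ((GX_finite Φ l).toFinset.filter (fun y => y.1 ∈ Φ.φ ⁻¹' Ioo 0 1)).card
        ≤ (SM3.wf 0 1 l).toFinset.card := by
      refine Finset.card_le_card_of_injOn (fun y => (Φ.φ y.1, y.2)) ?_ ?_
      · intro y hy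
        rw [Finset.mem_coe, Finset.mem_filter, Set.Finite.mem_toFinset] at hy
        rw [Finset.mem_coe, List.mem_toFinset, SM3.mem_wf]
        exact ⟨hy.1, hy.2.1, hy.2.2⟩
      · intro y _ z _ hyz
        have h6 : (Φ.φ y.1, y.2) = (Φ.φ z.1, z.2) := hyz
        obtain ⟨h4, h5⟩ := Prod.mk.injEq _ _ _ _ ▸ h6
        refine Prod.ext ?_ h5
        rw [← Φ.left y.1, ← Φ.left z.1, h4]
    have h4 : (SM3.wf 0 1 l).toFinset.card ≤ (SM3.wf 0 1 l).length := List.toFinset_card_le _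
    exact_mod_cast h3.trans h4
  · rw [T3_ind_f hL, mul_zero]
    refine le_of_eq (Finset.sum_eq_zero fun y hy => ?_)
    rw [Set.Finite.mem_toFinset] at hy
    exact T3_ind_f fun h => hL ⟨y, hy, h.1, h.2.1, h.2.2⟩

private theorem T3_amgm {κ : ℝ} (hκ : 0 < κ) (n : ℕ) :
    (n : ENNReal) ≤ ENNReal.ofReal (κ / 8) * (n : ENNReal) ^ 2 + ENNReal.ofReal (2 / κ) := by
  have h1 : (n : ℝ) ≤ κ / 8 * (n : ℝ) ^ 2 + 2 / κ := by
    have h2 : 0 ≤ (κ * n - 4) ^ 2 := sq_nonneg _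
    rw [← sub_nonneg]
    have h3 : κ / 8 * (n : ℝ) ^ 2 + 2 / κ - n = (κ * n - 4) ^ 2 / (8 * κ) := by
      field_simp
      ring
    rw [h3]
    positivity
  rw [← ENNReal.ofReal_natCast n, ← ENNReal.ofReal_pow (by positivity),
    ← ENNReal.ofReal_mul (by positivity), ← ENNReal.ofReal_add (by positivity) (by positivity)]
  exact ENNReal.ofReal_le_ofReal h1

theorem Lev_lower {d : ℕ} (hd : 1 ≤ d) {p : Fin 3 → ℝ} (hp : SM3.PV p) (Φ : PhiM d) {T : ℝ}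
    (hT : 1 ≤ T) (r : ℝ) (m : ℕ) {κ : ℝ} (hκ : 0 < κ)
    (hf : ∀ x, 0 < Φ.φ x → Φ.φ x < 1 → κ ≤ p 0 * fT Φ p T 0 x r)
    (hm : VR d r ^ m / (m.factorial : ℝ) ≤ κ / 2) :
    κ ^ 2 / 8 ≤ (SM3.Pm p (-T) T).real {l | Lev (Φ.φ ⁻¹' Ioo 0 1) r m (GX Φ l)} := by
  have hprob : IsProbabilityMeasure (SM3.Pm p (-T) T) := SM3.isProb_Pm hp (by linarith)
  set μ := SM3.Pm p (-T) T with hμ
  set G : CP (XX d) → List SM3.Pt → ENNReal :=
    fun x q => SM3.ind (x.2 = 0 ∧ x.1 ∈ Φ.φ ⁻¹' Ioo 0 1 ∧ AlN m (GX Φ q) x r) with hG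
  have hGm : Measurable (fun q : CP (XX d) × List SM3.Pt => G q.1 q.2) :=
    SM3.measurable_ind (T3_meas Φ r m)
  have hQm : MeasurableSet (Φ.φ ⁻¹' Ioo (0 : ℝ) 1) := Φ.hφ measurableSet_Ioo
  have hvol : (volume : Measure (XX d)) (Φ.φ ⁻¹' Ioo (0 : ℝ) 1) = 1 := by
    rw [← Measure.map_apply Φ.hφ measurableSet_Ioo, Φ.vol, Real.volume_Ioo]
    simp
  -- lower bound of the first moment
  have hlow : ENNReal.ofReal (κ / 2) ≤ ∫⁻ l, xsum Φ G l ∂μ := by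
    rw [mecke_X Φ hGm]
    have hsub : Φ.φ ⁻¹' Ioo (0 : ℝ) 1 ⊆ Φ.φ ⁻¹' Ioo (-T) T := by
      refine Set.preimage_mono (Ioo_subset_Ioo ?_ hT)
      linarith
    refine le_trans ?_ (lintegral_mono_set hsub)
    have h1 : ENNReal.ofReal (κ / 2) = ∫⁻ _ in Φ.φ ⁻¹' Ioo (0 : ℝ) 1, ENNReal.ofReal (κ / 2) := by
      rw [setLIntegral_const, hvol, mul_one]
    rw [h1]
    refine setLIntegral_mono' hQm fun x hx => ?_
    have h2 : ENNReal.ofReal (p 0) * ∫⁻ l, G (x, 0) l ∂μ ≤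
        ∑ c : Fin 3, ENNReal.ofReal (p c) * ∫⁻ l, G (x, c) l ∂μ :=
      Finset.single_le_sum (f := fun c : Fin 3 => ENNReal.ofReal (p c) * ∫⁻ l, G (x, c) l ∂μ)
        (fun _ _ => zero_le) (Finset.mem_univ 0)
    refine le_trans ?_ h2
    have h3 : ∫⁻ l, G (x, 0) l ∂μ = μ {l | AlN m (GX Φ l) (x, 0) r} := by
      rw [← T3_lintegral_ind μ (measurableSet_AlN m (MFam_GX Φ) measurable_const measurable_const)]
      refine lintegral_congr fun l => ?_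
      show SM3.ind _ = SM3.ind _
      by_cases h : AlN m (GX Φ l) (x, 0) r
      · rw [T3_ind_t h, T3_ind_t ⟨rfl, hx, h⟩]
      · rw [T3_ind_f h, T3_ind_f fun h' => h h'.2.2]
    rw [h3]
    exact T3_pt hd hp Φ (by linarith) r m x (hf x hx.1 hx.2) hm
  -- upper bound
  have hLm : MeasurableSet {l | Lev (Φ.φ ⁻¹' Ioo 0 1) r m (GX Φ l)} := Lev_meas Φ hQm r m
  have hup : ∫⁻ l, xsum Φ G l ∂μ ≤ ENNReal.ofReal (κ / 8) * 2 +
      ENNReal.ofReal (2 / κ) * μ {l | Lev (Φ.φ ⁻¹' Ioo 0 1) r m (GX Φ l)} := by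
    have h1 : ∫⁻ l, xsum Φ G l ∂μ ≤ ∫⁻ l, (ENNReal.ofReal (κ / 8) *
        ((SM3.wf 0 1 l).length : ENNReal) ^ 2 + ENNReal.ofReal (2 / κ) *
          SM3.ind (Lev (Φ.φ ⁻¹' Ioo 0 1) r m (GX Φ l))) ∂μ := by
      refine lintegral_mono_ae ?_
      filter_upwards [ae_list p Φ T] with l hl
      refine (T3_count Φ r m hl.1 fun y hy => (hl.2 y hy).2.2).trans ?_
      by_cases h : Lev (Φ.φ ⁻¹' Ioo 0 1) r m (GX Φ l)
      · rw [T3_ind_t h, mul_one, mul_one]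
        exact T3_amgm hκ _
      · rw [T3_ind_f h, mul_zero]
        exact zero_le
    refine h1.trans (le_of_eq ?_)
    have hlm : Measurable (fun l : List SM3.Pt => (l.length : ENNReal) ^ 2) := by
      have h0 : Measurable (fun n : ℕ => (n : ENNReal) ^ 2) := measurable_from_top
      exact h0.comp SM3.measurable_lengthL
    have hlm2 : Measurable (fun l : List SM3.Pt => ((SM3.wf 0 1 l).length : ENNReal) ^ 2) :=
      hlm.comp (SM3.measurable_wf 0 1)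
    rw [lintegral_add_left (hlm2.const_mul _), lintegral_const_mul _ hlm2,
      lintegral_const_mul _ (SM3.measurable_ind hLm), T3_lintegral_ind μ hLm,
      SM3.lintegral_Pm_wf hp (by linarith : -T ≤ (0 : ℝ)) zero_le_one hT hlm,
      SM3.lintegral_length_sq hp]
  have hfinal := hlow.trans hup
  have h8 : ENNReal.ofReal (κ / 8) * 2 + ENNReal.ofReal (2 / κ) *
      μ {l | Lev (Φ.φ ⁻¹' Ioo 0 1) r m (GX Φ l)}
      = ENNReal.ofReal (κ / 4 + 2 / κ * μ.real {l | Lev (Φ.φ ⁻¹' Ioo 0 1) r m (GX Φ l)}) := by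
    rw [ENNReal.ofReal_add (by positivity) (by positivity), ENNReal.ofReal_mul (by positivity),
      ofReal_measureReal (measure_ne_top _ _)]
    congr 1
    have h2 : (2 : ENNReal) = ENNReal.ofReal 2 := by simp
    rw [h2, ← ENNReal.ofReal_mul (by positivity)]
    congr 1
    ring
  rw [h8, ENNReal.ofReal_le_ofReal_iff (by positivity)] at hfinal
  have h9 : κ / 4 ≤ 2 / κ * μ.real {l | Lev (Φ.φ ⁻¹' Ioo 0 1) r m (GX Φ l)} := by linarith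
  have h10 : κ / 4 * (κ / 2) ≤ 2 / κ * μ.real {l | Lev (Φ.φ ⁻¹' Ioo 0 1) r m (GX Φ l)} * (κ / 2) :=
    mul_le_mul_of_nonneg_right h9 (by positivity)
  have h11 : 2 / κ * μ.real {l | Lev (Φ.φ ⁻¹' Ioo 0 1) r m (GX Φ l)} * (κ / 2)
      = μ.real {l | Lev (Φ.φ ⁻¹' Ioo 0 1) r m (GX Φ l)} := by
    field_simp
  rw [h11] at h10
  linarith [h10]

end Pool.SM3X
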