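/-
SM3X.H7 : the mean number of points of colour 0 which survive `m` steps, in the window.
PROOF. `mean_LSet`: a.e. `l` (`ae_list`, P6): `(LSet A r m (GX Φ l)).ncard = xsum Φ (fun x q => ind (x.2 = 0 ∧ x.1 ∈ A ∧ AlN m (GX Φ q) x r)) l` (`xsum_eq`, C1; a sum of indicators over the finite set `GX Φ l`; compare the private lemma T3_count in T3).  `mecke_X` (P3); the colours `≠ 0` give
`0`, for the colour `0` the integrand is `ofReal (p 0) * ind (x ∈ A) * Pm {l | AlN m (GX Φ l) (x,0) r}`; `A ⊆ φ ⁻¹' Ioo (-T) T`.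
`AlN_near`: `{Al} ∆ {AlN m} ⊆ {¬ NoCh m}` (`Al_iff_AlN`, D2), `escape` (C3); see the private lemma T3_pt in T3.
`mean_bounds`: for `x ∈ A`: `a - 2 η ≤ p 0 * (Pm {AlN m ..}).toReal ≤ b + 2 η` (`p 0 ≤ 1`); integrate over `A` (measurability of `x ↦ Pm {..}` is not needed for the lower and upper bound of the lower integral: `lintegral_mono`, `setLIntegral_const`).
-/
import Pool.Agent.Lib.SM3X.H5
import Pool.Agent.Lib.SM3X.T3

set_option autoImplicit false

open MeasureTheory Set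

namespace Pool.SM3X

variable {d : ℕ}

private theorem H7_ind_t {P : Prop} (h : P) : SM3.ind P = 1 := by
  unfold SM3.ind
  rw [if_pos h]

private theorem H7_ind_f {P : Prop} (h : ¬ P) : SM3.ind P = 0 := by
  unfold SM3.ind
  rw [if_neg h]

private theorem H7_lintegral_ind {α : Type} [MeasurableSpace α] (μ : Measure α) {Q : α → Prop}
    (hQ : MeasurableSet {a | Q a}) : ∫⁻ a, SM3.ind (Q a) ∂μ = μ {a | Q a} := by
  rw [← lintegral_indicator_one hQ]
  refine lintegral_congr fun a => ?_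
  by_cases h : Q a
  · rw [H7_ind_t h, Set.indicator_of_mem (show a ∈ {a | Q a} from h)]
    rfl
  · rw [H7_ind_f h, Set.indicator_of_notMem (show a ∉ {a | Q a} from h)]

private theorem H7_meas (Φ : PhiM d) {A : Set (XX d)} (hA : MeasurableSet A) (r : ℝ) (m : ℕ) :
    MeasurableSet {q : CP (XX d) × List SM3.Pt |
      q.1.2 = 0 ∧ q.1.1 ∈ A ∧ AlN m (GX Φ q.2) q.1 r} := by
  have h1 : MeasurableSet {q : CP (XX d) × List SM3.Pt | q.1.2 = 0} :=
    (measurable_snd.comp measurable_fst) (measurableSet_singleton (0 : Fin 3))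
  have h2 : MeasurableSet {q : CP (XX d) × List SM3.Pt | q.1.1 ∈ A} :=
    (measurable_fst.comp measurable_fst) hA
  have h3 : MeasurableSet {q : CP (XX d) × List SM3.Pt | AlN m (GX Φ q.2) q.1 r} :=
    measurableSet_AlN m ((MFam_GX Φ).comp measurable_snd) measurable_fst measurable_const
  exact h1.inter (h2.inter h3)

private theorem H7_count (Φ : PhiM d) (A : Set (XX d)) (r : ℝ) (m : ℕ) {l : List SM3.Pt}
    (hl : l.Nodup) (hr : ∀ y ∈ l, Φ.φ (Φ.ψ y.1) = y.1) :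
    ((LSet A r m (GX Φ l)).ncard : ENNReal) =
      xsum Φ (fun x q => SM3.ind (x.2 = 0 ∧ x.1 ∈ A ∧ AlN m (GX Φ q) x r)) l := by
  classical
  rw [xsum_eq Φ hl hr (fun x Y => SM3.ind (x.2 = 0 ∧ x.1 ∈ A ∧ AlN m Y x r))]
  have h2 : ∑ y ∈ (GX_finite Φ l).toFinset,
      SM3.ind (y.2 = 0 ∧ y.1 ∈ A ∧ AlN m (GX Φ l \ {y}) y r)
      = (((GX_finite Φ l).toFinset.filter
        (fun y => y.2 = 0 ∧ y.1 ∈ A ∧ AlN m (GX Φ l \ {y}) y r)).card : ENNReal) := by
    rw [Finset.card_filter]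
    push_cast
    refine Finset.sum_congr rfl fun y _ => ?_
    by_cases h : y.2 = 0 ∧ y.1 ∈ A ∧ AlN m (GX Φ l \ {y}) y r
    · rw [H7_ind_t h, if_pos h]
    · rw [H7_ind_f h, if_neg h]
  rw [h2]
  congr 1
  rw [← Set.ncard_coe_finset]
  congr 1
  ext y
  simp only [LSet, Set.mem_setOf_eq, Finset.coe_filter, Set.Finite.mem_toFinset]

theorem mean_LSet (hd : 1 ≤ d) {p : Fin 3 → ℝ} (hp : SM3.PV p) (Φ : PhiM d) {T : ℝ} (hT : 0 ≤ T)
    {A : Set (XX d)} (hA : MeasurableSet A) (hAT : ∀ x ∈ A, -T < Φ.φ x ∧ Φ.φ x < T) (r : ℝ)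
    (m : ℕ) :
    ∫⁻ l, ((LSet A r m (GX Φ l)).ncard : ENNReal) ∂(SM3.Pm p (-T) T) =
      ENNReal.ofReal (p 0) * ∫⁻ x in A, SM3.Pm p (-T) T {l | AlN m (GX Φ l) (x, 0) r} := by
  set μ := SM3.Pm p (-T) T with hμ
  set G : CP (XX d) → List SM3.Pt → ENNReal :=
    fun x q => SM3.ind (x.2 = 0 ∧ x.1 ∈ A ∧ AlN m (GX Φ q) x r) with hG
  have hGm : Measurable (fun q : CP (XX d) × List SM3.Pt => G q.1 q.2) :=
    SM3.measurable_ind (H7_meas Φ hA r m)
  have h1 : ∫⁻ l, ((LSet A r m (GX Φ l)).ncard : ENNReal) ∂μ = ∫⁻ l, xsum Φ G l ∂μ := by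
    refine lintegral_congr_ae ?_
    filter_upwards [ae_list p Φ T] with l hl
    exact H7_count Φ A r m hl.1 fun y hy => (hl.2 y hy).2.2
  rw [h1, mecke_X Φ hGm]
  have h2 : ∀ x : XX d, ∑ c : Fin 3, ENNReal.ofReal (p c) * ∫⁻ l, G (x, c) l ∂μ =
      A.indicator (fun x => ENNReal.ofReal (p 0) * μ {l | AlN m (GX Φ l) (x, 0) r}) x := by
    intro x
    have hz : ∀ c : Fin 3, c ≠ 0 → ∫⁻ l, G (x, c) l ∂μ = 0 := by
      intro c hc
      have : ∀ l, G (x, c) l = 0 := fun l => H7_ind_f fun h => hc h.1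
      simp only [this, lintegral_zero]
    rw [Fin.sum_univ_three, hz 1 (by decide), hz 2 (by decide), mul_zero, mul_zero, add_zero,
      add_zero]
    by_cases hx : x ∈ A
    · rw [Set.indicator_of_mem hx]
      congr 1
      rw [← H7_lintegral_ind μ (measurableSet_AlN m (MFam_GX Φ) measurable_const measurable_const)]
      refine lintegral_congr fun l => ?_
      show SM3.ind _ = SM3.ind _
      by_cases h : AlN m (GX Φ l) (x, 0) r
      · rw [H7_ind_t h, H7_ind_t ⟨rfl, hx, h⟩]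
      · rw [H7_ind_f h, H7_ind_f fun h' => h h'.2.2]
    · rw [Set.indicator_of_notMem hx]
      have : ∀ l, G (x, 0) l = 0 := fun l => H7_ind_f fun h => hx h.2.1
      simp only [this, lintegral_zero, mul_zero]
  refine (lintegral_congr h2).trans ?_
  rw [setLIntegral_indicator hA]
  have h3 : A ∩ Φ.φ ⁻¹' Ioo (-T) T = A := Set.inter_eq_left.2 fun x hx => hAT x hx
  rw [h3, lintegral_const_mul' _ _ ENNReal.ofReal_ne_top]

theorem AlN_near (hd : 1 ≤ d) {p : Fin 3 → ℝ} (hp : SM3.PV p) (Φ : PhiM d) {T : ℝ} (hT : 0 ≤ T)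
    (r : ℝ) (m : ℕ) (x : XX d) :
    |(SM3.Pm p (-T) T).real {l | AlN m (GX Φ l) (x, 0) r} - fT Φ p T 0 x r|
      ≤ VR d r ^ m / (m.factorial : ℝ) := by
  have hprob : IsProbabilityMeasure (SM3.Pm p (-T) T) := SM3.isProb_Pm hp (by linarith)
  have hesc := escape hd hp Φ hT m x r
  have hfin : vB d r ≠ ⊤ := measure_ball_lt_top.ne
  have hesc2 : (SM3.Pm p (-T) T).real {l | ¬ NoCh m (GX Φ l) x r}
      ≤ VR d r ^ m / (m.factorial : ℝ) := by
    unfold Measure.real VR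
    rw [← ENNReal.toReal_pow, ← ENNReal.toReal_natCast m.factorial, ← ENNReal.toReal_div]
    refine ENNReal.toReal_mono ?_ hesc
    refine ENNReal.div_ne_top (ENNReal.pow_ne_top hfin) ?_
    exact_mod_cast Nat.factorial_ne_zero m
  have hsub : {l | Al (GX Φ l) (x, (0 : Fin 3)) r} ⊆
      {l | AlN m (GX Φ l) (x, (0 : Fin 3)) r} ∪ {l | ¬ NoCh m (GX Φ l) x r} := by
    intro l hl
    by_cases h : NoCh m (GX Φ l) x r
    · left
      exact (Al_iff_AlN (a := (x, (0 : Fin 3))) h).1 hl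
    · right
      exact h
  have hsub' : {l | AlN m (GX Φ l) (x, (0 : Fin 3)) r} ⊆
      {l | Al (GX Φ l) (x, (0 : Fin 3)) r} ∪ {l | ¬ NoCh m (GX Φ l) x r} := by
    intro l hl
    by_cases h : NoCh m (GX Φ l) x r
    · left
      exact (Al_iff_AlN (a := (x, (0 : Fin 3))) h).2 hl
    · right
      exact h
  have h1 := (measureReal_mono (μ := SM3.Pm p (-T) T) hsub).trans (measureReal_union_le _ _)
  have h2 := (measureReal_mono (μ := SM3.Pm p (-T) T) hsub').trans (measureReal_union_le _ _)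
  unfold fT
  rw [abs_le]
  constructor <;> linarith

theorem mean_bounds (hd : 1 ≤ d) {p : Fin 3 → ℝ} (hp : SM3.PV p) (Φ : PhiM d) {T : ℝ} (hT : 0 ≤ T)
    {A : Set (XX d)} (hA : MeasurableSet A) (hAT : ∀ x ∈ A, -T < Φ.φ x ∧ Φ.φ x < T) (r : ℝ)
    (m : ℕ) {a b η : ℝ} (hm : VR d r ^ m / (m.factorial : ℝ) ≤ η)
    (hx : ∀ x ∈ A, |fT Φ p T 0 x r - fT Φ p T 0 0 r| ≤ η)
    (ha : a ≤ p 0 * fT Φ p T 0 0 r) (hb : p 0 * fT Φ p T 0 0 r ≤ b) :
    ENNReal.ofReal (a - 2 * η) * volume A ≤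
      ∫⁻ l, ((LSet A r m (GX Φ l)).ncard : ENNReal) ∂(SM3.Pm p (-T) T) ∧
    ∫⁻ l, ((LSet A r m (GX Φ l)).ncard : ENNReal) ∂(SM3.Pm p (-T) T) ≤
      ENNReal.ofReal (b + 2 * η) * volume A := by
  have hprob : IsProbabilityMeasure (SM3.Pm p (-T) T) := SM3.isProb_Pm hp (by linarith)
  have hp0 : 0 < p 0 := hp.pos 0
  have hp1 : p 0 ≤ 1 := by
    have := hp.sum
    have h1 := hp.pos 1
    have h2 := hp.pos 2
    linarith
  rw [mean_LSet hd hp Φ hT hA hAT r m, ← lintegral_const_mul' _ _ ENNReal.ofReal_ne_top]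
  have key : ∀ x ∈ A, a - 2 * η ≤ p 0 * (SM3.Pm p (-T) T).real {l | AlN m (GX Φ l) (x, 0) r} ∧
      p 0 * (SM3.Pm p (-T) T).real {l | AlN m (GX Φ l) (x, 0) r} ≤ b + 2 * η := by
    intro x hxA
    have h1 := (AlN_near hd hp Φ hT r m x).trans hm
    have h2 := hx x hxA
    rw [abs_le] at h1 h2
    have h3 : p 0 * ((SM3.Pm p (-T) T).real {l | AlN m (GX Φ l) (x, 0) r} - fT Φ p T 0 0 r)
        ≤ 2 * η := by
      have h4 : (SM3.Pm p (-T) T).real {l | AlN m (GX Φ l) (x, 0) r} - fT Φ p T 0 0 r ≤ 2 * η := by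
        linarith [h1.2, h2.2]
      have h5 : 0 ≤ 2 * η := by linarith [h1.1, h1.2]
      nlinarith
    have h3' : -(2 * η) ≤
        p 0 * ((SM3.Pm p (-T) T).real {l | AlN m (GX Φ l) (x, 0) r} - fT Φ p T 0 0 r) := by
      have h4 : -(2 * η) ≤
          (SM3.Pm p (-T) T).real {l | AlN m (GX Φ l) (x, 0) r} - fT Φ p T 0 0 r := by
        linarith [h1.1, h2.1]
      have h5 : 0 ≤ 2 * η := by linarith [h1.1, h1.2]
      nlinarith
    rw [mul_sub] at h3 h3'
    constructor <;> linarith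
  have key2 : ∀ x, ENNReal.ofReal (p 0) * SM3.Pm p (-T) T {l | AlN m (GX Φ l) (x, 0) r} =
      ENNReal.ofReal (p 0 * (SM3.Pm p (-T) T).real {l | AlN m (GX Φ l) (x, 0) r}) := by
    intro x
    rw [ENNReal.ofReal_mul hp0.le, ofReal_measureReal (measure_ne_top _ _)]
  constructor
  · rw [← setLIntegral_const]
    refine setLIntegral_mono' hA fun x hxA => ?_
    rw [key2 x]
    exact ENNReal.ofReal_le_ofReal (key x hxA).1
  · rw [← setLIntegral_const]
    refine setLIntegral_mono' hA fun x hxA => ?_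
    rw [key2 x]
    exact ENNReal.ofReal_le_ofReal (key x hxA).2

end Pool.SM3X
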