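/-
SM3X.P1 : transport of the Poisson processes to the line; laws of local events.
PROOF. `hyp_of_hypX`: `(φ '' S ∩ A).ncard = (S ∩ φ ⁻¹' A).ncard` (`φ` is injective), `φ ⁻¹' A` is measurable and
bounded, `volume (φ ⁻¹' A) = volume A`, preimages of disjoint sets are disjoint.
`law_X`: `SM3.window_event` (E5) for the processes `φ '' S i` with `u = -T`, `w = T` and `Q' Z = Q {y | (Φ.φ y.1, y.2) ∈ Z}`.
-/
import Pool.Agent.Lib.SM3X.Defs
import Pool.Agent.Lib.SM3.E5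

set_option autoImplicit false

open MeasureTheory Set

namespace Pool.SM3X

theorem phi_injective {d : ℕ} (Φ : PhiM d) : Function.Injective Φ.φ :=
  Function.LeftInverse.injective Φ.left

private theorem P1_inter {d : ℕ} (Φ : PhiM d) (U : Set (XX d)) (A : Set ℝ) :
    Φ.φ '' U ∩ A = Φ.φ '' (U ∩ Φ.φ ⁻¹' A) :=
  (Set.image_inter_preimage Φ.φ U A).symm

private theorem P1_ncard {d : ℕ} (Φ : PhiM d) (U : Set (XX d)) (A : Set ℝ) :
    (Φ.φ '' U ∩ A).ncard = (U ∩ Φ.φ ⁻¹' A).ncard := by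
  rw [P1_inter, Set.ncard_image_of_injective _ (phi_injective Φ)]

theorem hyp_of_hypX {d : ℕ} {p : Fin 3 → ℝ} {Ω : Type} [MeasurableSpace Ω] {P : Measure Ω}
    {S : Fin 3 → Ω → Set (XX d)} (h : HypX p P S) (Φ : PhiM d) :
    SM3.Hyp p P (fun i ω => Φ.φ '' S i ω) := by
  refine ⟨fun i ω A hA => ?_, fun i A hA hb => ?_, fun i A hA hb k => ?_, fun n c A hA hd => ?_⟩
  · rw [P1_inter]
    exact (h.fin i ω _ (Φ.bdd A hA)).image _
  · simp only [P1_ncard]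
    exact h.meas i _ (Φ.hφ hA) (Φ.bdd A hb)
  · simp only [P1_ncard]
    have hv : volume (Φ.φ ⁻¹' A) = volume A := by
      rw [← Measure.map_apply Φ.hφ hA, Φ.vol]
    have := h.law i _ (Φ.hφ hA) (Φ.bdd A hb) k
    rw [hv] at this
    exact this
  · simp only [P1_ncard]
    exact h.ind n c (fun j => Φ.φ ⁻¹' A j) (fun j => ⟨Φ.hφ (hA j).1, Φ.bdd _ (hA j).2⟩)
      (fun j k hjk hc => (hd j k hjk hc).preimage _)

theorem law_X {d : ℕ} {p : Fin 3 → ℝ} (hp : SM3.PV p) {Ω : Type} [MeasurableSpace Ω]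
    {P : Measure Ω} [IsProbabilityMeasure P] {S : Fin 3 → Ω → Set (XX d)} (h : HypX p P S)
    (Φ : PhiM d) {T : ℝ} (hT : 0 < T) {B : Set (XX d)} (hB : ∀ x ∈ B, -T < Φ.φ x ∧ Φ.φ x < T)
    {Q : Set (CP (XX d)) → Prop} (hQ : Loc Q B) (hm : MeasurableSet {l | Q (GX Φ l)}) :
    NullMeasurableSet {ω | Q (SX S ω)} P ∧
      P {ω | Q (SX S ω)} = SM3.Pm p (-T) T {l | Q (GX Φ l)} := by
  have h1 := SM3.window_event hp (hyp_of_hypX h Φ) (u := -T) (w := T) (by linarith)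
    (Q := fun Z => Q {y | (Φ.φ y.1, y.2) ∈ Z}) hm
  have h2 : {ω | Q (SX S ω)} = {ω | (fun Z => Q {y | (Φ.φ y.1, y.2) ∈ Z})
      (SM3.Win (SM3.SS (fun i ω => Φ.φ '' S i ω) ω) (-T) T)} := by
    ext ω
    show Q (SX S ω) ↔ Q {y | (Φ.φ y.1, y.2) ∈
      SM3.Win (SM3.SS (fun i ω => Φ.φ '' S i ω) ω) (-T) T}
    refine hQ _ _ fun y hy => ?_
    have h3 := hB y.1 hy
    constructor
    · intro h4
      exact ⟨⟨y.1, h4, rfl⟩, h3.1, h3.2⟩
    · intro h4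
      obtain ⟨x, hx, hxy⟩ := h4.1
      have : x = y.1 := phi_injective Φ hxy
      show y.1 ∈ S y.2 ω
      rw [← this]
      exact hx
  rw [h2]
  exact h1

end Pool.SM3X
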