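/-
SM3X.H8 : transfer of the mean from the window to the process.
PROOF. The region `{z | ∃ x ∈ A, dist x z < m |r| + 1}` is bounded, so for large `T` it is in the window (`Φ.bdd'`; compare the private lemmas T5_window, T5_law in T5); for such `T` and all `k`: `law_X` (P1) with `LSet_loc`, `LSet_meas` (H5): `{ω | k ≤ ncard ..}` is null measurable with
`P {..} = Pm {..}`.  `(n : ENNReal) = ∑' k, if k + 1 ≤ n then 1 else 0`; `lintegral_tsum` on both sides (a.e. measurability of indicators of null measurable sets).  AEMeasurable: the same series.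
`lintegral_LSet_zero`: `mean_LSet` (H7) for `m = 0` (`AlN 0 = True`): `≤ ofReal (p 0) * volume A < ∞`.
-/
import Pool.Agent.Lib.SM3X.H7
import Pool.Agent.Lib.SM3X.P1

set_option autoImplicit false

open MeasureTheory Set

namespace Pool.SM3X

variable {d : ℕ}

private theorem H8_nat (n : ℕ) :
    (n : ENNReal) = ∑' k : ℕ, if k + 1 ≤ n then (1 : ENNReal) else 0 := by
  rw [tsum_eq_sum (s := Finset.range n)]
  · rw [Finset.sum_congr rfl (g := fun _ => (1 : ENNReal))]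
    · simp
    · intro k hk
      exact if_pos (Nat.succ_le_of_lt (Finset.mem_range.1 hk))
  · intro k hk
    exact if_neg fun h => hk (Finset.mem_range.2 h)

private theorem H8_series {α : Type} [MeasurableSpace α] (μ : Measure α) (N : α → ℕ)
    (h : ∀ k, NullMeasurableSet {a | k ≤ N a} μ) :
    AEMeasurable (fun a => (N a : ENNReal)) μ ∧
      ∫⁻ a, (N a : ENNReal) ∂μ = ∑' k : ℕ, μ {a | k + 1 ≤ N a} := by
  have e : (fun a => (N a : ENNReal)) =
      fun a => ∑' k : ℕ, ({a | k + 1 ≤ N a}.indicator (fun _ => (1 : ENNReal)) a) := by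
    funext a
    rw [H8_nat (N a)]
    refine tsum_congr fun k => ?_
    rw [indicator_apply]
    rfl
  have hm : ∀ k : ℕ, AEMeasurable ({a | k + 1 ≤ N a}.indicator (fun _ => (1 : ENNReal))) μ :=
    fun k => aemeasurable_const.indicator₀ (h (k + 1))
  constructor
  · rw [e]
    exact AEMeasurable.tsum hm
  · rw [e, lintegral_tsum hm]
    refine tsum_congr fun k => ?_
    rw [lintegral_indicator_const₀ (h (k + 1)), one_mul]

private theorem H8_window (Φ : PhiM d) {B : Set (XX d)} (hB : Bornology.IsBounded B) :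
    ∃ T₀ : ℕ, ∀ T : ℕ, T₀ ≤ T → ∀ x ∈ B, -(T : ℝ) < Φ.φ x ∧ Φ.φ x < T := by
  obtain ⟨C, hC⟩ := (Φ.bdd' B hB).exists_norm_le
  refine ⟨⌊C⌋₊ + 1, fun T hT x hx => ?_⟩
  have h1 := hC _ (mem_image_of_mem Φ.φ hx)
  rw [Real.norm_eq_abs] at h1
  have h2 : C < T := by
    have h3 := Nat.lt_floor_add_one C
    have h4 : ((⌊C⌋₊ + 1 : ℕ) : ℝ) ≤ T := by exact_mod_cast hT
    push_cast at h4
    linarith
  exact abs_lt.1 (lt_of_le_of_lt h1 h2)

private theorem H8_region_bdd {A : Set (XX d)} (hAb : Bornology.IsBounded A) (c : ℝ) :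
    Bornology.IsBounded {z : XX d | ∃ x ∈ A, dist x z < c} := by
  obtain ⟨R, hA⟩ := hAb.exists_norm_le
  rw [isBounded_iff_forall_norm_le]
  refine ⟨R + c, ?_⟩
  rintro z ⟨x, hx, hxz⟩
  have h1 := hA x hx
  have h2 : ‖z‖ ≤ ‖x‖ + dist x z := by
    rw [dist_comm, dist_eq_norm]
    have := norm_add_le x (z - x)
    simpa using this
  linarith

theorem lintegral_LSet (hd : 1 ≤ d) {p : Fin 3 → ℝ} (hp : SM3.PV p) {Ω : Type} [MeasurableSpace Ω]
    {P : Measure Ω} [IsProbabilityMeasure P] {S : Fin 3 → Ω → Set (XX d)} (h : HypX p P S)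
    (Φ : PhiM d) {A : Set (XX d)} (hA : MeasurableSet A) (hAb : Bornology.IsBounded A) (r : ℝ)
    (m : ℕ) :
    AEMeasurable (fun ω => ((LSet A r m (SX S ω)).ncard : ENNReal)) P ∧
    ∃ T₀ : ℕ, ∀ T : ℕ, T₀ ≤ T → (∀ x ∈ A, -(T : ℝ) < Φ.φ x ∧ Φ.φ x < T) ∧
      ∫⁻ ω, ((LSet A r m (SX S ω)).ncard : ENNReal) ∂P =
        ∫⁻ l, ((LSet A r m (GX Φ l)).ncard : ENNReal) ∂(SM3.Pm p (-(T : ℝ)) T) := by
  have hBb : Bornology.IsBounded {z : XX d | ∃ x ∈ A, dist x z < m * |r| + 1} :=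
    H8_region_bdd hAb _
  obtain ⟨T₁, hT₁⟩ := H8_window Φ hBb
  have key : ∀ T : ℕ, max T₁ 1 ≤ T → ∀ k : ℕ,
      NullMeasurableSet {ω | k ≤ (LSet A r m (SX S ω)).ncard} P ∧
      P {ω | k ≤ (LSet A r m (SX S ω)).ncard} =
        SM3.Pm p (-(T : ℝ)) T {l | k ≤ (LSet A r m (GX Φ l)).ncard} := by
    intro T hT k
    have hT1 : (0 : ℝ) < T := by
      have : 1 ≤ T := le_trans (le_max_right _ _) hT
      exact_mod_cast this
    exact law_X hp h Φ hT1 (hT₁ T (le_trans (le_max_left _ _) hT)) (LSet_loc A r m k)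
      (LSet_meas Φ hA r m k)
  have h1 := H8_series P (fun ω => (LSet A r m (SX S ω)).ncard)
    (fun k => (key _ le_rfl k).1)
  refine ⟨h1.1, max T₁ 1, fun T hT => ⟨fun x hx => ?_, ?_⟩⟩
  · refine hT₁ T (le_trans (le_max_left _ _) hT) x ⟨x, hx, ?_⟩
    rw [dist_self]
    positivity
  · have h2 := H8_series (SM3.Pm p (-(T : ℝ)) T) (fun l => (LSet A r m (GX Φ l)).ncard)
      (fun k => (LSet_meas Φ hA r m k).nullMeasurableSet)
    rw [h1.2, h2.2]
    exact tsum_congr fun k => (key T hT (k + 1)).2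

theorem lintegral_LSet_zero (hd : 1 ≤ d) {p : Fin 3 → ℝ} (hp : SM3.PV p) {Ω : Type}
    [MeasurableSpace Ω] {P : Measure Ω} [IsProbabilityMeasure P] {S : Fin 3 → Ω → Set (XX d)}
    (h : HypX p P S) (Φ : PhiM d) {A : Set (XX d)} (hA : MeasurableSet A)
    (hAb : Bornology.IsBounded A) (r : ℝ) :
    ∫⁻ ω, ((LSet A r 0 (SX S ω)).ncard : ENNReal) ∂P ≠ ⊤ := by
  obtain ⟨-, T₀, hT₀⟩ := lintegral_LSet hd hp h Φ hA hAb r 0
  obtain ⟨hAT, e⟩ := hT₀ T₀ le_rfl
  have hT : (0 : ℝ) ≤ T₀ := Nat.cast_nonneg _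
  have hprob : IsProbabilityMeasure (SM3.Pm p (-(T₀ : ℝ)) T₀) := SM3.isProb_Pm hp (by linarith)
  rw [e, mean_LSet hd hp Φ hT hA hAT r 0]
  refine ENNReal.mul_ne_top ENNReal.ofReal_ne_top (ne_of_lt ?_)
  calc ∫⁻ x in A, SM3.Pm p (-(T₀ : ℝ)) T₀ {l | AlN 0 (GX Φ l) (x, 0) r}
      ≤ ∫⁻ _ in A, 1 := lintegral_mono fun x => prob_le_one
    _ = volume A := by rw [setLIntegral_one]
    _ < ⊤ := hAb.measure_lt_top

end Pool.SM3X
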