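/-
SM3X.P2 : stationarity.
PROOF. `hypX_shift`: `({x | x + w ∈ S} ∩ A) = (fun x => x - w) '' (S ∩ (fun x => x - w) ⁻¹' A)`, so the number of points is the number of points of `S` in `{x | x - w ∈ A}` (translate of `A`;
measurable, bounded, same volume: `measure_preimage_sub_right`-type lemma), disjointness is preserved.
`SX_shift`: by definition.
`stat_X`: choose `T > 0` with `-T < Φ.φ x < T` on `B` (`Φ.bdd'`) and apply `law_X` (P1) to `S` and to the shifted processes: both probabilities are `Pm p (-T) T {l | Q (GX Φ l)}`.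
-/
import Pool.Agent.Lib.SM3X.P1

set_option autoImplicit false

open MeasureTheory Set

namespace Pool.SM3X

private theorem P2_inter {d : ℕ} (U A : Set (XX d)) (w : XX d) :
    {x | x + w ∈ U} ∩ A = (fun x => x - w) '' (U ∩ (fun x => x - w) ⁻¹' A) := by
  ext x
  constructor
  · rintro ⟨h1, h2⟩
    refine ⟨x + w, ⟨h1, ?_⟩, ?_⟩
    · show x + w - w ∈ A
      rwa [add_sub_cancel_right]
    · show x + w - w = x
      rw [add_sub_cancel_right]
  · rintro ⟨y, ⟨h1, h2⟩, rfl⟩
    refine ⟨?_, h2⟩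
    show y - w + w ∈ U
    rwa [sub_add_cancel]

private theorem P2_ncard {d : ℕ} (U A : Set (XX d)) (w : XX d) :
    ({x | x + w ∈ U} ∩ A).ncard = (U ∩ (fun x => x - w) ⁻¹' A).ncard := by
  rw [P2_inter, Set.ncard_image_of_injective _ (sub_left_injective)]

private theorem P2_meas {d : ℕ} {A : Set (XX d)} (hA : MeasurableSet A) (w : XX d) :
    MeasurableSet ((fun x : XX d => x - w) ⁻¹' A) :=
  (measurable_id.sub_const w) hA

private theorem P2_bdd {d : ℕ} {A : Set (XX d)} (hA : Bornology.IsBounded A) (w : XX d) :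
    Bornology.IsBounded ((fun x : XX d => x - w) ⁻¹' A) := by
  obtain ⟨R, hR⟩ := (Metric.isBounded_iff_subset_closedBall 0).1 hA
  refine (Metric.isBounded_iff_subset_closedBall w).2 ⟨R, fun x hx => ?_⟩
  have h1 := hR hx
  rw [Metric.mem_closedBall, dist_zero_right] at h1
  rw [Metric.mem_closedBall, dist_eq_norm]
  exact h1

private theorem P2_vol {d : ℕ} (A : Set (XX d)) (w : XX d) :
    volume ((fun x : XX d => x - w) ⁻¹' A) = volume A := by
  have h := measure_preimage_add_right (volume : Measure (XX d)) (-w) A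
  have e : (fun x : XX d => x - w) = fun x => x + -w := by
    funext x
    exact sub_eq_add_neg x w
  rw [e]
  exact h

theorem hypX_shift {d : ℕ} {p : Fin 3 → ℝ} {Ω : Type} [MeasurableSpace Ω] {P : Measure Ω}
    {S : Fin 3 → Ω → Set (XX d)} (h : HypX p P S) (w : XX d) :
    HypX p P (fun i ω => {x | x + w ∈ S i ω}) := by
  refine ⟨fun i ω A hA => ?_, fun i A hA hb => ?_, fun i A hA hb k => ?_, fun n c A hA hd => ?_⟩
  · rw [P2_inter]
    exact (h.fin i ω _ (P2_bdd hA w)).image _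
  · simp only [P2_ncard]
    exact h.meas i _ (P2_meas hA w) (P2_bdd hb w)
  · simp only [P2_ncard]
    have h1 := h.law i _ (P2_meas hA w) (P2_bdd hb w) k
    rw [P2_vol] at h1
    exact h1
  · simp only [P2_ncard]
    exact h.ind n c (fun j => (fun x : XX d => x - w) ⁻¹' A j)
      (fun j => ⟨P2_meas (hA j).1 w, P2_bdd (hA j).2 w⟩)
      (fun j k hjk hc => (hd j k hjk hc).preimage _)

theorem SX_shift {d : ℕ} {Ω : Type} (S : Fin 3 → Ω → Set (XX d)) (w : XX d) (ω : Ω) :
    SX (fun i ω => {x | x + w ∈ S i ω}) ω = shX w (SX S ω) := rfl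

theorem stat_X {d : ℕ} {p : Fin 3 → ℝ} (hp : SM3.PV p) {Ω : Type} [MeasurableSpace Ω]
    {P : Measure Ω} [IsProbabilityMeasure P] {S : Fin 3 → Ω → Set (XX d)} (h : HypX p P S)
    (Φ : PhiM d) {B : Set (XX d)} (hB : Bornology.IsBounded B)
    {Q : Set (CP (XX d)) → Prop} (hQ : Loc Q B) (hm : MeasurableSet {l | Q (GX Φ l)}) (w : XX d) :
    P {ω | Q (shX w (SX S ω))} = P {ω | Q (SX S ω)} := by
  obtain ⟨R, hR⟩ := (Metric.isBounded_iff_subset_closedBall 0).1 (Φ.bdd' B hB)
  have hT : (0 : ℝ) < |R| + 1 := by positivity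
  have hB' : ∀ x ∈ B, -(|R| + 1) < Φ.φ x ∧ Φ.φ x < |R| + 1 := by
    intro x hx
    have h1 := hR ⟨x, hx, rfl⟩
    rw [Metric.mem_closedBall, dist_zero_right, Real.norm_eq_abs] at h1
    have h2 : |Φ.φ x| < |R| + 1 := by
      have := le_abs_self R
      linarith
    exact abs_lt.1 h2
  have h1 := (law_X hp h Φ hT hB' hQ hm).2
  have h2 := (law_X hp (hypX_shift h w) Φ hT hB' hQ hm).2
  rw [h1, ← h2]
  rfl

end Pool.SM3X
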