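/-
SM3X.S1 : Mecke's formula for the probabilities `fT`, `gT`, and their simple properties.
PROOF. `gT_symm`: `Mt_symm` (D1) and `Set.insert_comm`.  `gT_self`: `Mt_mem`.
`measurable_gT`: `SM3.measurable_Pm_set` (A5) and `measurableSet_Mt` (M2) for the family `insert (a,c) (insert (b,c') (GX Φ l))` with parameters `((a,b),l)` (M1).
`mecke_f`: a.e. `l` (P6): `l.Nodup`, `Φ.φ (Φ.ψ y.1) = y.1` on `l`, `(a,c) ∉ GX Φ l`, no two points at the same distance from `a`.  Then with `Y = GX Φ l`: `¬ Al Y (a,c) r ↔ ¬ Fr (insert (a,c) Y) r (a,c)` (`Fr_iff_Al`, D2) and the number of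
`y ∈ Y` with `dist a y.1 < r` and `Mt (insert (a,c) Y) (a,c) y` is 1 in this case and 0 otherwise (two partners of `(a,c)` have the same distance from `a` by Mt_rec: see the proof of `Mt_partner_unique`, D1).  For `y ∈ Y`:
`insert (a,c) Y = insert (a,c) (insert y (Y \ {y}))`.  So `Pm {l | ¬ Al (GX Φ l) (a,c) r} = ∫⁻ l, xsum Φ (fun y q => ind (dist a y.1 < r ∧ Mt (insert (a,c) (insert y (GX Φ q))) (a,c) y)) l` (`xsum_eq`, C1)
`= ∫⁻ x in Φ.φ ⁻¹' Ioo (-T) T, ∑ c', ofReal (p c') * (ind (dist a x < r) * Pm {l | Mt ..})` (`mecke_X`, P3) `= ∑ c', ofReal (p c') * ∫⁻ x in ball a r, ofReal (gT c c' a x)` (`hw`), and `ofReal_integral_eq_lintegral_ofReal` (`gT ≤ 1`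
is measurable and bounded, the ball has finite measure).
`fT_swap`: `SM3.lintegral_Pm_colour` (A9) with `σ = Equiv.swap 1 2` and `Al_colour` (D7): `GX Φ (l.map (fun y => (y.1, σ y.2))) = {y | (y.1, σ y.2) ∈ GX Φ l}` (`σ` is an involution).
-/
import Pool.Agent.Lib.SM3X.D7
import Pool.Agent.Lib.SM3X.M2
import Pool.Agent.Lib.SM3X.P6
import Pool.Agent.Lib.SM3.A5
import Pool.Agent.Lib.SM3.A9

set_option autoImplicit false

open MeasureTheory Set

namespace Pool.SM3X

variable {d : ℕ}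

private theorem S1_true {P : Prop} (h : P) : SM3.ind P = 1 := by
  unfold SM3.ind
  exact if_pos h

private theorem S1_false {P : Prop} (h : ¬ P) : SM3.ind P = 0 := by
  unfold SM3.ind
  exact if_neg h

private theorem S1_lint {μ : Measure (List SM3.Pt)} {Q : List SM3.Pt → Prop}
    (hQ : MeasurableSet {l | Q l}) : ∫⁻ l, SM3.ind (Q l) ∂μ = μ {l | Q l} := by
  rw [← lintegral_indicator_one hQ]
  refine lintegral_congr fun l => ?_
  by_cases h : Q l
  · rw [S1_true h, Set.indicator_of_mem (show l ∈ {l | Q l} from h)]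
    rfl
  · rw [S1_false h, Set.indicator_of_notMem (show l ∉ {l | Q l} from h)]

private theorem S1_measAl (Φ : PhiM d) (c : Fin 3) (a : XX d) (r : ℝ) :
    MeasurableSet {l : List SM3.Pt | Al (GX Φ l) (a, c) r} :=
  measurableSet_Al (MFam_GX Φ) measurable_const measurable_const

private theorem S1_measMt (Φ : PhiM d) (c c' : Fin 3) :
    MeasurableSet {q : (XX d × XX d) × List SM3.Pt |
      Mt (insert (q.1.1, c) (insert (q.1.2, c') (GX Φ q.2))) (q.1.1, c) (q.1.2, c')} := by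
  have h0 : MFam (fun q : (XX d × XX d) × List SM3.Pt => GX Φ q.2) :=
    (MFam_GX Φ).comp measurable_snd
  have h1 : Measurable (fun q : (XX d × XX d) × List SM3.Pt => ((q.1.1, c) : CP (XX d))) :=
    (measurable_fst.comp measurable_fst).prodMk measurable_const
  have h2 : Measurable (fun q : (XX d × XX d) × List SM3.Pt => ((q.1.2, c') : CP (XX d))) :=
    (measurable_snd.comp measurable_fst).prodMk measurable_const
  exact measurableSet_Mt ((h0.insert h2).insert h1) h1 h2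

private theorem S1_measMt1 (Φ : PhiM d) (c c' : Fin 3) (a b : XX d) :
    MeasurableSet {l : List SM3.Pt |
      Mt (insert (a, c) (insert (b, c') (GX Φ l))) (a, c) (b, c')} := by
  have h := (measurable_const.prodMk measurable_id :
    Measurable (fun l : List SM3.Pt => (((a, b) : XX d × XX d), l))) (S1_measMt Φ c c')
  exact h

private theorem S1_sum {Y : Set (CP (XX d))} (hY : Y.Finite) {c : Fin 3} {a : XX d} {r : ℝ}
    (hna : ∀ y ∈ Y, y.1 ≠ a)
    (hiso : ∀ y ∈ Y, ∀ z ∈ Y, dist a y.1 = dist a z.1 → y = z) :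
    ∑ y ∈ hY.toFinset, SM3.ind (dist a y.1 < r ∧
        Mt (insert (a, c) (insert y (Y \ {y}))) (a, c) y) = SM3.ind (¬ Al Y (a, c) r) := by
  have hac : ((a, c) : CP (XX d)) ∉ Y := fun h => hna _ h rfl
  have hY' : (insert ((a, c) : CP (XX d)) Y).Finite := hY.insert _
  have hins : ∀ y ∈ Y, insert y (Y \ {y}) = Y := by
    intro y hy
    rw [Set.insert_sdiff_singleton, Set.insert_eq_of_mem hy]
  have hmem : ∀ y, Mt (insert ((a, c) : CP (XX d)) Y) (a, c) y → y ∈ Y := by
    intro y hy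
    obtain ⟨-, h2, h3⟩ := Mt_mem hy
    rcases Set.mem_insert_iff.1 h2 with h4 | h4
    · exact absurd (by rw [h4]) h3
    · exact h4
  by_cases hal : Al Y (a, c) r
  · rw [S1_false (not_not.2 hal)]
    refine Finset.sum_eq_zero fun y hy => ?_
    have hy' : y ∈ Y := hY.mem_toFinset.1 hy
    refine S1_false ?_
    rintro ⟨h1, h2⟩
    rw [hins y hy'] at h2
    have h3 := (Fr_iff_Al hY hac).2 hal y h2
    exact absurd h1 (not_lt.2 h3)
  · rw [S1_true hal]
    have h1 : ¬ Fr (insert ((a, c) : CP (XX d)) Y) r (a, c) := fun h => hal ((Fr_iff_Al hY hac).1 h)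
    unfold Fr at h1
    push Not at h1
    obtain ⟨y, hy, hd⟩ := h1
    have hyY := hmem y hy
    rw [Finset.sum_eq_single y]
    · refine S1_true ⟨hd, ?_⟩
      rw [hins y hyY]
      exact hy
    · intro z hz hzy
      refine S1_false ?_
      rintro ⟨-, h2⟩
      have hzY : z ∈ Y := hY.mem_toFinset.1 hz
      rw [hins z hzY] at h2
      refine hzy ?_
      obtain ⟨_, _, _, g1, _⟩ := (Mt_rec hY' (dist (a, c).1 y.1 + 1) (a, c) y (lt_add_one _)).mp hy
      obtain ⟨_, _, _, g2, _⟩ := (Mt_rec hY' (dist (a, c).1 z.1 + 1) (a, c) z (lt_add_one _)).mp h2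
      rcases lt_trichotomy (dist (a, c).1 y.1) (dist (a, c).1 z.1) with hlt | heq | hgt
      · exact absurd hy (g2 y hlt)
      · exact (hiso y hyY z hzY heq).symm
      · exact absurd h2 (g1 z hgt)
    · intro hn
      exact absurd (hY.mem_toFinset.2 hyY) hn

theorem fT_mem {p : Fin 3 → ℝ} (hp : SM3.PV p) (Φ : PhiM d) {T : ℝ} (hT : 0 ≤ T) (c : Fin 3)
    (a : XX d) (r : ℝ) : 0 ≤ fT Φ p T c a r ∧ fT Φ p T c a r ≤ 1 := by
  have := SM3.isProb_Pm hp (u := -T) (w := T) (by linarith)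
  exact ⟨measureReal_nonneg, measureReal_le_one⟩

theorem gT_mem {p : Fin 3 → ℝ} (hp : SM3.PV p) (Φ : PhiM d) {T : ℝ} (hT : 0 ≤ T) (c c' : Fin 3)
    (a b : XX d) : 0 ≤ gT Φ p T c c' a b ∧ gT Φ p T c c' a b ≤ 1 := by
  have := SM3.isProb_Pm hp (u := -T) (w := T) (by linarith)
  exact ⟨measureReal_nonneg, measureReal_le_one⟩

theorem gT_symm (p : Fin 3 → ℝ) (Φ : PhiM d) (T : ℝ) (c c' : Fin 3) (a b : XX d) :
    gT Φ p T c c' a b = gT Φ p T c' c b a := by
  unfold gT
  congr 1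
  ext l
  simp only [Set.mem_ofPred_eq]
  rw [Set.insert_comm]
  exact ⟨fun h => Mt_symm h, fun h => Mt_symm h⟩

theorem gT_self (p : Fin 3 → ℝ) (Φ : PhiM d) (T : ℝ) (c : Fin 3) (a b : XX d) :
    gT Φ p T c c a b = 0 := by
  unfold gT
  have h : {l : List SM3.Pt | Mt (insert (a, c) (insert (b, c) (GX Φ l))) (a, c) (b, c)} = ∅ := by
    ext l
    simp only [Set.mem_ofPred_eq, Set.mem_empty_iff_false, iff_false]
    intro h
    exact (Mt_mem h).2.2 rfl
  rw [h]
  exact measureReal_empty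

theorem measurable_gT (p : Fin 3 → ℝ) (Φ : PhiM d) (T : ℝ) (c c' : Fin 3) :
    Measurable (fun q : XX d × XX d => gT Φ p T c c' q.1 q.2) := by
  unfold gT
  have h := SM3.measurable_Pm_set p (Θ := XX d × XX d)
    (Q := fun q l => Mt (insert (q.1, c) (insert (q.2, c') (GX Φ l))) (q.1, c) (q.2, c'))
    (S1_measMt Φ c c') (u := fun _ => -T) (w := fun _ => T) measurable_const measurable_const
  exact h.ennreal_toReal

private theorem S1_pair (a : XX d) : Measurable (fun x : XX d => (a, x)) :=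
  measurable_const.prodMk measurable_id

private theorem S1_gm (p : Fin 3 → ℝ) (Φ : PhiM d) (T : ℝ) (c c' : Fin 3) (a : XX d) :
    Measurable (fun x => gT Φ p T c c' a x) := by
  have h := (measurable_gT p Φ T c c').comp (S1_pair a)
  exact h

/-- the functional of Mecke's formula -/
private noncomputable def S1G (Φ : PhiM d) (c : Fin 3) (a : XX d) (r : ℝ) (y : CP (XX d))
    (q : List SM3.Pt) : ENNReal :=
  SM3.ind (dist a y.1 < r ∧ Mt (insert (a, c) (insert y (GX Φ q))) (a, c) y)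

private theorem S1G_meas (Φ : PhiM d) (c : Fin 3) (a : XX d) (r : ℝ) :
    Measurable (fun q : CP (XX d) × List SM3.Pt => S1G Φ c a r q.1 q.2) := by
  refine SM3.measurable_ind (MeasurableSet.inter ?_ ?_)
  · exact measurableSet_lt (measurable_const.dist (measurable_fst.comp measurable_fst))
      measurable_const
  · have h0 : MFam (fun q : CP (XX d) × List SM3.Pt => GX Φ q.2) :=
      (MFam_GX Φ).comp measurable_snd
    have h1 : Measurable (fun _ : CP (XX d) × List SM3.Pt => ((a, c) : CP (XX d))) :=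
      measurable_const
    exact measurableSet_Mt ((h0.insert measurable_fst).insert h1) h1 measurable_fst

private theorem S1_step1 (hd : 1 ≤ d) (p : Fin 3 → ℝ) (Φ : PhiM d) (T : ℝ) (c : Fin 3)
    (a : XX d) (r : ℝ) : SM3.Pm p (-T) T {l | ¬ Al (GX Φ l) (a, c) r} =
      ∫⁻ l, xsum Φ (S1G Φ c a r) l ∂(SM3.Pm p (-T) T) := by
  rw [← S1_lint (Q := fun l => ¬ Al (GX Φ l) (a, c) r) (S1_measAl Φ c a r).compl]
  refine lintegral_congr_ae ?_
  filter_upwards [ae_list p Φ T, ae_not_mem hd p Φ T a, ae_noIso_at hd p Φ T a] with l h1 h2 h3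
  have h4 := xsum_eq Φ h1.1 (fun y hy => (h1.2 y hy).2.2) (fun y Q =>
    SM3.ind (dist a y.1 < r ∧ Mt (insert (a, c) (insert y Q)) (a, c) y))
  have h5 : xsum Φ (S1G Φ c a r) l = xsum Φ (fun y q => SM3.ind (dist a y.1 < r ∧
      Mt (insert (a, c) (insert y (GX Φ q))) (a, c) y)) l := rfl
  rw [h5, h4]
  exact (S1_sum (GX_finite Φ l) h2 h3).symm

private theorem S1_step2 {p : Fin 3 → ℝ} (hp : SM3.PV p) (Φ : PhiM d) {T : ℝ} (hT : 0 ≤ T)
    (c c' : Fin 3) (a x : XX d) (r : ℝ) : ∫⁻ l, S1G Φ c a r (x, c') l ∂(SM3.Pm p (-T) T) =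
      (Metric.ball a r).indicator (fun x => ENNReal.ofReal (gT Φ p T c c' a x)) x := by
  have := SM3.isProb_Pm hp (u := -T) (w := T) (by linarith)
  by_cases hx : dist a x < r
  · rw [Set.indicator_of_mem (show x ∈ Metric.ball a r by rw [Metric.mem_ball, dist_comm]; exact hx)]
    have h1 : ∀ l, S1G Φ c a r (x, c') l =
        SM3.ind (Mt (insert (a, c) (insert (x, c') (GX Φ l))) (a, c) (x, c')) := by
      intro l
      unfold S1G
      by_cases hm : Mt (insert (a, c) (insert (x, c') (GX Φ l))) (a, c) (x, c')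
      · rw [S1_true hm]
        exact S1_true ⟨hx, hm⟩
      · rw [S1_false hm]
        exact S1_false fun h => hm h.2
    rw [lintegral_congr h1, S1_lint (S1_measMt1 Φ c c' a x)]
    unfold gT
    rw [ofReal_measureReal]
  · rw [Set.indicator_of_notMem
      (show x ∉ Metric.ball a r by rw [Metric.mem_ball, dist_comm]; exact hx)]
    have h1 : ∀ l, S1G Φ c a r (x, c') l = 0 := by
      intro l
      unfold S1G
      exact S1_false fun h => hx h.1
    rw [lintegral_congr h1, lintegral_zero]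

private theorem S1_step3 {p : Fin 3 → ℝ} (hp : SM3.PV p) (Φ : PhiM d) {T : ℝ} (hT : 0 ≤ T)
    (c : Fin 3) (a : XX d) (r : ℝ) (hw : ∀ x ∈ Metric.ball a r, -T < Φ.φ x ∧ Φ.φ x < T) :
    ∫⁻ l, xsum Φ (S1G Φ c a r) l ∂(SM3.Pm p (-T) T) =
      ∑ c' : Fin 3, ENNReal.ofReal (p c') *
        ∫⁻ x in Metric.ball a r, ENNReal.ofReal (gT Φ p T c c' a x) := by
  have hsub : Metric.ball a r ⊆ Φ.φ ⁻¹' Ioo (-T) T := fun x hx => hw x hx
  have hgm : ∀ c' : Fin 3, Measurable (fun x => gT Φ p T c c' a x) := fun c' =>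
    S1_gm p Φ T c c' a
  rw [mecke_X Φ (S1G_meas Φ c a r)]
  have h1 : ∀ x, ∑ c' : Fin 3, ENNReal.ofReal (p c') *
      ∫⁻ l, S1G Φ c a r (x, c') l ∂(SM3.Pm p (-T) T) =
      (Metric.ball a r).indicator (fun x => ∑ c' : Fin 3, ENNReal.ofReal (p c') *
        ENNReal.ofReal (gT Φ p T c c' a x)) x := by
    intro x
    simp only [S1_step2 hp Φ hT]
    by_cases hx : x ∈ Metric.ball a r
    · simp only [Set.indicator_of_mem hx]
    · simp only [Set.indicator_of_notMem hx, mul_zero, Finset.sum_const_zero]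
  rw [lintegral_congr h1, lintegral_indicator measurableSet_ball,
    Measure.restrict_restrict measurableSet_ball, Set.inter_eq_left.2 hsub,
    lintegral_finsetSum]
  · refine Finset.sum_congr rfl fun c' _ => ?_
    rw [lintegral_const_mul]
    exact (hgm c').ennreal_ofReal
  · intro c' _
    exact ((hgm c').ennreal_ofReal).const_mul _

private theorem S1_step4 {p : Fin 3 → ℝ} (hp : SM3.PV p) (Φ : PhiM d) {T : ℝ} (hT : 0 ≤ T)
    (c c' : Fin 3) (a : XX d) (r : ℝ) :
    ∫⁻ x in Metric.ball a r, ENNReal.ofReal (gT Φ p T c c' a x) =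
      ENNReal.ofReal (∫ x in Metric.ball a r, gT Φ p T c c' a x) := by
  have hfin : IsFiniteMeasure (volume.restrict (Metric.ball a r)) :=
    ⟨by rw [Measure.restrict_apply_univ]; exact measure_ball_lt_top⟩
  have hgm : Measurable (fun x => gT Φ p T c c' a x) := S1_gm p Φ T c c' a
  have hint : Integrable (fun x => gT Φ p T c c' a x) (volume.restrict (Metric.ball a r)) := by
    refine Integrable.of_bound hgm.aestronglyMeasurable 1 (Filter.Eventually.of_forall ?_)
    intro x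
    have h := gT_mem hp Φ hT c c' a x
    rw [Real.norm_eq_abs, abs_of_nonneg h.1]
    exact h.2
  exact (ofReal_integral_eq_lintegral_ofReal hint
      (Filter.Eventually.of_forall fun x => (gT_mem hp Φ hT c c' a x).1)).symm

theorem mecke_f (hd : 1 ≤ d) {p : Fin 3 → ℝ} (hp : SM3.PV p) (Φ : PhiM d) {T : ℝ} (hT : 0 ≤ T)
    (c : Fin 3) (a : XX d) (r : ℝ) (hw : ∀ x ∈ Metric.ball a r, -T < Φ.φ x ∧ Φ.φ x < T) :
    1 - fT Φ p T c a r = ∑ c' : Fin 3, p c' * ∫ x in Metric.ball a r, gT Φ p T c c' a x := by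
  have := SM3.isProb_Pm hp (u := -T) (w := T) (by linarith)
  have hI : ∀ c' : Fin 3, 0 ≤ ∫ x in Metric.ball a r, gT Φ p T c c' a x := fun c' =>
    integral_nonneg fun x => (gT_mem hp Φ hT c c' a x).1
  have hnn : ∀ c' ∈ (Finset.univ : Finset (Fin 3)),
      0 ≤ p c' * ∫ x in Metric.ball a r, gT Φ p T c c' a x := fun c' _ =>
    mul_nonneg (hp.pos c').le (hI c')
  have hleft : ENNReal.ofReal (1 - fT Φ p T c a r) =
      SM3.Pm p (-T) T {l | ¬ Al (GX Φ l) (a, c) r} := by
    unfold fT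
    have h1 := probReal_compl_eq_one_sub (μ := SM3.Pm p (-T) T) (S1_measAl Φ c a r)
    rw [← h1, ofReal_measureReal]
    rfl
  have hfin2 : ENNReal.ofReal (1 - fT Φ p T c a r) =
      ENNReal.ofReal (∑ c' : Fin 3, p c' * ∫ x in Metric.ball a r, gT Φ p T c c' a x) := by
    rw [hleft, S1_step1 hd, S1_step3 hp Φ hT c a r hw, ENNReal.ofReal_sum_of_nonneg hnn]
    refine Finset.sum_congr rfl fun c' _ => ?_
    rw [S1_step4 hp Φ hT, ENNReal.ofReal_mul (hp.pos c').le]
  have hf := fT_mem hp Φ hT c a r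
  exact (ENNReal.ofReal_eq_ofReal_iff (by linarith [hf.2]) (Finset.sum_nonneg hnn)).1 hfin2

theorem fT_swap {p : Fin 3 → ℝ} (hq : p 1 = p 2) (Φ : PhiM d) (T : ℝ) (a : XX d) (r : ℝ) :
    fT Φ p T 1 a r = fT Φ p T 2 a r := by
  have hσ : ∀ c : Fin 3, p (Equiv.swap (1 : Fin 3) 2 c) = p c := by
    intro c
    fin_cases c
    · rfl
    · exact hq.symm
    · exact hq
  have hA1 := S1_measAl Φ 1 a r
  have hA2 := S1_measAl Φ 2 a r
  have h1 := SM3.lintegral_Pm_colour p (Equiv.swap (1 : Fin 3) 2) hσ (-T) T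
    (Φ := fun l => SM3.ind (Al (GX Φ l) (a, 1) r)) (SM3.measurable_ind hA1)
  have h2 : ∀ l : List SM3.Pt, SM3.ind (Al (GX Φ (l.map fun y : SM3.Pt =>
      (y.1, Equiv.swap (1 : Fin 3) 2 y.2))) (a, 1) r) = SM3.ind (Al (GX Φ l) (a, 2) r) := by
    intro l
    have h3 : GX Φ (l.map fun y : SM3.Pt => (y.1, Equiv.swap (1 : Fin 3) 2 y.2)) =
        {y | (y.1, Equiv.swap (1 : Fin 3) 2 y.2) ∈ GX Φ l} := by
      ext y
      simp only [GX, Set.mem_ofPred_eq, List.mem_map, Prod.mk.injEq]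
      constructor
      · rintro ⟨z, hz, h4, h5⟩
        have h6 : z = (Φ.φ y.1, Equiv.swap (1 : Fin 3) 2 y.2) := by
          refine Prod.ext h4 ?_
          rw [← h5]
          exact (Equiv.swap_apply_self _ _ _).symm
        rw [← h6]
        exact hz
      · intro hz
        exact ⟨_, hz, rfl, Equiv.swap_apply_self _ _ _⟩
    have h4 : Al (GX Φ (l.map fun y : SM3.Pt => (y.1, Equiv.swap (1 : Fin 3) 2 y.2))) (a, 1) r ↔
        Al (GX Φ l) (a, 2) r := by
      rw [h3]
      have h5 := Al_colour (Equiv.swap (1 : Fin 3) 2) (GX Φ l) (a, 1) r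
      rw [h5]
      simp only [Equiv.swap_apply_left]
    rw [h4]
  rw [lintegral_congr h2, S1_lint hA1, S1_lint hA2] at h1
  unfold fT Measure.real
  rw [h1]

end Pool.SM3X
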