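/-
SM3X.S2 : approximate translation invariance of `gT`.
PROOF. `c = c'`: both are 0 (`gT_self`).  Let `c ≠ c'`, `s = dist a b ≤ 2 R` (wlog `R ≥ 1`).  Choose `m` with `3 (vB d (2R))^m / m! ≤ ε/2`, `n = 2 m + 1`.  For coloured sets `Y` let
`E a b Y := AlN n (insert (b,c') Y) (a,c) s ∧ AlN n Y (b,c') s`.
(1) `|gT c c' a b - Pm.real {l | E a b (GX Φ l)}| ≤ ε/2` for all `T`: a.e. `l`: `(a,c), (b,c') ∉ GX Φ l` (P6) and `Mt_iff_Al` (D2); `Al = AlN n` if there is no chain of length `n` (`Al_iff_AlN`, D2); if there are no chains of length `m` in `GX Φ l`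
from `(a,s)` and `(b,s)` then there are no chains of length `n` in `insert (b,c') (GX Φ l)` from `(a,s)` (`NoCh_insert`, D6) nor in `GX Φ l` from `(b,s)` (`NoCh.le`); `escape` (C3) and `vB d s ≤ vB d (2R)`.
(2) `E a b` depends only on the points in the ball `B` of radius `R + n (2R) + 1` around `0` (`AlN_congr_ball`, D2), for all `a`, `b` of norm `≤ 2 R` (take the radius `3R + 2 n R + 1` and use it also for `a + w`, `b + w`).
`T₀`: `Φ.φ '' B ⊆ (-T₀, T₀)` (`Φ.bdd'`).  For `T ≥ T₀`: `Pm {l | E (a+w) (b+w) (GX Φ l)} = P {ω | E (a+w) (b+w) (SX S ω)}` (`law_X`, P1; measurability: M2), `E (a+w) (b+w) Y ↔ E a b (shX w Y)` (`AlN_shX`, D7;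
`insert (b,c') (shX w Y) = shX w (insert (b+w,c') Y)`), and `P {ω | E a b (shX w (SX S ω))} = P {ω | E a b (SX S ω)}` (`stat_X`, P2) `= Pm {l | E a b (GX Φ l)}`.  So the two `gT` differ by at most `ε`.
-/
import Pool.Agent.Lib.SM3X.C3
import Pool.Agent.Lib.SM3X.D6
import Pool.Agent.Lib.SM3X.P2
import Pool.Agent.Lib.SM3X.S1

set_option autoImplicit false

open MeasureTheory Set

namespace Pool.SM3X

private def S2_E {d : ℕ} (n : ℕ) (c c' : Fin 3) (a b : XX d) (Y : Set (CP (XX d))) : Prop :=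
  AlN n (insert (b, c') Y) (a, c) (dist a b) ∧ AlN n Y (b, c') (dist a b)

private theorem S2_real_sub {α : Type} [MeasurableSpace α] (μ : Measure α) [IsProbabilityMeasure μ]
    {A B U : Set α} (h : ∀ᵐ l ∂μ, l ∉ U → (l ∈ A ↔ l ∈ B)) : |μ.real A - μ.real B| ≤ μ.real U := by
  have h1 : μ.real A ≤ μ.real B + μ.real U := by
    have h2 : μ A ≤ μ (B ∪ U) := by
      apply measure_mono_ae
      filter_upwards [h] with l hl hA
      by_cases hU : l ∈ U
      · exact Or.inr hU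
      · exact Or.inl ((hl hU).1 hA)
    have h3 : μ.real A ≤ μ.real (B ∪ U) := ENNReal.toReal_mono (measure_ne_top _ _) h2
    exact h3.trans (measureReal_union_le B U)
  have h1' : μ.real B ≤ μ.real A + μ.real U := by
    have h2 : μ B ≤ μ (A ∪ U) := by
      apply measure_mono_ae
      filter_upwards [h] with l hl hA
      by_cases hU : l ∈ U
      · exact Or.inr hU
      · exact Or.inl ((hl hU).2 hA)
    have h3 : μ.real B ≤ μ.real (A ∪ U) := ENNReal.toReal_mono (measure_ne_top _ _) h2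
    exact h3.trans (measureReal_union_le A U)
  rw [abs_le]
  constructor <;> linarith

private theorem S2_approx {d : ℕ} (hd : 1 ≤ d) {p : Fin 3 → ℝ} (hp : SM3.PV p) (Φ : PhiM d)
    {T : ℝ} (hT : 0 ≤ T) {c c' : Fin 3} (hc : c ≠ c') (m : ℕ) {ρ : ℝ} {δ : ℝ}
    (hδ : 2 * (VR d ρ ^ m / (m.factorial : ℝ)) ≤ δ) (a b : XX d) (hab : dist a b ≤ ρ) :
    |gT Φ p T c c' a b - (SM3.Pm p (-T) T).real {l | S2_E (2 * m + 1) c c' a b (GX Φ l)}| ≤ δ := by
  have hP : IsProbabilityMeasure (SM3.Pm p (-T) T) := SM3.isProb_Pm hp (by linarith)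
  set U1 : Set (List SM3.Pt) := {l | ¬ NoCh m (GX Φ l) a (dist a b)} with hU1
  set U2 : Set (List SM3.Pt) := {l | ¬ NoCh m (GX Φ l) b (dist a b)} with hU2
  have hbd : ∀ x : XX d, (SM3.Pm p (-T) T).real {l | ¬ NoCh m (GX Φ l) x (dist a b)}
      ≤ VR d ρ ^ m / (m.factorial : ℝ) := by
    intro x
    have h1 := escape hd hp Φ hT m x (dist a b)
    have h2 : vB d (dist a b) ^ m / (m.factorial : ENNReal)
        ≤ ENNReal.ofReal (VR d ρ ^ m / (m.factorial : ℝ)) := by
      have h3 : vB d (dist a b) = ENNReal.ofReal (VR d (dist a b)) := vB_eq 0 _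
      rw [h3, ← ENNReal.ofReal_pow (VR_nonneg d _), ← ENNReal.ofReal_natCast,
        ← ENNReal.ofReal_div_of_pos (by exact_mod_cast Nat.factorial_pos m)]
      apply ENNReal.ofReal_le_ofReal
      have h4 : VR d (dist a b) ≤ VR d ρ := VR_mono d hab
      have h5 := VR_nonneg d (dist a b)
      gcongr
    have h6 : 0 ≤ VR d ρ ^ m / (m.factorial : ℝ) := by
      have := VR_nonneg d ρ
      positivity
    have h7 := ENNReal.toReal_mono ENNReal.ofReal_ne_top (h1.trans h2)
    rw [ENNReal.toReal_ofReal h6] at h7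
    exact h7
  have hU : (SM3.Pm p (-T) T).real (U1 ∪ U2) ≤ δ := by
    have h1 := measureReal_union_le (μ := SM3.Pm p (-T) T) U1 U2
    have h2 := hbd a
    have h3 := hbd b
    have h4 : (SM3.Pm p (-T) T).real U1 = (SM3.Pm p (-T) T).real {l | ¬ NoCh m (GX Φ l) a (dist a b)} := rfl
    have h5 : (SM3.Pm p (-T) T).real U2 = (SM3.Pm p (-T) T).real {l | ¬ NoCh m (GX Φ l) b (dist a b)} := rfl
    linarith
  refine le_trans (S2_real_sub _ (U := U1 ∪ U2) ?_) hU
  filter_upwards [ae_not_mem hd p Φ T a, ae_not_mem hd p Φ T b] with l ha hb hl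
  have h1 : NoCh m (GX Φ l) a (dist a b) := by
    by_contra hh
    exact hl (Or.inl hh)
  have h2 : NoCh m (GX Φ l) b (dist a b) := by
    by_contra hh
    exact hl (Or.inr hh)
  have h3 : NoCh (2 * m + 1) (insert (b, c') (GX Φ l)) a (dist a b) :=
    NoCh_insert (b := (b, c')) h1 h2
  have h4 : NoCh (2 * m + 1) (GX Φ l) b (dist a b) := h2.le (by omega)
  have ha' : (a, c) ∉ GX Φ l := fun h => ha _ h rfl
  have hb' : (b, c') ∉ GX Φ l := fun h => hb _ h rfl
  show Mt (insert (a, c) (insert (b, c') (GX Φ l))) (a, c) (b, c') ↔ S2_E (2 * m + 1) c c' a b (GX Φ l)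
  rw [Mt_iff_Al (GX_finite Φ l) ha' hb' hc]
  unfold S2_E
  rw [← Al_iff_AlN (a := (a, c)) h3, ← Al_iff_AlN (a := (b, c')) h4]

private theorem S2_loc {d : ℕ} (n : ℕ) (c c' : Fin 3) {a b : XX d} {K : ℝ}
    (ha : ‖a‖ + n * dist a b ≤ K) (hb : ‖b‖ + n * dist a b ≤ K) :
    Loc (S2_E n c c' a b) (Metric.ball (0 : XX d) K) := by
  intro Y Y' h
  have key : ∀ x : XX d, ‖x‖ + n * dist a b ≤ K → ∀ y : CP (XX d), dist x y.1 < n * dist a b →
      y.1 ∈ Metric.ball (0 : XX d) K := by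
    intro x hx y hy
    rw [Metric.mem_ball, dist_zero_right]
    have h1 : ‖y.1‖ ≤ ‖x‖ + dist x y.1 := by
      have h2 := norm_sub_norm_le y.1 x
      rw [dist_eq_norm, norm_sub_rev]
      linarith
    linarith
  unfold S2_E
  apply and_congr
  · apply AlN_congr_ball
    intro y hy
    have h1 := h y (key a ha y hy)
    simp only [Set.mem_insert_iff, h1]
  · apply AlN_congr_ball
    intro y hy
    exact h y (key b hb y hy)

private theorem S2_meas {d : ℕ} (Φ : PhiM d) (n : ℕ) (c c' : Fin 3) (a b : XX d) :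
    MeasurableSet {l | S2_E n c c' a b (GX Φ l)} := by
  have h1 : MeasurableSet {l : List SM3.Pt | AlN n (insert (b, c') (GX Φ l)) (a, c) (dist a b)} :=
    measurableSet_AlN n ((MFam_GX Φ).insert (x := fun _ => (b, c')) measurable_const)
      (x := fun _ => (a, c)) measurable_const (r := fun _ => dist a b) measurable_const
  have h2 : MeasurableSet {l : List SM3.Pt | AlN n (GX Φ l) (b, c') (dist a b)} :=
    measurableSet_AlN n (MFam_GX Φ)
      (x := fun _ => (b, c')) measurable_const (r := fun _ => dist a b) measurable_const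
  exact h1.inter h2

private theorem S2_shift {d : ℕ} (n : ℕ) (c c' : Fin 3) (a b w : XX d) (Y : Set (CP (XX d))) :
    S2_E n c c' (a + w) (b + w) Y ↔ S2_E n c c' a b (shX w Y) := by
  have h1 : insert (b, c') (shX w Y) = shX w (insert (b + w, c') Y) := by
    ext y
    obtain ⟨y1, y2⟩ := y
    simp only [shX, Set.mem_insert_iff, Set.mem_ofPred_eq, Prod.mk.injEq, add_left_inj]
  unfold S2_E
  rw [h1, AlN_shX, AlN_shX, dist_add_right]

theorem stat_g {d : ℕ} (hd : 1 ≤ d) {p : Fin 3 → ℝ} (hp : SM3.PV p) {Ω : Type} [MeasurableSpace Ω]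
    {P : Measure Ω} [IsProbabilityMeasure P] {S : Fin 3 → Ω → Set (XX d)} (h : HypX p P S)
    (Φ : PhiM d) {ε : ℝ} (hε : 0 < ε) (R : ℝ) :
    ∃ T₀ : ℕ, ∀ T : ℕ, T₀ ≤ T → ∀ (c c' : Fin 3) (a b w : XX d), ‖a‖ ≤ R → ‖b‖ ≤ R → ‖w‖ ≤ R →
      |gT Φ p T c c' (a + w) (b + w) - gT Φ p T c c' a b| ≤ ε := by
  -- choice of m
  obtain ⟨m, hm⟩ : ∃ m : ℕ, 2 * (VR d (2 * R) ^ m / (m.factorial : ℝ)) ≤ ε / 2 := by
    have h1 := FloorSemiring.tendsto_pow_div_factorial_atTop (VR d (2 * R))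
    have h2 := (h1.eventually (gt_mem_nhds (show (0 : ℝ) < ε / 4 by linarith))).exists
    obtain ⟨m, hm⟩ := h2
    exact ⟨m, by linarith⟩
  set n : ℕ := 2 * m + 1 with hn
  set K : ℝ := 2 * |R| + n * (2 * |R|) with hK
  have hbd : Bornology.IsBounded (Φ.φ '' Metric.ball (0 : XX d) K) :=
    Φ.bdd' _ Metric.isBounded_ball
  obtain ⟨M, hM⟩ := (Metric.isBounded_iff_subset_closedBall 0).1 hbd
  refine ⟨⌈M⌉₊ + 1, fun T hT c c' a b w ha hb hw => ?_⟩
  have hR : 0 ≤ R := (norm_nonneg a).trans ha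
  have hR' : |R| = R := abs_of_nonneg hR
  by_cases hc : c = c'
  · subst hc
    rw [gT_self, gT_self, sub_zero, abs_zero]
    exact hε.le
  have hT1 : M < T := by
    have h1 : M ≤ ⌈M⌉₊ := Nat.le_ceil M
    have h2 : ((⌈M⌉₊ + 1 : ℕ) : ℝ) ≤ T := by exact_mod_cast hT
    push_cast at h2
    linarith
  have hT0 : (0 : ℝ) < T := by
    have h2 : ((⌈M⌉₊ + 1 : ℕ) : ℝ) ≤ T := by exact_mod_cast hT
    push_cast at h2
    have h3 : (0 : ℝ) ≤ (⌈M⌉₊ : ℝ) := Nat.cast_nonneg _
    linarith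
  have hB : ∀ x ∈ Metric.ball (0 : XX d) K, -(T : ℝ) < Φ.φ x ∧ Φ.φ x < T := by
    intro x hx
    have h1 := hM (Set.mem_image_of_mem _ hx)
    rw [Metric.mem_closedBall, dist_zero_right, Real.norm_eq_abs, abs_le] at h1
    constructor <;> linarith [h1.1, h1.2]
  have hdist : dist a b ≤ 2 * R := by
    rw [dist_eq_norm]
    have := norm_sub_le a b
    linarith
  have hdist' : dist (a + w) (b + w) ≤ 2 * R := by
    rw [dist_add_right]
    exact hdist
  have hnd : (n : ℝ) * dist a b ≤ n * (2 * |R|) := by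
    rw [hR']
    exact mul_le_mul_of_nonneg_left hdist (Nat.cast_nonneg _)
  have hloc : Loc (S2_E n c c' a b) (Metric.ball (0 : XX d) K) := by
    apply S2_loc
    · rw [hK]
      have : ‖a‖ ≤ 2 * |R| := by rw [hR']; linarith
      linarith
    · rw [hK]
      have : ‖b‖ ≤ 2 * |R| := by rw [hR']; linarith
      linarith
  have hloc' : Loc (S2_E n c c' (a + w) (b + w)) (Metric.ball (0 : XX d) K) := by
    apply S2_loc
    · rw [dist_add_right, hK]
      have : ‖a + w‖ ≤ 2 * |R| := by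
        rw [hR']
        have := norm_add_le a w
        linarith
      linarith
    · rw [dist_add_right, hK]
      have : ‖b + w‖ ≤ 2 * |R| := by
        rw [hR']
        have := norm_add_le b w
        linarith
      linarith
  have e1 := (law_X hp h Φ hT0 hB hloc (S2_meas Φ n c c' a b)).2
  have e2 := (law_X hp h Φ hT0 hB hloc' (S2_meas Φ n c c' (a + w) (b + w))).2
  have e3 := stat_X hp h Φ Metric.isBounded_ball hloc (S2_meas Φ n c c' a b) w
  have e4 : {ω | S2_E n c c' (a + w) (b + w) (SX S ω)} = {ω | S2_E n c c' a b (shX w (SX S ω))} := by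
    ext ω
    exact S2_shift n c c' a b w (SX S ω)
  have e5 : (SM3.Pm p (-(T : ℝ)) T).real {l | S2_E n c c' (a + w) (b + w) (GX Φ l)}
      = (SM3.Pm p (-(T : ℝ)) T).real {l | S2_E n c c' a b (GX Φ l)} := by
    unfold Measure.real
    rw [← e2, ← e1, e4, e3]
  have a1 := S2_approx hd hp Φ hT0.le hc m hm a b hdist
  have a2 := S2_approx hd hp Φ hT0.le hc m hm (a + w) (b + w) hdist'
  rw [← hn] at a1 a2
  rw [e5] at a2
  rw [abs_le] at a1 a2 ⊢
  constructor <;> linarith [a1.1, a1.2, a2.1, a2.2]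

end Pool.SM3X
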