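/-
SM3X.S3 : lower bound for the probability that two points of the colours 1, 2 are matched to each other.
PROOF. Let `ρ = dist a b > 0`, and `N a b Y`: no point of `Y` of colour `≠ c` has distance `< ρ` from `a`, and no point of `Y` of colour `≠ c'` has distance `< ρ` from `b`.
(1) If `N a b Y`, `Y` finite, `(a,c), (b,c') ∉ Y`: `Mt (insert (a,c) (insert (b,c') Y)) (a,c) (b,c')` by `Mt_iff_Al` and `Al_rec` (D2): no candidates (`(b,c')` has distance exactly `ρ`).  So `Pm.real {l | N a b (GX Φ l)} ≤ gT` (P6).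
(2) `N a b` is local on `ball a ρ ∪ ball b ρ ⊆ ball 0 (3R + 1)`; measurable (M1).  For `T ≥ T₀`: `Pm {l | N a b (GX Φ l)} = P {ω | N a b (SX S ω)}` (`law_X`, P1).
(3) `N a b (SX S ω)` iff `S 0 ω ∩ (ball a ρ ∪ ball b ρ) = ∅`, `S c' ω ∩ ball a ρ = ∅`, `S c ω ∩ ball b ρ = ∅` (`c`, `c'` are 1, 2).  By `h.ind` (n = 3, distinct colours) and `h.law` with `k = 0` (`ncard = 0` iff empty, the sets are finite) the
probability is `exp (-(p 0 * vol(ball a ρ ∪ ball b ρ)) - p c' * V - p c * V) ≥ exp (-(2 p 0 + p 1 + p 2) V) = exp (-(1 + p 0) V)` with `V = VR d ρ` (C2: vB_eq).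
-/
import Pool.Agent.Lib.SM3X.C2
import Pool.Agent.Lib.SM3X.P1
import Pool.Agent.Lib.SM3X.S1

set_option autoImplicit false

open MeasureTheory Set

namespace Pool.SM3X

/-- the event: no candidate is closer -/
private def s3N {X : Type} [MetricSpace X] (a b : X) (Y : Set (CP X)) : Prop :=
  (∀ z ∈ Y, z.2 ≠ 1 → dist a b ≤ dist a z.1) ∧ (∀ z ∈ Y, z.2 ≠ 2 → dist a b ≤ dist b z.1)

private theorem s3_det {X : Type} [MetricSpace X] {Y : Set (CP X)} (hY : Y.Finite) {a b : X}
    (h : s3N a b Y) : Mt (insert (a, 1) (insert (b, 2) Y)) (a, 1) (b, 2) := by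
  have hfin : (insert ((a, 1) : CP X) (insert (b, 2) Y)).Finite := (hY.insert _).insert _
  refine (Mt_rec hfin (dist a b + 1) (a, 1) (b, 2) (lt_add_one _)).2
    ⟨Set.mem_insert _ _, Set.mem_insert_of_mem _ (Set.mem_insert _ _),
      show (1 : Fin 3) ≠ 2 by decide, ?_, ?_⟩
  · intro z hz hm
    obtain ⟨-, hzY, hc⟩ := Mt_mem hm
    simp only at hz hc
    rcases hzY with rfl | rfl | hzY
    · exact hc rfl
    · exact lt_irrefl _ hz
    · exact absurd (h.1 z hzY (Ne.symm hc)) (not_le.2 hz)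
  · intro z hz hm
    obtain ⟨-, hzY, hc⟩ := Mt_mem hm
    simp only at hz hc
    rcases hzY with rfl | rfl | hzY
    · simp only [dist_comm b a] at hz
      exact lt_irrefl _ hz
    · exact hc rfl
    · exact absurd (h.2 z hzY (Ne.symm hc)) (not_le.2 hz)

private theorem s3_loc {X : Type} [MetricSpace X] (a b : X) :
    Loc (s3N a b) (Metric.ball a (dist a b) ∪ Metric.ball b (dist a b)) := by
  have key : ∀ Y Y' : Set (CP X), (∀ y : CP X, y.1 ∈ Metric.ball a (dist a b) ∪
      Metric.ball b (dist a b) → (y ∈ Y ↔ y ∈ Y')) → s3N a b Y → s3N a b Y' := by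
    intro Y Y' h hN
    refine ⟨fun z hz hc => ?_, fun z hz hc => ?_⟩
    · by_contra hlt
      rw [not_le] at hlt
      have h1 : z ∈ Y := (h z (Or.inl (by rw [Metric.mem_ball, dist_comm]; exact hlt))).2 hz
      exact absurd (hN.1 z h1 hc) (not_le.2 hlt)
    · by_contra hlt
      rw [not_le] at hlt
      have h1 : z ∈ Y := (h z (Or.inr (by rw [Metric.mem_ball, dist_comm]; exact hlt))).2 hz
      exact absurd (hN.2 z h1 hc) (not_le.2 hlt)
  intro Y Y' h
  exact ⟨key Y Y' h, key Y' Y fun y hy => (h y hy).symm⟩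

private theorem s3_meas {d : ℕ} (Φ : PhiM d) (a b : XX d) :
    MeasurableSet {l | s3N a b (GX Φ l)} := by
  have h1 : MeasurableSet {q : List SM3.Pt × CP (XX d) | q.2.2 ≠ 1 → dist a b ≤ dist a q.2.1} := by
    have hA : MeasurableSet {q : List SM3.Pt × CP (XX d) | q.2.2 = 1} :=
      (measurable_snd.comp measurable_snd) (measurableSet_singleton (1 : Fin 3))
    have hB : MeasurableSet {q : List SM3.Pt × CP (XX d) | dist a b ≤ dist a q.2.1} :=
      measurableSet_le measurable_const
        (measurable_const.dist (measurable_fst.comp measurable_snd))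
    have he : {q : List SM3.Pt × CP (XX d) | q.2.2 ≠ 1 → dist a b ≤ dist a q.2.1} =
        {q : List SM3.Pt × CP (XX d) | q.2.2 = 1} ∪ {q | dist a b ≤ dist a q.2.1} := by
      ext q
      simp only [Set.mem_ofPred_eq, Set.mem_union]
      tauto
    rw [he]
    exact hA.union hB
  have h2 : MeasurableSet {q : List SM3.Pt × CP (XX d) | q.2.2 ≠ 2 → dist a b ≤ dist b q.2.1} := by
    have hA : MeasurableSet {q : List SM3.Pt × CP (XX d) | q.2.2 = 2} :=
      (measurable_snd.comp measurable_snd) (measurableSet_singleton (2 : Fin 3))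
    have hB : MeasurableSet {q : List SM3.Pt × CP (XX d) | dist a b ≤ dist b q.2.1} :=
      measurableSet_le measurable_const
        (measurable_const.dist (measurable_fst.comp measurable_snd))
    have he : {q : List SM3.Pt × CP (XX d) | q.2.2 ≠ 2 → dist a b ≤ dist b q.2.1} =
        {q : List SM3.Pt × CP (XX d) | q.2.2 = 2} ∪ {q | dist a b ≤ dist b q.2.1} := by
      ext q
      simp only [Set.mem_ofPred_eq, Set.mem_union]
      tauto
    rw [he]
    exact hA.union hB
  exact ((MFam_GX Φ).forall h1).inter ((MFam_GX Φ).forall h2)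

/-- the three regions -/
private def s3A {d : ℕ} (a b : XX d) (j : Fin 3) : Set (XX d) :=
  if j = 0 then Metric.ball a (dist a b) ∪ Metric.ball b (dist a b)
  else if j = 1 then Metric.ball b (dist a b) else Metric.ball a (dist a b)

private theorem s3A_meas {d : ℕ} (a b : XX d) (j : Fin 3) : MeasurableSet (s3A a b j) := by
  unfold s3A
  split_ifs
  · exact Metric.isOpen_ball.measurableSet.union Metric.isOpen_ball.measurableSet
  · exact Metric.isOpen_ball.measurableSet
  · exact Metric.isOpen_ball.measurableSet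

private theorem s3A_bdd {d : ℕ} (a b : XX d) (j : Fin 3) : Bornology.IsBounded (s3A a b j) := by
  unfold s3A
  split_ifs
  · exact Metric.isBounded_ball.union Metric.isBounded_ball
  · exact Metric.isBounded_ball
  · exact Metric.isBounded_ball

private theorem s3_iff {d : ℕ} {p : Fin 3 → ℝ} {Ω : Type} [MeasurableSpace Ω]
    {P : Measure Ω} {S : Fin 3 → Ω → Set (XX d)} (h : HypX p P S) (a b : XX d) (ω : Ω) :
    s3N a b (SX S ω) ↔ ∀ j : Fin 3, (S j ω ∩ s3A a b j).ncard = 0 := by
  have h0 : ∀ j : Fin 3, (S j ω ∩ s3A a b j).ncard = 0 ↔ ∀ x ∈ S j ω, x ∉ s3A a b j := by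
    intro j
    rw [Set.ncard_eq_zero (h.fin j ω _ (s3A_bdd a b j)), Set.eq_empty_iff_forall_notMem]
    constructor
    · intro h1 x hx hx'
      exact h1 x ⟨hx, hx'⟩
    · intro h1 x hx
      exact h1 x hx.1 hx.2
  simp only [h0]
  constructor
  · intro hN j x hx hxA
    have ha : j ≠ 1 → dist a b ≤ dist a x := fun hj => hN.1 (x, j) hx hj
    have hb : j ≠ 2 → dist a b ≤ dist b x := fun hj => hN.2 (x, j) hx hj
    fin_cases j
    · simp only [s3A, Fin.zero_eta, if_true, Set.mem_union, Metric.mem_ball] at hxA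
      rcases hxA with hxA | hxA
      · rw [dist_comm] at hxA
        exact absurd (ha (by decide)) (not_le.2 hxA)
      · rw [dist_comm] at hxA
        exact absurd (hb (by decide)) (not_le.2 hxA)
    · have hxA' : x ∈ Metric.ball b (dist a b) := hxA
      rw [Metric.mem_ball, dist_comm] at hxA'
      exact absurd (hb (by decide)) (not_le.2 hxA')
    · have hxA' : x ∈ Metric.ball a (dist a b) := hxA
      rw [Metric.mem_ball, dist_comm] at hxA'
      exact absurd (ha (by decide)) (not_le.2 hxA')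
  · intro hA
    refine ⟨fun z hz hc => ?_, fun z hz hc => ?_⟩
    · by_contra hlt
      rw [not_le] at hlt
      have hm : z.1 ∈ Metric.ball a (dist a b) := by rw [Metric.mem_ball, dist_comm]; exact hlt
      have hz' : z.1 ∈ S z.2 ω := hz
      refine hA z.2 z.1 hz' ?_
      unfold s3A
      split_ifs
      · exact Or.inl hm
      · exact hm
    · by_contra hlt
      rw [not_le] at hlt
      have hm : z.1 ∈ Metric.ball b (dist a b) := by rw [Metric.mem_ball, dist_comm]; exact hlt
      have hz' : z.1 ∈ S z.2 ω := hz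
      refine hA z.2 z.1 hz' ?_
      unfold s3A
      split_ifs with h1 h2
      · exact Or.inr hm
      · exact hm
      · exfalso
        have h3 : ∀ j : Fin 3, j ≠ 0 → j ≠ 1 → j = 2 := by decide
        exact hc (h3 z.2 h1 h2)

private theorem s3_prob {d : ℕ} {p : Fin 3 → ℝ} (hp : SM3.PV p) {Ω : Type} [MeasurableSpace Ω]
    {P : Measure Ω} [IsProbabilityMeasure P] {S : Fin 3 → Ω → Set (XX d)} (h : HypX p P S)
    (a b : XX d) :
    ENNReal.ofReal (Real.exp (-((1 + p 0) * VR d (dist a b)))) ≤ P {ω | s3N a b (SX S ω)} := by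
  have hind := h.ind 3 id (s3A a b) (fun j => ⟨s3A_meas a b j, s3A_bdd a b j⟩)
    (fun j k hjk hc => absurd hc hjk)
  have h1 := hind.measure_inter_preimage_eq_mul Finset.univ (sets := fun _ => {0})
    (fun _ _ => measurableSet_singleton _)
  have h2 : {ω | s3N a b (SX S ω)} = ⋂ j ∈ (Finset.univ : Finset (Fin 3)),
      (fun ω => (S (id j) ω ∩ s3A a b j).ncard) ⁻¹' {0} := by
    ext ω
    simp only [Set.mem_ofPred_eq, s3_iff h a b ω, Finset.mem_univ, Set.iInter_true, Set.mem_iInter,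
      Set.mem_preimage, Set.mem_singleton_iff, id]
  have h3 : ∀ j : Fin 3, P ((fun ω => (S (id j) ω ∩ s3A a b j).ncard) ⁻¹' {0}) =
      ENNReal.ofReal (Real.exp (-(p j * (volume (s3A a b j)).toReal))) := by
    intro j
    have := h.law j (s3A a b j) (s3A_meas a b j) (s3A_bdd a b j) 0
    rw [pow_zero, mul_one, Nat.factorial_zero, Nat.cast_one, div_one] at this
    exact this
  have hV := VR_nonneg d (dist a b)
  have hva : (volume (Metric.ball a (dist a b))).toReal = VR d (dist a b) := by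
    rw [vB_eq, ENNReal.toReal_ofReal hV]
  have hvb : (volume (Metric.ball b (dist a b))).toReal = VR d (dist a b) := by
    rw [vB_eq, ENNReal.toReal_ofReal hV]
  have hvab : (volume (Metric.ball a (dist a b) ∪ Metric.ball b (dist a b))).toReal ≤
      2 * VR d (dist a b) := by
    have h4 : volume (Metric.ball a (dist a b) ∪ Metric.ball b (dist a b)) ≤
        ENNReal.ofReal (2 * VR d (dist a b)) := by
      refine (measure_union_le _ _).trans ?_
      rw [vB_eq, vB_eq, ← ENNReal.ofReal_add hV hV, two_mul]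
    calc _ ≤ (ENNReal.ofReal (2 * VR d (dist a b))).toReal :=
          ENNReal.toReal_mono ENNReal.ofReal_ne_top h4
      _ = _ := ENNReal.toReal_ofReal (by positivity)
  rw [h2, h1, Fin.prod_univ_three, h3, h3, h3, ← ENNReal.ofReal_mul (Real.exp_pos _).le,
    ← ENNReal.ofReal_mul (by positivity), ← Real.exp_add, ← Real.exp_add]
  refine ENNReal.ofReal_le_ofReal (Real.exp_le_exp.2 ?_)
  have e0 : s3A a b 0 = Metric.ball a (dist a b) ∪ Metric.ball b (dist a b) := rfl
  have e1 : s3A a b 1 = Metric.ball b (dist a b) := rfl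
  have e2 : s3A a b 2 = Metric.ball a (dist a b) := rfl
  rw [e0, e1, e2, hva, hvb]
  have h5 := mul_le_mul_of_nonneg_left hvab (hp.pos 0).le
  have h6 : (1 + p 0) * VR d (dist a b) = p 0 * (2 * VR d (dist a b)) +
      p 1 * VR d (dist a b) + p 2 * VR d (dist a b) := by
    have := hp.sum
    have h7 : (1 : ℝ) + p 0 = p 0 * 2 + p 1 + p 2 := by linarith
    rw [h7]; ring
  rw [h6]
  linarith

private theorem s3_main {d : ℕ} {p : Fin 3 → ℝ} (hp : SM3.PV p) {Ω : Type} [MeasurableSpace Ω]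
    {P : Measure Ω} [IsProbabilityMeasure P] {S : Fin 3 → Ω → Set (XX d)} (h : HypX p P S)
    (Φ : PhiM d) {T : ℝ} (hT : 0 < T) (a b : XX d)
    (hB : ∀ x ∈ Metric.ball a (dist a b) ∪ Metric.ball b (dist a b), -T < Φ.φ x ∧ Φ.φ x < T) :
    Real.exp (-((1 + p 0) * VR d (dist a b))) ≤ gT Φ p T 1 2 a b := by
  have : IsProbabilityMeasure (SM3.Pm p (-T) T) := SM3.isProb_Pm hp (by linarith)
  obtain ⟨-, h1⟩ := law_X hp h Φ hT hB (s3_loc a b) (s3_meas Φ a b)
  have h2 := s3_prob hp h a b
  rw [h1] at h2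
  have h3 : Real.exp (-((1 + p 0) * VR d (dist a b))) ≤
      (SM3.Pm p (-T) T).real {l | s3N a b (GX Φ l)} := by
    rw [measureReal_def]
    calc _ = (ENNReal.ofReal (Real.exp (-((1 + p 0) * VR d (dist a b))))).toReal :=
          (ENNReal.toReal_ofReal (Real.exp_pos _).le).symm
      _ ≤ _ := ENNReal.toReal_mono (measure_ne_top _ _) h2
  refine h3.trans (measureReal_mono (fun l hl => ?_))
  exact s3_det (GX_finite Φ l) hl

theorem gT_low {d : ℕ} (hd : 1 ≤ d) {p : Fin 3 → ℝ} (hp : SM3.PV p) {Ω : Type} [MeasurableSpace Ω]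
    {P : Measure Ω} [IsProbabilityMeasure P] {S : Fin 3 → Ω → Set (XX d)} (h : HypX p P S)
    (Φ : PhiM d) (R : ℝ) :
    ∃ T₀ : ℕ, ∀ T : ℕ, T₀ ≤ T → ∀ (a b : XX d), ‖a‖ ≤ R → ‖b‖ ≤ R → a ≠ b →
      Real.exp (-((1 + p 0) * VR d (dist a b))) ≤ gT Φ p T 1 2 a b ∧
      Real.exp (-((1 + p 0) * VR d (dist a b))) ≤ gT Φ p T 2 1 a b := by
  obtain ⟨M, hM⟩ := (Φ.bdd' (Metric.ball 0 (3 * R + 1)) Metric.isBounded_ball).exists_norm_le
  refine ⟨⌈M⌉₊ + 1, fun T hT a b ha hb hab => ?_⟩
  have hTM : M < T := by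
    have h1 : M ≤ ⌈M⌉₊ := Nat.le_ceil M
    have h2 : ((⌈M⌉₊ + 1 : ℕ) : ℝ) ≤ T := Nat.cast_le.2 hT
    push_cast at h2
    linarith
  have hT0 : (0 : ℝ) < T := by
    have : (0 : ℕ) < T := by omega
    exact_mod_cast this
  have hd2 : dist a b ≤ 2 * R := by
    rw [dist_eq_norm]
    have := norm_sub_le a b
    linarith
  have hball : ∀ c : XX d, ‖c‖ ≤ R → ∀ x ∈ Metric.ball c (dist a b), -(T : ℝ) < Φ.φ x ∧ Φ.φ x < T := by
    intro c hc x hx
    have hx' : x ∈ Metric.ball (0 : XX d) (3 * R + 1) := by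
      rw [Metric.mem_ball, dist_zero_right]
      rw [Metric.mem_ball, dist_eq_norm] at hx
      have := norm_le_norm_add_norm_sub' x c
      linarith
    have h1 := hM _ (Set.mem_image_of_mem Φ.φ hx')
    rw [Real.norm_eq_abs] at h1
    have h2 : |Φ.φ x| < T := lt_of_le_of_lt h1 hTM
    exact abs_lt.1 h2
  refine ⟨s3_main hp h Φ hT0 a b ?_, ?_⟩
  · rintro x (hx | hx)
    · exact hball a ha x hx
    · exact hball b hb x hx
  · rw [gT_symm, dist_comm]
    refine s3_main hp h Φ hT0 b a ?_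
    rw [dist_comm b a]
    rintro x (hx | hx)
    · exact hball b hb x hx
    · exact hball a ha x hx

end Pool.SM3X
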