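/-
SM3X.S4 : the facts for large windows.
PROOF. `fT_near`: `mecke_f` (S1) at `a` and at `0` (both balls of radius `r` are in the window for large `T`), translate the integral over `ball a r` to `ball 0 r` (`x = b + a`; `integral_comp_add_right`-type, measure preserving), `stat_g` (S2) with `ε / (VR d r + 1)`;
`∑ p c' = 1`.
`facts`: `T₀` from `stat_g`, `gT_low` (S3), `fT_near` with `R = 2 rm + 1` and `ε/2`, and the window condition for `ball 0 rm`.  `f c r = fT c 0 r`, `g c c' b = gT c c' 0 b`.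
`dec`: `decorr` (C7) with `a = 0`: `dist 0 b = ‖b‖`, and `|fT c' b ρ - fT c' 0 ρ| ≤ ε` (`fT_near` with `r = ρ ≤ rm`), `fT ≤ 1`.  `symm`: `g c' c (-b) = gT c' c 0 (-b) = gT c c' (-b) 0` (`gT_symm`), and
`gT c c' 0 b = gT c c' (-b + b) (0 + b)` is within `ε` (`stat_g` with `w = b`).  `col`: `fT_swap`.
-/
import Pool.Agent.Lib.SM3X.C7
import Pool.Agent.Lib.SM3X.FDefs
import Pool.Agent.Lib.SM3X.S2
import Pool.Agent.Lib.SM3X.S3

set_option autoImplicit false

open MeasureTheory Set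

namespace Pool.SM3X

private theorem S4_meas {d : ℕ} (p : Fin 3 → ℝ) (Φ : PhiM d) (T : ℝ) (c c' : Fin 3) (a' : XX d)
    (f : XX d → XX d) (hf : Measurable f) : Measurable (fun x : XX d => gT Φ p T c c' a' (f x)) := by
  have h0 : Measurable (fun x : XX d => (a', f x)) := measurable_const.prodMk hf
  have h1 := (measurable_gT p Φ T c c').comp h0
  simp only [Function.comp_def] at h1
  exact h1

private theorem S4_int {d : ℕ} {p : Fin 3 → ℝ} (hp : SM3.PV p) (Φ : PhiM d) {T : ℝ} (hT : 0 ≤ T)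
    (c c' : Fin 3) (a a' : XX d) (f : XX d → XX d) (hf : Measurable f) (r : ℝ) :
    IntegrableOn (fun x => gT Φ p T c c' a' (f x)) (Metric.ball a r) volume := by
  have hm : Measurable (fun x : XX d => gT Φ p T c c' a' (f x)) :=
    S4_meas p Φ T c c' a' f hf
  refine Measure.integrableOn_of_bounded (M := 1) ?_ hm.aestronglyMeasurable ?_
  · exact (measure_ball_lt_top).ne
  · refine Filter.Eventually.of_forall fun x => ?_
    have := gT_mem hp Φ hT c c' a' (f x)
    rw [Real.norm_eq_abs, abs_le]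
    constructor <;> linarith [this.1, this.2]

private theorem S4_window {d : ℕ} (Φ : PhiM d) (R : ℝ) :
    ∃ T₀ : ℕ, ∀ T : ℕ, T₀ ≤ T → 0 < (T : ℝ) ∧
      ∀ x : XX d, ‖x‖ < R → -(T : ℝ) < Φ.φ x ∧ Φ.φ x < T := by
  obtain ⟨M, hM⟩ := (Φ.bdd' (Metric.ball 0 R) Metric.isBounded_ball).exists_norm_le
  refine ⟨⌈M⌉₊ + 1, fun T hT => ?_⟩
  have hTM : M < T := by
    have h1 : M ≤ ⌈M⌉₊ := Nat.le_ceil M
    have h2 : ((⌈M⌉₊ + 1 : ℕ) : ℝ) ≤ T := Nat.cast_le.2 hT
    push_cast at h2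
    linarith
  have hT0 : (0 : ℝ) < T := by
    have : (0 : ℕ) < T := by omega
    exact_mod_cast this
  refine ⟨hT0, fun x hx => ?_⟩
  have hx' : x ∈ Metric.ball (0 : XX d) R := by
    rw [Metric.mem_ball, dist_zero_right]
    exact hx
  have h1 := hM _ (Set.mem_image_of_mem Φ.φ hx')
  rw [Real.norm_eq_abs] at h1
  exact abs_lt.1 (lt_of_le_of_lt h1 hTM)

theorem fT_near {d : ℕ} (hd : 1 ≤ d) {p : Fin 3 → ℝ} (hp : SM3.PV p) {Ω : Type} [MeasurableSpace Ω]
    {P : Measure Ω} [IsProbabilityMeasure P] {S : Fin 3 → Ω → Set (XX d)} (h : HypX p P S)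
    (Φ : PhiM d) {ε : ℝ} (hε : 0 < ε) (R : ℝ) :
    ∃ T₀ : ℕ, ∀ T : ℕ, T₀ ≤ T → ∀ (c : Fin 3) (a : XX d) (r : ℝ), ‖a‖ ≤ R → r ≤ R →
      |fT Φ p T c a r - fT Φ p T c 0 r| ≤ ε := by
  set R' : ℝ := |R| + 1 with hR'
  have hRR : R ≤ R' := by
    have := le_abs_self R
    linarith
  have hR0 : 0 ≤ R' := by positivity
  have hV : 0 ≤ VR d R' := VR_nonneg d R'
  have hε' : 0 < ε / (VR d R' + 1) := by positivity
  obtain ⟨T1, hT1⟩ := stat_g hd hp h Φ hε' R'
  obtain ⟨T2, hT2⟩ := S4_window Φ (2 * R' + 1)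
  refine ⟨max T1 T2, fun T hT c a r ha hr => ?_⟩
  obtain ⟨hT0, hw⟩ := hT2 T ((le_max_right _ _).trans hT)
  have hst := hT1 T ((le_max_left _ _).trans hT)
  have haR : ‖a‖ ≤ R' := ha.trans hRR
  have hrR : r ≤ R' := hr.trans hRR
  have m1 := mecke_f hd hp Φ hT0.le c a r (by
    intro x hx
    apply hw
    rw [Metric.mem_ball, dist_eq_norm] at hx
    have := norm_le_norm_add_norm_sub' x a
    linarith)
  have m2 := mecke_f hd hp Φ hT0.le c 0 r (by
    intro x hx
    apply hw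
    rw [Metric.mem_ball, dist_zero_right] at hx
    linarith)
  have key : ∀ c' : Fin 3, |(∫ x in Metric.ball a r, gT Φ p T c c' a x) -
      ∫ x in Metric.ball (0 : XX d) r, gT Φ p T c c' 0 x| ≤ ε := by
    intro c'
    have hpre : (fun x : XX d => x + a) ⁻¹' Metric.ball a r = Metric.ball 0 r := by
      ext x
      simp only [Set.mem_preimage, Metric.mem_ball, dist_eq_norm, add_sub_cancel_right, sub_zero]
    have htr := (measurePreserving_add_right (volume : Measure (XX d)) a).setIntegral_preimage_emb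
      (measurableEmbedding_addRight a) (fun x => gT Φ p T c c' a x) (Metric.ball a r)
    rw [hpre] at htr
    rw [← htr, ← integral_sub (S4_int hp Φ hT0.le c c' 0 a (fun x => x + a)
      (measurable_add_const a) r) (S4_int hp Φ hT0.le c c' 0 0 (fun x => x) measurable_id r)]
    have hb : ∀ x ∈ Metric.ball (0 : XX d) r,
        ‖gT Φ p T c c' a (x + a) - gT Φ p T c c' 0 x‖ ≤ ε / (VR d R' + 1) := by
      intro x hx
      rw [Metric.mem_ball, dist_zero_right] at hx
      have h1 := hst c c' 0 x a (by rw [norm_zero]; exact hR0) (by linarith) haR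
      rw [zero_add] at h1
      exact h1
    have h2 := norm_setIntegral_le_of_norm_le_const
      (μ := (volume : Measure (XX d))) (s := Metric.ball (0 : XX d) r)
      measure_ball_lt_top hb
    rw [Real.norm_eq_abs] at h2
    refine h2.trans ?_
    have h3 : (volume : Measure (XX d)).real (Metric.ball (0 : XX d) r) = VR d r := by
      unfold Measure.real
      rw [vB_eq, ENNReal.toReal_ofReal (VR_nonneg d r)]
    rw [h3]
    have h4 : VR d r ≤ VR d R' := VR_mono d hrR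
    calc ε / (VR d R' + 1) * VR d r ≤ ε / (VR d R' + 1) * (VR d R' + 1) := by
          apply mul_le_mul_of_nonneg_left _ hε'.le
          linarith
      _ = ε := by
          field_simp
  have hsum : p 0 + p 1 + p 2 = 1 := hp.sum
  rw [Fin.sum_univ_three] at m1 m2
  have k0 := abs_le.1 (key 0)
  have k1 := abs_le.1 (key 1)
  have k2 := abs_le.1 (key 2)
  have p0 := hp.pos 0
  have p1 := hp.pos 1
  have p2 := hp.pos 2
  rw [abs_le]
  constructor
  · nlinarith [mul_le_mul_of_nonneg_left k0.2 p0.le, mul_le_mul_of_nonneg_left k1.2 p1.le,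
      mul_le_mul_of_nonneg_left k2.2 p2.le]
  · nlinarith [mul_le_mul_of_nonneg_left k0.1 p0.le, mul_le_mul_of_nonneg_left k1.1 p1.le,
      mul_le_mul_of_nonneg_left k2.1 p2.le]

theorem facts {d : ℕ} (hd : 1 ≤ d) {p : Fin 3 → ℝ} (hp : SM3.PV p) (hq : p 1 = p 2) {Ω : Type}
    [MeasurableSpace Ω] {P : Measure Ω} [IsProbabilityMeasure P] {S : Fin 3 → Ω → Set (XX d)}
    (h : HypX p P S) (Φ : PhiM d) {ε : ℝ} (hε : 0 < ε) (rm : ℝ) :
    ∃ T₀ : ℕ, ∀ T : ℕ, T₀ ≤ T →
      Facts d p ε rm (fun c r => fT Φ p T c 0 r) (fun c c' b => gT Φ p T c c' 0 b) := by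
  set R : ℝ := |rm| + 1 with hR
  have hRR : rm ≤ R := by
    have := le_abs_self rm
    linarith
  have hR0 : 0 ≤ R := by positivity
  obtain ⟨T1, hT1⟩ := stat_g hd hp h Φ hε R
  obtain ⟨T2, hT2⟩ := S4_window Φ (R + 1)
  obtain ⟨T3, hT3⟩ := gT_low hd hp h Φ R
  obtain ⟨T4, hT4⟩ := fT_near hd hp h Φ hε R
  refine ⟨max (max T1 T2) (max T3 T4), fun T hT => ?_⟩
  have hTa := (le_max_left _ _).trans hT
  have hTb := (le_max_right _ _).trans hT
  obtain ⟨hT0, hw⟩ := hT2 T ((le_max_right _ _).trans hTa)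
  have hst := hT1 T ((le_max_left _ _).trans hTa)
  have hlow := hT3 T ((le_max_left _ _).trans hTb)
  have hnear := hT4 T ((le_max_right _ _).trans hTb)
  refine ⟨?_, ?_, ?_, ?_, ?_, ?_, ?_, ?_, ?_⟩
  · intro c r
    exact fT_mem hp Φ hT0.le c 0 r
  · intro c c' b
    exact gT_mem hp Φ hT0.le c c' 0 b
  · intro c c'
    exact S4_meas p Φ T c c' 0 (fun x => x) measurable_id
  · intro c b
    exact gT_self p Φ T c 0 b
  · intro c r _ hr
    refine mecke_f hd hp Φ hT0.le c 0 r fun x hx => hw x ?_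
    rw [Metric.mem_ball, dist_zero_right] at hx
    linarith
  · intro c c' b hc hb0 hb
    have hne : (0 : XX d) ≠ b := by
      intro h0
      rw [← h0, norm_zero] at hb0
      exact lt_irrefl _ hb0
    have h1 := decorr hd hp Φ T hc hne
    rw [dist_zero_left] at h1
    have h2 := hnear c' b ‖b‖ (hb.trans hRR) (hb.trans hRR)
    have h3 := fT_mem hp Φ hT0.le c 0 ‖b‖
    have h4 : |fT Φ p T c 0 ‖b‖ * fT Φ p T c' b ‖b‖ - fT Φ p T c 0 ‖b‖ * fT Φ p T c' 0 ‖b‖| ≤ ε := by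
      rw [← mul_sub, abs_mul, abs_of_nonneg h3.1]
      calc fT Φ p T c 0 ‖b‖ * |fT Φ p T c' b ‖b‖ - fT Φ p T c' 0 ‖b‖| ≤
            1 * |fT Φ p T c' b ‖b‖ - fT Φ p T c' 0 ‖b‖| :=
              mul_le_mul_of_nonneg_right h3.2 (abs_nonneg _)
        _ ≤ ε := by rw [one_mul]; exact h2
    have h5 := abs_add_le (gT Φ p T c c' 0 b - fT Φ p T c 0 ‖b‖ * fT Φ p T c' b ‖b‖)
      (fT Φ p T c 0 ‖b‖ * fT Φ p T c' b ‖b‖ - fT Φ p T c 0 ‖b‖ * fT Φ p T c' 0 ‖b‖)
    rw [sub_add_sub_cancel] at h5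
    exact h5.trans (add_le_add h1 h4)
  · intro c c' b hb
    have h1 := hst c c' (-b) 0 b (by rw [norm_neg]; exact hb.trans hRR)
      (by rw [norm_zero]; exact hR0) (hb.trans hRR)
    rw [neg_add_cancel, zero_add] at h1
    show |gT Φ p T c c' 0 b - gT Φ p T c' c 0 (-b)| ≤ ε
    rw [gT_symm p Φ T c' c 0 (-b)]
    exact h1
  · intro r
    exact fT_swap hq Φ T 0 r
  · intro b hb0 hb
    have hne : (0 : XX d) ≠ b := by
      intro h0
      rw [← h0, norm_zero] at hb0
      exact lt_irrefl _ hb0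
    have h1 := hlow 0 b (by rw [norm_zero]; exact hR0) (hb.trans hRR) hne
    rw [dist_zero_left] at h1
    exact h1

end Pool.SM3X
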