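/-
SM3X.T2 : almost every configuration is good.
PROOF. `fin`: `h.fin` for the three colours and the bounded set `{x | dist a x < R}` (the coloured set is a union of three images).
`noIso`: for `N : ℕ` let `Q Y = NoIso (Y ∩ {y | ‖y.1‖ < N})` (local on the ball; measurable: M1, `MFam.filter`, three quantifiers); `law_X` (P1) with a large `T` and `ae_noIso` (P6; a subset of a set without isosceles triples): a.s. `Q (SX S ω)`
for all `N`, hence NoIso.
`chain`: for `N`, `s`, `n : ℕ` let `C Y = ∃ x ∈ Y, ‖x.1‖ < N ∧ ¬ NoCh n (Y \ {x}) x.1 s`; local on the ball of radius `N + n s + 1` (`NoCh_congr_ball`, D6), measurable (M2).  `P {C} = Pm {l | C (GX Φ l)} ≤ ∫⁻ l, xsum Φ (fun x q => ind (‖x.1‖ < N ∧ ¬ NoCh n (GX Φ q) x.1 s)) l`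
(`le_xsum`, C1) `≤ vB d N * vB d s ^ n / n!` (`mecke_le`, P3, and `escape`, C3), which tends to 0 for `n → ∞`; so a.s. for all `N`, `s : ℕ` there is `n` with `¬ C`.  For `x ∈ Y` and real `s`: `N > ‖x.1‖`, integer `≥ s`, `NoCh.mono` (D2).
-/
import Pool.Agent.Lib.SM3X.C3
import Pool.Agent.Lib.SM3X.D6
import Pool.Agent.Lib.SM3X.M2
import Pool.Agent.Lib.SM3X.P1
import Pool.Agent.Lib.SM3X.P6

set_option autoImplicit false

open MeasureTheory Set

namespace Pool.SM3X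

private theorem T2_window {d : ℕ} (Φ : PhiM d) (R : ℝ) :
    ∃ T : ℝ, 0 < T ∧ ∀ x ∈ Metric.ball (0 : XX d) R, -T < Φ.φ x ∧ Φ.φ x < T := by
  obtain ⟨M, hM⟩ := (Φ.bdd' (Metric.ball 0 R) Metric.isBounded_ball).exists_norm_le
  refine ⟨|M| + 1, by positivity, fun x hx => ?_⟩
  have h1 := hM _ (Set.mem_image_of_mem Φ.φ hx)
  rw [Real.norm_eq_abs] at h1
  have h2 := le_abs_self M
  exact abs_lt.1 (lt_of_le_of_lt h1 (by linarith))

private theorem T2_fin {d : ℕ} {p : Fin 3 → ℝ} {Ω : Type} [MeasurableSpace Ω] {P : Measure Ω}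
    {S : Fin 3 → Ω → Set (XX d)} (h : HypX p P S) (ω : Ω) (a : XX d) (R : ℝ) :
    (SX S ω ∩ {y | dist a y.1 < R}).Finite := by
  have h1 : ∀ i : Fin 3, (S i ω ∩ Metric.ball a R).Finite := fun i =>
    h.fin i ω _ Metric.isBounded_ball
  have h2 : (⋃ i : Fin 3, (fun x : XX d => ((x, i) : CP (XX d))) ''
      (S i ω ∩ Metric.ball a R)).Finite :=
    Set.finite_iUnion fun i => (h1 i).image _
  refine h2.subset ?_
  rintro ⟨x, i⟩ ⟨hx, hy⟩
  refine mem_iUnion.2 ⟨i, x, ⟨hx, ?_⟩, rfl⟩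
  rw [Metric.mem_ball, dist_comm]
  exact hy

private theorem T2_ind_true {P : Prop} (h : P) : SM3.ind P = 1 := by
  unfold SM3.ind
  rw [if_pos h]

private theorem T2_ind_false {P : Prop} (h : ¬ P) : SM3.ind P = 0 := by
  unfold SM3.ind
  rw [if_neg h]

/-- restriction of the coloured set to a ball -/
private def T2Y {d : ℕ} (Φ : PhiM d) (N : ℕ) (l : List SM3.Pt) : Set (CP (XX d)) :=
  {y | y ∈ GX Φ l ∧ (l, y) ∈ {q : List SM3.Pt × CP (XX d) | ‖q.2.1‖ < N}}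

private theorem T2_MFam {d : ℕ} (Φ : PhiM d) (N : ℕ) : MFam (T2Y Φ N) := by
  refine (MFam_GX Φ).filter ?_
  exact measurableSet_lt (measurable_fst.comp measurable_snd).norm measurable_const

private theorem T2_measNoIso {d : ℕ} (Φ : PhiM d) (N : ℕ) :
    MeasurableSet {l | NoIso (T2Y Φ N l)} := by
  have hY := T2_MFam Φ N
  have hY1 : MFam (fun q : List SM3.Pt × CP (XX d) => T2Y Φ N q.1) :=
    hY.comp (measurable_fst : Measurable (fun q : List SM3.Pt × CP (XX d) => q.1))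
  have hY2 : MFam (fun q : (List SM3.Pt × CP (XX d)) × CP (XX d) => T2Y Φ N q.1.1) :=
    hY1.comp (measurable_fst : Measurable (fun q : (List SM3.Pt × CP (XX d)) × CP (XX d) => q.1))
  have h3 : MeasurableSet {r : ((List SM3.Pt × CP (XX d)) × CP (XX d)) × CP (XX d) |
      dist r.1.1.2.1 r.1.2.1 = dist r.1.1.2.1 r.2.1 → r.1.2 = r.2} := by
    have m1 : Measurable (fun r : ((List SM3.Pt × CP (XX d)) × CP (XX d)) × CP (XX d) =>
        r.1.1.2.1) :=
      measurable_fst.comp (measurable_snd.comp (measurable_fst.comp measurable_fst))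
    have m2 : Measurable (fun r : ((List SM3.Pt × CP (XX d)) × CP (XX d)) × CP (XX d) =>
        r.1.2.1) := measurable_fst.comp (measurable_snd.comp measurable_fst)
    have m3 : Measurable (fun r : ((List SM3.Pt × CP (XX d)) × CP (XX d)) × CP (XX d) =>
        r.2.1) := measurable_fst.comp measurable_snd
    have m4 : Measurable (fun r : ((List SM3.Pt × CP (XX d)) × CP (XX d)) × CP (XX d) =>
        (r.1.2.2, r.2.2)) :=
      (measurable_snd.comp (measurable_snd.comp measurable_fst)).prodMk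
        (measurable_snd.comp measurable_snd)
    have s1 : MeasurableSet {r : ((List SM3.Pt × CP (XX d)) × CP (XX d)) × CP (XX d) |
        dist r.1.1.2.1 r.1.2.1 = dist r.1.1.2.1 r.2.1} :=
      measurableSet_eq_fun (m1.dist m2) (m1.dist m3)
    have s2 : MeasurableSet {r : ((List SM3.Pt × CP (XX d)) × CP (XX d)) × CP (XX d) |
        r.1.2.1 = r.2.1} := measurableSet_eq_fun m2 m3
    have s3 : MeasurableSet {r : ((List SM3.Pt × CP (XX d)) × CP (XX d)) × CP (XX d) |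
        r.1.2.2 = r.2.2} :=
      m4 (MeasurableSet.of_discrete (s := {v : Fin 3 × Fin 3 | v.1 = v.2}))
    have e : {r : ((List SM3.Pt × CP (XX d)) × CP (XX d)) × CP (XX d) |
        dist r.1.1.2.1 r.1.2.1 = dist r.1.1.2.1 r.2.1 → r.1.2 = r.2}
        = {r | dist r.1.1.2.1 r.1.2.1 = dist r.1.1.2.1 r.2.1}ᶜ ∪
          ({r | r.1.2.1 = r.2.1} ∩ {r | r.1.2.2 = r.2.2}) := by
      ext r
      simp only [mem_ofPred_eq, mem_union, mem_compl_iff, mem_inter_iff, Prod.ext_iff]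
      tauto
    rw [e]
    exact s1.compl.union (s2.inter s3)
  have h2 : MeasurableSet {q : (List SM3.Pt × CP (XX d)) × CP (XX d) | ∀ z ∈ T2Y Φ N q.1.1,
      dist q.1.2.1 q.2.1 = dist q.1.2.1 z.1 → q.2 = z} :=
    hY2.forall (Q := {r | dist r.1.1.2.1 r.1.2.1 = dist r.1.1.2.1 r.2.1 → r.1.2 = r.2}) h3
  have h1 : MeasurableSet {q : List SM3.Pt × CP (XX d) | ∀ y ∈ T2Y Φ N q.1, ∀ z ∈ T2Y Φ N q.1,
      dist q.2.1 y.1 = dist q.2.1 z.1 → y = z} :=
    hY1.forall (Q := {r | ∀ z ∈ T2Y Φ N r.1.1, dist r.1.2.1 r.2.1 = dist r.1.2.1 z.1 → r.2 = z}) h2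
  exact hY.forall (Q := {r | ∀ y ∈ T2Y Φ N r.1, ∀ z ∈ T2Y Φ N r.1,
      dist r.2.1 y.1 = dist r.2.1 z.1 → y = z}) h1

private theorem T2_noIso {d : ℕ} (hd : 1 ≤ d) {p : Fin 3 → ℝ} (hp : SM3.PV p) {Ω : Type}
    [MeasurableSpace Ω] {P : Measure Ω} [IsProbabilityMeasure P] {S : Fin 3 → Ω → Set (XX d)}
    (h : HypX p P S) (Φ : PhiM d) (N : ℕ) :
    ∀ᵐ ω ∂P, NoIso (SX S ω ∩ {y | ‖y.1‖ < N}) := by
  obtain ⟨T, hT, hw⟩ := T2_window Φ N
  have hloc : Loc (fun Y : Set (CP (XX d)) => ¬ NoIso (Y ∩ {y | ‖y.1‖ < N}))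
      (Metric.ball (0 : XX d) N) := by
    intro Y Y' hYY
    have e : Y ∩ {y | ‖y.1‖ < N} = Y' ∩ {y | ‖y.1‖ < N} := by
      ext y
      constructor
      · rintro ⟨h1, h2⟩
        exact ⟨(hYY y (by rw [Metric.mem_ball, dist_zero_right]; exact h2)).1 h1, h2⟩
      · rintro ⟨h1, h2⟩
        exact ⟨(hYY y (by rw [Metric.mem_ball, dist_zero_right]; exact h2)).2 h1, h2⟩
    show (¬ NoIso (Y ∩ {y | ‖y.1‖ < N})) ↔ ¬ NoIso (Y' ∩ {y | ‖y.1‖ < N})
    rw [e]
  have hm : MeasurableSet {l | ¬ NoIso (GX Φ l ∩ {y | ‖y.1‖ < N})} :=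
    (T2_measNoIso Φ N).compl
  have h1 := (law_X hp h Φ hT hw hloc hm).2
  have h2 : SM3.Pm p (-T) T {l | ¬ NoIso (GX Φ l ∩ {y | ‖y.1‖ < N})} = 0 := by
    have h3 := ae_noIso hd p Φ T
    have h4 : ∀ᵐ l ∂(SM3.Pm p (-T) T), NoIso (GX Φ l ∩ {y | ‖y.1‖ < N}) := by
      filter_upwards [h3] with l hl x hx y hy z hz he
      exact hl x hx.1 y hy.1 z hz.1 he
    exact ae_iff.1 h4
  rw [h2] at h1
  exact ae_iff.2 h1

/-- the event that there is a long chain -/
private def T2C {d : ℕ} (N s n : ℕ) (Y : Set (CP (XX d))) : Prop :=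
  ∃ x ∈ Y, ‖x.1‖ < N ∧ ¬ NoCh n (Y \ {x}) x.1 s

private theorem T2_loc_aux {d : ℕ} (N s n : ℕ) {Y Y' : Set (CP (XX d))}
    (h : ∀ y : CP (XX d), y.1 ∈ Metric.ball (0 : XX d) ((N : ℝ) + n * s + 1) → (y ∈ Y ↔ y ∈ Y'))
    (hY : T2C N s n Y) : T2C N s n Y' := by
  obtain ⟨x, hx, hxN, hc⟩ := hY
  have h0 : (0 : ℝ) ≤ (n : ℝ) * s := by positivity
  refine ⟨x, (h x ?_).1 hx, hxN, fun hn => hc ?_⟩
  · rw [Metric.mem_ball, dist_zero_right]
    linarith
  · refine (NoCh_congr_ball fun y hy => ?_).2 hn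
    have h2 : y.1 ∈ Metric.ball (0 : XX d) ((N : ℝ) + n * s + 1) := by
      rw [Metric.mem_ball, dist_zero_right]
      have h3 := norm_le_norm_add_norm_sub' y.1 x.1
      rw [dist_eq_norm, norm_sub_rev] at hy
      linarith
    have h3 := h y h2
    constructor
    · rintro ⟨h4, h5⟩
      exact ⟨h3.1 h4, h5⟩
    · rintro ⟨h4, h5⟩
      exact ⟨h3.2 h4, h5⟩

private theorem T2_measC {d : ℕ} (Φ : PhiM d) (N s n : ℕ) :
    MeasurableSet {l | T2C N s n (GX Φ l)} := by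
  have h1 : MeasurableSet {q : List SM3.Pt × CP (XX d) |
      NoCh n (GX Φ q.1 \ {q.2}) q.2.1 (s : ℝ)} :=
    measurableSet_NoCh n (MFam.diff ((MFam_GX Φ).comp measurable_fst) measurable_snd)
      (measurable_fst.comp measurable_snd) measurable_const
  have h2 : MeasurableSet {q : List SM3.Pt × CP (XX d) | ‖q.2.1‖ < N} :=
    measurableSet_lt (measurable_fst.comp measurable_snd).norm measurable_const
  exact (MFam_GX Φ).exists (h2.inter h1.compl)

private theorem T2_bound {d : ℕ} (hd : 1 ≤ d) {p : Fin 3 → ℝ} (hp : SM3.PV p) (Φ : PhiM d) {T : ℝ}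
    (hT : 0 ≤ T) (N s n : ℕ) :
    SM3.Pm p (-T) T {l | T2C N s n (GX Φ l)} ≤
      vB d N * (vB d s ^ n / (n.factorial : ENNReal)) := by
  have hmN : MeasurableSet {q : CP (XX d) × List SM3.Pt | ‖q.1.1‖ < N} :=
    measurableSet_lt (measurable_fst.comp measurable_fst).norm measurable_const
  have hmC : MeasurableSet {q : CP (XX d) × List SM3.Pt |
      NoCh n (GX Φ q.2) q.1.1 (s : ℝ)} :=
    measurableSet_NoCh n ((MFam_GX Φ).comp measurable_snd)
      (measurable_fst.comp measurable_fst) measurable_const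
  have hG : Measurable (fun q : CP (XX d) × List SM3.Pt =>
      SM3.ind (‖q.1.1‖ < N ∧ ¬ NoCh n (GX Φ q.2) q.1.1 (s : ℝ))) :=
    SM3.measurable_ind (hmN.inter hmC.compl)
  have hle := mecke_le (p := p) Φ (T := T)
    (G := fun x q => SM3.ind (‖x.1‖ < N ∧ ¬ NoCh n (GX Φ q) x.1 (s : ℝ))) hG
  have h1 : SM3.Pm p (-T) T {l | T2C N s n (GX Φ l)} ≤
      ∫⁻ l, xsum Φ (fun x q => SM3.ind (‖x.1‖ < N ∧ ¬ NoCh n (GX Φ q) x.1 (s : ℝ))) l
        ∂(SM3.Pm p (-T) T) := by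
    rw [← lintegral_indicator_one (T2_measC Φ N s n)]
    refine lintegral_mono_ae ?_
    filter_upwards [ae_list p Φ T] with l hl
    by_cases hC : T2C N s n (GX Φ l)
    · obtain ⟨x, hx, hxN, hc⟩ := hC
      obtain ⟨q, -, hq2, hq3⟩ := le_xsum Φ hl.1 hx
      have h2 := hq3 (fun x q => SM3.ind (‖x.1‖ < N ∧ ¬ NoCh n (GX Φ q) x.1 (s : ℝ)))
      have h3 : SM3.ind (‖x.1‖ < N ∧ ¬ NoCh n (GX Φ q) x.1 (s : ℝ)) = 1 := by
        refine T2_ind_true ⟨hxN, ?_⟩
        rw [hq2]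
        exact hc
      have h4 : (1 : ENNReal) ≤
          xsum Φ (fun x q => SM3.ind (‖x.1‖ < N ∧ ¬ NoCh n (GX Φ q) x.1 (s : ℝ))) l := by
        rw [← h3]
        exact h2
      refine le_trans ?_ h4
      exact Set.indicator_apply_le fun _ => le_rfl
    · rw [Set.indicator_of_notMem (show l ∉ {l | T2C N s n (GX Φ l)} from hC)]
      exact zero_le
  refine h1.trans (hle.trans ?_)
  have hsum : ∑ c : Fin 3, ENNReal.ofReal (p c) = 1 := by
    rw [← ENNReal.ofReal_sum_of_nonneg (fun c _ => (hp.pos c).le), Fin.sum_univ_three, hp.sum,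
      ENNReal.ofReal_one]
  have h5 : ∀ x : XX d, (∑ c : Fin 3, ENNReal.ofReal (p c) *
      ∫⁻ l, SM3.ind (‖((x, c) : CP (XX d)).1‖ < N ∧ ¬ NoCh n (GX Φ l) ((x, c) : CP (XX d)).1 (s : ℝ))
        ∂(SM3.Pm p (-T) T)) ≤
      (Metric.ball (0 : XX d) N).indicator
        (fun _ => vB d s ^ n / (n.factorial : ENNReal)) x := by
    intro x
    by_cases hx : ‖x‖ < N
    · have hx' : x ∈ Metric.ball (0 : XX d) N := by
        rw [Metric.mem_ball, dist_zero_right]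
        exact hx
      rw [Set.indicator_of_mem hx']
      have h6 : ∀ c : Fin 3, ∫⁻ l, SM3.ind (‖((x, c) : CP (XX d)).1‖ < N ∧
          ¬ NoCh n (GX Φ l) ((x, c) : CP (XX d)).1 (s : ℝ)) ∂(SM3.Pm p (-T) T) ≤
          vB d s ^ n / (n.factorial : ENNReal) := by
        intro c
        refine le_trans ?_ (escape hd hp Φ hT n x s)
        have hms : MeasurableSet {l | ¬ NoCh n (GX Φ l) x (s : ℝ)} :=
          (measurableSet_NoCh n (MFam_GX Φ) measurable_const measurable_const).compl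
        rw [← lintegral_indicator_one hms]
        refine lintegral_mono fun l => ?_
        show SM3.ind (‖((x, c) : CP (XX d)).1‖ < N ∧
          ¬ NoCh n (GX Φ l) ((x, c) : CP (XX d)).1 (s : ℝ)) ≤
          Set.indicator {l | ¬ NoCh n (GX Φ l) x (s : ℝ)} 1 l
        by_cases hc : NoCh n (GX Φ l) x (s : ℝ)
        · rw [T2_ind_false (fun h => h.2 hc)]
          exact zero_le
        · rw [T2_ind_true ⟨hx, hc⟩, Set.indicator_of_mem (show l ∈ {l | ¬ NoCh n (GX Φ l) x (s : ℝ)}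
            from hc)]
          exact le_rfl
      calc (∑ c : Fin 3, ENNReal.ofReal (p c) *
          ∫⁻ l, SM3.ind (‖((x, c) : CP (XX d)).1‖ < N ∧
            ¬ NoCh n (GX Φ l) ((x, c) : CP (XX d)).1 (s : ℝ)) ∂(SM3.Pm p (-T) T)) ≤
          ∑ c : Fin 3, ENNReal.ofReal (p c) * (vB d s ^ n / (n.factorial : ENNReal)) :=
            Finset.sum_le_sum fun c _ => mul_le_mul_right (h6 c) _
        _ = vB d s ^ n / (n.factorial : ENNReal) := by
            rw [← Finset.sum_mul, hsum, one_mul]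
    · refine le_of_eq_of_le ?_ zero_le
      refine Finset.sum_eq_zero fun c _ => ?_
      have h7 : ∀ l : List SM3.Pt, SM3.ind (‖((x, c) : CP (XX d)).1‖ < N ∧
          ¬ NoCh n (GX Φ l) ((x, c) : CP (XX d)).1 (s : ℝ)) = 0 :=
        fun l => T2_ind_false fun h => hx h.1
      rw [lintegral_congr h7, lintegral_zero, mul_zero]
  refine (lintegral_mono h5).trans ?_
  rw [lintegral_indicator_const Metric.isOpen_ball.measurableSet]
  rw [mul_comm]
  exact le_rfl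

private theorem T2_tendsto {d : ℕ} (N s : ℕ) :
    Filter.Tendsto (fun n : ℕ => vB d N * (vB d s ^ n / (n.factorial : ENNReal)))
      Filter.atTop (nhds 0) := by
  have h1 : ∀ n : ℕ, vB d s ^ n / (n.factorial : ENNReal) =
      ENNReal.ofReal (VR d s ^ n / (n.factorial : ℝ)) := by
    intro n
    have h2 : vB d s = ENNReal.ofReal (VR d s) := vB_eq (0 : XX d) s
    rw [h2, ENNReal.ofReal_div_of_pos (by positivity), ENNReal.ofReal_pow (VR_nonneg d s),
      ENNReal.ofReal_natCast]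
  have h3 : Filter.Tendsto (fun n : ℕ => vB d s ^ n / (n.factorial : ENNReal))
      Filter.atTop (nhds 0) := by
    simp_rw [h1]
    have h4 := ENNReal.tendsto_ofReal
      (FloorSemiring.tendsto_pow_div_factorial_atTop (VR d s))
    rw [ENNReal.ofReal_zero] at h4
    exact h4
  have h5 : vB d N ≠ ⊤ := by
    have h2 : vB d N = ENNReal.ofReal (VR d N) := vB_eq (0 : XX d) N
    rw [h2]
    exact ENNReal.ofReal_ne_top
  have h6 := ENNReal.Tendsto.const_mul (a := vB d N) h3 (Or.inr h5)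
  rw [mul_zero] at h6
  exact h6

private theorem T2_chain {d : ℕ} (hd : 1 ≤ d) {p : Fin 3 → ℝ} (hp : SM3.PV p) {Ω : Type}
    [MeasurableSpace Ω] {P : Measure Ω} [IsProbabilityMeasure P] {S : Fin 3 → Ω → Set (XX d)}
    (h : HypX p P S) (Φ : PhiM d) (N s : ℕ) :
    ∀ᵐ ω ∂P, ∃ n, ¬ T2C N s n (SX S ω) := by
  have hb : ∀ n : ℕ, P {ω | T2C N s n (SX S ω)} ≤
      vB d N * (vB d s ^ n / (n.factorial : ENNReal)) := by
    intro n
    obtain ⟨T, hT, hw⟩ := T2_window Φ ((N : ℝ) + n * s + 1)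
    have hloc : Loc (T2C (d := d) N s n) (Metric.ball (0 : XX d) ((N : ℝ) + n * s + 1)) := by
      intro Y Y' hYY
      exact ⟨T2_loc_aux N s n hYY, T2_loc_aux N s n fun y hy => (hYY y hy).symm⟩
    have h1 := (law_X hp h Φ hT hw hloc (T2_measC Φ N s n)).2
    rw [h1]
    exact T2_bound hd hp Φ hT.le N s n
  have h0 : P {ω | ∀ n, T2C N s n (SX S ω)} = 0 := by
    refine le_antisymm ?_ zero_le
    refine ge_of_tendsto (T2_tendsto (d := d) N s) (Filter.Eventually.of_forall fun n => ?_)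
    exact (measure_mono fun ω (hω : ∀ n, T2C N s n (SX S ω)) => hω n).trans (hb n)
  refine ae_iff.2 ?_
  have e : {ω | ¬ ∃ n, ¬ T2C N s n (SX S ω)} = {ω | ∀ n, T2C N s n (SX S ω)} := by
    ext ω
    constructor
    · intro hω n
      by_contra hc
      exact hω ⟨n, hc⟩
    · rintro hω ⟨n, hn⟩
      exact hn (hω n)
  rw [e]
  exact h0

theorem ae_goodX {d : ℕ} (hd : 1 ≤ d) {p : Fin 3 → ℝ} (hp : SM3.PV p) {Ω : Type}
    [MeasurableSpace Ω] {P : Measure Ω} [IsProbabilityMeasure P] {S : Fin 3 → Ω → Set (XX d)}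
    (h : HypX p P S) (Φ : PhiM d) : ∀ᵐ ω ∂P, GoodX (SX S ω) := by
  have h1 : ∀ᵐ ω ∂P, ∀ N : ℕ, NoIso (SX S ω ∩ {y | ‖y.1‖ < N}) :=
    ae_all_iff.2 fun N => T2_noIso hd hp h Φ N
  have h2 : ∀ᵐ ω ∂P, ∀ N s : ℕ, ∃ n, ¬ T2C N s n (SX S ω) :=
    ae_all_iff.2 fun N => ae_all_iff.2 fun s => T2_chain hd hp h Φ N s
  filter_upwards [h1, h2] with ω hω1 hω2
  refine ⟨?_, fun a R => T2_fin h ω a R, ?_⟩
  · intro x hx y hy z hz he
    obtain ⟨N, hN⟩ := exists_nat_gt (max ‖x.1‖ (max ‖y.1‖ ‖z.1‖))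
    have hxN : ‖x.1‖ < N := lt_of_le_of_lt (le_max_left _ _) hN
    have hyN : ‖y.1‖ < N := lt_of_le_of_lt ((le_max_left _ _).trans (le_max_right _ _)) hN
    have hzN : ‖z.1‖ < N := lt_of_le_of_lt ((le_max_right _ _).trans (le_max_right _ _)) hN
    exact hω1 N x ⟨hx, hxN⟩ y ⟨hy, hyN⟩ z ⟨hz, hzN⟩ he
  · intro x hx s
    obtain ⟨N, hN⟩ := exists_nat_gt ‖x.1‖
    obtain ⟨n, hn⟩ := hω2 N ⌈s⌉₊
    refine ⟨n, ?_⟩
    by_contra hc
    refine hn ⟨x, hx, hN, fun hno => hc ?_⟩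
    exact hno.mono (le_refl _) (Nat.le_ceil s)

end Pool.SM3X
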