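/-
SM3X.H9 : the mean number of unmatched points of colour 0.
PROOF. (1) For a natural number `r ≥ r₁`: `ε` from `hkey r`, `facts` (S4, with `rm = r`), `fT_near` (S4, `R = max r (bound of the norm on A)`), `V^m/m! → 0` (`FloorSemiring.tendsto_pow_div_factorial_atTop`), `lintegral_LSet` (H8), `mean_bounds` (H7): for every `η > 0` there is `m₀` with
`ofReal (a - 2 η) * volume A ≤ ∫⁻ ncard (LSet A r m) ∂P ≤ ofReal (b + 2 η) * volume A` for `m ≥ m₀`.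
(2) a.e. `ω` (`ae_goodX`, T2): `LSet A r m = VSet A r` for large `m` (H6), all counts are at most `ncard (LSet A r 0)`, whose integral is finite (H8): dominated convergence (`tendsto_lintegral_of_dominated_convergence'`), then `η → 0` (`ENNReal.continuous_ofReal`, `volume A < ∞`):
`ofReal a * volume A ≤ ∫⁻ ncard (VSet A r) ∂P ≤ ofReal b * volume A`; the count of `VSet A r` is a.e. measurable as an a.e. limit (`aemeasurable_of_tendsto_metrizable_ae`).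
(3) `r → ∞` along the natural numbers: `VSet A r = USet A` for large `r` (H6), dominated convergence again.
-/
import Pool.Agent.Lib.SM3X.H6
import Pool.Agent.Lib.SM3X.H8
import Pool.Agent.Lib.SM3X.S4
import Pool.Agent.Lib.SM3X.T2

set_option autoImplicit false

open MeasureTheory Set

namespace Pool.SM3X

variable {d : ℕ}

private theorem H9_window (hd : 1 ≤ d) {p : Fin 3 → ℝ} (hp : SM3.PV p) (hq : p 1 = p 2) {a b : ℝ}
    {r : ℕ} (hkey : ∃ ε : ℝ, 0 < ε ∧ ∀ (f : Fin 3 → ℝ → ℝ) (g : Fin 3 → Fin 3 → XX d → ℝ),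
      Facts d p ε r f g → a ≤ p 0 * f 0 r ∧ p 0 * f 0 r ≤ b)
    {Ω : Type} [MeasurableSpace Ω] {P : Measure Ω} [IsProbabilityMeasure P]
    {S : Fin 3 → Ω → Set (XX d)} (h : HypX p P S) (Φ : PhiM d) {A : Set (XX d)}
    (hA : MeasurableSet A) (hAb : Bornology.IsBounded A) {η : ℝ} (hη : 0 < η) :
    ∃ m₀ : ℕ, ∀ m : ℕ, m₀ ≤ m →
      ENNReal.ofReal (a - 2 * η) * volume A ≤
        ∫⁻ ω, ((LSet A (r : ℝ) m (SX S ω)).ncard : ENNReal) ∂P ∧
      ∫⁻ ω, ((LSet A (r : ℝ) m (SX S ω)).ncard : ENNReal) ∂P ≤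
        ENNReal.ofReal (b + 2 * η) * volume A := by
  obtain ⟨ε, hε, hk⟩ := hkey
  obtain ⟨T1, hT1⟩ := facts hd hp hq h Φ hε (r : ℝ)
  obtain ⟨B, hB⟩ := hAb.exists_norm_le
  obtain ⟨T2, hT2⟩ := fT_near hd hp h Φ hη (max (r : ℝ) B)
  have htend := FloorSemiring.tendsto_pow_div_factorial_atTop (VR d (r : ℝ))
  obtain ⟨m₀, hm₀⟩ := Filter.eventually_atTop.1 (htend.eventually (gt_mem_nhds hη))
  refine ⟨m₀, fun m hm => ?_⟩
  obtain ⟨-, T3, hT3⟩ := lintegral_LSet hd hp h Φ hA hAb (r : ℝ) m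
  set T : ℕ := max (max T1 T2) T3 with hT
  have hTa : T1 ≤ T := (le_max_left _ _).trans (le_max_left _ _)
  have hTb : T2 ≤ T := (le_max_right _ _).trans (le_max_left _ _)
  have hTc : T3 ≤ T := le_max_right _ _
  obtain ⟨hw, heq⟩ := hT3 T hTc
  have hf := hk _ _ (hT1 T hTa)
  have hx : ∀ x ∈ A, |fT Φ p (T : ℝ) 0 x (r : ℝ) - fT Φ p (T : ℝ) 0 0 (r : ℝ)| ≤ η := fun x hx =>
    hT2 T hTb 0 x (r : ℝ) ((hB x hx).trans (le_max_right _ _)) (le_max_left _ _)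
  have hb := mean_bounds hd hp Φ (Nat.cast_nonneg T) hA hw (r : ℝ) m (hm₀ m hm).le hx hf.1 hf.2
  rw [heq]
  exact hb

private theorem H9_tend {c : ENNReal} (hc : c ≠ ⊤) (a k : ℝ) :
    Filter.Tendsto (fun η : ℝ => ENNReal.ofReal (a + k * η) * c) (nhdsWithin 0 (Set.Ioi 0))
      (nhds (ENNReal.ofReal a * c)) := by
  have h1 : Filter.Tendsto (fun η : ℝ => a + k * η) (nhdsWithin 0 (Set.Ioi 0)) (nhds a) := by
    have h2 : Filter.Tendsto (fun η : ℝ => a + k * η) (nhds 0) (nhds (a + k * 0)) :=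
      (Continuous.tendsto (by fun_prop) 0)
    rw [mul_zero, add_zero] at h2
    exact h2.mono_left nhdsWithin_le_nhds
  exact ENNReal.Tendsto.mul_const (ENNReal.tendsto_ofReal h1) (Or.inr hc)

private theorem H9_bdd {A : Set (XX d)} (hAb : Bornology.IsBounded A) :
    (volume A : ENNReal) ≠ ⊤ := hAb.measure_lt_top.ne

theorem mean_VSet (hd : 1 ≤ d) {p : Fin 3 → ℝ} (hp : SM3.PV p) (hq : p 1 = p 2) {a b : ℝ} {r : ℕ}
    (hkey : ∃ ε : ℝ, 0 < ε ∧ ∀ (f : Fin 3 → ℝ → ℝ) (g : Fin 3 → Fin 3 → XX d → ℝ),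
      Facts d p ε r f g → a ≤ p 0 * f 0 r ∧ p 0 * f 0 r ≤ b)
    {Ω : Type} [MeasurableSpace Ω] {P : Measure Ω} [IsProbabilityMeasure P]
    {S : Fin 3 → Ω → Set (XX d)} (h : HypX p P S) (Φ : PhiM d) {A : Set (XX d)}
    (hA : MeasurableSet A) (hAb : Bornology.IsBounded A) :
    AEMeasurable (fun ω => ((VSet A (r : ℝ) (SX S ω)).ncard : ENNReal)) P ∧
    ENNReal.ofReal a * volume A ≤ ∫⁻ ω, ((VSet A (r : ℝ) (SX S ω)).ncard : ENNReal) ∂P ∧
      ∫⁻ ω, ((VSet A (r : ℝ) (SX S ω)).ncard : ENNReal) ∂P ≤ ENNReal.ofReal b * volume A := by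
  have hgood := ae_goodX hd hp h Φ
  have hae : ∀ m : ℕ, AEMeasurable (fun ω => ((LSet A (r : ℝ) m (SX S ω)).ncard : ENNReal)) P :=
    fun m => (lintegral_LSet hd hp h Φ hA hAb (r : ℝ) m).1
  have hlim : ∀ᵐ ω ∂P, Filter.Tendsto
      (fun m : ℕ => ((LSet A (r : ℝ) m (SX S ω)).ncard : ENNReal)) Filter.atTop
      (nhds ((VSet A (r : ℝ) (SX S ω)).ncard : ENNReal)) := by
    filter_upwards [hgood] with ω hω
    obtain ⟨m₀, hm₀⟩ := LSet_eventually hω hAb (r : ℝ)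
    refine tendsto_const_nhds.congr' ?_
    filter_upwards [Filter.eventually_ge_atTop m₀] with m hm
    rw [hm₀ m hm]
  have hbd : ∀ m : ℕ, ∀ᵐ ω ∂P, ((LSet A (r : ℝ) m (SX S ω)).ncard : ENNReal) ≤
      ((LSet A (r : ℝ) 0 (SX S ω)).ncard : ENNReal) := by
    intro m
    filter_upwards [hgood] with ω hω
    exact_mod_cast Set.ncard_le_ncard (LSet_sub A (r : ℝ) m (SX S ω))
      (LSet_zero_finite hω hAb (r : ℝ))
  have hT := tendsto_lintegral_of_dominated_convergence' _ hae hbd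
    (lintegral_LSet_zero hd hp h Φ hA hAb (r : ℝ)) hlim
  refine ⟨aemeasurable_of_tendsto_metrizable_ae Filter.atTop hae hlim, ?_, ?_⟩
  · have h1 : ∀ η : ℝ, 0 < η → ENNReal.ofReal (a + -2 * η) * volume A ≤
        ∫⁻ ω, ((VSet A (r : ℝ) (SX S ω)).ncard : ENNReal) ∂P := by
      intro η hη
      obtain ⟨m₀, hm₀⟩ := H9_window hd hp hq hkey h Φ hA hAb hη
      refine ge_of_tendsto hT ?_
      filter_upwards [Filter.eventually_ge_atTop m₀] with m hm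
      have h2 := (hm₀ m hm).1
      have h3 : a + -2 * η = a - 2 * η := by ring
      rw [h3]
      exact h2
    refine le_of_tendsto (H9_tend (H9_bdd hAb) a (-2)) ?_
    filter_upwards [self_mem_nhdsWithin] with η hη
    exact h1 η hη
  · have h1 : ∀ η : ℝ, 0 < η → ∫⁻ ω, ((VSet A (r : ℝ) (SX S ω)).ncard : ENNReal) ∂P ≤
        ENNReal.ofReal (b + 2 * η) * volume A := by
      intro η hη
      obtain ⟨m₀, hm₀⟩ := H9_window hd hp hq hkey h Φ hA hAb hη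
      refine le_of_tendsto hT ?_
      filter_upwards [Filter.eventually_ge_atTop m₀] with m hm
      exact (hm₀ m hm).2
    refine ge_of_tendsto (H9_tend (H9_bdd hAb) b 2) ?_
    filter_upwards [self_mem_nhdsWithin] with η hη
    exact h1 η hη

theorem mean_USet (hd : 1 ≤ d) {p : Fin 3 → ℝ} (hp : SM3.PV p) (hq : p 1 = p 2) {a b : ℝ}
    (hkey : ∃ r₁ : ℝ, 0 < r₁ ∧ ∀ r' : ℝ, r₁ ≤ r' → ∃ ε : ℝ, 0 < ε ∧
      ∀ (f : Fin 3 → ℝ → ℝ) (g : Fin 3 → Fin 3 → XX d → ℝ), Facts d p ε r' f g →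
        a ≤ p 0 * f 0 r' ∧ p 0 * f 0 r' ≤ b)
    {Ω : Type} [MeasurableSpace Ω] {P : Measure Ω} [IsProbabilityMeasure P]
    {S : Fin 3 → Ω → Set (XX d)} (h : HypX p P S) (Φ : PhiM d) {A : Set (XX d)}
    (hA : MeasurableSet A) (hAb : Bornology.IsBounded A) :
    ENNReal.ofReal a * volume A ≤ ∫⁻ ω, ((USet A (SX S ω)).ncard : ENNReal) ∂P ∧
      ∫⁻ ω, ((USet A (SX S ω)).ncard : ENNReal) ∂P ≤ ENNReal.ofReal b * volume A := by
  obtain ⟨r₁, -, hk⟩ := hkey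
  obtain ⟨N, hN⟩ := exists_nat_ge r₁
  have hgood := ae_goodX hd hp h Φ
  have hV : ∀ n : ℕ, AEMeasurable
      (fun ω => ((VSet A ((n + N : ℕ) : ℝ) (SX S ω)).ncard : ENNReal)) P ∧
      ENNReal.ofReal a * volume A ≤
        ∫⁻ ω, ((VSet A ((n + N : ℕ) : ℝ) (SX S ω)).ncard : ENNReal) ∂P ∧
      ∫⁻ ω, ((VSet A ((n + N : ℕ) : ℝ) (SX S ω)).ncard : ENNReal) ∂P ≤
        ENNReal.ofReal b * volume A := by
    intro n
    refine mean_VSet hd hp hq (hk _ ?_) h Φ hA hAb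
    push_cast
    have : (0 : ℝ) ≤ n := Nat.cast_nonneg n
    linarith
  have hlim : ∀ᵐ ω ∂P, Filter.Tendsto
      (fun n : ℕ => ((VSet A ((n + N : ℕ) : ℝ) (SX S ω)).ncard : ENNReal)) Filter.atTop
      (nhds ((USet A (SX S ω)).ncard : ENNReal)) := by
    filter_upwards [hgood] with ω hω
    obtain ⟨m₀, hm₀⟩ := VSet_eventually hω hAb
    refine tendsto_const_nhds.congr' ?_
    filter_upwards [Filter.eventually_ge_atTop m₀] with m hm
    rw [hm₀ (m + N) (by omega)]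
  have hbd : ∀ n : ℕ, ∀ᵐ ω ∂P, ((VSet A ((n + N : ℕ) : ℝ) (SX S ω)).ncard : ENNReal) ≤
      ((LSet A (0 : ℝ) 0 (SX S ω)).ncard : ENNReal) := by
    intro n
    filter_upwards [hgood] with ω hω
    have hsub : VSet A ((n + N : ℕ) : ℝ) (SX S ω) ⊆ LSet A (0 : ℝ) 0 (SX S ω) := fun x hx =>
      ⟨hx.1, hx.2.1, hx.2.2.1, trivial⟩
    exact_mod_cast Set.ncard_le_ncard hsub (LSet_zero_finite hω hAb (0 : ℝ))
  have hT := tendsto_lintegral_of_dominated_convergence' _ (fun n => (hV n).1) hbd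
    (lintegral_LSet_zero hd hp h Φ hA hAb (0 : ℝ)) hlim
  refine ⟨ge_of_tendsto' hT fun n => (hV n).2.1, le_of_tendsto' hT fun n => (hV n).2.2⟩

end Pool.SM3X
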