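/-
SM3X.PH1 : digit interleaving.
PROOF. `J 0`: a bijection `(Fin d → ℤ) → ℤ` (both sides are countable and infinite for `d ≥ 1`: `Denumerable`, `nonempty_equiv_of_countable`).
`code : (Fin d → Fin 2) ≃ Fin (2^d)` is `finFunctionFinEquiv`; `e(a) = code (fun i => a i mod 2)`; it is `2^d - 1` only if all `a i` are odd
(`∑ i, b i * 2^i = 2^d - 1` with `b i ≤ 1` forces `b i = 1`; or choose any bijection `code` with `code (all ones) = 2^d - 1`, e.g. by composing with a swap: this is easier).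
`J (n+1) a = 2^d * J n (fun i => a i / 2) + e(a)` with `0 ≤ e(a) < 2^d`.  Bijective: `a ↔ (a / 2, a mod 2)` and `z ↔ (z / 2^d, z mod 2^d)` (Int.ediv_add_emod).
`exists_phi_fun`: `t n x = J n (⌊2^n x⌋) / 2^(d n)`; `⌊2^(n+1) x i⌋ / 2 = ⌊2^n x i⌋`, so `t n ≤ t (n+1) ≤ t n + (2^d - 1)/2^(d (n+1))`; `φ x = ⨆ n, t n x` (bounded above by
`t 0 + 1`), `t n ≤ φ ≤ t n + 2^(-d n)` and the right inequality is strict: otherwise all later digits are `2^d - 1`, hence `⌊2^m x 0⌋` is odd for all `m > n`, which means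
that the fractional part of `2^n x 0` is `1 - 2^(-j)` at least for all `j`: impossible.
-/
import Pool.Agent.Lib.SM3X.Defs

set_option autoImplicit false

open MeasureTheory Set

namespace Pool.SM3X

private lemma PH1_code (d : ℕ) : ∃ c : (Fin d → Fin 2) ≃ Fin (2 ^ d),
    ((c (fun _ => 1) : Fin (2 ^ d)) : ℕ) = 2 ^ d - 1 := by
  have hpos : 0 < 2 ^ d := by positivity
  refine ⟨(finFunctionFinEquiv).trans
    (Equiv.swap (finFunctionFinEquiv (fun _ => (1 : Fin 2))) ⟨2 ^ d - 1, by omega⟩), ?_⟩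
  simp [Equiv.trans_apply, Equiv.swap_apply_left]

private def PH1_par (d : ℕ) (a : Fin d → ℤ) : Fin d → Fin 2 :=
  fun i => if a i % 2 = 1 then 1 else 0

private lemma PH1_par_eq {d : ℕ} {a b : Fin d → ℤ} (h : PH1_par d a = PH1_par d b) (i : Fin d) :
    a i % 2 = b i % 2 := by
  have h1 := congrFun h i
  unfold PH1_par at h1
  by_cases ha : a i % 2 = 1 <;> by_cases hb : b i % 2 = 1
  · omega
  · rw [if_pos ha, if_neg hb] at h1
    exact absurd h1 (by decide)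
  · rw [if_neg ha, if_pos hb] at h1
    exact absurd h1 (by decide)
  · omega

private noncomputable def PH1_J (d : ℕ) (J0 : (Fin d → ℤ) ≃ ℤ) (c : (Fin d → Fin 2) ≃ Fin (2 ^ d)) :
    ℕ → (Fin d → ℤ) → ℤ
  | 0 => J0
  | n + 1 => fun a => (2 : ℤ) ^ d * PH1_J d J0 c n (fun i => a i / 2) +
      ((c (PH1_par d a) : Fin (2 ^ d)) : ℕ)

private lemma PH1_div_unique {M x y e f : ℤ} (hM : 0 < M) (he : 0 ≤ e) (he' : e < M) (hf : 0 ≤ f)
    (hf' : f < M) (h : M * x + e = M * y + f) : x = y ∧ e = f := by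
  have hx : (M * x + e) / M = x := by
    rw [Int.mul_add_ediv_left _ _ hM.ne', Int.ediv_eq_zero_of_lt he he', add_zero]
  have hy : (M * y + f) / M = y := by
    rw [Int.mul_add_ediv_left _ _ hM.ne', Int.ediv_eq_zero_of_lt hf hf', add_zero]
  have hxy : x = y := by rw [← hx, ← hy, h]
  subst hxy
  exact ⟨rfl, by linarith⟩

private lemma PH1_bij (d : ℕ) (J0 : (Fin d → ℤ) ≃ ℤ) (c : (Fin d → Fin 2) ≃ Fin (2 ^ d)) (n : ℕ) :
    Function.Bijective (PH1_J d J0 c n) := by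
  induction n with
  | zero => exact J0.bijective
  | succ n ih =>
    have hpos : (0 : ℤ) < 2 ^ d := by positivity
    have hlt : ∀ v : Fin (2 ^ d), (((v : ℕ)) : ℤ) < 2 ^ d := by
      intro v
      have := v.isLt
      exact_mod_cast this
    constructor
    · intro a b hab
      have h1 : (2 : ℤ) ^ d * PH1_J d J0 c n (fun i => a i / 2) +
          ((c (PH1_par d a) : Fin (2 ^ d)) : ℕ) = (2 : ℤ) ^ d * PH1_J d J0 c n (fun i => b i / 2) +
          ((c (PH1_par d b) : Fin (2 ^ d)) : ℕ) := hab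
      obtain ⟨h2, h3⟩ := PH1_div_unique hpos (Int.natCast_nonneg _) (hlt _) (Int.natCast_nonneg _)
        (hlt _) h1
      have h4 := ih.1 h2
      have h5 : c (PH1_par d a) = c (PH1_par d b) := Fin.ext (by exact_mod_cast h3)
      have h6 := c.injective h5
      funext i
      have h7 := congrFun h4 i
      have h8 := PH1_par_eq h6 i
      have h9 : a i / 2 = b i / 2 := h7
      omega
    · intro z
      obtain ⟨b, hb⟩ := ih.2 (z / 2 ^ d)
      have hr0 : 0 ≤ z % 2 ^ d := Int.emod_nonneg _ hpos.ne'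
      have hr1 : z % 2 ^ d < 2 ^ d := Int.emod_lt_of_pos _ hpos
      have hr2 : (z % 2 ^ d).toNat < 2 ^ d := by
        have h0 : ((z % 2 ^ d).toNat : ℤ) < ((2 ^ d : ℕ) : ℤ) := by
          rw [Int.toNat_of_nonneg hr0]
          push_cast
          exact hr1
        exact_mod_cast h0
      let w : Fin d → Fin 2 := c.symm ⟨(z % 2 ^ d).toNat, hr2⟩
      have hw : ∀ i, (w i : ℕ) = 0 ∨ (w i : ℕ) = 1 := by
        intro i
        have := (w i).isLt
        omega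
      refine ⟨fun i => 2 * b i + ((w i : ℕ) : ℤ), ?_⟩
      have h1 : (fun i => (2 * b i + ((w i : ℕ) : ℤ)) / 2) = b := by
        funext i
        rcases hw i with h | h <;> rw [h] <;> push_cast <;> omega
      have h2 : PH1_par d (fun i => 2 * b i + ((w i : ℕ) : ℤ)) = w := by
        funext i
        unfold PH1_par
        rcases hw i with h | h
        · have h0 : ¬ ((2 * b i + ((w i : ℕ) : ℤ)) % 2 = 1) := by rw [h]; push_cast; omega
          rw [if_neg h0]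
          exact Fin.ext h.symm
        · have h0 : (2 * b i + ((w i : ℕ) : ℤ)) % 2 = 1 := by rw [h]; push_cast; omega
          rw [if_pos h0]
          exact Fin.ext h.symm
      show (2 : ℤ) ^ d * PH1_J d J0 c n (fun i => (2 * b i + ((w i : ℕ) : ℤ)) / 2) +
          ((c (PH1_par d (fun i => 2 * b i + ((w i : ℕ) : ℤ))) : Fin (2 ^ d)) : ℕ) = z
      rw [h1, h2, hb]
      have h3 : c w = ⟨(z % 2 ^ d).toNat, hr2⟩ := c.apply_symm_apply _
      rw [h3]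
      have h4 : (((z % 2 ^ d).toNat : ℕ) : ℤ) = z % 2 ^ d := Int.toNat_of_nonneg hr0
      show (2 : ℤ) ^ d * (z / 2 ^ d) + (((z % 2 ^ d).toNat : ℕ) : ℤ) = z
      rw [h4]
      exact Int.mul_ediv_add_emod z (2 ^ d)

theorem exists_digits (d : ℕ) (hd : 1 ≤ d) : ∃ J : ℕ → (Fin d → ℤ) → ℤ,
    (∀ n, Function.Bijective (J n)) ∧
    (∀ n a, (2 : ℤ) ^ d * J n (fun i => a i / 2) ≤ J (n + 1) a ∧
      J (n + 1) a < (2 : ℤ) ^ d * (J n (fun i => a i / 2) + 1)) ∧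
    (∀ n a, J (n + 1) a = (2 : ℤ) ^ d * (J n (fun i => a i / 2) + 1) - 1 → ∀ i, a i % 2 = 1) := by
  have : Nonempty (Fin d) := ⟨⟨0, hd⟩⟩
  have : Infinite (Fin d → ℤ) := inferInstance
  obtain ⟨J0⟩ := (nonempty_equiv_of_countable : Nonempty ((Fin d → ℤ) ≃ ℤ))
  obtain ⟨c, hc⟩ := PH1_code d
  have hlt : ∀ v : Fin (2 ^ d), (((v : ℕ)) : ℤ) < 2 ^ d := by
    intro v
    have := v.isLt
    exact_mod_cast this
  refine ⟨PH1_J d J0 c, PH1_bij d J0 c, ?_, ?_⟩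
  · intro n a
    have h1 : PH1_J d J0 c (n + 1) a = (2 : ℤ) ^ d * PH1_J d J0 c n (fun i => a i / 2) +
      ((c (PH1_par d a) : Fin (2 ^ d)) : ℕ) := rfl
    rw [h1]
    have h2 := hlt (c (PH1_par d a))
    have h3 : (0 : ℤ) ≤ ((c (PH1_par d a) : Fin (2 ^ d)) : ℕ) := Int.natCast_nonneg _
    constructor
    · linarith
    · rw [mul_add, mul_one]
      linarith
  · intro n a h i
    have h1 : PH1_J d J0 c (n + 1) a = (2 : ℤ) ^ d * PH1_J d J0 c n (fun i => a i / 2) +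
      ((c (PH1_par d a) : Fin (2 ^ d)) : ℕ) := rfl
    rw [h1, mul_add, mul_one] at h
    have h2 : (((c (PH1_par d a) : Fin (2 ^ d)) : ℕ) : ℤ) = 2 ^ d - 1 := by linarith
    have h3 : ((c (PH1_par d a) : Fin (2 ^ d)) : ℕ) = 2 ^ d - 1 := by
      have hp : 1 ≤ 2 ^ d := Nat.one_le_two_pow
      zify [hp]
      exact_mod_cast h2
    have h4 : c (PH1_par d a) = c (fun _ => 1) := Fin.ext (by rw [h3, hc])
    have h5 := congrFun (c.injective h4) i
    unfold PH1_par at h5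
    by_contra hne
    rw [if_neg hne] at h5
    exact absurd h5 (by decide)

private lemma PH1_floor (n : ℕ) (x : ℝ) : ⌊(2 : ℝ) ^ (n + 1) * x⌋ / 2 = ⌊(2 : ℝ) ^ n * x⌋ := by
  have h := Int.floor_div_natCast ((2 : ℝ) ^ (n + 1) * x) 2
  have h2 : (2 : ℝ) ^ (n + 1) * x / ((2 : ℕ) : ℝ) = (2 : ℝ) ^ n * x := by
    rw [pow_succ]
    push_cast
    ring
  rw [h2] at h
  rw [h]
  rfl

private lemma PH1_odd (n : ℕ) (x : ℝ) (h : ∀ m, n ≤ m → ⌊(2 : ℝ) ^ (m + 1) * x⌋ % 2 = 1) : False := by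
  have h1 : ∀ k : ℕ, ⌊(2 : ℝ) ^ (n + k) * x⌋ + 1 = 2 ^ k * (⌊(2 : ℝ) ^ n * x⌋ + 1) := by
    intro k
    induction k with
    | zero => simp
    | succ k ih =>
      have h2 := h (n + k) (by omega)
      have h3 := PH1_floor (n + k) x
      have h4 : ⌊(2 : ℝ) ^ (n + k + 1) * x⌋ = 2 * ⌊(2 : ℝ) ^ (n + k) * x⌋ + 1 := by omega
      rw [← add_assoc n k 1, h4, pow_succ]
      linear_combination 2 * ih
  have h5 : (2 : ℝ) ^ n * x < ⌊(2 : ℝ) ^ n * x⌋ + 1 := Int.lt_floor_add_one _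
  obtain ⟨k, hk⟩ := exists_pow_lt_of_lt_one (sub_pos.mpr h5) (by norm_num : (1 / 2 : ℝ) < 1)
  have h6 : ((⌊(2 : ℝ) ^ (n + k) * x⌋ : ℤ) : ℝ) ≤ (2 : ℝ) ^ (n + k) * x := Int.floor_le _
  have h7 : ((⌊(2 : ℝ) ^ (n + k) * x⌋ : ℤ) : ℝ) + 1 = 2 ^ k * ((⌊(2 : ℝ) ^ n * x⌋ : ℤ) + 1) := by
    exact_mod_cast h1 k
  have h8 : (2 : ℝ) ^ k * (1 / 2) ^ k = 1 := by
    rw [← mul_pow]
    norm_num
  have h9 : (0 : ℝ) < 2 ^ k := by positivity
  have h10 : (2 : ℝ) ^ k * (1 / 2) ^ k < 2 ^ k * ((⌊(2 : ℝ) ^ n * x⌋ : ℤ) + 1 - (2 : ℝ) ^ n * x) :=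
    mul_lt_mul_of_pos_left hk h9
  have h11 : (2 : ℝ) ^ (n + k) * x = 2 ^ k * ((2 : ℝ) ^ n * x) := by
    rw [pow_add]
    ring
  have h12 : ((⌊(2 : ℝ) ^ (n + k) * x⌋ : ℤ) : ℝ) ≤ 2 ^ k * ((2 : ℝ) ^ n * x) := h6.trans_eq h11
  rw [h8, mul_sub] at h10
  linarith

theorem exists_phi_fun (d : ℕ) (hd : 1 ≤ d) : ∃ (J : ℕ → (Fin d → ℤ) → ℤ) (φ : XX d → ℝ),
    (∀ n, Function.Bijective (J n)) ∧
    ∀ n (x : XX d), ⌊(2 : ℝ) ^ (d * n) * φ x⌋ = J n (fun i => ⌊(2 : ℝ) ^ n * x i⌋) := by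
  obtain ⟨J, hJ, hJ1, hJ2⟩ := exists_digits d hd
  let F : ℕ → XX d → ℤ := fun n x => J n (fun i => ⌊(2 : ℝ) ^ n * x i⌋)
  have hdiv : ∀ n (x : XX d), (fun i => ⌊(2 : ℝ) ^ (n + 1) * x i⌋ / 2) = fun i => ⌊(2 : ℝ) ^ n * x i⌋ := by
    intro n x
    funext i
    exact PH1_floor n (x i)
  have hF1 : ∀ n x, (2 : ℤ) ^ d * F n x ≤ F (n + 1) x := by
    intro n x
    have h := (hJ1 n (fun i => ⌊(2 : ℝ) ^ (n + 1) * x i⌋)).1
    rw [hdiv n x] at h
    exact h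
  have hF2 : ∀ n x, F (n + 1) x < (2 : ℤ) ^ d * (F n x + 1) := by
    intro n x
    have h := (hJ1 n (fun i => ⌊(2 : ℝ) ^ (n + 1) * x i⌋)).2
    rw [hdiv n x] at h
    exact h
  have hF3 : ∀ n x, F (n + 1) x = (2 : ℤ) ^ d * (F n x + 1) - 1 →
      ∀ i, ⌊(2 : ℝ) ^ (n + 1) * x i⌋ % 2 = 1 := by
    intro n x h
    have h' := hJ2 n (fun i => ⌊(2 : ℝ) ^ (n + 1) * x i⌋)
    rw [hdiv n x] at h'
    exact h' h
  have hP : ∀ n : ℕ, (0 : ℝ) < 2 ^ (d * n) := fun n => by positivity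
  have hPs : ∀ n : ℕ, (2 : ℝ) ^ (d * (n + 1)) = 2 ^ (d * n) * 2 ^ d := by
    intro n
    rw [mul_add, mul_one, pow_add]
  let t : XX d → ℕ → ℝ := fun x n => (F n x : ℝ) / 2 ^ (d * n)
  let U : XX d → ℕ → ℝ := fun x n => ((F n x : ℝ) + 1) / 2 ^ (d * n)
  have ht : ∀ x, Monotone (t x) := by
    intro x
    apply monotone_nat_of_le_succ
    intro n
    show (F n x : ℝ) / 2 ^ (d * n) ≤ (F (n + 1) x : ℝ) / 2 ^ (d * (n + 1))
    rw [div_le_div_iff₀ (hP n) (hP (n + 1)), hPs]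
    have h : ((2 : ℝ) ^ d * F n x) ≤ (F (n + 1) x : ℝ) := by exact_mod_cast hF1 n x
    nlinarith [hP n]
  have hU : ∀ x, Antitone (U x) := by
    intro x
    apply antitone_nat_of_succ_le
    intro n
    show ((F (n + 1) x : ℝ) + 1) / 2 ^ (d * (n + 1)) ≤ ((F n x : ℝ) + 1) / 2 ^ (d * n)
    rw [div_le_div_iff₀ (hP (n + 1)) (hP n), hPs]
    have h : ((F (n + 1) x : ℝ) + 1) ≤ (2 : ℝ) ^ d * (F n x + 1) := by
      have := hF2 n x
      exact_mod_cast this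
    nlinarith [hP n]
  have htU0 : ∀ x n, t x n ≤ U x n := by
    intro x n
    show (F n x : ℝ) / 2 ^ (d * n) ≤ ((F n x : ℝ) + 1) / 2 ^ (d * n)
    exact div_le_div_of_nonneg_right (by linarith) (hP n).le
  have htU : ∀ x n m, t x n ≤ U x m := by
    intro x n m
    exact ((ht x (le_max_left n m)).trans (htU0 x _)).trans (hU x (le_max_right n m))
  refine ⟨J, fun x => ⨆ n, t x n, hJ, ?_⟩
  intro n x
  have hbdd : BddAbove (Set.range (t x)) := ⟨U x 0, by rintro _ ⟨k, rfl⟩; exact htU x k 0⟩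
  have hlow : t x n ≤ ⨆ n, t x n := le_ciSup hbdd n
  have hup : ∀ m, ⨆ n, t x n ≤ U x m := fun m => ciSup_le (fun k => htU x k m)
  show ⌊(2 : ℝ) ^ (d * n) * ⨆ n, t x n⌋ = F n x
  rw [Int.floor_eq_iff]
  constructor
  · have h1 : (F n x : ℝ) / 2 ^ (d * n) ≤ ⨆ n, t x n := hlow
    rw [div_le_iff₀ (hP n)] at h1
    linarith
  · -- strictness
    have hex : ∃ m, n ≤ m ∧ F (m + 1) x ≠ (2 : ℤ) ^ d * (F m x + 1) - 1 := by
      by_contra hcon
      push Not at hcon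
      refine PH1_odd n (x ⟨0, hd⟩) ?_
      intro m hm
      exact hF3 m x (hcon m hm) ⟨0, hd⟩
    obtain ⟨m, hm, hne⟩ := hex
    have h1 : U x (m + 1) < U x m := by
      show ((F (m + 1) x : ℝ) + 1) / 2 ^ (d * (m + 1)) < ((F m x : ℝ) + 1) / 2 ^ (d * m)
      rw [div_lt_div_iff₀ (hP (m + 1)) (hP m), hPs]
      have h : ((F (m + 1) x : ℝ) + 1) < (2 : ℝ) ^ d * (F m x + 1) := by
        have h2 := hF2 m x
        have h3 : F (m + 1) x + 1 < (2 : ℤ) ^ d * (F m x + 1) := by omega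
        exact_mod_cast h3
      nlinarith [hP m]
    have h2 : ⨆ n, t x n < U x n := lt_of_le_of_lt (hup (m + 1)) (lt_of_lt_of_le h1 (hU x hm))
    have h3 : ⨆ n, t x n < ((F n x : ℝ) + 1) / 2 ^ (d * n) := h2
    rw [lt_div_iff₀ (hP n)] at h3
    linarith

end Pool.SM3X
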