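/-
SM3X.PH2 : the map `φ` preserves the volume.
PROOF. `phi_measurable`: `φ x = lim_n J n (⌊2^n x⌋) / 2^(d n)` (`|2^(d n) φ x - ⌊..⌋| ≤ 1`); each approximation is measurable (`Int.measurable_floor`-type, functions to a
countable discrete space, `measurable_pi_lambda`, `measurable_of_tendsto_metrizable`; `x ↦ x i` is measurable/continuous on EuclideanSpace).
`phi_vol`: `{x | ⌊2^(d n) φ x⌋ = k} = {x | ∀ i, ⌊2^n x i⌋ = a i}` with `J n a = k` (bijectivity) is a cube of side `2^(-n)`, of volume `2^(-d n)` (`EuclideanSpace.volume_preserving_symm_measurableEquiv_toLp` or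
`EuclideanSpace.volume_preserving_measurableEquiv`, `Real.volume_pi_Ico`; the cube is `Set.pi univ (fun i => Ico (a i / 2^n) ((a i + 1)/2^n))`).  So `Measure.map φ volume` and `volume` agree on the
intervals `Ico (k/2^(d n)) ((k+1)/2^(d n))`, hence (finite disjoint unions, `d ≥ 1`) on `Ico (k/2^(d n)) (m/2^(d n))` for `k ≤ m`, hence by monotone limits on all `Ico a b`
(`Real.measure_ext_Ioo_rat` or `MeasureTheory.Measure.ext_of_Ico`-type lemma; both measures are locally finite).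
-/
import Pool.Agent.Lib.SM3X.Defs

set_option autoImplicit false

open MeasureTheory Set

namespace Pool.SM3X

private theorem PH2_app_meas {d : ℕ} (n : ℕ) (J : (Fin d → ℤ) → ℤ) :
    Measurable (fun x : XX d => ((J (fun i => ⌊(2 : ℝ) ^ n * x i⌋) : ℤ) : ℝ) / (2:ℝ) ^ (d * n)) := by
  have h1 : Measurable (fun x : XX d => (fun i => ⌊(2 : ℝ) ^ n * x i⌋ : Fin d → ℤ)) := by
    refine measurable_pi_lambda _ fun i => ?_
    refine Int.measurable_floor.comp ?_
    exact measurable_const.mul ((EuclideanSpace.proj i : XX d →L[ℝ] ℝ).continuous.measurable)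
  have h2 : Measurable (fun a : Fin d → ℤ => ((J a : ℤ) : ℝ) / (2:ℝ) ^ (d * n)) :=
    Measurable.of_discrete
  exact h2.comp h1

private theorem PH2_tendsto {d : ℕ} (hd : 1 ≤ d) :
    Filter.Tendsto (fun n : ℕ => 1 / (2:ℝ) ^ (d * n)) Filter.atTop (nhds 0) := by
  have h0 : Filter.Tendsto (fun n : ℕ => (1/2:ℝ) ^ (d * n)) Filter.atTop (nhds 0) := by
    refine (tendsto_pow_atTop_nhds_zero_of_lt_one (by norm_num) (by norm_num)).comp ?_
    refine Filter.tendsto_atTop_mono (fun n => ?_) Filter.tendsto_id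
    show n ≤ d * n
    nlinarith
  refine h0.congr fun n => ?_
  rw [div_pow, one_pow]

private theorem PH2_blocks (μ : Measure ℝ) (N : ℝ) (hN : 0 < N)
    (h : ∀ k : ℤ, μ (Ico ((k:ℝ) / N) (((k:ℝ) + 1) / N)) = ENNReal.ofReal (1 / N)) (k : ℤ) (m : ℕ) :
    μ (Ico ((k:ℝ) / N) (((k:ℝ) + m) / N)) = ENNReal.ofReal (m / N) := by
  induction m with
  | zero => simp
  | succ m ih =>
    have e : Ico ((k:ℝ) / N) (((k:ℝ) + ((m+1 : ℕ) : ℝ)) / N)
        = Ico ((k:ℝ) / N) (((k:ℝ) + m) / N) ∪ Ico ((((k + m : ℤ)):ℝ) / N) ((((k + m : ℤ) : ℝ) + 1) / N) := by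
      have e1 : (((k + m : ℤ)) : ℝ) = (k:ℝ) + m := by push_cast; ring
      rw [e1, Ico_union_Ico_eq_Ico]
      · push_cast; ring_nf
      · have : (0:ℝ) ≤ m := Nat.cast_nonneg m
        exact div_le_div_of_nonneg_right (by linarith) hN.le
      · exact div_le_div_of_nonneg_right (by linarith) hN.le
    rw [e, measure_union _ measurableSet_Ico, ih, h, ← ENNReal.ofReal_add (by positivity) (by positivity)]
    · congr 1
      push_cast
      ring
    · have e1 : (((k + m : ℤ)) : ℝ) = (k:ℝ) + m := by push_cast; ring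
      rw [e1]
      exact Ico_disjoint_Ico_same

private theorem PH2_ext (μ : Measure ℝ) {d : ℕ} (hd : 1 ≤ d)
    (h : ∀ (n : ℕ) (k : ℤ), μ (Ico ((k:ℝ) / (2:ℝ) ^ (d * n)) (((k:ℝ) + 1) / (2:ℝ) ^ (d * n)))
      = ENNReal.ofReal (1 / (2:ℝ) ^ (d * n))) : μ = volume := by
  have key : ∀ ⦃a b : ℝ⦄, a < b → μ (Ico a b) = ENNReal.ofReal (b - a) := by
    intro a b hab
    have t0 := PH2_tendsto hd
    refine le_antisymm ?_ ?_
    · have t1 : Filter.Tendsto (fun n : ℕ => ENNReal.ofReal (b - a + 2 * (1 / (2:ℝ) ^ (d * n)))) Filter.atTop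
          (nhds (ENNReal.ofReal (b - a))) := by
        refine ENNReal.tendsto_ofReal ?_
        have := (t0.const_mul 2).const_add (b - a)
        simpa using this
      refine ge_of_tendsto' t1 fun n => ?_
      set N : ℝ := (2:ℝ) ^ (d * n) with hNd
      have hN : 0 < N := by positivity
      have hle : ⌊N * a⌋ ≤ ⌊N * b⌋ := Int.floor_le_floor (by nlinarith)
      obtain ⟨m, hm⟩ := Int.eq_ofNat_of_zero_le (show 0 ≤ ⌊N * b⌋ + 1 - ⌊N * a⌋ by linarith)
      have hmr : (⌊N * b⌋ : ℝ) + 1 - ⌊N * a⌋ = m := by exact_mod_cast hm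
      have hsub : Ico a b ⊆ Ico ((⌊N * a⌋:ℝ) / N) (((⌊N * a⌋:ℝ) + m) / N) := by
        intro x hx
        refine ⟨?_, ?_⟩
        · rw [div_le_iff₀ hN]
          have := Int.floor_le (N * a)
          nlinarith [hx.1]
        · rw [lt_div_iff₀ hN]
          have := Int.lt_floor_add_one (N * b)
          nlinarith [hx.2]
      refine (measure_mono hsub).trans ?_
      rw [PH2_blocks μ N hN (h n) _ m]
      refine ENNReal.ofReal_le_ofReal ?_
      rw [← hmr]
      have h1 := Int.floor_le (N * b)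
      have h2 := Int.lt_floor_add_one (N * a)
      rw [div_le_iff₀ hN]
      have : (b - a + 2 * (1 / N)) * N = (b - a) * N + 2 := by field_simp
      rw [this]
      nlinarith
    · have t1 : Filter.Tendsto (fun n : ℕ => ENNReal.ofReal (b - a - 2 * (1 / (2:ℝ) ^ (d * n)))) Filter.atTop
          (nhds (ENNReal.ofReal (b - a))) := by
        refine ENNReal.tendsto_ofReal ?_
        have := (t0.const_mul 2).const_sub (b - a)
        simpa using this
      refine le_of_tendsto' t1 fun n => ?_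
      set N : ℝ := (2:ℝ) ^ (d * n) with hNd
      have hN : 0 < N := by positivity
      by_cases hc : ⌊N * a⌋ + 1 ≤ ⌊N * b⌋
      · obtain ⟨m, hm⟩ := Int.eq_ofNat_of_zero_le (show 0 ≤ ⌊N * b⌋ - (⌊N * a⌋ + 1) by linarith)
        have hmr : (⌊N * b⌋ : ℝ) - (⌊N * a⌋ + 1) = m := by exact_mod_cast hm
        have hsub : Ico (((⌊N * a⌋ + 1 : ℤ):ℝ) / N) ((((⌊N * a⌋ + 1 : ℤ):ℝ) + m) / N) ⊆ Ico a b := by
          intro x hx
          have e1 : ((⌊N * a⌋ + 1 : ℤ):ℝ) = (⌊N * a⌋:ℝ) + 1 := by push_cast; ring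
          rw [e1] at hx
          have hx1 := hx.1
          have hx2 := hx.2
          rw [div_le_iff₀ hN] at hx1
          rw [lt_div_iff₀ hN] at hx2
          refine ⟨?_, ?_⟩
          · have := Int.lt_floor_add_one (N * a)
            have h3 : N * a < N * x := by nlinarith
            exact (lt_of_mul_lt_mul_left h3 hN.le).le
          · have := Int.floor_le (N * b)
            have h3 : N * x < N * b := by nlinarith
            exact lt_of_mul_lt_mul_left h3 hN.le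
        refine le_trans ?_ (measure_mono hsub)
        rw [PH2_blocks μ N hN (h n) _ m]
        refine ENNReal.ofReal_le_ofReal ?_
        rw [← hmr]
        have h1 := Int.lt_floor_add_one (N * b)
        have h2 := Int.floor_le (N * a)
        rw [le_div_iff₀ hN]
        have : (b - a - 2 * (1 / N)) * N = (b - a) * N - 2 := by field_simp
        rw [this]
        nlinarith
      · have hz : b - a - 2 * (1 / N) ≤ 0 := by
          have h1 := Int.lt_floor_add_one (N * b)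
          have h2 := Int.floor_le (N * a)
          have h3 : (⌊N * b⌋ : ℝ) ≤ ⌊N * a⌋ := by
            exact_mod_cast (show ⌊N * b⌋ ≤ ⌊N * a⌋ by omega)
          have h4 : (b - a) * N < 2 := by nlinarith
          have h5 : b - a ≤ 2 / N := by
            rw [le_div_iff₀ hN]; exact h4.le
          have h6 : 2 * (1 / N) = 2 / N := by ring
          rw [h6]; linarith
        rw [ENNReal.ofReal_of_nonpos hz]
        exact bot_le
  refine Measure.ext_of_Ico' μ volume ?_ ?_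
  · intro a b hab
    rw [key hab]
    exact ENNReal.ofReal_ne_top
  · intro a b hab
    rw [key hab, Real.volume_Ico]

private theorem PH2_cube {d : ℕ} (n : ℕ) (a : Fin d → ℤ) :
    volume {x : XX d | (fun i => ⌊(2 : ℝ) ^ n * x i⌋) = a} = ENNReal.ofReal (1 / (2:ℝ) ^ (d * n)) := by
  have hN : (0:ℝ) < (2:ℝ) ^ n := by positivity
  have e : {x : XX d | (fun i => ⌊(2 : ℝ) ^ n * x i⌋) = a}
      = (@WithLp.ofLp 2 (Fin d → ℝ)) ⁻¹' (Set.pi univ fun i => Ico ((a i : ℝ) / (2:ℝ) ^ n) (((a i : ℝ) + 1) / (2:ℝ) ^ n)) := by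
    ext x
    simp only [mem_setOf_eq, mem_preimage, mem_pi, mem_univ, true_implies, mem_Ico, funext_iff]
    refine forall_congr' fun i => ?_
    rw [Int.floor_eq_iff, div_le_iff₀ hN, lt_div_iff₀ hN, mul_comm ((2:ℝ) ^ n) (x i)]
  rw [e, (PiLp.volume_preserving_ofLp (Fin d)).measure_preimage
    (MeasurableSet.univ_pi fun i => measurableSet_Ico).nullMeasurableSet, volume_pi_pi]
  have e2 : ∀ i : Fin d, volume (Ico ((a i : ℝ) / (2:ℝ) ^ n) (((a i : ℝ) + 1) / (2:ℝ) ^ n)) = ENNReal.ofReal (1 / (2:ℝ) ^ n) := by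
    intro i
    rw [Real.volume_Ico]
    congr 1
    ring
  rw [Finset.prod_congr rfl (fun i _ => e2 i), Finset.prod_const, Finset.card_univ, Fintype.card_fin,
    ← ENNReal.ofReal_pow (by positivity)]
  congr 1
  rw [div_pow, one_pow, ← pow_mul, mul_comm n d]

private theorem PH2_phi_measurable {d : ℕ} (hd : 1 ≤ d) {J : ℕ → (Fin d → ℤ) → ℤ} {φ : XX d → ℝ}
    (h : ∀ n (x : XX d), ⌊(2 : ℝ) ^ (d * n) * φ x⌋ = J n (fun i => ⌊(2 : ℝ) ^ n * x i⌋)) :
    Measurable φ := by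
  refine measurable_of_tendsto_metrizable (fun n => PH2_app_meas n (J n)) ?_
  rw [tendsto_pi_nhds]
  intro x
  have t0 := PH2_tendsto hd
  have t1 : Filter.Tendsto (fun n : ℕ => φ x - 1 / (2:ℝ) ^ (d * n)) Filter.atTop (nhds (φ x)) := by
    have := t0.const_sub (φ x)
    simpa using this
  refine tendsto_of_tendsto_of_tendsto_of_le_of_le t1 tendsto_const_nhds ?_ ?_
  · intro n
    show φ x - 1 / (2:ℝ) ^ (d * n) ≤ _
    have hN : (0:ℝ) < (2:ℝ) ^ (d * n) := by positivity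
    show φ x - 1 / (2:ℝ) ^ (d * n) ≤ ((J n (fun i => ⌊(2 : ℝ) ^ n * x i⌋) : ℤ) : ℝ) / (2:ℝ) ^ (d * n)
    rw [← h n x, le_div_iff₀ hN]
    have h1 := Int.lt_floor_add_one ((2 : ℝ) ^ (d * n) * φ x)
    have : (φ x - 1 / (2:ℝ) ^ (d * n)) * (2:ℝ) ^ (d * n) = (2 : ℝ) ^ (d * n) * φ x - 1 := by field_simp
    rw [this]; linarith
  · intro n
    have hN : (0:ℝ) < (2:ℝ) ^ (d * n) := by positivity
    show ((J n (fun i => ⌊(2 : ℝ) ^ n * x i⌋) : ℤ) : ℝ) / (2:ℝ) ^ (d * n) ≤ φ x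
    rw [← h n x, div_le_iff₀ hN]
    have h1 := Int.floor_le ((2 : ℝ) ^ (d * n) * φ x)
    linarith

theorem phi_measurable {d : ℕ} (hd : 1 ≤ d) {J : ℕ → (Fin d → ℤ) → ℤ} {φ : XX d → ℝ}
    (h : ∀ n (x : XX d), ⌊(2 : ℝ) ^ (d * n) * φ x⌋ = J n (fun i => ⌊(2 : ℝ) ^ n * x i⌋)) :
    Measurable φ := by
  exact PH2_phi_measurable hd h

theorem phi_vol {d : ℕ} (hd : 1 ≤ d) {J : ℕ → (Fin d → ℤ) → ℤ} {φ : XX d → ℝ}
    (hJ : ∀ n, Function.Bijective (J n))
    (h : ∀ n (x : XX d), ⌊(2 : ℝ) ^ (d * n) * φ x⌋ = J n (fun i => ⌊(2 : ℝ) ^ n * x i⌋)) :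
    Measure.map φ volume = volume := by
  have hφ : Measurable φ := PH2_phi_measurable hd h
  refine PH2_ext _ hd fun n k => ?_
  obtain ⟨a, ha⟩ := (hJ n).2 k
  rw [Measure.map_apply hφ measurableSet_Ico, ← PH2_cube n a]
  congr 1
  ext x
  have hN : (0:ℝ) < (2:ℝ) ^ (d * n) := by positivity
  have e1 : x ∈ φ ⁻¹' Ico ((k:ℝ) / (2:ℝ) ^ (d * n)) (((k:ℝ) + 1) / (2:ℝ) ^ (d * n))
      ↔ ⌊(2 : ℝ) ^ (d * n) * φ x⌋ = k := by
    rw [mem_preimage, mem_Ico, Int.floor_eq_iff, div_le_iff₀ hN, lt_div_iff₀ hN,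
      mul_comm ((2:ℝ) ^ (d * n)) (φ x)]
  rw [e1, h n x, ← ha, mem_setOf_eq]
  exact (hJ n).1.eq_iff

end Pool.SM3X
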