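/-
SM3X.PH3 : existence of the transport.
PROOF. Take `J`, `φ` from `exists_phi_fun` (PH1).  Injective: if `φ x = φ y` then `⌊2^n x i⌋ = ⌊2^n y i⌋` for all `n`, `i`, so `|x i - y i| ≤ 2^(-n)`.
`small`: equal floors at level `n` give `|x i - y i| ≤ 2^(-n)` for all `i` and `dist x y = √(∑ (x i - y i)^2) ≤ √d / 2^n` (EuclideanSpace.dist_eq).
`bdd`: if `A ⊆ [-N, N]` then for `φ x ∈ A` the vector `(⌊x i⌋)_i = (J 0)⁻¹ (⌊φ x⌋)` (level `n = 0`) lies in a finite set, so `x` is bounded.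
`bdd'`: if `B` is bounded then `(⌊x i⌋)_i` is in a finite set, so `⌊φ x⌋ = J 0 (..)` is in a finite set.
`ψ`: `φ` is a measurable injection of standard Borel spaces, so `Measurable.measurableEmbedding`, and `MeasurableEmbedding.exists_measurable_extend`-type lemma (or
`MeasurableEmbedding` + `Function.invFun`) gives a measurable left inverse.  `vol`, `hφ`: PH2.
-/
import Pool.Agent.Lib.SM3X.PH1
import Pool.Agent.Lib.SM3X.PH2

set_option autoImplicit false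

open MeasureTheory Set

namespace Pool.SM3X

private theorem PH3_dist {d : ℕ} (n : ℕ) (x y : XX d)
    (h : ∀ i, ⌊(2 : ℝ) ^ n * x i⌋ = ⌊(2 : ℝ) ^ n * y i⌋) :
    dist x y ≤ Real.sqrt d / 2 ^ n := by
  have h2 : (0 : ℝ) < 2 ^ n := by positivity
  have h1 : ∀ i, dist (x i) (y i) ^ 2 ≤ (1 / 2 ^ n) ^ 2 := by
    intro i
    have h3 := Int.abs_sub_lt_one_of_floor_eq_floor (h i)
    have h4 : |(2 : ℝ) ^ n * x i - 2 ^ n * y i| = 2 ^ n * |x i - y i| := by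
      rw [← mul_sub, abs_mul, abs_of_pos h2]
    rw [h4] at h3
    have h5 : dist (x i) (y i) ≤ 1 / 2 ^ n := by
      rw [Real.dist_eq, le_div_iff₀ h2, mul_comm]
      exact h3.le
    exact pow_le_pow_left₀ dist_nonneg h5 2
  rw [EuclideanSpace.dist_eq]
  have h6 : ∑ i, dist (x i) (y i) ^ 2 ≤ ∑ _i : Fin d, ((1 : ℝ) / 2 ^ n) ^ 2 :=
    Finset.sum_le_sum fun i _ => h1 i
  rw [Finset.sum_const, Finset.card_univ, Fintype.card_fin, nsmul_eq_mul] at h6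
  refine (Real.sqrt_le_sqrt h6).trans (le_of_eq ?_)
  rw [Real.sqrt_mul (Nat.cast_nonneg d), Real.sqrt_sq (by positivity)]
  ring

private theorem PH3_zero {d : ℕ} {J : ℕ → (Fin d → ℤ) → ℤ} {φ : XX d → ℝ}
    (h : ∀ n (x : XX d), ⌊(2 : ℝ) ^ (d * n) * φ x⌋ = J n (fun i => ⌊(2 : ℝ) ^ n * x i⌋))
    (x : XX d) : ⌊φ x⌋ = J 0 (fun i => ⌊x i⌋) := by
  have := h 0 x
  simpa using this

private theorem PH3_bdd {d : ℕ} {J : ℕ → (Fin d → ℤ) → ℤ} {φ : XX d → ℝ}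
    (hJ : ∀ n, Function.Bijective (J n))
    (h : ∀ n (x : XX d), ⌊(2 : ℝ) ^ (d * n) * φ x⌋ = J n (fun i => ⌊(2 : ℝ) ^ n * x i⌋))
    (A : Set ℝ) (hA : Bornology.IsBounded A) : Bornology.IsBounded (φ ⁻¹' A) := by
  obtain ⟨a, ha⟩ := hA.bddBelow
  obtain ⟨b, hb⟩ := hA.bddAbove
  have hsub : φ ⁻¹' A ⊆ ⋃ k ∈ Set.Icc ⌊a⌋ ⌊b⌋, {x | ⌊φ x⌋ = k} := by
    intro x hx
    rw [Set.mem_iUnion₂]
    exact ⟨⌊φ x⌋, ⟨Int.floor_mono (ha hx), Int.floor_mono (hb hx)⟩, rfl⟩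
  refine Bornology.IsBounded.subset ?_ hsub
  rw [Bornology.isBounded_biUnion (Set.finite_Icc _ _)]
  intro k _
  rw [Metric.isBounded_iff]
  refine ⟨Real.sqrt d / 2 ^ 0, fun x hx y hy => PH3_dist 0 x y fun i => ?_⟩
  have hx' : ⌊φ x⌋ = k := hx
  have hy' : ⌊φ y⌋ = k := hy
  rw [PH3_zero h] at hx' hy'
  have h1 := (hJ 0).1 (hx'.trans hy'.symm)
  have h2 := congrFun h1 i
  simpa using h2

private theorem PH3_bdd' {d : ℕ} {J : ℕ → (Fin d → ℤ) → ℤ} {φ : XX d → ℝ}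
    (h : ∀ n (x : XX d), ⌊(2 : ℝ) ^ (d * n) * φ x⌋ = J n (fun i => ⌊(2 : ℝ) ^ n * x i⌋))
    (B : Set (XX d)) (hB : Bornology.IsBounded B) : Bornology.IsBounded (φ '' B) := by
  obtain ⟨R, hR⟩ := hB.exists_norm_le
  have hc : ∀ x ∈ B, ∀ i, |x i| ≤ R := by
    intro x hx i
    have h1 := hR x hx
    have h2 : ‖x i‖ ≤ ‖x‖ := PiLp.norm_apply_le x i
    rw [Real.norm_eq_abs] at h2
    exact h2.trans h1
  have hsub : φ '' B ⊆ ⋃ k ∈ (J 0) '' (Set.Icc (fun _ => ⌊-R⌋) (fun _ => ⌊R⌋)),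
      Set.Icc (k : ℝ) (k + 1) := by
    rintro t ⟨x, hx, rfl⟩
    rw [Set.mem_iUnion₂]
    refine ⟨⌊φ x⌋, ⟨fun i => ⌊x i⌋, ⟨?_, ?_⟩, (PH3_zero h x).symm⟩, Int.floor_le _,
      (Int.lt_floor_add_one _).le⟩
    · intro i
      exact Int.floor_mono (abs_le.mp (hc x hx i)).1
    · intro i
      exact Int.floor_mono (abs_le.mp (hc x hx i)).2
  refine Bornology.IsBounded.subset ?_ hsub
  rw [Bornology.isBounded_biUnion ((Set.finite_Icc _ _).image _)]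
  intro k _
  exact Metric.isBounded_Icc _ _

private theorem PH3_small {d : ℕ} {J : ℕ → (Fin d → ℤ) → ℤ} {φ : XX d → ℝ}
    (hJ : ∀ n, Function.Bijective (J n))
    (h : ∀ n (x : XX d), ⌊(2 : ℝ) ^ (d * n) * φ x⌋ = J n (fun i => ⌊(2 : ℝ) ^ n * x i⌋))
    (n : ℕ) (x y : XX d) (hxy : ⌊(2 : ℝ) ^ (d * n) * φ x⌋ = ⌊(2 : ℝ) ^ (d * n) * φ y⌋) :
    dist x y ≤ Real.sqrt d / 2 ^ n := by
  refine PH3_dist n x y fun i => ?_
  rw [h n x, h n y] at hxy
  exact congrFun ((hJ n).1 hxy) i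

private theorem PH3_inj {d : ℕ} {J : ℕ → (Fin d → ℤ) → ℤ} {φ : XX d → ℝ}
    (hJ : ∀ n, Function.Bijective (J n))
    (h : ∀ n (x : XX d), ⌊(2 : ℝ) ^ (d * n) * φ x⌋ = J n (fun i => ⌊(2 : ℝ) ^ n * x i⌋)) :
    Function.Injective φ := by
  intro x y hxy
  have h1 : ∀ n : ℕ, dist x y ≤ Real.sqrt d * (1 / 2) ^ n := by
    intro n
    have h2 := PH3_small hJ h n x y (by rw [hxy])
    refine h2.trans (le_of_eq ?_)
    rw [one_div, inv_pow]
    rfl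
  have h3 : Filter.Tendsto (fun n : ℕ => Real.sqrt d * (1 / 2 : ℝ) ^ n) Filter.atTop
      (nhds (Real.sqrt d * 0)) :=
    (tendsto_pow_atTop_nhds_zero_of_lt_one (by norm_num) (by norm_num)).const_mul _
  rw [mul_zero] at h3
  have h4 : dist x y ≤ 0 := ge_of_tendsto' h3 h1
  exact dist_le_zero.mp h4

theorem exists_PhiM (d : ℕ) (hd : 1 ≤ d) : Nonempty (PhiM d) := by
  obtain ⟨J, φ, hJ, h⟩ := exists_phi_fun d hd
  have hφ : Measurable φ := phi_measurable hd h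
  have hinj : Function.Injective φ := PH3_inj hJ h
  have hemb : MeasurableEmbedding φ := hφ.measurableEmbedding hinj
  obtain ⟨ψ, hψ, hψφ⟩ := hemb.exists_measurable_extend (measurable_id : Measurable (id : XX d → XX d))
    (fun _ => inferInstance)
  exact ⟨{ φ := φ
           ψ := ψ
           hφ := hφ
           hψ := hψ
           left := fun x => congrFun hψφ x
           vol := phi_vol hd hJ h
           bdd := PH3_bdd hJ h
           bdd' := PH3_bdd' h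
           small := fun n x y hxy => PH3_small hJ h n x y hxy }⟩

end Pool.SM3X
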