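/-
SM3X.H10 : the limit of the intensity of the unmatched points for large dimension, in the format of the frozen statement.
-/
import Pool.Agent.Lib.SM3X.H4
import Pool.Agent.Lib.SM3X.H9
import Pool.Agent.Lib.SM3X.PH3

set_option autoImplicit false

open MeasureTheory Set

namespace Pool.SM3X

theorem high_dim : ∃ C : ℝ, 0 < C ∧
  ∀ (d : ℕ), 1 ≤ d →
  ∀ (p : Fin 3 → ℝ), (∀ i, 0 < p i) → p 0 + p 1 + p 2 = 1 → p 1 = p 2 →
  ∀ (Ω : Type) [MeasurableSpace Ω] (P : MeasureTheory.Measure Ω),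
    MeasureTheory.IsProbabilityMeasure P →
  ∀ (S : Fin 3 → Ω → Set (EuclideanSpace ℝ (Fin d))),
    (∀ (i : Fin 3) (ω : Ω) (A : Set (EuclideanSpace ℝ (Fin d))),
        Bornology.IsBounded A → (S i ω ∩ A).Finite) →
    (∀ (i : Fin 3) (A : Set (EuclideanSpace ℝ (Fin d))), MeasurableSet A →
        Bornology.IsBounded A → Measurable (fun ω => (S i ω ∩ A).ncard)) →
    (∀ (i : Fin 3) (A : Set (EuclideanSpace ℝ (Fin d))), MeasurableSet A →
        Bornology.IsBounded A → ∀ k : ℕ,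
        P {ω | (S i ω ∩ A).ncard = k} =
          ENNReal.ofReal (Real.exp (-(p i * (MeasureTheory.volume A).toReal)) *
            (p i * (MeasureTheory.volume A).toReal) ^ k / (k.factorial : ℝ))) →
    (∀ (n : ℕ) (c : Fin n → Fin 3) (A : Fin n → Set (EuclideanSpace ℝ (Fin d))),
        (∀ j, MeasurableSet (A j) ∧ Bornology.IsBounded (A j)) →
        (∀ j k, j ≠ k → c j = c k → Disjoint (A j) (A k)) →
        ProbabilityTheory.iIndepFun (fun j ω => (S (c j) ω ∩ A j).ncard) P) →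
    (∀ᵐ ω ∂P, ∃ M : EuclideanSpace ℝ (Fin d) → EuclideanSpace ℝ (Fin d) → Prop,
        (∀ x y, M x y → M y x) ∧
        (∀ x y, M x y → x ≠ y ∧ ∃ i j : Fin 3, i ≠ j ∧ x ∈ S i ω ∧ y ∈ S j ω) ∧
        (∀ x y z, M x y → M x z → y = z) ∧
        (∀ x y, x ≠ y → (∃ i j : Fin 3, i ≠ j ∧ x ∈ S i ω ∧ y ∈ S j ω) →
          ¬ ((∀ z, M x z → dist x y < dist x z) ∧ (∀ z, M y z → dist x y < dist y z)))) ∧
    (∀ M : Ω → EuclideanSpace ℝ (Fin d) → EuclideanSpace ℝ (Fin d) → Prop,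
        (∀ᵐ ω ∂P, (∀ x y, M ω x y → M ω y x) ∧
        (∀ x y, M ω x y → x ≠ y ∧ ∃ i j : Fin 3, i ≠ j ∧ x ∈ S i ω ∧ y ∈ S j ω) ∧
        (∀ x y z, M ω x y → M ω x z → y = z) ∧
        (∀ x y, x ≠ y → (∃ i j : Fin 3, i ≠ j ∧ x ∈ S i ω ∧ y ∈ S j ω) →
          ¬ ((∀ z, M ω x z → dist x y < dist x z) ∧ (∀ z, M ω y z → dist x y < dist y z)))) →
      ∀ A : Set (EuclideanSpace ℝ (Fin d)), MeasurableSet A → Bornology.IsBounded A →
        ENNReal.ofReal ((max (p 0 - p 1) 0) ^ 2 / p 0 - C / d) * MeasureTheory.volume A ≤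
          ∫⁻ ω, ({x | x ∈ S 0 ω ∧ x ∈ A ∧ ∀ y, ¬ M ω x y}.ncard : ENNReal) ∂P ∧
        ∫⁻ ω, ({x | x ∈ S 0 ω ∧ x ∈ A ∧ ∀ y, ¬ M ω x y}.ncard : ENNReal) ∂P ≤
          ENNReal.ofReal ((max (p 0 - p 1) 0) ^ 2 / p 0 + C / d) * MeasureTheory.volume A) := by
  obtain ⟨C, hC, hkey⟩ := key_lim
  refine ⟨C, hC, ?_⟩
  intro d hd p hp hsum heq Ω _ P hP S h1 h2 h3 h4
  have := hP
  obtain ⟨Φ⟩ := exists_PhiM d hd
  have hH : HypX p P S := ⟨h1, h2, h3, h4⟩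
  have hpv : SM3.PV p := ⟨hp, hsum⟩
  have hgood := ae_goodX hd hpv hH Φ
  refine ⟨?_, ?_⟩
  · filter_upwards [hgood] with ω hg
    exact ⟨_, stable_MSX (T := fun i => S i ω) hg⟩
  · intro M hM A hA hAb
    obtain ⟨r₁, hr₁, hk⟩ := hkey d hd p hpv heq
    have hm := mean_USet hd hpv heq (a := (max (p 0 - p 1) 0) ^ 2 / p 0 - C / d)
      (b := (max (p 0 - p 1) 0) ^ 2 / p 0 + C / d) ⟨r₁, hr₁, fun r' hr' => by
        obtain ⟨ε, hε, hF⟩ := hk r' hr'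
        refine ⟨ε, hε, fun f g hfg => ?_⟩
        have := abs_le.1 (hF f g hfg)
        constructor <;> linarith [this.1, this.2]⟩ hH Φ hA hAb
    have he : ∫⁻ ω, ({x | x ∈ S 0 ω ∧ x ∈ A ∧ ∀ y, ¬ M ω x y}.ncard : ENNReal) ∂P =
        ∫⁻ ω, ((USet A (SX S ω)).ncard : ENNReal) ∂P := by
      refine lintegral_congr_ae ?_
      filter_upwards [hgood, hM] with ω hg hs
      rw [USet_ncard hg hs A]
    rw [he]
    exact hm

end Pool.SM3X
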