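/-
SM3X.P5 : decoupling on finite product spaces with stopping sets.
PROOF. Let `μ = Measure.pi μ_i`, `mixS S q = fun i => if i ∈ S then q.1 i else q.2 i` and `mix q = mixS (I q.1) q`.
(1) For fixed `S`: `(μ.prod μ).map (mixS S) = μ` (`Measure.pi_eq`: the preimage of a box is `{q | ∀ i ∈ S, q.1 i ∈ B i} ×` .. a product of two boxes of `μ` and `μ`, with factors `μ_i univ = 1`
at the other coordinates).
(2) For measurable `C`: `(μ.prod μ) {q | mix q ∈ C} = μ C`.  Sum over the finitely many `S : Set (Fin M)`: `{q | I q.1 = S ∧ mix q ∈ C} = mixS S ⁻¹' ({ω | I ω = S} ∩ C)`, because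
`I q.1 = S ↔ I (mixS S q) = S` (the two agree on `S`; use `h1`), and (1).  `{ω | I ω = S}` is measurable by `hI`.
(3) `mix q ∈ A ↔ q.1 ∈ A` (`h1`), so `μ (A ∩ G) = (μ.prod μ) {q | q.1 ∈ A ∧ mix q ∈ G}` and `μ A * μ G = (μ.prod μ) {q | q.1 ∈ A ∧ q.2 ∈ G}`.
(4) Outside the bad event `mix q` and `q.2` agree on `J q.2` (for `i ∈ J q.2 ∩ I q.1`: `q.1 i = q.2 i`), so `mix q ∈ G ↔ q.2 ∈ G` (`h2`).  The difference of the two probabilities is at
most the outer measure of the bad event, which is `≤ ∫⁻ F` (Markov with `hbad`: the bad event is a.e. contained in `{q | 1 ≤ F q}`, `mul_meas_ge_le_lintegral₀`).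
-/
import Mathlib

set_option autoImplicit false

open MeasureTheory Set

namespace Pool.SM3X

section P5aux

variable {M : ℕ} {E : Type}

open Classical in
/-- Take the coordinates of the first point on `S`, of the second point elsewhere. -/
private noncomputable def p5mix (S : Set (Fin M)) (q : (Fin M → E) × (Fin M → E)) : Fin M → E :=
  fun i => if i ∈ S then q.1 i else q.2 i

private lemma p5mix_mem {S : Set (Fin M)} (q : (Fin M → E) × (Fin M → E)) {i : Fin M}
    (h : i ∈ S) : p5mix S q i = q.1 i := by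
  simp [p5mix, h]

private lemma p5mix_not_mem {S : Set (Fin M)} (q : (Fin M → E) × (Fin M → E)) {i : Fin M}
    (h : i ∉ S) : p5mix S q i = q.2 i := by
  simp [p5mix, h]

variable [MeasurableSpace E]

private lemma p5mix_measurable (S : Set (Fin M)) :
    Measurable (p5mix S : (Fin M → E) × (Fin M → E) → (Fin M → E)) := by
  classical
  refine measurable_pi_lambda _ (fun i => ?_)
  by_cases h : i ∈ S
  · have : (fun q : (Fin M → E) × (Fin M → E) => p5mix S q i) = fun q => q.1 i := by
      funext q; exact p5mix_mem q h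
    rw [this]
    exact (measurable_pi_apply i).comp measurable_fst
  · have : (fun q : (Fin M → E) × (Fin M → E) => p5mix S q i) = fun q => q.2 i := by
      funext q; exact p5mix_not_mem q h
    rw [this]
    exact (measurable_pi_apply i).comp measurable_snd

private lemma p5map (μ : Fin M → Measure E) [∀ i, IsProbabilityMeasure (μ i)]
    (S : Set (Fin M)) :
    ((Measure.pi μ).prod (Measure.pi μ)).map (p5mix S) = Measure.pi μ := by
  classical
  symm
  refine Measure.pi_eq (fun s hs => ?_)
  rw [Measure.map_apply (p5mix_measurable S) (MeasurableSet.univ_pi hs)]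
  have hset : (p5mix S) ⁻¹' (Set.pi univ s)
      = (Set.pi univ (fun i => if i ∈ S then s i else univ)) ×ˢ
        (Set.pi univ (fun i => if i ∈ S then (univ : Set E) else s i)) := by
    ext q
    simp only [Set.mem_preimage, Set.mem_pi, Set.mem_univ, true_implies, Set.mem_prod]
    constructor
    · intro h
      refine ⟨fun i => ?_, fun i => ?_⟩
      · by_cases hi : i ∈ S
        · have := h i
          rw [p5mix_mem q hi] at this
          simpa [hi] using this
        · simp [hi]
      · by_cases hi : i ∈ S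
        · simp [hi]
        · have := h i
          rw [p5mix_not_mem q hi] at this
          simpa [hi] using this
    · rintro ⟨h1, h2⟩ i
      by_cases hi : i ∈ S
      · rw [p5mix_mem q hi]
        simpa [hi] using h1 i
      · rw [p5mix_not_mem q hi]
        simpa [hi] using h2 i
  rw [hset, Measure.prod_prod, Measure.pi_pi, Measure.pi_pi, ← Finset.prod_mul_distrib]
  refine Finset.prod_congr rfl (fun i _ => ?_)
  by_cases hi : i ∈ S
  · simp [hi]
  · simp [hi]

private lemma p5level (I : (Fin M → E) → Set (Fin M)) (hI : ∀ i, MeasurableSet {ω | i ∈ I ω})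
    (S : Set (Fin M)) : MeasurableSet {ω | I ω = S} := by
  have : {ω | I ω = S} = ⋂ i, {ω | i ∈ I ω ↔ i ∈ S} := by
    ext ω
    simp [Set.ext_iff]
  rw [this]
  refine MeasurableSet.iInter (fun i => ?_)
  by_cases h : i ∈ S
  · simpa [h] using hI i
  · have := (hI i).compl
    simpa [h, Set.compl_setOf] using this

private lemma p5mixed (μ : Fin M → Measure E) [∀ i, IsProbabilityMeasure (μ i)]
    (I : (Fin M → E) → Set (Fin M)) (hI : ∀ i, MeasurableSet {ω | i ∈ I ω})
    (h1 : ∀ ω ω', (∀ i ∈ I ω, ω' i = ω i) → I ω' = I ω)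
    {C : Set (Fin M → E)} (hC : MeasurableSet C) :
    ((Measure.pi μ).prod (Measure.pi μ)) {q | p5mix (I q.1) q ∈ C} = Measure.pi μ C := by
  classical
  have hleft : {q : (Fin M → E) × (Fin M → E) | p5mix (I q.1) q ∈ C}
      = ⋃ S : Set (Fin M), (p5mix S) ⁻¹' ({ω | I ω = S} ∩ C) := by
    ext q
    simp only [Set.mem_setOf_eq, Set.mem_iUnion, Set.mem_preimage, Set.mem_inter_iff]
    constructor
    · intro h
      exact ⟨I q.1, h1 q.1 _ (fun i hi => p5mix_mem q hi), h⟩
    · rintro ⟨S, hS, h⟩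
      have : I q.1 = S := by
        rw [← hS]
        refine h1 _ _ (fun i hi => ?_)
        rw [hS] at hi
        exact (p5mix_mem q hi).symm
      rw [this]
      exact h
  have hright : C = ⋃ S : Set (Fin M), ({ω | I ω = S} ∩ C) := by
    ext ω
    simp
  have hm : ∀ S : Set (Fin M), MeasurableSet ({ω | I ω = S} ∩ C) :=
    fun S => (p5level I hI S).inter hC
  have hd : Pairwise (Function.onFun Disjoint (fun S : Set (Fin M) => ({ω | I ω = S} ∩ C))) := by
    intro S T hST
    refine Set.disjoint_left.2 ?_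
    rintro ω ⟨h, _⟩ ⟨h', _⟩
    exact hST (h.symm.trans h')
  have hd' : Pairwise (Function.onFun Disjoint
      (fun S : Set (Fin M) => ((p5mix S) ⁻¹' ({ω | I ω = S} ∩ C) :
        Set ((Fin M → E) × (Fin M → E))))) := by
    intro S T hST
    refine Set.disjoint_left.2 ?_
    intro q hq hq'
    have e1 : I q.1 = S := by
      have hS : I (p5mix S q) = S := hq.1
      rw [← hS]
      refine h1 _ _ (fun i hi => ?_)
      rw [hS] at hi
      exact (p5mix_mem q hi).symm
    have e2 : I q.1 = T := by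
      have hT : I (p5mix T q) = T := hq'.1
      rw [← hT]
      refine h1 _ _ (fun i hi => ?_)
      rw [hT] at hi
      exact (p5mix_mem q hi).symm
    exact hST (e1.symm.trans e2)
  rw [hleft, measure_iUnion hd' (fun S => p5mix_measurable S (hm S))]
  conv_rhs => rw [hright]
  rw [measure_iUnion hd hm]
  refine tsum_congr (fun S => ?_)
  rw [← Measure.map_apply (p5mix_measurable S) (hm S), p5map μ S]

end P5aux

theorem decouple {M : ℕ} {E : Type} [MeasurableSpace E] (μ : Fin M → Measure E)
    [∀ i, IsProbabilityMeasure (μ i)] {A G : Set (Fin M → E)} (hA : MeasurableSet A)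
    (hG : MeasurableSet G) (I J : (Fin M → E) → Set (Fin M))
    (hI : ∀ i, MeasurableSet {ω | i ∈ I ω})
    (h1 : ∀ ω ω', (∀ i ∈ I ω, ω' i = ω i) → I ω' = I ω ∧ (ω' ∈ A ↔ ω ∈ A))
    (h2 : ∀ ω ω', (∀ i ∈ J ω, ω' i = ω i) → (ω' ∈ G ↔ ω ∈ G))
    {F : (Fin M → E) × (Fin M → E) → ENNReal} (hF : Measurable F)
    (hbad : ∀ᵐ q ∂((Measure.pi μ).prod (Measure.pi μ)),
      (∃ i, i ∈ I q.1 ∧ i ∈ J q.2 ∧ q.1 i ≠ q.2 i) → 1 ≤ F q) :
    ENNReal.ofReal |(Measure.pi μ).real (A ∩ G) - (Measure.pi μ).real A * (Measure.pi μ).real G|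
      ≤ ∫⁻ q, F q ∂((Measure.pi μ).prod (Measure.pi μ)) := by
  classical
  set P : Measure (Fin M → E) := Measure.pi μ with hP
  set Q : Measure ((Fin M → E) × (Fin M → E)) := P.prod P with hQ
  set U : Set ((Fin M → E) × (Fin M → E)) := {q | q.1 ∈ A ∧ p5mix (I q.1) q ∈ G} with hU
  set V : Set ((Fin M → E) × (Fin M → E)) := A ×ˢ G with hV
  set B : Set ((Fin M → E) × (Fin M → E)) :=
    {q | ∃ i, i ∈ I q.1 ∧ i ∈ J q.2 ∧ q.1 i ≠ q.2 i} with hB
  have hmixA : ∀ q : (Fin M → E) × (Fin M → E), (p5mix (I q.1) q ∈ A ↔ q.1 ∈ A) :=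
    fun q => (h1 q.1 _ (fun i hi => p5mix_mem q hi)).2
  have eU : Q U = P (A ∩ G) := by
    rw [hQ, hP, ← p5mixed μ I hI (fun ω ω' h => (h1 ω ω' h).1) (hA.inter hG)]
    congr 1
    ext q
    simp only [hU, Set.mem_setOf_eq, Set.mem_inter_iff, hmixA q]
  have eV : Q V = P A * P G := by
    rw [hQ, hV, Measure.prod_prod]
  have hmixG : ∀ q : (Fin M → E) × (Fin M → E), q ∉ B → (p5mix (I q.1) q ∈ G ↔ q.2 ∈ G) := by
    intro q hq
    refine h2 q.2 _ (fun i hi => ?_)
    by_cases h : i ∈ I q.1
    · rw [p5mix_mem q h]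
      by_contra hne
      exact hq ⟨i, h, hi, hne⟩
    · rw [p5mix_not_mem q h]
  have hUV : U ⊆ V ∪ B := by
    intro q hq
    by_cases hqB : q ∈ B
    · exact Or.inr hqB
    · exact Or.inl ⟨hq.1, (hmixG q hqB).1 hq.2⟩
  have hVU : V ⊆ U ∪ B := by
    intro q hq
    by_cases hqB : q ∈ B
    · exact Or.inr hqB
    · exact Or.inl ⟨hq.1, (hmixG q hqB).2 hq.2⟩
  have hBF : Q B ≤ ∫⁻ q, F q ∂Q := by
    have hle : Q B ≤ Q {q | 1 ≤ F q} := by
      refine measure_mono_ae ?_
      filter_upwards [hbad] with q hq hqB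
      exact hq hqB
    have hmk := mul_meas_ge_le_lintegral (μ := Q) hF 1
    rw [one_mul] at hmk
    exact hle.trans hmk
  have hUle : Q U ≤ Q V + Q B := (measure_mono hUV).trans (measure_union_le _ _)
  have hVle : Q V ≤ Q U + Q B := (measure_mono hVU).trans (measure_union_le _ _)
  have hreal : |P.real (A ∩ G) - P.real A * P.real G| ≤ Q.real B := by
    have e1 : P.real (A ∩ G) = Q.real U := by
      simp only [Measure.real, eU]
    have e2 : P.real A * P.real G = Q.real V := by
      simp only [Measure.real, eV, ENNReal.toReal_mul]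
    rw [e1, e2, abs_sub_le_iff]
    have hfin : ∀ X : Set ((Fin M → E) × (Fin M → E)), Q X ≠ ⊤ := fun X => measure_ne_top Q X
    constructor
    · have : Q.real U ≤ Q.real V + Q.real B := by
        simp only [Measure.real]
        rw [← ENNReal.toReal_add (hfin V) (hfin B)]
        exact ENNReal.toReal_mono (ENNReal.add_ne_top.2 ⟨hfin V, hfin B⟩) hUle
      linarith
    · have : Q.real V ≤ Q.real U + Q.real B := by
        simp only [Measure.real]
        rw [← ENNReal.toReal_add (hfin U) (hfin B)]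
        exact ENNReal.toReal_mono (ENNReal.add_ne_top.2 ⟨hfin U, hfin B⟩) hVle
      linarith
  calc ENNReal.ofReal |P.real (A ∩ G) - P.real A * P.real G| ≤ ENNReal.ofReal (Q.real B) :=
        ENNReal.ofReal_le_ofReal hreal
    _ = Q B := by
        rw [Measure.real, ENNReal.ofReal_toReal (measure_ne_top Q B)]
    _ ≤ ∫⁻ q, F q ∂Q := hBF

end Pool.SM3X
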