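/-
SM3X.P8 : independence of local events at distance more than `√d`.
PROOF. Unit cells: `M = 2 T`, `δ = 1`, `t i = -T + i`, `μ` and `Yω` as in P7 (with `n = 0`; copy the argument (1), (2)).  `A = {ω | Q Yω}`, `G = {ω | Q' Yω}` are measurable (`Yω` and the flattened list agree a.e.; or:
replace `Yω` by `GX Φ (List.ofFn ω').flatten` with `ω' i` = the sublist of the points `y` of `ω i` with `t i < y.1 < t (i+1)`: `SM3.wf`, `SM3.measurable_wf`, then `GX Φ (flatten) = Yω` for all `ω`).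
`I = {i | ∃ x ∈ B, t i < Φ.φ x ∧ Φ.φ x < t (i+1)}` and `J` (the same for `B'`) are constant and disjoint: points with `φ` in the same unit cell have distance `≤ √d` (`Φ.small 0`).
If `ω' = ω` on `I` then `Yω` and `Yω'` agree on `B`.  `decouple` (P5) with `F = 0`: the bad event is empty.
-/
import Pool.Agent.Lib.SM3X.M1
import Pool.Agent.Lib.SM3X.P4
import Pool.Agent.Lib.SM3X.P5
import Pool.Agent.Lib.SM3.A8

set_option autoImplicit false

open MeasureTheory Set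

namespace Pool.SM3X

/-- the windowed cells -/
private noncomputable def P8w (T : ℕ) (ω : Fin (2 * T) → List SM3.Pt) :
    Fin (2 * T) → List SM3.Pt :=
  fun i => SM3.wf (-(T : ℝ) + (i : ℕ) * 1) (-(T : ℝ) + ((i : ℕ) + 1) * 1) (ω i)

private theorem P8_wf_self {u w : ℝ} {l : List SM3.Pt} (h : ∀ y ∈ l, u < y.1 ∧ y.1 < w) :
    SM3.wf u w l = l := by
  classical
  unfold SM3.wf
  rw [List.filter_eq_self]
  intro y hy
  simpa using h y hy

private theorem P8_meas (T : ℕ) : Measurable (P8w T) := by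
  refine measurable_pi_iff.2 fun i => ?_
  exact (SM3.measurable_wf _ _).comp (measurable_pi_apply i)

private theorem P8_mem {d : ℕ} (Φ : PhiM d) (T : ℕ) (ω : Fin (2 * T) → List SM3.Pt)
    (y : CP (XX d)) :
    y ∈ GX Φ (List.ofFn (P8w T ω)).flatten ↔ ∃ i : Fin (2 * T), (Φ.φ y.1, y.2) ∈ ω i ∧
      -(T : ℝ) + (i : ℕ) * 1 < Φ.φ y.1 ∧ Φ.φ y.1 < -(T : ℝ) + ((i : ℕ) + 1) * 1 := by
  show (Φ.φ y.1, y.2) ∈ (List.ofFn (P8w T ω)).flatten ↔ _
  rw [List.mem_flatten]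
  constructor
  · rintro ⟨l, hl, hy⟩
    rw [List.mem_ofFn] at hl
    obtain ⟨i, rfl⟩ := hl
    have := SM3.mem_wf.1 hy
    exact ⟨i, this⟩
  · rintro ⟨i, hi⟩
    exact ⟨P8w T ω i, (List.mem_ofFn).2 ⟨i, rfl⟩, SM3.mem_wf.2 hi⟩

private theorem P8_meas_eq {d : ℕ} {p : Fin 3 → ℝ} (hp : SM3.PV p) (Φ : PhiM d) (T : ℕ)
    {Q : Set (CP (XX d)) → Prop} (hm : MeasurableSet {l | Q (GX Φ l)}) :
    (SM3.Pm p (-(T : ℝ)) T).real {l | Q (GX Φ l)}
      = (Measure.pi fun i : Fin (2 * T) => SM3.Pm p (-(T : ℝ) + (i : ℕ) * 1)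
          (-(T : ℝ) + ((i : ℕ) + 1) * 1)).real
          {ω | Q (GX Φ (List.ofFn (P8w T ω)).flatten)} := by
  have hprob : ∀ i : Fin (2 * T), IsProbabilityMeasure (SM3.Pm p (-(T : ℝ) + (i : ℕ) * 1)
      (-(T : ℝ) + ((i : ℕ) + 1) * 1)) := fun i => SM3.isProb_Pm hp (by linarith)
  have hF : Measurable (Set.indicator {l : List SM3.Pt | Q (GX Φ l)} (1 : List SM3.Pt → ENNReal)) :=
    measurable_one.indicator hm
  have h1 := prod_cells hp (2 * T) (-(T : ℝ)) (δ := 1) zero_le_one hF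
  have e : (-(T : ℝ) + ((2 * T : ℕ) : ℝ) * 1) = (T : ℝ) := by push_cast; ring
  rw [e, lintegral_indicator_one hm] at h1
  have hm2 : MeasurableSet {ω : Fin (2 * T) → List SM3.Pt |
      Q (GX Φ (List.ofFn (P8w T ω)).flatten)} :=
    ((measurable_flatten (2 * T)).comp (P8_meas T)) hm
  have hae : ∀ᵐ ω ∂(Measure.pi fun i : Fin (2 * T) => SM3.Pm p (-(T : ℝ) + (i : ℕ) * 1)
          (-(T : ℝ) + ((i : ℕ) + 1) * 1)), P8w T ω = ω := by
    have h3 : ∀ᵐ ω ∂(Measure.pi fun i : Fin (2 * T) => SM3.Pm p (-(T : ℝ) + (i : ℕ) * 1)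
          (-(T : ℝ) + ((i : ℕ) + 1) * 1)), ∀ i : Fin (2 * T), P8w T ω i = ω i := by
      rw [ae_all_iff]
      intro i
      have h4 : ∀ᵐ l ∂(SM3.Pm p (-(T : ℝ) + (i : ℕ) * 1) (-(T : ℝ) + ((i : ℕ) + 1) * 1)),
          SM3.wf (-(T : ℝ) + (i : ℕ) * 1) (-(T : ℝ) + ((i : ℕ) + 1) * 1) l = l := by
        filter_upwards [SM3.ae_Pm p (-(T : ℝ) + (i : ℕ) * 1) (-(T : ℝ) + ((i : ℕ) + 1) * 1)]
          with l hl
        exact P8_wf_self hl.2
      exact (Measure.quasiMeasurePreserving_eval (fun i : Fin (2 * T) =>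
        SM3.Pm p (-(T : ℝ) + (i : ℕ) * 1) (-(T : ℝ) + ((i : ℕ) + 1) * 1)) i).ae h4
    filter_upwards [h3] with ω hω
    exact funext hω
  have h5 : ∫⁻ ω : Fin (2 * T) → List SM3.Pt,
        Set.indicator {l : List SM3.Pt | Q (GX Φ l)} (1 : List SM3.Pt → ENNReal)
          ((List.ofFn ω).flatten)
          ∂(Measure.pi fun i : Fin (2 * T) => SM3.Pm p (-(T : ℝ) + (i : ℕ) * 1)
          (-(T : ℝ) + ((i : ℕ) + 1) * 1))
      = ∫⁻ ω : Fin (2 * T) → List SM3.Pt,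
        Set.indicator {ω | Q (GX Φ (List.ofFn (P8w T ω)).flatten)}
          (1 : (Fin (2 * T) → List SM3.Pt) → ENNReal) ω
          ∂(Measure.pi fun i : Fin (2 * T) => SM3.Pm p (-(T : ℝ) + (i : ℕ) * 1)
          (-(T : ℝ) + ((i : ℕ) + 1) * 1)) := by
    refine lintegral_congr_ae ?_
    filter_upwards [hae] with ω hω
    by_cases hc : Q (GX Φ (List.ofFn ω).flatten)
    · rw [Set.indicator_of_mem (show (List.ofFn ω).flatten ∈ {l | Q (GX Φ l)} from hc),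
        Set.indicator_of_mem (show ω ∈ {ω | Q (GX Φ (List.ofFn (P8w T ω)).flatten)} from ?_)]
      · rfl
      · show Q (GX Φ (List.ofFn (P8w T ω)).flatten)
        rw [hω]
        exact hc
    · rw [Set.indicator_of_notMem (show (List.ofFn ω).flatten ∉ {l | Q (GX Φ l)} from hc),
        Set.indicator_of_notMem (show ω ∉ {ω | Q (GX Φ (List.ofFn (P8w T ω)).flatten)} from ?_)]
      show ¬ Q (GX Φ (List.ofFn (P8w T ω)).flatten)
      rw [hω]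
      exact hc
  rw [h5, lintegral_indicator_one hm2] at h1
  rw [measureReal_def, measureReal_def, h1]

private theorem P8_cell {d : ℕ} (Φ : PhiM d) (T : ℕ) (i : ℕ) {x y : XX d}
    (hx1 : -(T : ℝ) + (i : ℕ) * 1 < Φ.φ x) (hx2 : Φ.φ x < -(T : ℝ) + ((i : ℕ) + 1) * 1)
    (hy1 : -(T : ℝ) + (i : ℕ) * 1 < Φ.φ y) (hy2 : Φ.φ y < -(T : ℝ) + ((i : ℕ) + 1) * 1) :
    dist x y ≤ Real.sqrt d := by
  have h := Φ.small 0 x y
  rw [Nat.mul_zero, pow_zero, one_mul, one_mul, div_one] at h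
  refine h ?_
  have e1 : ⌊Φ.φ x⌋ = -(T : ℤ) + i := by
    rw [Int.floor_eq_iff]
    push_cast
    constructor <;> linarith
  have e2 : ⌊Φ.φ y⌋ = -(T : ℤ) + i := by
    rw [Int.floor_eq_iff]
    push_cast
    constructor <;> linarith
  rw [e1, e2]

private theorem P8_loc {d : ℕ} (Φ : PhiM d) (T : ℕ) {B : Set (XX d)}
    {Q : Set (CP (XX d)) → Prop} (hQ : Loc Q B) (ω ω' : Fin (2 * T) → List SM3.Pt)
    (h : ∀ i ∈ {i : Fin (2 * T) | ∃ x ∈ B, -(T : ℝ) + (i : ℕ) * 1 < Φ.φ x ∧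
      Φ.φ x < -(T : ℝ) + ((i : ℕ) + 1) * 1}, ω' i = ω i) :
    Q (GX Φ (List.ofFn (P8w T ω')).flatten) ↔ Q (GX Φ (List.ofFn (P8w T ω)).flatten) := by
  refine hQ _ _ fun y hy => ?_
  rw [P8_mem, P8_mem]
  constructor
  · rintro ⟨i, h1, h2⟩
    exact ⟨i, by rw [← h i ⟨y.1, hy, h2⟩]; exact h1, h2⟩
  · rintro ⟨i, h1, h2⟩
    exact ⟨i, by rw [h i ⟨y.1, hy, h2⟩]; exact h1, h2⟩

theorem indep_far {d : ℕ} {p : Fin 3 → ℝ} (hp : SM3.PV p) (Φ : PhiM d) (T : ℕ)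
    {B B' : Set (XX d)} (hBB : ∀ x ∈ B, ∀ y ∈ B', Real.sqrt d < dist x y)
    {Q Q' : Set (CP (XX d)) → Prop} (hQ : Loc Q B) (hQ' : Loc Q' B')
    (hm : MeasurableSet {l | Q (GX Φ l)}) (hm' : MeasurableSet {l | Q' (GX Φ l)}) :
    (SM3.Pm p (-(T : ℝ)) T).real {l | Q (GX Φ l) ∧ Q' (GX Φ l)}
      = (SM3.Pm p (-(T : ℝ)) T).real {l | Q (GX Φ l)} *
        (SM3.Pm p (-(T : ℝ)) T).real {l | Q' (GX Φ l)} := by
  have hprob : ∀ i : Fin (2 * T), IsProbabilityMeasure (SM3.Pm p (-(T : ℝ) + (i : ℕ) * 1)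
      (-(T : ℝ) + ((i : ℕ) + 1) * 1)) := fun i => SM3.isProb_Pm hp (by linarith)
  rw [P8_meas_eq hp Φ T hm, P8_meas_eq hp Φ T hm',
    P8_meas_eq (Q := fun Y => Q Y ∧ Q' Y) hp Φ T (hm.inter hm')]
  have hA : MeasurableSet {ω : Fin (2 * T) → List SM3.Pt |
      Q (GX Φ (List.ofFn (P8w T ω)).flatten)} :=
    ((measurable_flatten (2 * T)).comp (P8_meas T)) hm
  have hG : MeasurableSet {ω : Fin (2 * T) → List SM3.Pt |
      Q' (GX Φ (List.ofFn (P8w T ω)).flatten)} :=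
    ((measurable_flatten (2 * T)).comp (P8_meas T)) hm'
  have hd := decouple (fun i : Fin (2 * T) => SM3.Pm p (-(T : ℝ) + (i : ℕ) * 1)
      (-(T : ℝ) + ((i : ℕ) + 1) * 1)) hA hG
    (fun _ => {i : Fin (2 * T) | ∃ x ∈ B, -(T : ℝ) + (i : ℕ) * 1 < Φ.φ x ∧
      Φ.φ x < -(T : ℝ) + ((i : ℕ) + 1) * 1})
    (fun _ => {i : Fin (2 * T) | ∃ x ∈ B', -(T : ℝ) + (i : ℕ) * 1 < Φ.φ x ∧
      Φ.φ x < -(T : ℝ) + ((i : ℕ) + 1) * 1})
    (fun i => MeasurableSet.const _)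
    (fun ω ω' h => ⟨rfl, P8_loc Φ T hQ ω ω' h⟩)
    (fun ω ω' h => P8_loc Φ T hQ' ω ω' h)
    (F := fun _ => 0) measurable_const
    (Filter.Eventually.of_forall fun q hq => by
      exfalso
      obtain ⟨i, ⟨x, hx, hx1, hx2⟩, ⟨y, hy, hy1, hy2⟩, _⟩ := hq
      exact absurd (P8_cell Φ T i hx1 hx2 hy1 hy2) (not_le.2 (hBB x hx y hy)))
  rw [lintegral_zero] at hd
  have h0 := ENNReal.ofReal_eq_zero.1 (le_antisymm hd bot_le)
  have h1 := abs_eq_zero.1 (le_antisymm h0 (abs_nonneg _))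
  exact sub_eq_zero.1 h1

end Pool.SM3X
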