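/-
SM3X.T4 : a zero-one law for approximately local events (pure measure theory).
PROOF. Let `lam r m m'` be as in `h1`.  (1) For each `i`, `r`: `V i r` is a.e. equal to the limit of `L i r m` (`h3`), so null measurable, and `P.real (L i r m ∩ V i r) = lim_{m'} P.real (L i r m ∩ L i r m') = lim_{m'} lam r m m'` (dominated convergence:
`tendsto_measure_of_ae_tendsto_indicator`), `P.real (V i r) = lim_m lam r m m`; both do not depend on `i`; `e r m := P.real (L i r m \ V i r) → 0` as `m → ∞` (for `i = 0`, the same theorem).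
(2) `v r := P.real (V i r)` is nonincreasing in `r` (`h4`), with limit `u = P.real (⋂ r, V i r)`, independent of `i`.
(3) Fix `I` and `ε > 0`.  `N` with `1/(N κ) ≤ ε/2`; `r ≥ r₀` with `v r - u ≤ ε/(8 N)`; `m` with `κ ≤ lam r m m` and `e r m ≤ ε/(8 N)`.  The sets `E k = L (I + k (D r m + 1)) r m` satisfy the hypotheses of `SM3.pairwise_indep_bound` (E14) with `α = lam r m m`, so
`P.real {ω | ∀ k < N, ω ∉ E k} ≤ 1/(N α) ≤ ε/2`, and `P.real (E k \ ⋂ r, V _ r) ≤ e r m + (v r - u) ≤ ε/(4N)`; hence `P {ω | ∀ i ≥ I, ω ∉ ⋂ r, V i r} ≤ ε`.  (Intersection over `r ∈ ℕ`.)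
-/
import Pool.Agent.Lib.SM3.E14

set_option autoImplicit false

open MeasureTheory Set

namespace Pool.SM3X

private theorem T4_tendsto {Ω : Type} [MeasurableSpace Ω] {P : Measure Ω} [IsProbabilityMeasure P]
    {A : ℕ → Set Ω} {B : Set Ω} (hA : ∀ m, NullMeasurableSet (A m) P) (hB : NullMeasurableSet B P)
    (h : ∀ᵐ ω ∂P, ∃ m₀, ∀ m, m₀ ≤ m → (ω ∈ A m ↔ ω ∈ B)) :
    Filter.Tendsto (fun m => P.real (A m)) Filter.atTop (nhds (P.real B)) := by
  classical
  have hint : ∀ C : Set Ω, NullMeasurableSet C P →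
      Integrable (C.indicator (fun _ => (1 : ℝ))) P := fun C hC =>
    (integrable_const (1 : ℝ)).indicator₀ hC
  have hval : ∀ C : Set Ω, NullMeasurableSet C P →
      ∫ ω, C.indicator (fun _ => (1 : ℝ)) ω ∂P = P.real C := by
    intro C hC
    rw [integral_indicator₀ hC, setIntegral_const, smul_eq_mul, mul_one]
  have h2 := tendsto_integral_of_dominated_convergence (μ := P)
    (F := fun m => (A m).indicator (fun _ => (1 : ℝ))) (f := B.indicator (fun _ => (1 : ℝ)))
    (fun _ => (1 : ℝ)) (fun m => (hint _ (hA m)).aestronglyMeasurable) (integrable_const _)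
    (fun m => Filter.Eventually.of_forall fun ω => by
      by_cases hω : ω ∈ A m <;> simp [hω])
    (by
      filter_upwards [h] with ω hω
      obtain ⟨m₀, hm⟩ := hω
      refine tendsto_const_nhds.congr' ?_
      filter_upwards [Filter.eventually_ge_atTop m₀] with m hm'
      by_cases hB' : ω ∈ B
      · simp [hB', (hm m hm').2 hB']
      · have : ω ∉ A m := fun hh => hB' ((hm m hm').1 hh)
        simp [hB', this])
  simp only [hval _ hB] at h2
  refine h2.congr fun m => ?_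
  exact hval _ (hA m)

theorem zero_one {Ω : Type} [MeasurableSpace Ω] {P : Measure Ω} [IsProbabilityMeasure P]
    {L : ℕ → ℕ → ℕ → Set Ω} {V : ℕ → ℕ → Set Ω}
    (hL : ∀ i r m, NullMeasurableSet (L i r m) P) {lam : ℕ → ℕ → ℕ → ℝ}
    (h1 : ∀ i r m m', P.real (L i r m ∩ L i r m') = lam r m m') (D : ℕ → ℕ → ℕ)
    (h2 : ∀ r m i j, i + D r m < j → P.real (L i r m ∩ L j r m) = lam r m m * lam r m m)
    (h3 : ∀ᵐ ω ∂P, ∀ i r, ∃ m₀, ∀ m, m₀ ≤ m → (ω ∈ L i r m ↔ ω ∈ V i r))
    (h4 : ∀ i r, V i (r + 1) ⊆ V i r) {κ : ℝ} (hκ : 0 < κ)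
    (h5 : ∃ r₀, ∀ r, r₀ ≤ r → ∃ m₀, ∀ m, m₀ ≤ m → κ ≤ lam r m m) :
    ∀ᵐ ω ∂P, ∀ I : ℕ, ∃ i, I ≤ i ∧ ∀ r, ω ∈ V i r := by
  classical
  -- null measurability of the limit sets
  have hV : ∀ i r, NullMeasurableSet (V i r) P := by
    intro i r
    have hW : NullMeasurableSet (⋃ m₀ : ℕ, ⋂ m : ℕ, ⋂ (_ : m₀ ≤ m), L i r m) P :=
      NullMeasurableSet.iUnion fun m₀ => NullMeasurableSet.iInter fun m =>
        NullMeasurableSet.iInter fun _ => hL i r m
    refine hW.congr ?_
    filter_upwards [h3] with ω hω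
    obtain ⟨m₀, hm⟩ := hω i r
    refine propext ⟨fun h => ?_, fun h => ?_⟩
    · obtain ⟨m₁, h1'⟩ := mem_iUnion.1 h
      have h2' := mem_iInter₂.1 h1' (max m₀ m₁) (le_max_right _ _)
      exact (hm _ (le_max_left _ _)).1 h2'
    · refine mem_iUnion.2 ⟨m₀, mem_iInter₂.2 fun m hm' => (hm m hm').2 h⟩
  have hVI : ∀ i, NullMeasurableSet (⋂ r, V i r) P := fun i =>
    NullMeasurableSet.iInter fun r => hV i r
  have hanti : ∀ i r s, r ≤ s → V i s ⊆ V i r := by
    intro i r s hrs
    induction s, hrs using Nat.le_induction with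
    | base => exact subset_rfl
    | succ n _ ih => exact (h4 i n).trans ih
  have hLr : ∀ i r m, P.real (L i r m) = lam r m m := by
    intro i r m
    rw [← h1 i r m m, inter_self]
  -- the limits
  have hT1 : ∀ i r, Filter.Tendsto (fun m => lam r m m) Filter.atTop (nhds (P.real (V i r))) := by
    intro i r
    have h6 := T4_tendsto (P := P) (A := fun m => L i r m) (hL i r) (hV i r)
      (h3.mono fun ω hω => hω i r)
    simpa only [hLr] using h6
  have hT2 : ∀ i r m, Filter.Tendsto (fun m' => lam r m m') Filter.atTop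
      (nhds (P.real (L i r m ∩ V i r))) := by
    intro i r m
    have h6 := T4_tendsto (P := P) (A := fun m' => L i r m ∩ L i r m') (B := L i r m ∩ V i r)
      (fun m' => (hL i r m).inter (hL i r m')) ((hL i r m).inter (hV i r))
      (h3.mono fun ω hω => by
        obtain ⟨m₀, hm⟩ := hω i r
        exact ⟨m₀, fun m' hm' => by simp only [mem_inter_iff, hm m' hm']⟩)
    simpa only [h1] using h6
  have hT3 : ∀ r, Filter.Tendsto (fun m => P.real (L 0 r m \ V 0 r)) Filter.atTop (nhds 0) := by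
    intro r
    have h6 := T4_tendsto (P := P) (A := fun m => L 0 r m \ V 0 r) (B := (∅ : Set Ω))
      (fun m => (hL 0 r m).diff (hV 0 r)) nullMeasurableSet_empty
      (h3.mono fun ω hω => by
        obtain ⟨m₀, hm⟩ := hω 0 r
        refine ⟨m₀, fun m hm' => ?_⟩
        simp only [mem_sdiff, hm m hm', mem_empty_iff_false, iff_false]
        exact fun h => h.2 h.1)
    simpa using h6
  have hT4 : ∀ i, Filter.Tendsto (fun r => P.real (V i r)) Filter.atTop
      (nhds (P.real (⋂ r, V i r))) := by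
    intro i
    refine T4_tendsto (P := P) (A := fun r => V i r) (hV i) (hVI i)
      (Filter.Eventually.of_forall fun ω => ?_)
    by_cases h : ω ∈ ⋂ r, V i r
    · exact ⟨0, fun m _ => ⟨fun _ => h, fun _ => mem_iInter.1 h m⟩⟩
    · obtain ⟨r₁, hr₁⟩ : ∃ r, ω ∉ V i r := by
        by_contra h'
        push Not at h'
        exact h (mem_iInter.2 h')
      exact ⟨r₁, fun m hm => ⟨fun h' => absurd (hanti i r₁ m hm h') hr₁, fun h' => absurd h' h⟩⟩
  have hVi : ∀ i r, P.real (V i r) = P.real (V 0 r) := fun i r =>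
    tendsto_nhds_unique (hT1 i r) (hT1 0 r)
  have hUi : ∀ i, P.real (⋂ r, V i r) = P.real (⋂ r, V 0 r) := by
    intro i
    have h6 := hT4 i
    simp only [hVi i] at h6
    exact tendsto_nhds_unique h6 (hT4 0)
  have hLV : ∀ i r m, P.real (L i r m ∩ V i r) = P.real (L 0 r m ∩ V 0 r) := fun i r m =>
    tendsto_nhds_unique (hT2 i r m) (hT2 0 r m)
  have hdiff : ∀ i r m, P.real (L i r m \ V i r) = lam r m m - P.real (L i r m ∩ V i r) := by
    intro i r m
    have h6 := measureReal_inter_add_sdiff₀ (μ := P) (s := L i r m) (hV i r)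
    rw [hLr] at h6
    linarith
  have hE0 : ∀ i r m, P.real (L i r m \ V i r) = P.real (L 0 r m \ V 0 r) := by
    intro i r m
    rw [hdiff, hdiff, hLV]
  -- the main argument
  rw [ae_all_iff]
  intro I
  rw [ae_iff]
  set B : Set Ω := {ω | ¬ ∃ i, I ≤ i ∧ ∀ r, ω ∈ V i r} with hB
  suffices hs : ∀ δ : ℝ, 0 < δ → P.real B ≤ δ by
    have h0 : P.real B = 0 :=
      le_antisymm (le_of_forall_pos_le_add fun δ hδ => by simpa using hs δ hδ) measureReal_nonneg
    exact (measureReal_eq_zero_iff (measure_ne_top P B)).1 h0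
  intro δ hδ
  obtain ⟨N, hN⟩ := exists_nat_gt (2 / (δ * κ))
  have hN0 : (0 : ℝ) < N := lt_of_le_of_lt (by positivity) hN
  have hNn : 0 < N := by exact_mod_cast hN0
  have hε : 0 < δ / (4 * N) := by positivity
  obtain ⟨r₀, hr₀⟩ := h5
  obtain ⟨r, hrr, hru⟩ : ∃ r, r₀ ≤ r ∧
      P.real (V 0 r) < P.real (⋂ r, V 0 r) + δ / (4 * N) := by
    have h6 := (hT4 0).eventually (gt_mem_nhds (lt_add_of_pos_right _ hε))
    obtain ⟨r, hr1, hr2⟩ := ((Filter.eventually_ge_atTop r₀).and h6).exists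
    exact ⟨r, hr1, hr2⟩
  obtain ⟨m₀, hm₀⟩ := hr₀ r hrr
  obtain ⟨m, hmm, hme⟩ : ∃ m, m₀ ≤ m ∧ P.real (L 0 r m \ V 0 r) < δ / (4 * N) := by
    have h6 := (hT3 r).eventually (gt_mem_nhds hε)
    obtain ⟨m, hm1, hm2⟩ := ((Filter.eventually_ge_atTop m₀).and h6).exists
    exact ⟨m, hm1, hm2⟩
  have hα : κ ≤ lam r m m := hm₀ m hmm
  have hα0 : 0 < lam r m m := lt_of_lt_of_le hκ hα
  have hcheb := Pool.SM3.pairwise_indep_bound (P := P) hNn hα0
    (fun k : ℕ => L (I + k * (D r m + 1)) r m) (fun k => hL _ _ _) (fun k => hLr _ _ _)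
    (fun k l hkl => by
      refine h2 r m _ _ ?_
      have h6 : (k + 1) * (D r m + 1) ≤ l * (D r m + 1) := Nat.mul_le_mul_right _ hkl
      have h7 : (k + 1) * (D r m + 1) = k * (D r m + 1) + (D r m + 1) := by ring
      omega)
  have hbad : ∀ i, P.real (L i r m \ ⋂ r, V i r) ≤ δ / (2 * N) := by
    intro i
    have hs1 : L i r m \ (⋂ r, V i r) ⊆ (L i r m \ V i r) ∪ (V i r \ ⋂ r, V i r) := by
      intro ω hω
      by_cases h : ω ∈ V i r
      · exact Or.inr ⟨h, hω.2⟩
      · exact Or.inl ⟨hω.1, h⟩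
    have hs2 : P.real (V i r \ ⋂ r, V i r) = P.real (V i r) - P.real (⋂ r, V i r) := by
      have h6 := measureReal_inter_add_sdiff₀ (μ := P) (s := V i r) (hVI i)
      rw [inter_eq_self_of_subset_right (iInter_subset _ r)] at h6
      linarith
    have h7 := (measureReal_mono (μ := P) hs1).trans (measureReal_union_le _ _)
    rw [hs2, hE0, hVi, hUi] at h7
    have h8 : δ / (4 * N) + δ / (4 * N) = δ / (2 * N) := by
      field_simp
      ring
    linarith
  have hsub : B ⊆ {ω | ∀ k, k < N → ω ∉ L (I + k * (D r m + 1)) r m} ∪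
      ⋃ k ∈ Finset.range N, (L (I + k * (D r m + 1)) r m \
        ⋂ s, V (I + k * (D r m + 1)) s) := by
    intro ω hω
    by_cases h6 : ∀ k, k < N → ω ∉ L (I + k * (D r m + 1)) r m
    · exact Or.inl h6
    · right
      push Not at h6
      obtain ⟨k, hk, hLk⟩ := h6
      refine mem_iUnion₂.2 ⟨k, Finset.mem_range.2 hk, hLk, fun hU => ?_⟩
      exact hω ⟨I + k * (D r m + 1), Nat.le_add_right _ _, fun s => mem_iInter.1 hU s⟩
  have hfinal : P.real B ≤ 1 / (N * lam r m m) + N * (δ / (2 * N)) := by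
    refine (measureReal_mono hsub).trans ((measureReal_union_le _ _).trans ?_)
    refine add_le_add hcheb ?_
    refine (measureReal_biUnion_finset_le _ _).trans ?_
    calc ∑ k ∈ Finset.range N, P.real (L (I + k * (D r m + 1)) r m \
          ⋂ s, V (I + k * (D r m + 1)) s) ≤ ∑ _k ∈ Finset.range N, (δ / (2 * N)) :=
          Finset.sum_le_sum fun k _ => hbad _
      _ = N * (δ / (2 * N)) := by rw [Finset.sum_const, Finset.card_range, nsmul_eq_mul]
  refine hfinal.trans ?_
  have h8 : (N : ℝ) * (δ / (2 * N)) = δ / 2 := by field_simp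
  have h9 : 1 / (N * lam r m m) ≤ δ / 2 := by
    rw [div_le_iff₀ (mul_pos hN0 hα0)]
    rw [div_lt_iff₀ (mul_pos hδ hκ)] at hN
    have h10 : δ * (N * κ) ≤ δ * (N * lam r m m) := by gcongr
    nlinarith
  linarith


end Pool.SM3X
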