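/-
SM3X.T5 : infinitely many unmatched points of colour 0.
PROOF. `Q0 = Φ.φ ⁻¹' Ioo 0 1` (bounded: `Φ.bdd`, measurable), `e` a unit vector (`EuclideanSpace.single 0 1`, `d ≥ 1`), `w i = i e`, `Q i = {x | x - w i ∈ Q0}`.  `L i r m = {ω | Lev (Q i) r m (SX S ω)}`, `V i r = {ω | Vev (Q i) r (SX S ω)}`.
`zero_one` (T4): `hL`: `law_X` (P1) with `Lev_loc`, `Lev_meas` (T1), bounded region, large `T`.  `h1`: `Lev (Q i) r m Y ↔ Lev Q0 r m (shX (w i) Y)` (`Lev_shift`), `stat_X` (P2) for the event `Lev Q0 r m ∧ Lev Q0 r m'`; `lam r m m' = P.real (L 0 r m ∩ L 0 r m')`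
(`w 0 = 0`).  `h2`: `D r m` = an integer larger than `2 (m r + 1) + √d + diam Q0 + ..`: the regions of `L i` and `L j` (`Lev_loc`) have distance `> √d` if `j > i + D r m`; `law_X` for `L i ∩ L j`, `L i`, `L j` with a common large integer `T` and
`indep_far` (P8).  `h3`: `ae_goodX` (T2), `Lev_eventually` (T1).  `h4`: `Vev_anti`.
`h5`: let `κ`, `r₁` from `hkey`; `κ' = κ/2`.  For an integer `r ≥ r₁` take `ε` from `hkey r`, `facts` (S4) with `rm = r` gives `κ ≤ p 0 * fT Φ p T 0 0 r` for large `T`; `fT_near` (S4) with `ε = κ/2` and `R ≥ r`, `R ≥ sup of ‖x‖` on `Q0`: `κ/2 ≤ p 0 * fT Φ p T 0 x r` for `x ∈ Q0`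
(`p 0 ≤ 1`); `V^m/m! → 0`; `Lev_lower` (T3): `(κ/2)^2/8 ≤ Pm.real {Lev Q0 r m} = P.real (L 0 r m) = lam r m m` (`law_X`).
Conclusion: a.s. for every `I` there is `i ≥ I` with an unmatched point of colour 0 in `Q i` (`Vev_all`, T1).  The points in `Q i` have norm `≥ i - R₀`, so the set is unbounded, hence infinite.
-/
import Pool.Agent.Lib.SM3X.P2
import Pool.Agent.Lib.SM3X.P8
import Pool.Agent.Lib.SM3X.S4
import Pool.Agent.Lib.SM3X.T1
import Pool.Agent.Lib.SM3X.T2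
import Pool.Agent.Lib.SM3X.T3
import Pool.Agent.Lib.SM3X.T4

set_option autoImplicit false

open MeasureTheory Set

namespace Pool.SM3X

private theorem T5_loc_mono {X : Type} [MetricSpace X] {Q : Set (CP X) → Prop} {B B' : Set X}
    (h : Loc Q B) (hB : B ⊆ B') : Loc Q B' :=
  fun Y Y' hY => h Y Y' (fun y hy => hY y (hB hy))

private theorem T5_loc_and {X : Type} [MetricSpace X] {Q Q' : Set (CP X) → Prop} {B : Set X}
    (h : Loc Q B) (h' : Loc Q' B) : Loc (fun Y => Q Y ∧ Q' Y) B :=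
  fun Y Y' hY => and_congr (h Y Y' hY) (h' Y Y' hY)

private theorem T5_window {d : ℕ} (Φ : PhiM d) {B : Set (XX d)} (hB : Bornology.IsBounded B) :
    ∃ T₀ : ℕ, ∀ T : ℕ, T₀ ≤ T → ∀ x ∈ B, -(T : ℝ) < Φ.φ x ∧ Φ.φ x < T := by
  obtain ⟨C, hC⟩ := (Φ.bdd' B hB).exists_norm_le
  refine ⟨⌊C⌋₊ + 1, fun T hT x hx => ?_⟩
  have h1 := hC _ (mem_image_of_mem Φ.φ hx)
  rw [Real.norm_eq_abs] at h1
  have h2 : C < T := by
    have h3 := Nat.lt_floor_add_one C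
    have h4 : ((⌊C⌋₊ + 1 : ℕ) : ℝ) ≤ T := by exact_mod_cast hT
    push_cast at h4
    linarith
  exact abs_lt.1 (lt_of_le_of_lt h1 h2)

private theorem T5_region_bdd {d : ℕ} {A : Set (XX d)} {R : ℝ} (hA : ∀ x ∈ A, ‖x‖ ≤ R) (c : ℝ) :
    Bornology.IsBounded {z : XX d | ∃ x ∈ A, dist x z < c} := by
  rw [isBounded_iff_forall_norm_le]
  refine ⟨R + c, ?_⟩
  rintro z ⟨x, hx, hxz⟩
  have h1 := hA x hx
  have h2 : ‖z‖ ≤ ‖x‖ + dist x z := by
    rw [dist_comm, dist_eq_norm]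
    have := norm_add_le x (z - x)
    simpa using this
  linarith

private theorem T5_exists_w {d : ℕ} (hd : 1 ≤ d) : ∃ w : ℕ → XX d,
    (∀ i j : ℕ, ‖w j - w i‖ = |(j : ℝ) - i|) ∧ ∀ i : ℕ, ‖w i‖ = i := by
  let e : XX d := EuclideanSpace.single ⟨0, hd⟩ (1 : ℝ)
  have he : ‖e‖ = 1 := by simp [e]
  refine ⟨fun i => (i : ℝ) • e, fun i j => ?_, fun i => ?_⟩
  · rw [← sub_smul, norm_smul, he, mul_one, Real.norm_eq_abs]
  · rw [norm_smul, he, mul_one, Real.norm_eq_abs, abs_of_nonneg (Nat.cast_nonneg i)]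

/-- events: the law -/
private theorem T5_law {d : ℕ} {p : Fin 3 → ℝ} (hp : SM3.PV p) {Ω : Type} [MeasurableSpace Ω]
    {P : Measure Ω} [IsProbabilityMeasure P] {S : Fin 3 → Ω → Set (XX d)} (h : HypX p P S)
    (Φ : PhiM d) {B : Set (XX d)} (hB : Bornology.IsBounded B)
    {Q : Set (CP (XX d)) → Prop} (hQ : Loc Q B) (hm : MeasurableSet {l | Q (GX Φ l)}) :
    ∃ T₀ : ℕ, ∀ T : ℕ, T₀ ≤ T → NullMeasurableSet {ω | Q (SX S ω)} P ∧
      P.real {ω | Q (SX S ω)} = (SM3.Pm p (-(T : ℝ)) T).real {l | Q (GX Φ l)} := by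
  obtain ⟨T₀, hT₀⟩ := T5_window Φ hB
  refine ⟨max T₀ 1, fun T hT => ?_⟩
  have hT1 : (0 : ℝ) < T := by
    have : 1 ≤ T := le_trans (le_max_right _ _) hT
    exact_mod_cast this
  obtain ⟨h1, h2⟩ := law_X hp h Φ hT1 (hT₀ T (le_trans (le_max_left _ _) hT)) hQ hm
  exact ⟨h1, by rw [measureReal_def, measureReal_def, h2]⟩

theorem unmatched_infinite {d : ℕ} (hd : 1 ≤ d) {p : Fin 3 → ℝ} (hp : SM3.PV p) (hq : p 1 = p 2)
    (hkey : ∃ κ : ℝ, 0 < κ ∧ ∃ r₁ : ℝ, 0 < r₁ ∧ ∀ r' : ℝ, r₁ ≤ r' → ∃ ε : ℝ, 0 < ε ∧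
      ∀ (f : Fin 3 → ℝ → ℝ) (g : Fin 3 → Fin 3 → XX d → ℝ), Facts d p ε r' f g →
        κ ≤ p 0 * f 0 r')
    {Ω : Type} [MeasurableSpace Ω] {P : Measure Ω} [IsProbabilityMeasure P]
    {S : Fin 3 → Ω → Set (XX d)} (h : HypX p P S) (Φ : PhiM d) :
    ∀ᵐ ω ∂P, {x : XX d | x ∈ S 0 ω ∧ ∀ z, ¬ MSX (SX S ω) (x, 0) z}.Infinite := by
  obtain ⟨κ, hκ, r₁, hr₁, hk⟩ := hkey
  obtain ⟨w, hw, hw'⟩ := T5_exists_w hd
  set Q0 : Set (XX d) := Φ.φ ⁻¹' Ioo 0 1 with hQ0def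
  have hQ0b : Bornology.IsBounded Q0 := Φ.bdd _ (Metric.isBounded_Ioo 0 1)
  have hQ0m : MeasurableSet Q0 := Φ.hφ measurableSet_Ioo
  obtain ⟨R1, hR1⟩ := hQ0b.exists_norm_le
  obtain ⟨R0, hR0, hR00⟩ : ∃ R0 : ℝ, (∀ x ∈ Q0, ‖x‖ ≤ R0) ∧ 0 ≤ R0 :=
    ⟨max R1 0, fun x hx => (hR1 x hx).trans (le_max_left _ _), le_max_right _ _⟩
  -- the translated sets
  let Q : ℕ → Set (XX d) := fun i => {x | x - w i ∈ Q0}
  have hQm : ∀ i, MeasurableSet (Q i) := fun i =>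
    (measurable_id.sub_const (w i)) hQ0m
  have hQn : ∀ i, ∀ x ∈ Q i, ‖x‖ ≤ R0 + i := by
    intro i x hx
    have h1 : ‖x - w i‖ ≤ R0 := hR0 _ hx
    have h2 := norm_add_le (x - w i) (w i)
    rw [sub_add_cancel, hw'] at h2
    linarith
  have hQb : ∀ i, Bornology.IsBounded (Q i) := fun i => by
    rw [isBounded_iff_forall_norm_le]; exact ⟨_, hQn i⟩
  -- the regions
  let B : ℕ → ℕ → ℕ → Set (XX d) := fun i r m =>
    {z | ∃ x ∈ Q i, dist x z < m * |(r : ℝ)| + 1}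
  have hBb : ∀ i r m, Bornology.IsBounded (B i r m) := fun i r m =>
    T5_region_bdd (hQn i) _
  have hLoc : ∀ i r m : ℕ, Loc (Lev (Q i) (r : ℝ) m) (B i r m) := fun i r m => Lev_loc _ _ _
  have hMeas : ∀ i r m : ℕ, MeasurableSet {l | Lev (Q i) (r : ℝ) m (GX Φ l)} := fun i r m =>
    Lev_meas Φ (hQm i) _ _
  let B0 : ℕ → ℕ → Set (XX d) := fun r m => {z | ∃ x ∈ Q0, dist x z < m * |(r : ℝ)| + 1}
  have hB0b : ∀ r m, Bornology.IsBounded (B0 r m) := fun r m => T5_region_bdd hR0 _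
  have hLoc0 : ∀ r m : ℕ, Loc (Lev Q0 (r : ℝ) m) (B0 r m) := fun r m => Lev_loc _ _ _
  have hMeas0 : ∀ r m : ℕ, MeasurableSet {l | Lev Q0 (r : ℝ) m (GX Φ l)} := fun r m =>
    Lev_meas Φ hQ0m _ _
  let L : ℕ → ℕ → ℕ → Set Ω := fun i r m => {ω | Lev (Q i) (r : ℝ) m (SX S ω)}
  let V : ℕ → ℕ → Set Ω := fun i r => {ω | Vev (Q i) (r : ℝ) (SX S ω)}
  let lam : ℕ → ℕ → ℕ → ℝ := fun r m m' =>
    P.real {ω | Lev Q0 (r : ℝ) m (SX S ω) ∧ Lev Q0 (r : ℝ) m' (SX S ω)}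
  have hL : ∀ i r m, NullMeasurableSet (L i r m) P := by
    intro i r m
    obtain ⟨T₀, hT₀⟩ := T5_law hp h Φ (hBb i r m) (hLoc i r m) (hMeas i r m)
    exact (hT₀ T₀ le_rfl).1
  have h1 : ∀ i r m m', P.real (L i r m ∩ L i r m') = lam r m m' := by
    intro i r m m'
    have e1 : L i r m ∩ L i r m' = {ω | (fun Y => Lev Q0 (r : ℝ) m Y ∧ Lev Q0 (r : ℝ) m' Y)
        (shX (w i) (SX S ω))} := by
      ext ω
      exact and_congr (Lev_shift Q0 r m (w i) (SX S ω)) (Lev_shift Q0 r m' (w i) (SX S ω))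
    have e2 := stat_X hp h Φ (B := B0 r m ∪ B0 r m') ((hB0b r m).union (hB0b r m'))
      (Q := fun Y => Lev Q0 (r : ℝ) m Y ∧ Lev Q0 (r : ℝ) m' Y)
      (T5_loc_and (T5_loc_mono (hLoc0 r m) subset_union_left)
        (T5_loc_mono (hLoc0 r m') subset_union_right))
      ((hMeas0 r m).inter (hMeas0 r m')) (w i)
    rw [e1, measureReal_def, e2, ← measureReal_def]
  have hLself : ∀ i r m, P.real (L i r m) = lam r m m := by
    intro i r m
    rw [← h1 i r m m, inter_self]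
  let D : ℕ → ℕ → ℕ := fun r m => ⌈Real.sqrt d + 2 * (R0 + (m * |(r : ℝ)| + 1))⌉₊
  have h2 : ∀ r m i j, i + D r m < j → P.real (L i r m ∩ L j r m) = lam r m m * lam r m m := by
    intro r m i j hij
    have hfar : ∀ x ∈ B i r m, ∀ y ∈ B j r m, Real.sqrt d < dist x y := by
      rintro x ⟨x', hx', hx⟩ y ⟨y', hy', hy⟩
      have a1 : ‖x' - w i‖ ≤ R0 := hR0 _ hx'
      have a2 : ‖y' - w j‖ ≤ R0 := hR0 _ hy'
      have a3 : ‖w j - w i‖ ≤ ‖y' - w j‖ + dist y' y + dist x y + dist x' x + ‖x' - w i‖ := by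
        have b1 : dist (w j) (w i) ≤ dist (w j) y' + dist y' y + dist y x + dist x x' +
            dist x' (w i) := by
          have c1 := dist_triangle (w j) y' (w i)
          have c2 := dist_triangle y' y (w i)
          have c3 := dist_triangle y x (w i)
          have c4 := dist_triangle x x' (w i)
          linarith
        rw [dist_comm (w j) y', dist_comm y x, dist_comm x x', dist_eq_norm (w j) (w i),
          dist_eq_norm y' (w j), dist_eq_norm x' (w i)] at b1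
        exact b1
      rw [hw i j] at a3
      have a4 : ((i : ℝ) + D r m) < j := by exact_mod_cast hij
      have a5 : Real.sqrt d + 2 * (R0 + (m * |(r : ℝ)| + 1)) ≤ D r m := Nat.le_ceil _
      have a6 : (j : ℝ) - i ≤ |(j : ℝ) - i| := le_abs_self _
      linarith
    obtain ⟨T1, hT1⟩ := T5_law hp h Φ (hBb i r m) (hLoc i r m) (hMeas i r m)
    obtain ⟨T2, hT2⟩ := T5_law hp h Φ (hBb j r m) (hLoc j r m) (hMeas j r m)
    obtain ⟨T3, hT3⟩ := T5_law hp h Φ (B := B i r m ∪ B j r m)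
      ((hBb i r m).union (hBb j r m))
      (Q := fun Y => Lev (Q i) (r : ℝ) m Y ∧ Lev (Q j) (r : ℝ) m Y)
      (T5_loc_and (T5_loc_mono (hLoc i r m) subset_union_left)
        (T5_loc_mono (hLoc j r m) subset_union_right))
      ((hMeas i r m).inter (hMeas j r m))
    set T : ℕ := max T1 (max T2 T3) with hT
    have g1 := (hT1 T (le_max_left _ _)).2
    have g2 := (hT2 T (le_trans (le_max_left _ _) (le_max_right _ _))).2
    have g3 := (hT3 T (le_trans (le_max_right _ _) (le_max_right _ _))).2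
    have g4 := indep_far hp Φ T hfar (hLoc i r m) (hLoc j r m) (hMeas i r m) (hMeas j r m)
    calc P.real (L i r m ∩ L j r m)
        = (SM3.Pm p (-(T : ℝ)) T).real {l | Lev (Q i) (r : ℝ) m (GX Φ l) ∧
            Lev (Q j) (r : ℝ) m (GX Φ l)} := g3
      _ = (SM3.Pm p (-(T : ℝ)) T).real {l | Lev (Q i) (r : ℝ) m (GX Φ l)} *
            (SM3.Pm p (-(T : ℝ)) T).real {l | Lev (Q j) (r : ℝ) m (GX Φ l)} := g4
      _ = P.real (L i r m) * P.real (L j r m) := by rw [← g1, ← g2]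
      _ = lam r m m * lam r m m := by rw [hLself, hLself]
  have hgood := ae_goodX hd hp h Φ
  have h3 : ∀ᵐ ω ∂P, ∀ i r, ∃ m₀, ∀ m, m₀ ≤ m → (ω ∈ L i r m ↔ ω ∈ V i r) := by
    filter_upwards [hgood] with ω hω i r
    exact Lev_eventually hω (hQb i) r
  have h4 : ∀ i r, V i (r + 1) ⊆ V i r := by
    intro i r ω hω
    refine Vev_anti (r' := ((r + 1 : ℕ) : ℝ)) ?_ hω
    push_cast
    linarith
  have h5 : ∃ r₀, ∀ r, r₀ ≤ r → ∃ m₀, ∀ m, m₀ ≤ m → (κ / 2) ^ 2 / 8 ≤ lam r m m := by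
    refine ⟨⌈r₁⌉₊, fun r hr => ?_⟩
    have hr' : r₁ ≤ (r : ℝ) := (Nat.le_ceil r₁).trans (by exact_mod_cast hr)
    obtain ⟨ε, hε, hk'⟩ := hk r hr'
    obtain ⟨T1, hT1⟩ := facts hd hp hq h Φ hε r
    obtain ⟨T2, hT2⟩ := fT_near hd hp h Φ (half_pos hκ) (max R0 r)
    have hp0 : p 0 ≤ 1 := by
      have q1 := hp.pos 1
      have q2 := hp.pos 2
      have q3 := hp.sum
      linarith
    have hp0' : 0 < p 0 := hp.pos 0
    have hf : ∀ T : ℕ, T1 ≤ T → T2 ≤ T → ∀ x, 0 < Φ.φ x → Φ.φ x < 1 →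
        κ / 2 ≤ p 0 * fT Φ p T 0 x r := by
      intro T hTa hTb x hx0 hx1
      have c1 := hk' _ _ (hT1 T hTa)
      have c2 := hT2 T hTb 0 x r ((hR0 x ⟨hx0, hx1⟩).trans (le_max_left _ _)) (le_max_right _ _)
      have c3 := (abs_le.1 c2).1
      have c4 : κ ≤ p 0 * fT Φ p T 0 0 r := c1
      nlinarith
    have htend := FloorSemiring.tendsto_pow_div_factorial_atTop (VR d r)
    obtain ⟨m₀, hm₀⟩ := (Filter.eventually_atTop.1
      (htend.eventually (ge_mem_nhds (show (0 : ℝ) < κ / 2 / 2 by positivity))))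
    refine ⟨m₀, fun m hm => ?_⟩
    obtain ⟨T3, hT3⟩ := T5_law hp h Φ (hB0b r m) (hLoc0 r m) (hMeas0 r m)
    set T : ℕ := max (max T1 T2) (max T3 1) with hT
    have t1 : T1 ≤ T := le_trans (le_max_left _ _) (le_max_left _ _)
    have t2 : T2 ≤ T := le_trans (le_max_right _ _) (le_max_left _ _)
    have t3 : T3 ≤ T := le_trans (le_max_left _ _) (le_max_right _ _)
    have t4 : (1 : ℝ) ≤ T := by
      have : 1 ≤ T := le_trans (le_max_right _ _) (le_max_right _ _)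
      exact_mod_cast this
    have low := Lev_lower hd hp Φ t4 r m (half_pos hκ) (hf T t1 t2) (hm₀ m hm)
    have e1 : lam r m m = P.real {ω | Lev Q0 (r : ℝ) m (SX S ω)} := by
      simp only [lam, and_self]
    rw [e1, (hT3 T t3).2]
    exact low
  have hz := zero_one hL h1 D h2 h3 h4 (κ := (κ / 2) ^ 2 / 8) (by positivity) h5
  filter_upwards [hz, hgood] with ω hω hg
  intro hfin
  obtain ⟨C, hC⟩ := (hfin.isBounded).exists_norm_le
  obtain ⟨i, hi, hV⟩ := hω (⌊C + R0⌋₊ + 1)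
  obtain ⟨x, hxY, hx0, hxQ, hx⟩ := Vev_all hg (hQb i) hV
  have hxe : x = (x.1, 0) := by
    rw [← hx0]
  have hmem : x.1 ∈ {x : XX d | x ∈ S 0 ω ∧ ∀ z, ¬ MSX (SX S ω) (x, 0) z} := by
    refine ⟨?_, fun z => ?_⟩
    · have : x.1 ∈ S x.2 ω := hxY
      rwa [hx0] at this
    · have := hx z
      rwa [hxe] at this
  have k1 := hC _ hmem
  have k2 : ‖x.1 - w i‖ ≤ R0 := hR0 _ hxQ
  have k3 : (i : ℝ) ≤ ‖x.1‖ + R0 := by
    have := norm_sub_le x.1 (x.1 - w i)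
    rw [sub_sub_cancel, hw'] at this
    linarith
  have k4 : C + R0 < i := by
    have := Nat.lt_floor_add_one (C + R0)
    have h' : ((⌊C + R0⌋₊ + 1 : ℕ) : ℝ) ≤ i := by exact_mod_cast hi
    push_cast at h'
    linarith
  linarith

end Pool.SM3X
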