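/-
SM3X.T6 : the theorem in the format of the frozen statement.
PROOF. `Φ` from `exists_PhiM` (PH3); `HypX` from the hypotheses, `PV`.  `ae_goodX` (T2): existence by `stable_MSX` (D4) (`SX S ω = {y | y.1 ∈ S y.2 ω}`).  For a stable `M`: by `stable_iffX` (D4) the set of the unmatched points `x ∈ S 0 ω` contains
`{x | x ∈ S 0 ω ∧ ∀ z, ¬ MSX (SX S ω) (x,0) z}`, infinite by `unmatched_infinite` (T5) with `key_A` (K1) or `key_B` (K4).
-/
import Pool.Agent.Lib.SM3X.D4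
import Pool.Agent.Lib.SM3X.K4
import Pool.Agent.Lib.SM3X.PH3
import Pool.Agent.Lib.SM3X.T5

set_option autoImplicit false

open MeasureTheory Set

namespace Pool.SM3X

theorem every_dim_Q2 :
  ∀ (d : ℕ), 1 ≤ d →
  ∀ (p : Fin 3 → ℝ), (∀ i, 0 < p i) → p 0 + p 1 + p 2 = 1 → p 1 = p 2 →
    (1 / Real.sqrt 5 < p 0 ∨ 1 / 3 + 2 / Real.sqrt d < p 0) →
  ∀ (Ω : Type) [MeasurableSpace Ω] (P : MeasureTheory.Measure Ω),
    MeasureTheory.IsProbabilityMeasure P →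
  ∀ (S : Fin 3 → Ω → Set (EuclideanSpace ℝ (Fin d))),
    (∀ (i : Fin 3) (ω : Ω) (A : Set (EuclideanSpace ℝ (Fin d))),
        Bornology.IsBounded A → (S i ω ∩ A).Finite) →
    (∀ (i : Fin 3) (A : Set (EuclideanSpace ℝ (Fin d))), MeasurableSet A →
        Bornology.IsBounded A → Measurable (fun ω => (S i ω ∩ A).ncard)) →
    (∀ (i : Fin 3) (A : Set (EuclideanSpace ℝ (Fin d))), MeasurableSet A →
        Bornology.IsBounded A → ∀ k : ℕ,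
        P {ω | (S i ω ∩ A).ncard = k} =
          ENNReal.ofReal (Real.exp (-(p i * (MeasureTheory.volume A).toReal)) *
            (p i * (MeasureTheory.volume A).toReal) ^ k / (k.factorial : ℝ))) →
    (∀ (n : ℕ) (c : Fin n → Fin 3) (A : Fin n → Set (EuclideanSpace ℝ (Fin d))),
        (∀ j, MeasurableSet (A j) ∧ Bornology.IsBounded (A j)) →
        (∀ j k, j ≠ k → c j = c k → Disjoint (A j) (A k)) →
        ProbabilityTheory.iIndepFun (fun j ω => (S (c j) ω ∩ A j).ncard) P) →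
    ∀ᵐ ω ∂P,
      (∃ M : EuclideanSpace ℝ (Fin d) → EuclideanSpace ℝ (Fin d) → Prop,
        (∀ x y, M x y → M y x) ∧
        (∀ x y, M x y → x ≠ y ∧ ∃ i j : Fin 3, i ≠ j ∧ x ∈ S i ω ∧ y ∈ S j ω) ∧
        (∀ x y z, M x y → M x z → y = z) ∧
        (∀ x y, x ≠ y → (∃ i j : Fin 3, i ≠ j ∧ x ∈ S i ω ∧ y ∈ S j ω) →
          ¬ ((∀ z, M x z → dist x y < dist x z) ∧ (∀ z, M y z → dist x y < dist y z)))) ∧
      (∀ M : EuclideanSpace ℝ (Fin d) → EuclideanSpace ℝ (Fin d) → Prop,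
        ((∀ x y, M x y → M y x) ∧
        (∀ x y, M x y → x ≠ y ∧ ∃ i j : Fin 3, i ≠ j ∧ x ∈ S i ω ∧ y ∈ S j ω) ∧
        (∀ x y z, M x y → M x z → y = z) ∧
        (∀ x y, x ≠ y → (∃ i j : Fin 3, i ≠ j ∧ x ∈ S i ω ∧ y ∈ S j ω) →
          ¬ ((∀ z, M x z → dist x y < dist x z) ∧ (∀ z, M y z → dist x y < dist y z)))) →
        {x : EuclideanSpace ℝ (Fin d) | x ∈ S 0 ω ∧ ∀ y, ¬ M x y}.Infinite) := by
  intro d hd p hp hsum heq hcase Ω _ P hP S h1 h2 h3 h4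
  have := hP
  obtain ⟨Φ⟩ := exists_PhiM d hd
  have hH : HypX p P S := ⟨h1, h2, h3, h4⟩
  have hpv : SM3.PV p := ⟨hp, hsum⟩
  have hkey : ∃ κ : ℝ, 0 < κ ∧ ∃ r₁ : ℝ, 0 < r₁ ∧ ∀ r' : ℝ, r₁ ≤ r' → ∃ ε : ℝ, 0 < ε ∧
      ∀ (f : Fin 3 → ℝ → ℝ) (g : Fin 3 → Fin 3 → XX d → ℝ), Facts d p ε r' f g →
        κ ≤ p 0 * f 0 r' := by
    rcases hcase with hc | hc
    · refine key_A hd hpv heq ?_
      have h5 : (0 : ℝ) < Real.sqrt 5 := Real.sqrt_pos.2 (by norm_num)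
      rw [div_lt_iff₀ h5] at hc
      have h6 : Real.sqrt 5 ^ 2 = 5 := Real.sq_sqrt (by norm_num)
      have h7 : 1 < (p 0 * Real.sqrt 5) ^ 2 := by nlinarith
      nlinarith [mul_pow (p 0) (Real.sqrt 5) 2]
    · exact key_B hd hpv heq hc
  filter_upwards [ae_goodX hd hpv hH Φ, unmatched_infinite hd hpv heq hkey hH Φ] with ω hg hinf
  refine ⟨⟨_, stable_MSX (T := fun i => S i ω) hg⟩, fun M hM => hinf.mono ?_⟩
  rintro x ⟨hx, hz⟩
  refine ⟨hx, fun y hy => ?_⟩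
  obtain ⟨z, hz'⟩ := (stable_iffX (T := fun i => S i ω) hg hM hx).1 ⟨y, hy⟩
  exact hz z hz'

end Pool.SM3X
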